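import Pool.Agent.Helper76.LB.Defs

set_option autoImplicit false

open Real MeasureTheory Set Filter Topology

namespace Pool.Agent.LB

/-! Block AA: theta pairs, complex theta relation (identity theorem on the right half plane), growth.
Proof by helper29. -/

private theorem norm_exp29 (l : ℝ) (z : ℂ) :
    ‖Complex.exp (-(π * l * z))‖ = Real.exp (-(π * l * z.re)) := by
  rw [Complex.norm_exp]
  congr 1
  simp [mul_assoc]

theorem ThetaPair.summable_complex {a lam : ℕ → ℝ} (h : ThetaPair a lam) {z : ℂ} (hz : 0 < z.re) :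
    Summable (fun n => (a n : ℂ) * Complex.exp (-(π * lam n * z))) := by
  refine Summable.of_norm ?_
  refine (h.summ z.re hz).congr fun n => ?_
  rw [norm_mul, norm_exp29, Complex.norm_real, Real.norm_of_nonneg (h.nonneg n)]

private theorem diff_sum29 {a lam : ℕ → ℝ} (h : ThetaPair a lam) {z : ℂ} (hz : 0 < z.re) :
    DifferentiableAt ℂ (fun z : ℂ => ∑' n, (a n : ℂ) * Complex.exp (-(π * lam n * z))) z := by
  have hopen : IsOpen {w : ℂ | z.re / 2 < w.re} := isOpen_lt continuous_const Complex.continuous_re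
  have hmem : z ∈ {w : ℂ | z.re / 2 < w.re} := by
    show z.re / 2 < z.re
    linarith
  have hd : DifferentiableOn ℂ (fun z : ℂ => ∑' n, (a n : ℂ) * Complex.exp (-(π * lam n * z)))
      {w : ℂ | z.re / 2 < w.re} := by
    refine Complex.differentiableOn_tsum_of_summable_norm (h.summ (z.re / 2) (by linarith)) ?_ hopen ?_
    · intro n
      fun_prop
    · intro n w hw
      rw [norm_mul, norm_exp29, Complex.norm_real, Real.norm_of_nonneg (h.nonneg n)]
      refine mul_le_mul_of_nonneg_left ?_ (h.nonneg n)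
      refine Real.exp_le_exp.mpr ?_
      have h1 : 0 < π * lam n := mul_pos Real.pi_pos (h.pos n)
      have hw' : z.re / 2 < w.re := hw
      nlinarith
  exact (hd z hmem).differentiableAt (hopen.mem_nhds hmem)

private theorem inv_re_pos29 {z : ℂ} (hz : 0 < z.re) : 0 < (z⁻¹).re := by
  rw [Complex.inv_re]
  have hz0 : z ≠ 0 := by
    intro h0
    rw [h0] at hz
    simp at hz
  exact div_pos hz (Complex.normSq_pos.mpr hz0)

theorem ThetaPair.theta_complex {a lam : ℕ → ℝ} (h : ThetaPair a lam) {z : ℂ} (hz : 0 < z.re) :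
    1 + ∑' n, (a n : ℂ) * Complex.exp (-(π * lam n / z)) =
      z * (1 + ∑' n, (a n : ℂ) * Complex.exp (-(π * lam n * z))) := by
  have hopen : IsOpen {w : ℂ | 0 < w.re} := isOpen_lt continuous_const Complex.continuous_re
  have hdF : DifferentiableOn ℂ
      (fun z : ℂ => 1 + ∑' n, (a n : ℂ) * Complex.exp (-(π * lam n / z))) {w : ℂ | 0 < w.re} := by
    intro w hw
    have hw' : 0 < w.re := hw
    have hw0 : w ≠ 0 := by
      intro h0
      rw [h0] at hw'
      simp at hw'
    have h1 : DifferentiableAt ℂ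
        (fun z : ℂ => ∑' n, (a n : ℂ) * Complex.exp (-(π * lam n * z⁻¹))) w :=
      DifferentiableAt.comp w (g := fun z : ℂ => ∑' n, (a n : ℂ) * Complex.exp (-(π * lam n * z)))
        (f := fun z : ℂ => z⁻¹) (diff_sum29 h (inv_re_pos29 hw')) (differentiableAt_inv hw0)
    have h2 := (h1.const_add (1 : ℂ)).differentiableWithinAt (s := {w : ℂ | 0 < w.re})
    simpa only [div_eq_mul_inv] using h2
  have hdG : DifferentiableOn ℂ
      (fun z : ℂ => z * (1 + ∑' n, (a n : ℂ) * Complex.exp (-(π * lam n * z))))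
      {w : ℂ | 0 < w.re} := by
    intro w hw
    exact (differentiableAt_id.mul ((diff_sum29 h hw).const_add (1 : ℂ))).differentiableWithinAt
  have haF := hdF.analyticOnNhd hopen
  have haG := hdG.analyticOnNhd hopen
  have hconv : Convex ℝ {w : ℂ | 0 < w.re} := convex_halfSpace_re_gt 0
  have hone : (1 : ℂ) ∈ {w : ℂ | 0 < w.re} := by simp
  have hfreq : ∃ᶠ w in 𝓝[≠] (1 : ℂ), (1 + ∑' n, (a n : ℂ) * Complex.exp (-(π * lam n / w))) =
      w * (1 + ∑' n, (a n : ℂ) * Complex.exp (-(π * lam n * w))) := by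
    have hreal : ∀ t : ℝ, 0 < t → (1 + ∑' n, (a n : ℂ) * Complex.exp (-(π * lam n / (t : ℂ)))) =
      (t : ℂ) * (1 + ∑' n, (a n : ℂ) * Complex.exp (-(π * lam n * (t : ℂ)))) := by
      intro t ht
      have h1 := congrArg (fun r : ℝ => (r : ℂ)) (h.theta t ht)
      push_cast at h1
      exact h1
    have htend : Tendsto (fun m : ℕ => ((1 + 1 / ((m : ℝ) + 1) : ℝ) : ℂ)) atTop (𝓝[≠] (1 : ℂ)) := by
      rw [tendsto_nhdsWithin_iff]
      constructor
      · have h1 : Tendsto (fun m : ℕ => (1 + 1 / ((m : ℝ) + 1) : ℝ)) atTop (𝓝 (1 + 0)) :=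
          tendsto_const_nhds.add tendsto_one_div_add_atTop_nhds_zero_nat
        rw [add_zero] at h1
        have h2 := (Complex.continuous_ofReal.tendsto (1 : ℝ)).comp h1
        simpa [Function.comp_def] using h2
      · refine Eventually.of_forall fun m => ?_
        have hm : (0 : ℝ) < 1 / ((m : ℝ) + 1) := by positivity
        intro h0
        have h1 : ((1 + 1 / ((m : ℝ) + 1) : ℝ) : ℂ) = ((1 : ℝ) : ℂ) := by
          simpa using h0
        have h2 := Complex.ofReal_injective h1
        linarith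
    refine htend.frequently ?_
    refine Frequently.of_forall fun m => ?_
    exact hreal _ (by positivity)
  exact haF.eqOn_of_preconnected_of_frequently_eq haG hconv.isPreconnected hone hfreq hz

/-- a gap at zero -/
theorem ThetaPair.gap {a lam : ℕ → ℝ} (h : ThetaPair a lam) : ∃ δ : ℝ, 0 < δ ∧ ∀ n, δ ≤ lam n := by
  obtain ⟨N, hN⟩ := eventually_atTop.mp (h.tends.eventually_ge_atTop 1)
  have key : ∀ M : ℕ, ∃ δ : ℝ, 0 < δ ∧ ∀ n < M, δ ≤ lam n := by
    intro M
    induction M with
    | zero => exact ⟨1, one_pos, fun n hn => absurd hn (Nat.not_lt_zero n)⟩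
    | succ M ih =>
      obtain ⟨δ, hδ, hd⟩ := ih
      refine ⟨min δ (lam M), lt_min hδ (h.pos M), fun n hn => ?_⟩
      rcases Nat.lt_succ_iff_lt_or_eq.mp hn with h1 | h1
      · exact (min_le_left _ _).trans (hd n h1)
      · rw [h1]
        exact min_le_right _ _
  obtain ⟨δ, hδ, hd⟩ := key N
  refine ⟨min δ 1, lt_min hδ one_pos, fun n => ?_⟩
  by_cases hn : n < N
  · exact (min_le_left _ _).trans (hd n hn)
  · exact (min_le_right _ _).trans (hN n (not_lt.mp hn))

private theorem theta_one_nonneg29 {a lam : ℕ → ℝ} (h : ThetaPair a lam) (t : ℝ) :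
    0 ≤ ∑' n, a n * Real.exp (-(π * lam n * t)) :=
  tsum_nonneg fun n => mul_nonneg (h.nonneg n) (Real.exp_pos _).le

/-- `Θ(t) ≤ Θ(1)` for `t ≥ 1` -/
private theorem theta_mono29 {a lam : ℕ → ℝ} (h : ThetaPair a lam) (t : ℝ) (ht : 1 ≤ t) :
    ∑' n, a n * Real.exp (-(π * lam n * t)) ≤ ∑' n, a n * Real.exp (-(π * lam n * 1)) := by
  refine (h.summ t (by linarith)).tsum_le_tsum (fun n => ?_) (h.summ 1 one_pos)
  refine mul_le_mul_of_nonneg_left (Real.exp_le_exp.mpr ?_) (h.nonneg n)
  have h1 : 0 < π * lam n := mul_pos Real.pi_pos (h.pos n)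
  nlinarith

/-- `∑_{lam n ≤ L} a n ≤ C L`: `e^{-π} ∑_{lam n ≤ L} a n ≤ Θ(1/L) = L Θ(L) ≤ L Θ(1)` for `L ≥ 1`. -/
theorem ThetaPair.cnt_le {a lam : ℕ → ℝ} (h : ThetaPair a lam) :
    ∃ C : ℝ, 0 < C ∧ ∀ L : ℝ, 0 < L → ∑' n, (if lam n ≤ L then a n else 0) ≤ C * L := by
  obtain ⟨δ₀, hδ₀, hd₀⟩ := h.gap
  obtain ⟨δ, hδ, hδ1, hd⟩ : ∃ δ : ℝ, 0 < δ ∧ δ ≤ 1 ∧ ∀ n, δ ≤ lam n :=
    ⟨min δ₀ 1, lt_min hδ₀ one_pos, min_le_right _ _, fun n => (min_le_left _ _).trans (hd₀ n)⟩
  obtain ⟨T, hT⟩ : ∃ T : ℝ, T = 1 + ∑' n, a n * Real.exp (-(π * lam n * 1)) := ⟨_, rfl⟩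
  have hTpos : 0 < T := by
    have := theta_one_nonneg29 h 1
    rw [hT]
    linarith
  refine ⟨Real.exp π * T / δ, by positivity, fun L hL => ?_⟩
  by_cases hLd : L < δ
  · have h0 : ∀ n, (if lam n ≤ L then a n else 0) = 0 := by
      intro n
      rw [if_neg]
      intro h1
      linarith [hd n]
    simp only [h0, tsum_zero]
    positivity
  · have hLd' : δ ≤ L := not_lt.mp hLd
    obtain ⟨M, hM⟩ : ∃ M : ℝ, M = max L 1 := ⟨_, rfl⟩
    have hM1 : 1 ≤ M := hM ▸ le_max_right _ _
    have hML : L ≤ M := hM ▸ le_max_left _ _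
    have hM0 : 0 < M := by linarith
    have hle : ∀ n, (if lam n ≤ L then a n else 0) ≤
        Real.exp π * (a n * Real.exp (-(π * lam n / M))) := by
      intro n
      split_ifs with h1
      · have h2 : 1 ≤ Real.exp π * Real.exp (-(π * lam n / M)) := by
          rw [← Real.exp_add]
          refine Real.one_le_exp ?_
          have h3 : π * lam n / M ≤ π := by
            rw [div_le_iff₀ hM0]
            exact mul_le_mul_of_nonneg_left (h1.trans hML) Real.pi_pos.le
          linarith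
        have h4 := mul_le_mul_of_nonneg_left h2 (h.nonneg n)
        calc a n = a n * 1 := (mul_one _).symm
          _ ≤ a n * (Real.exp π * Real.exp (-(π * lam n / M))) := h4
          _ = _ := by ring
      · exact mul_nonneg (Real.exp_pos _).le (mul_nonneg (h.nonneg n) (Real.exp_pos _).le)
    have hs0 : Summable (fun n => a n * Real.exp (-(π * lam n / M))) := by
      have := h.summ (1 / M) (by positivity)
      refine this.congr fun n => ?_
      congr 2
      ring
    have hs : Summable (fun n => Real.exp π * (a n * Real.exp (-(π * lam n / M)))) :=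
      hs0.mul_left _
    have hsi : Summable (fun n => if lam n ≤ L then a n else 0) := by
      refine Summable.of_nonneg_of_le (fun n => ?_) hle hs
      split_ifs
      · exact h.nonneg n
      · exact le_rfl
    have h5 : ∑' n, (if lam n ≤ L then a n else 0) ≤
        Real.exp π * ∑' n, a n * Real.exp (-(π * lam n / M)) := by
      rw [← tsum_mul_left]
      exact hsi.tsum_le_tsum hle hs
    have h6 := h.theta M hM0
    have h7 := theta_mono29 h M hM1
    have h8 : ∑' n, a n * Real.exp (-(π * lam n / M)) ≤ M * T := by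
      have h9 : M * (1 + ∑' n, a n * Real.exp (-(π * lam n * M))) ≤ M * T := by
        refine mul_le_mul_of_nonneg_left ?_ hM0.le
        rw [hT]
        linarith
      linarith
    have h10 : M ≤ L / δ := by
      rw [hM, le_div_iff₀ hδ]
      rcases le_total L 1 with h11 | h11
      · rw [max_eq_right h11]
        linarith
      · rw [max_eq_left h11]
        nlinarith
    calc ∑' n, (if lam n ≤ L then a n else 0)
        ≤ Real.exp π * ∑' n, a n * Real.exp (-(π * lam n / M)) := h5
      _ ≤ Real.exp π * (M * T) := mul_le_mul_of_nonneg_left h8 (Real.exp_pos _).le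
      _ ≤ Real.exp π * (L / δ * T) := by
          refine mul_le_mul_of_nonneg_left ?_ (Real.exp_pos _).le
          exact mul_le_mul_of_nonneg_right h10 hTpos.le
      _ = Real.exp π * T / δ * L := by ring

/-- `Θ(t) ≤ C/t` for `0 < t ≤ 1` -/
theorem ThetaPair.theta_le {a lam : ℕ → ℝ} (h : ThetaPair a lam) :
    ∃ C : ℝ, 0 < C ∧ ∀ t : ℝ, 0 < t → t ≤ 1 →
      ∑' n, a n * Real.exp (-(π * lam n * t)) ≤ C / t := by
  have h0 := theta_one_nonneg29 h 1
  refine ⟨1 + ∑' n, a n * Real.exp (-(π * lam n * 1)), by linarith, fun t ht ht1 => ?_⟩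
  have ht' : 1 ≤ 1 / t := by
    rw [le_div_iff₀ ht]
    linarith
  have h1 := h.theta (1 / t) (by positivity)
  have h2 := theta_mono29 h (1 / t) ht'
  have h3 : ∀ n, a n * Real.exp (-(π * lam n / (1 / t))) = a n * Real.exp (-(π * lam n * t)) := by
    intro n
    rw [div_div_eq_mul_div, div_one]
  simp only [h3] at h1
  have h4 : 1 / t * (1 + ∑' n, a n * Real.exp (-(π * lam n * (1 / t)))) ≤
      1 / t * (1 + ∑' n, a n * Real.exp (-(π * lam n * 1))) := by
    refine mul_le_mul_of_nonneg_left ?_ (by positivity)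
    linarith
  calc ∑' n, a n * Real.exp (-(π * lam n * t))
      ≤ 1 / t * (1 + ∑' n, a n * Real.exp (-(π * lam n * (1 / t)))) := by linarith
    _ ≤ 1 / t * (1 + ∑' n, a n * Real.exp (-(π * lam n * 1))) := h4
    _ = (1 + ∑' n, a n * Real.exp (-(π * lam n * 1))) / t := by ring

end Pool.Agent.LB
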