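import Pool.Agent.Helper76.LB.JB

set_option autoImplicit false

open Real MeasureTheory Set Filter Topology

namespace Pool.Agent.LB

/-! Block JD: Laplace transform of `J₀(2π√(lu))`, by termwise integration of the power series
(`∑ (π² l u)^k/(k!)²` is integrable against `e^{-π (re z) u}`); `Anti` for differences of Gaussians. -/

private theorem int_pow_exp47 (k : ℕ) {r : ℝ} (hr : 0 < r) :
    ∫ u in Ioi (0 : ℝ), u ^ k * Real.exp (-(r * u)) = (k.factorial : ℝ) * (1 / r) ^ (k + 1) := by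
  have h := Real.integral_rpow_mul_exp_neg_mul_Ioi (a := (k : ℝ) + 1) (r := r) (by positivity) hr
  rw [Real.Gamma_nat_eq_factorial] at h
  have h1 : (1 / r) ^ ((k : ℝ) + 1) = (1 / r) ^ (k + 1) := by
    rw [← Real.rpow_natCast]; push_cast; rfl
  rw [h1] at h
  rw [mul_comm (k.factorial : ℝ), ← h]
  apply setIntegral_congr_fun measurableSet_Ioi
  intro u _
  simp only [add_sub_cancel_right, Real.rpow_natCast]

private theorem integrable_pow_exp47 (k : ℕ) {r : ℝ} (hr : 0 < r) :
    IntegrableOn (fun u => u ^ k * Real.exp (-(r * u))) (Ioi (0 : ℝ)) := by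
  by_contra h
  have h1 := int_pow_exp47 k hr
  rw [integral_undef h] at h1
  have h2 : (0 : ℝ) < (k.factorial : ℝ) * (1 / r) ^ (k + 1) := by
    have : (0 : ℝ) < k.factorial := by exact_mod_cast k.factorial_pos
    positivity
  linarith

private theorem integrable_cpow_exp47 (k : ℕ) {s : ℂ} (hs : 0 < s.re) :
    IntegrableOn (fun u : ℝ => (u : ℂ) ^ k * Complex.exp (-(s * u))) (Ioi (0 : ℝ)) := by
  refine Integrable.mono (integrable_pow_exp47 k hs) ?_ ?_
  · apply Continuous.aestronglyMeasurable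
    fun_prop
  · filter_upwards [ae_restrict_mem measurableSet_Ioi] with u hu
    have hu0 : (0 : ℝ) < u := hu
    rw [norm_mul, norm_mul, norm_pow, norm_pow, Complex.norm_real, Complex.norm_exp,
      Real.norm_eq_abs (Real.exp _), abs_of_pos (Real.exp_pos _)]
    simp

private theorem int_cpow_exp47 (k : ℕ) {s : ℂ} (hs : 0 < s.re) :
    ∫ u in Ioi (0 : ℝ), (u : ℂ) ^ k * Complex.exp (-(s * u)) =
      (k.factorial : ℂ) * (1 / s) ^ (k + 1) := by
  have hs0 : s ≠ 0 := by intro h; rw [h] at hs; simp at hs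
  induction k with
  | zero =>
    have h := integral_exp_mul_complex_Ioi (a := -s) (by simpa using hs) 0
    simp only [pow_zero, one_mul, Nat.factorial_zero, Nat.cast_one, zero_add, pow_one]
    have h1 : ∀ u : ℝ, Complex.exp (-(s * u)) = Complex.exp (-s * u) := by
      intro u; congr 1; ring
    simp_rw [h1]
    rw [h]
    simp
  | succ k ih =>
    have hder : ∀ u ∈ Ici (0 : ℝ), HasDerivAt
        (fun u : ℝ => (u : ℂ) ^ (k + 1) * Complex.exp (-(s * u)))
        (((k : ℂ) + 1) * ((u : ℂ) ^ k * Complex.exp (-(s * u))) -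
          s * ((u : ℂ) ^ (k + 1) * Complex.exp (-(s * u)))) u := by
      intro u _
      have h1 : HasDerivAt (fun w : ℂ => w ^ (k + 1) * Complex.exp (-(s * w)))
          ((((k + 1 : ℕ) : ℂ) * (u : ℂ) ^ k * 1) * Complex.exp (-(s * u)) +
            (u : ℂ) ^ (k + 1) * (Complex.exp (-(s * u)) * (-(s * 1)))) (u : ℂ) := by
        have h2 : HasDerivAt (fun w : ℂ => w ^ (k + 1)) (((k + 1 : ℕ) : ℂ) * (u : ℂ) ^ k * 1) (u : ℂ) := by
          simpa using hasDerivAt_pow (k + 1) (u : ℂ)
        have h3 : HasDerivAt (fun w : ℂ => Complex.exp (-(s * w)))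
            (Complex.exp (-(s * u)) * (-(s * 1))) (u : ℂ) :=
          ((hasDerivAt_id (u : ℂ)).const_mul s).neg.cexp
        exact h2.mul h3
      have h4 := h1.comp_ofReal
      convert h4 using 1
      push_cast
      ring
    have hint : IntegrableOn (fun u : ℝ => ((k : ℂ) + 1) * ((u : ℂ) ^ k * Complex.exp (-(s * u))) -
          s * ((u : ℂ) ^ (k + 1) * Complex.exp (-(s * u)))) (Ioi (0 : ℝ)) :=
      ((integrable_cpow_exp47 k hs).const_mul _).sub ((integrable_cpow_exp47 (k + 1) hs).const_mul _)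
    have hlim : Tendsto (fun u : ℝ => (u : ℂ) ^ (k + 1) * Complex.exp (-(s * u))) atTop (𝓝 0) := by
      rw [tendsto_zero_iff_norm_tendsto_zero]
      have h1 := (Real.tendsto_pow_mul_exp_neg_atTop_nhds_zero (k + 1)).comp
        (tendsto_id.const_mul_atTop hs)
      have h2 := h1.const_mul ((1 / s.re) ^ (k + 1))
      rw [mul_zero] at h2
      refine h2.congr' ?_
      filter_upwards [eventually_gt_atTop 0] with u hu
      rw [norm_mul, norm_pow, Complex.norm_real, Complex.norm_exp, Real.norm_eq_abs, abs_of_pos hu]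
      simp only [Function.comp_apply, id_eq]
      rw [← mul_assoc, ← mul_pow]
      have : 1 / s.re * (s.re * u) = u := by field_simp
      rw [this]
      congr 2
      simp
    have h := integral_Ioi_of_hasDerivAt_of_tendsto' hder hint hlim
    rw [integral_sub ((integrable_cpow_exp47 k hs).const_mul _)
      ((integrable_cpow_exp47 (k + 1) hs).const_mul _), integral_const_mul, integral_const_mul,
      ih] at h
    have h5 : ((0 : ℝ) : ℂ) ^ (k + 1) * Complex.exp (-(s * ((0 : ℝ) : ℂ))) = 0 := by simp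
    rw [h5, sub_zero] at h
    have h6 : s * ∫ u in Ioi (0 : ℝ), (u : ℂ) ^ (k + 1) * Complex.exp (-(s * u)) =
        ((k : ℂ) + 1) * ((k.factorial : ℂ) * (1 / s) ^ (k + 1)) := by
      linear_combination -h
    have h7 : ∫ u in Ioi (0 : ℝ), (u : ℂ) ^ (k + 1) * Complex.exp (-(s * u)) =
        (1 / s) * (((k : ℂ) + 1) * ((k.factorial : ℂ) * (1 / s) ^ (k + 1))) := by
      rw [← h6]; field_simp
    rw [h7, Nat.factorial_succ, pow_succ (1 / s) (k + 1)]
    push_cast
    ring

theorem laplace_J (z : ℂ) (hz : 0 < z.re) (l : ℝ) (hl : 0 ≤ l) :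
    (π : ℂ) * ∫ u in Ioi (0 : ℝ), Complex.exp (-(π * z * u)) * ((Jd 0 (u * l) : ℝ) : ℂ) =
      z⁻¹ * Complex.exp (-(π * l / z)) := by
  have hpi := Real.pi_pos
  have hz0 : z ≠ 0 := by
    intro h; rw [h] at hz; simp at hz
  have hpic : (π : ℂ) ≠ 0 := by exact_mod_cast hpi.ne'
  have hr : 0 < π * z.re := by positivity
  have hs : 0 < (π * z : ℂ).re := by simpa using hr
  set c : ℕ → ℝ := fun k => (-(π ^ 2 * l)) ^ k / ((k.factorial : ℝ) * (k.factorial : ℝ)) with hc
  set F : ℕ → ℝ → ℂ := fun k u => (c k : ℂ) * ((u : ℂ) ^ k * Complex.exp (-(π * z * u))) with hF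
  -- norms
  have hnorm : ∀ k, ∀ u ∈ Ioi (0 : ℝ), ‖F k u‖ = |c k| * (u ^ k * Real.exp (-(π * z.re * u))) := by
    intro k u hu
    have hu0 : (0 : ℝ) < u := hu
    simp only [hF, norm_mul, norm_pow, Complex.norm_real, Complex.norm_exp, Real.norm_eq_abs,
      abs_of_pos hu0]
    congr 3
    simp
  have hmeas : ∀ k, AEStronglyMeasurable (F k) (volume.restrict (Ioi (0 : ℝ))) := by
    intro k
    apply Continuous.aestronglyMeasurable
    simp only [hF]
    fun_prop
  have hint : ∀ k, Integrable (F k) (volume.restrict (Ioi (0 : ℝ))) := by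
    intro k
    have h1 : IntegrableOn (fun u => |c k| * (u ^ k * Real.exp (-(π * z.re * u)))) (Ioi (0 : ℝ)) :=
      (integrable_pow_exp47 k hr).const_mul _
    refine Integrable.mono h1 (hmeas k) ?_
    filter_upwards [ae_restrict_mem measurableSet_Ioi] with u hu
    rw [hnorm k u hu]
    exact le_abs_self _
  have hintn : ∀ k, ∫ u in Ioi (0 : ℝ), ‖F k u‖ =
      (1 / (π * z.re)) * ((π * l / z.re) ^ k / (k.factorial : ℝ)) := by
    intro k
    rw [setIntegral_congr_fun measurableSet_Ioi (hnorm k), integral_const_mul,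
      int_pow_exp47 k hr]
    have hck : |c k| = (π ^ 2 * l) ^ k / ((k.factorial : ℝ) * (k.factorial : ℝ)) := by
      simp only [hc, abs_div, abs_pow, abs_neg, abs_mul, Nat.abs_cast]
      rw [abs_of_nonneg hl, abs_of_pos hpi]
    have hk : (k.factorial : ℝ) ≠ 0 := by exact_mod_cast k.factorial_ne_zero
    rw [hck, pow_succ (1 / (π * z.re)) k]
    have : (π ^ 2 * l) ^ k * (1 / (π * z.re)) ^ k = (π * l / z.re) ^ k := by
      rw [← mul_pow]; congr 1; field_simp
    rw [← this]
    field_simp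
  have hsum : Summable fun k => ∫ u in Ioi (0 : ℝ), ‖F k u‖ := by
    simp_rw [hintn]
    exact (Real.summable_pow_div_factorial _).mul_left _
  have hmain := hasSum_integral_of_summable_integral_norm hint hsum
  -- termwise integrals
  have hterm : ∀ k, ∫ u in Ioi (0 : ℝ), F k u =
      (1 / (π * z)) * ((-(π * l / z)) ^ k / (k.factorial : ℂ)) := by
    intro k
    simp only [hF]
    rw [integral_const_mul, int_cpow_exp47 k hs]
    have hk : (k.factorial : ℂ) ≠ 0 := by exact_mod_cast k.factorial_ne_zero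
    have hck : ((c k : ℝ) : ℂ) = (-(π ^ 2 * l)) ^ k / ((k.factorial : ℂ) * (k.factorial : ℂ)) := by
      simp only [hc]; push_cast; rfl
    rw [hck, pow_succ (1 / (π * z)) k]
    have : (-((π : ℂ) ^ 2 * l)) ^ k * (1 / (π * z)) ^ k = (-(π * l / z)) ^ k := by
      rw [← mul_pow]; congr 1; field_simp
    rw [← this]
    field_simp
  have hexp : HasSum (fun k : ℕ => (1 / (π * z)) * ((-(π * l / z)) ^ k / (k.factorial : ℂ)))
      ((1 / (π * z)) * Complex.exp (-(π * l / z))) := by
    apply HasSum.mul_left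
    rw [Complex.exp_eq_exp_ℂ]
    exact NormedSpace.expSeries_div_hasSum_exp _
  simp_rw [hterm] at hmain
  have hval := hmain.unique hexp
  have hpt : ∀ u : ℝ, Complex.exp (-(π * z * u)) * ((Jd 0 (u * l) : ℝ) : ℂ) = ∑' k, F k u := by
    intro u
    unfold Jd
    rw [pow_zero, one_mul, Complex.ofReal_tsum, ← tsum_mul_left]
    apply tsum_congr
    intro k
    simp only [hF, hc, add_zero]
    push_cast
    have : (-((π : ℂ) ^ 2 * (u * l))) ^ k = (-((π : ℂ) ^ 2 * l)) ^ k * u ^ k := by
      rw [← mul_pow]; congr 1; ring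
    rw [this]; ring
  simp_rw [hpt]
  rw [hval]
  field_simp

theorem laplace_J_real {t : ℝ} (ht : 0 < t) {l : ℝ} (hl : 0 ≤ l) :
    Hk (fun u => Real.exp (-(π * t * u))) l = t⁻¹ * Real.exp (-(π * l / t)) := by
  have h := laplace_J (t : ℂ) (by simpa using ht) l hl
  unfold Hk
  have h1 : (∫ u in Ioi (0 : ℝ), Complex.exp (-(π * (t : ℂ) * u)) * ((Jd 0 (u * l) : ℝ) : ℂ)) =
      ((∫ u in Ioi (0 : ℝ), Real.exp (-(π * t * u)) * Jd 0 (u * l) : ℝ) : ℂ) := by
    rw [← integral_complex_ofReal]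
    apply setIntegral_congr_fun measurableSet_Ioi
    intro u _
    push_cast
    rfl
  rw [h1] at h
  apply Complex.ofReal_injective
  push_cast
  exact h

theorem anti_gauss {t : ℝ} (ht : 0 < t) :
    Anti (fun u => Real.exp (-(π * t * u)) - t⁻¹ * Real.exp (-(π * u / t))) := by
  have hpi := Real.pi_pos
  have hti : 0 < t⁻¹ := by positivity
  have hrw : ∀ u : ℝ, Real.exp (-(π * u / t)) = Real.exp (-(π * t⁻¹ * u)) := by
    intro u; congr 1; field_simp
  have hexpint : ∀ s : ℝ, 0 < s → IntegrableOn (fun u => Real.exp (-(π * s * u))) (Ioi (0 : ℝ)) := by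
    intro s hs
    have := integrable_pow_exp47 0 (r := π * s) (by positivity)
    simpa using this
  refine ⟨?_, ?_, ?_⟩
  · fun_prop
  · simp_rw [hrw]
    exact (hexpint t ht).sub ((hexpint _ hti).const_mul _)
  · intro ρ hρ
    have hJint : ∀ s : ℝ, 0 < s →
        IntegrableOn (fun u => Real.exp (-(π * s * u)) * Jd 0 (u * ρ)) (Ioi (0 : ℝ)) := by
      intro s hs
      refine Integrable.mono (hexpint s hs) ?_ ?_
      · apply Continuous.aestronglyMeasurable
        have := Jd_continuous 0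
        fun_prop
      · filter_upwards [ae_restrict_mem measurableSet_Ioi] with u hu
        rw [norm_mul]
        have h1 : ‖Jd 0 (u * ρ)‖ ≤ 1 := J_abs_le_one (mul_nonneg (le_of_lt hu) hρ)
        calc ‖Real.exp (-(π * s * u))‖ * ‖Jd 0 (u * ρ)‖ ≤ ‖Real.exp (-(π * s * u))‖ * 1 :=
              mul_le_mul_of_nonneg_left h1 (norm_nonneg _)
          _ = _ := mul_one _
    have h1 := laplace_J_real ht hρ
    have h2 := laplace_J_real hti hρ
    unfold Hk at h1 h2 ⊢
    have h3 : ∀ u : ℝ, (Real.exp (-(π * t * u)) - t⁻¹ * Real.exp (-(π * u / t))) * Jd 0 (u * ρ) =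
        Real.exp (-(π * t * u)) * Jd 0 (u * ρ) -
          t⁻¹ * (Real.exp (-(π * t⁻¹ * u)) * Jd 0 (u * ρ)) := by
      intro u; rw [hrw u]; ring
    simp_rw [h3]
    rw [integral_sub (hJint t ht) ((hJint _ hti).const_mul _), integral_const_mul, mul_sub, h1]
    have h4 : π * (t⁻¹ * ∫ u in Ioi (0 : ℝ), Real.exp (-(π * t⁻¹ * u)) * Jd 0 (u * ρ)) =
        Real.exp (-(π * t * ρ)) := by
      rw [mul_left_comm, h2]
      have h5 : -(π * ρ / t⁻¹) = -(π * t * ρ) := by field_simp
      rw [h5, inv_inv, ← mul_assoc, inv_mul_cancel₀ ht.ne', one_mul]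
    rw [h4]
    ring

end Pool.Agent.LB
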