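import Pool.Agent.Helper76.LB.AA
import Pool.Agent.Helper76.LB.JD

set_option autoImplicit false

open Real MeasureTheory Set Filter Topology

namespace Pool.Agent.LB

/-! Block AB: the summation formula for test functions. `σ = 1`, `Ĝ` = Fourier transform of
`u ↦ g u * e^{π u}` (a Schwartz function), `g u = ∫ Ĝ τ e^{-π (1 - 2 i τ) u} dτ` by Fourier inversion;
`∑ a n g(lam n) = ∫ Ĝ S(z_τ)`, `z_τ = 1 - 2iτ`; theta relation (`theta_complex`);
`∫ Ĝ τ z_τ⁻¹ e^{-π l/z_τ} dτ = Hk g l` by `laplace_J` and Fubini; absolute convergence by `theta_le` at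
`t = Re (1/z) = 1/|z|²`. -/

/-- the line of integration -/
private noncomputable def zt38 (τ : ℝ) : ℂ := 1 - 2 * τ * Complex.I

private theorem zt_re38 (τ : ℝ) : (zt38 τ).re = 1 := by simp [zt38]

private theorem zt_im38 (τ : ℝ) : (zt38 τ).im = -(2 * τ) := by simp [zt38]

private theorem zt_cont38 : Continuous zt38 := by unfold zt38; fun_prop

private theorem zt_ne38 (τ : ℝ) : zt38 τ ≠ 0 := by
  intro h
  have := zt_re38 τ
  rw [h] at this
  simp at this

private theorem zt_normSq38 (τ : ℝ) : Complex.normSq (zt38 τ) = 1 + 4 * τ ^ 2 := by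
  rw [Complex.normSq_apply, zt_re38, zt_im38]
  ring

private theorem zt_norm38 (τ : ℝ) : ‖zt38 τ‖ ^ 2 = 1 + 4 * τ ^ 2 := by
  rw [← Complex.normSq_eq_norm_sq, zt_normSq38]

private theorem one_le_zt38 (τ : ℝ) : 1 ≤ ‖zt38 τ‖ := by
  have := Complex.abs_re_le_norm (zt38 τ)
  rw [zt_re38, abs_one] at this
  exact this

private theorem zt_le38 (τ : ℝ) : ‖zt38 τ‖ ≤ 1 + 2 * |τ| := by
  have := Complex.norm_le_abs_re_add_abs_im (zt38 τ)
  rw [zt_re38, zt_im38, abs_one, abs_neg, abs_mul, abs_two] at this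
  exact this

private theorem norm_exp38 (τ u : ℝ) : ‖Complex.exp (-(π * zt38 τ * u))‖ = Real.exp (-(π * u)) := by
  rw [Complex.norm_exp]
  congr 1
  have : -((π : ℂ) * zt38 τ * (u : ℂ)) = ((-(π * u) : ℝ) : ℂ) * zt38 τ := by push_cast; ring
  rw [this, Complex.re_ofReal_mul, zt_re38, mul_one]

private theorem norm_exp_inv38 (τ l : ℝ) : ‖Complex.exp (-(π * l / zt38 τ))‖
    = Real.exp (-(π * l * (1 / (1 + 4 * τ ^ 2)))) := by
  rw [Complex.norm_exp]
  congr 1
  have : -((π : ℂ) * (l : ℂ) / zt38 τ) = ((-(π * l) : ℝ) : ℂ) * (zt38 τ)⁻¹ := by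
    push_cast; rw [div_eq_mul_inv]; ring
  rw [this, Complex.re_ofReal_mul, Complex.inv_re, zt_re38, zt_normSq38]
  ring

/-- Fourier representation of a smooth compactly supported function. -/
private theorem rep38 {g : ℝ → ℝ} (hg : ContDiff ℝ (⊤ : ℕ∞) g) (hc : HasCompactSupport g) :
    ∃ F : ℝ → ℂ, Continuous F ∧ Integrable F ∧ Integrable (fun τ => |τ| * ‖F τ‖) ∧
      ∀ u : ℝ, ((g u : ℝ) : ℂ) = ∫ τ, F τ * Complex.exp (-(π * zt38 τ * u)) := by
  set f : ℝ → ℂ := fun u => ((g u * Real.exp (π * u) : ℝ) : ℂ) with hf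
  have hfs : ContDiff ℝ (⊤ : ℕ∞) f := by
    have h1 : ContDiff ℝ (⊤ : ℕ∞) (fun u => g u * Real.exp (π * u)) :=
      hg.mul (Real.contDiff_exp.comp (contDiff_const.mul contDiff_id))
    exact Complex.ofRealCLM.contDiff.comp h1
  have hfc : HasCompactSupport f := by
    have h1 : HasCompactSupport (fun u => g u * Real.exp (π * u)) := hc.mul_right
    exact h1.comp_left (g := fun x : ℝ => (x : ℂ)) Complex.ofReal_zero
  set φ : SchwartzMap ℝ ℂ := hfc.toSchwartzMap hfs with hφ
  have hφf : (φ : ℝ → ℂ) = f := rfl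
  have hF : ((FourierTransform.fourier φ : SchwartzMap ℝ ℂ) : ℝ → ℂ) = FourierTransform.fourier f := by
    rw [SchwartzMap.fourier_coe, hφf]
  have hFi : Integrable (FourierTransform.fourier f) := by
    rw [← hF]; exact SchwartzMap.integrable _
  have hinv : FourierTransformInv.fourierInv (FourierTransform.fourier f) = f :=
    (hfs.continuous).fourierInv_fourier_eq (by rw [← hφf]; exact φ.integrable) hFi
  refine ⟨FourierTransform.fourier f, ?_, hFi, ?_, ?_⟩
  · rw [← hF]; exact SchwartzMap.continuous _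
  · have := (FourierTransform.fourier φ : SchwartzMap ℝ ℂ).integrable_pow_mul volume 1
    rw [hF] at this
    simpa using this
  · intro u
    have h1 := congrFun hinv u
    rw [Real.fourierInv_eq'] at h1
    have h2 : ((g u : ℝ) : ℂ) = Complex.exp (-(π * u)) * f u := by
      rw [hf]
      push_cast
      rw [mul_comm, mul_assoc, ← Complex.exp_add]
      simp
    rw [h2, ← h1, ← integral_const_mul]
    congr 1
    funext τ
    rw [smul_eq_mul, mul_comm (Complex.exp _) (FourierTransform.fourier f τ), ← mul_assoc,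
      mul_comm (Complex.exp _) (FourierTransform.fourier f τ), mul_assoc, ← Complex.exp_add]
    congr 2
    simp only [zt38, RCLike.inner_apply, conj_trivial]
    push_cast
    ring

/-- The Hankel transform by Fubini. -/
private theorem hankel38 {g : ℝ → ℝ} {F : ℝ → ℂ} (hFc : Continuous F) (hFi : Integrable F)
    (hrep : ∀ u : ℝ, ((g u : ℝ) : ℂ) = ∫ τ, F τ * Complex.exp (-(π * zt38 τ * u)))
    {l : ℝ} (hl : 0 ≤ l) :
    ∫ τ, F τ * ((zt38 τ)⁻¹ * Complex.exp (-(π * l / zt38 τ))) = ((Hk g l : ℝ) : ℂ) := by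
  have h1 : ∀ τ, F τ * ((zt38 τ)⁻¹ * Complex.exp (-(π * l / zt38 τ)))
      = (π : ℂ) * ∫ u in Ioi (0 : ℝ), F τ * (Complex.exp (-(π * zt38 τ * u)) * ((Jd 0 (|u| * l) : ℝ) : ℂ)) := by
    intro τ
    rw [← laplace_J (zt38 τ) (by rw [zt_re38]; norm_num) l hl, integral_const_mul]
    have : ∫ u in Ioi (0 : ℝ), Complex.exp (-(π * zt38 τ * u)) * ((Jd 0 (|u| * l) : ℝ) : ℂ)
        = ∫ u in Ioi (0 : ℝ), Complex.exp (-(π * zt38 τ * u)) * ((Jd 0 (u * l) : ℝ) : ℂ) := by
      refine setIntegral_congr_fun measurableSet_Ioi fun u hu => ?_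
      rw [abs_of_pos hu]
    rw [this]
    ring
  simp only [h1]
  rw [integral_const_mul, integral_integral_swap]
  · rw [Hk]
    push_cast
    congr 1
    rw [← integral_complex_ofReal]
    refine setIntegral_congr_fun measurableSet_Ioi fun u hu => ?_
    rw [Complex.ofReal_mul, hrep u, ← integral_mul_const]
    congr 1
    funext τ
    rw [abs_of_pos hu]
    ring
  · have hJ : Continuous (fun p : ℝ × ℝ => ((Jd 0 (|p.2| * l) : ℝ) : ℂ)) :=
      Complex.continuous_ofReal.comp ((Jd_continuous 0).comp ((continuous_snd.abs).mul continuous_const))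
    have hcont : Continuous (Function.uncurry fun (τ u : ℝ) =>
        F τ * (Complex.exp (-(π * zt38 τ * u)) * ((Jd 0 (|u| * l) : ℝ) : ℂ))) := by
      apply (hFc.comp continuous_fst).mul
      apply Continuous.mul _ hJ
      apply Complex.continuous_exp.comp
      exact ((continuous_const.mul (zt_cont38.comp continuous_fst)).mul
        (Complex.continuous_ofReal.comp continuous_snd)).neg
    have hexp : Integrable (fun u : ℝ => Real.exp (-(π * u))) (volume.restrict (Ioi 0)) := by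
      have := integrableOn_exp_mul_Ioi (a := -π) (by linarith [Real.pi_pos]) 0
      refine this.congr_fun (fun u _ => ?_) measurableSet_Ioi
      simp only
      congr 1; ring
    have hdom : Integrable (fun p : ℝ × ℝ => ‖F p.1‖ * Real.exp (-(π * p.2)))
        (volume.prod (volume.restrict (Ioi 0))) := hFi.norm.mul_prod hexp
    refine hdom.mono' hcont.aestronglyMeasurable (Eventually.of_forall fun p => ?_)
    simp only [Function.uncurry]
    rw [norm_mul, norm_mul, norm_exp38, Complex.norm_real]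
    have h2 := J_abs_le_one (z := |p.2| * l) (by positivity)
    rw [Real.norm_eq_abs]
    calc ‖F p.1‖ * (Real.exp (-(π * p.2)) * |Jd 0 (|p.2| * l)|)
        ≤ ‖F p.1‖ * (Real.exp (-(π * p.2)) * 1) := by gcongr
      _ = _ := by rw [mul_one]

/-- A sequence with a new first term. -/
private def cons38 (c : ℝ) (a : ℕ → ℝ) : ℕ → ℝ
  | 0 => c
  | (n + 1) => a n

private theorem pair38 {a lam : ℕ → ℝ} (h : ThetaPair a lam) :
    (∀ n, 0 ≤ cons38 1 a n) ∧ (∀ n, 0 ≤ cons38 0 lam n) ∧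
    (∀ t : ℝ, 0 < t → Summable (fun n => cons38 1 a n * Real.exp (-(π * cons38 0 lam n * t)))) ∧
    (∃ C : ℝ, 0 < C ∧ ∀ t : ℝ, 0 < t → t ≤ 1 →
      ∑' n, cons38 1 a n * Real.exp (-(π * cons38 0 lam n * t)) ≤ C / t) ∧
    (∀ z : ℂ, 0 < z.re →
      ∑' n, (cons38 1 a n : ℂ) * Complex.exp (-(π * cons38 0 lam n * z)) =
        z⁻¹ * ∑' n, (cons38 1 a n : ℂ) * Complex.exp (-(π * cons38 0 lam n / z))) := by
  have hs : ∀ t : ℝ, 0 < t →
      Summable (fun n => cons38 1 a n * Real.exp (-(π * cons38 0 lam n * t))) := by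
    intro t ht
    rw [← summable_nat_add_iff 1]
    exact h.summ t ht
  refine ⟨?_, ?_, hs, ?_, ?_⟩
  · rintro (_ | n)
    · exact zero_le_one
    · exact h.nonneg n
  · rintro (_ | n)
    · exact le_rfl
    · exact (h.pos n).le
  · obtain ⟨C, hC, hb⟩ := h.theta_le
    refine ⟨C + 1, by positivity, fun t ht ht1 => ?_⟩
    rw [(hs t ht).tsum_eq_zero_add]
    have h1 : cons38 1 a 0 * Real.exp (-(π * cons38 0 lam 0 * t)) = 1 := by simp [cons38]
    have h2 := hb t ht ht1
    have h3 : (1 : ℝ) ≤ 1 / t := by rw [le_div_iff₀ ht]; linarith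
    rw [h1]
    calc 1 + ∑' n, cons38 1 a (n + 1) * Real.exp (-(π * cons38 0 lam (n + 1) * t))
        ≤ 1 / t + C / t := add_le_add h3 h2
      _ = (C + 1) / t := by ring
  · intro z hz
    have hz0 : z ≠ 0 := by rintro rfl; simp at hz
    have hzi : 0 < (z⁻¹).re := by
      rw [Complex.inv_re]
      exact div_pos hz (Complex.normSq_pos.2 hz0)
    have hc1 : Summable (fun n => (cons38 1 a n : ℂ) * Complex.exp (-(π * cons38 0 lam n * z))) := by
      rw [← summable_nat_add_iff 1]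
      exact h.summable_complex hz
    have hc2 : Summable (fun n => (cons38 1 a n : ℂ) * Complex.exp (-(π * cons38 0 lam n / z))) := by
      rw [← summable_nat_add_iff 1]
      have := h.summable_complex hzi
      simpa only [div_eq_mul_inv, cons38] using this
    rw [hc1.tsum_eq_zero_add, hc2.tsum_eq_zero_add]
    have h0 : (cons38 1 a 0 : ℂ) * Complex.exp (-(π * cons38 0 lam 0 * z)) = 1 := by simp [cons38]
    have h0' : (cons38 1 a 0 : ℂ) * Complex.exp (-(π * cons38 0 lam 0 / z)) = 1 := by simp [cons38]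
    rw [h0, h0']
    have h1 := h.theta_complex hz
    have h2 : (1 : ℂ) + ∑' n, (cons38 1 a (n + 1) : ℂ) * Complex.exp (-(π * cons38 0 lam (n + 1) / z))
        = z * (1 + ∑' n, (cons38 1 a (n + 1) : ℂ) * Complex.exp (-(π * cons38 0 lam (n + 1) * z))) := h1
    rw [h2, ← mul_assoc, inv_mul_cancel₀ hz0, one_mul]

theorem ThetaPair.summation {a lam : ℕ → ℝ} (h : ThetaPair a lam) {g : ℝ → ℝ}
    (hg : ContDiff ℝ (⊤ : ℕ∞) g) (hc : HasCompactSupport g) :
    Summable (fun n => a n * g (lam n)) ∧ Summable (fun n => a n * Hk g (lam n)) ∧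
      g 0 + ∑' n, a n * g (lam n) = Hk g 0 + ∑' n, a n * Hk g (lam n) := by
  obtain ⟨F, hFc, hFi, hF1, hrep⟩ := rep38 hg hc
  obtain ⟨hb0, hm0, hs, ⟨C, hC0, hC⟩, hth⟩ := pair38 h
  obtain ⟨b, hb⟩ : ∃ b : ℕ → ℝ, b = cons38 1 a := ⟨_, rfl⟩
  obtain ⟨m, hm⟩ : ∃ m : ℕ → ℝ, m = cons38 0 lam := ⟨_, rfl⟩
  rw [← hb] at hb0 hs hC hth
  rw [← hm] at hm0 hs hC hth
  -- the left side
  set Fn : ℕ → ℝ → ℂ := fun n τ => F τ * ((b n : ℂ) * Complex.exp (-(π * m n * zt38 τ))) with hFn
  have hFnorm : ∀ n τ, ‖Fn n τ‖ = ‖F τ‖ * (b n * Real.exp (-(π * m n))) := by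
    intro n τ
    rw [hFn]
    simp only
    rw [norm_mul, norm_mul, Complex.norm_real, Real.norm_of_nonneg (hb0 n)]
    have : -((π : ℂ) * (m n : ℂ) * zt38 τ) = -((π : ℂ) * zt38 τ * (m n : ℂ)) := by ring
    rw [this, norm_exp38]
  have hFnint : ∀ n, Integrable (Fn n) := by
    intro n
    refine (hFi.norm.mul_const (b n * Real.exp (-(π * m n)))).mono' ?_
      (Eventually.of_forall fun τ => (hFnorm n τ).le)
    apply Continuous.aestronglyMeasurable
    rw [hFn]
    apply hFc.mul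
    apply continuous_const.mul
    apply Complex.continuous_exp.comp
    exact (continuous_const.mul zt_cont38).neg
  have hFnsum : Summable (fun n => ∫ τ, ‖Fn n τ‖) := by
    have h1 : (fun n => ∫ τ, ‖Fn n τ‖) = fun n => (∫ τ, ‖F τ‖) * (b n * Real.exp (-(π * m n * 1))) := by
      funext n
      simp only [hFnorm]
      rw [integral_mul_const, mul_one]
    rw [h1]
    exact (hs 1 one_pos).mul_left _
  have hL := hasSum_integral_of_summable_integral_norm hFnint hFnsum
  have hLval : ∀ n, ∫ τ, Fn n τ = ((b n * g (m n) : ℝ) : ℂ) := by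
    intro n
    rw [Complex.ofReal_mul, hrep (m n), ← integral_const_mul]
    congr 1
    funext τ
    rw [hFn]
    simp only
    have : -((π : ℂ) * (m n : ℂ) * zt38 τ) = -((π : ℂ) * zt38 τ * (m n : ℂ)) := by ring
    rw [this]
    ring
  -- the right side
  set Gn : ℕ → ℝ → ℂ := fun n τ =>
    F τ * ((zt38 τ)⁻¹ * ((b n : ℂ) * Complex.exp (-(π * m n / zt38 τ)))) with hGn
  have hGnorm : ∀ n τ, ‖Gn n τ‖ = ‖F τ‖ * ‖zt38 τ‖⁻¹ *
      (b n * Real.exp (-(π * m n * (1 / (1 + 4 * τ ^ 2))))) := by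
    intro n τ
    rw [hGn]
    simp only
    rw [norm_mul, norm_mul, norm_mul, norm_inv, Complex.norm_real, Real.norm_of_nonneg (hb0 n),
      norm_exp_inv38]
    ring
  have hzinv : ∀ τ, ‖zt38 τ‖⁻¹ ≤ 1 := fun τ => inv_le_one_of_one_le₀ (one_le_zt38 τ)
  have hGnle : ∀ n τ, ‖Gn n τ‖ ≤ ‖F τ‖ * b n := by
    intro n τ
    rw [hGnorm]
    have h1 : Real.exp (-(π * m n * (1 / (1 + 4 * τ ^ 2)))) ≤ 1 := by
      apply Real.exp_le_one_iff.2
      have := hm0 n
      have : 0 ≤ π * m n * (1 / (1 + 4 * τ ^ 2)) := by positivity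
      linarith
    have hbn := hb0 n
    calc ‖F τ‖ * ‖zt38 τ‖⁻¹ * (b n * Real.exp (-(π * m n * (1 / (1 + 4 * τ ^ 2)))))
        ≤ ‖F τ‖ * 1 * (b n * 1) := by
          gcongr
          exact hzinv τ
      _ = ‖F τ‖ * b n := by ring
  have hGnint : ∀ n, Integrable (Gn n) := by
    intro n
    refine (hFi.norm.mul_const (b n)).mono' ?_ (Eventually.of_forall fun τ => hGnle n τ)
    apply Continuous.aestronglyMeasurable
    rw [hGn]
    apply hFc.mul
    apply (zt_cont38.inv₀ zt_ne38).mul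
    apply continuous_const.mul
    apply Complex.continuous_exp.comp
    exact (continuous_const.div zt_cont38 zt_ne38).neg
  have hdomi : Integrable (fun τ => C * (‖F τ‖ + 2 * (|τ| * ‖F τ‖))) :=
    ((hFi.norm).add (hF1.const_mul 2)).const_mul C
  have hGnsum : Summable (fun n => ∫ τ, ‖Gn n τ‖) := by
    refine summable_of_sum_le (c := ∫ τ, C * (‖F τ‖ + 2 * (|τ| * ‖F τ‖)))
      (fun n => integral_nonneg fun τ => norm_nonneg _) fun s => ?_
    rw [← integral_finsetSum s fun n _ => (hGnint n).norm]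
    refine integral_mono (integrable_finsetSum s fun n _ => (hGnint n).norm) hdomi fun τ => ?_
    simp only
    have hT : (0 : ℝ) < 1 + 4 * τ ^ 2 := by positivity
    have ht0 : 0 < 1 / (1 + 4 * τ ^ 2) := by positivity
    have ht1 : 1 / (1 + 4 * τ ^ 2) ≤ 1 := by
      rw [div_le_one hT]; nlinarith [sq_nonneg τ]
    have h1 := (hs _ ht0).sum_le_tsum s fun n _ => mul_nonneg (hb0 n) (Real.exp_pos _).le
    have h2 := hC _ ht0 ht1
    have h3 : C / (1 / (1 + 4 * τ ^ 2)) = C * ‖zt38 τ‖ ^ 2 := by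
      rw [zt_norm38]; field_simp
    have hz0 : 0 < ‖zt38 τ‖ := lt_of_lt_of_le one_pos (one_le_zt38 τ)
    calc ∑ n ∈ s, ‖Gn n τ‖ = ‖F τ‖ * ‖zt38 τ‖⁻¹ *
          ∑ n ∈ s, b n * Real.exp (-(π * m n * (1 / (1 + 4 * τ ^ 2)))) := by
          rw [Finset.mul_sum]
          exact Finset.sum_congr rfl fun n _ => hGnorm n τ
      _ ≤ ‖F τ‖ * ‖zt38 τ‖⁻¹ * (C * ‖zt38 τ‖ ^ 2) := by
          rw [← h3]
          gcongr
          exact h1.trans h2
      _ = C * ‖F τ‖ * ‖zt38 τ‖ := by field_simp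
      _ ≤ C * ‖F τ‖ * (1 + 2 * |τ|) := by
          gcongr
          exact zt_le38 τ
      _ = C * (‖F τ‖ + 2 * (|τ| * ‖F τ‖)) := by ring
  have hR := hasSum_integral_of_summable_integral_norm hGnint hGnsum
  have hRval : ∀ n, ∫ τ, Gn n τ = ((b n * Hk g (m n) : ℝ) : ℂ) := by
    intro n
    rw [Complex.ofReal_mul, ← hankel38 hFc hFi hrep (hm0 n), ← integral_const_mul]
    congr 1
    funext τ
    rw [hGn]
    ring
  -- equality of the two integrals
  have hEq : (∫ τ, ∑' n, Fn n τ) = ∫ τ, ∑' n, Gn n τ := by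
    congr 1
    funext τ
    rw [hFn, hGn]
    simp only
    rw [tsum_mul_left, tsum_mul_left, tsum_mul_left, hth (zt38 τ) (by rw [zt_re38]; norm_num)]
  simp only [hLval] at hL
  simp only [hRval] at hR
  have hLs : Summable (fun n => b n * g (m n)) := Complex.summable_ofReal.1 hL.summable
  have hRs : Summable (fun n => b n * Hk g (m n)) := Complex.summable_ofReal.1 hR.summable
  have hEq2 : ∑' n, b n * g (m n) = ∑' n, b n * Hk g (m n) := by
    have h1 := hL.tsum_eq
    have h2 := hR.tsum_eq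
    rw [← Complex.ofReal_tsum] at h1 h2
    have : ((∑' n, b n * g (m n) : ℝ) : ℂ) = ((∑' n, b n * Hk g (m n) : ℝ) : ℂ) := by
      rw [h1, h2, hEq]
    exact_mod_cast this
  have hLs' : Summable (fun n => a n * g (lam n)) := by
    have := (summable_nat_add_iff 1).2 hLs
    rw [hb, hm] at this
    exact this
  have hRs' : Summable (fun n => a n * Hk g (lam n)) := by
    have := (summable_nat_add_iff 1).2 hRs
    rw [hb, hm] at this
    exact this
  refine ⟨hLs', hRs', ?_⟩
  rw [hLs.tsum_eq_zero_add, hRs.tsum_eq_zero_add] at hEq2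
  rw [hb, hm] at hEq2
  have h0 : ∀ f : ℝ → ℝ, cons38 1 a 0 * f (cons38 0 lam 0) = f 0 := by
    intro f; simp [cons38]
  rw [h0, h0] at hEq2
  exact hEq2

end Pool.Agent.LB
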