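import Pool.Agent.Helper76.LB.JE

set_option autoImplicit false

open Real MeasureTheory Set Filter Topology

namespace Pool.Agent.LB

/-! Block AC: smooth cut-offs. `g u = S((x + y - u)/y) * S(u + 2)` with `S = Real.smoothTransition`.
`Hk g l = -∫ g'(u) Dk u l du = ∫ g''(u) (u²/π³) Jd 2 (u l) du` over `(0,∞)` (the derivatives of `g` on
`(0,∞)` live on `[x, x+y] ⊆ [x, 2x]`, `|g'| ≤ C/y`, `|g''| ≤ C/y²`). -/

namespace Cut

theorem S_deriv_zero_of_neg {u : ℝ} (hu : u < 0) : deriv Real.smoothTransition u = 0 := by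
  have h : Real.smoothTransition =ᶠ[𝓝 u] fun _ => (0 : ℝ) := by
    filter_upwards [Iio_mem_nhds hu] with v hv
    exact Real.smoothTransition.zero_of_nonpos (le_of_lt hv)
  rw [h.deriv_eq, deriv_const]

theorem S_deriv_zero_of_gt {u : ℝ} (hu : 1 < u) : deriv Real.smoothTransition u = 0 := by
  have h : Real.smoothTransition =ᶠ[𝓝 u] fun _ => (1 : ℝ) := by
    filter_upwards [Ioi_mem_nhds hu] with v hv
    exact Real.smoothTransition.one_of_one_le (le_of_lt hv)
  rw [h.deriv_eq, deriv_const]

theorem S_deriv_zero : deriv Real.smoothTransition 0 = 0 := by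
  have h : IsLocalMin Real.smoothTransition 0 := by
    refine Eventually.of_forall (fun v => ?_)
    rw [Real.smoothTransition.zero_of_nonpos le_rfl]
    exact Real.smoothTransition.nonneg v
  exact h.deriv_eq_zero

theorem S_deriv_one : deriv Real.smoothTransition 1 = 0 := by
  have h : IsLocalMax Real.smoothTransition 1 := by
    refine Eventually.of_forall (fun v => ?_)
    rw [Real.smoothTransition.one_of_one_le le_rfl]
    exact Real.smoothTransition.le_one v
  exact h.deriv_eq_zero

theorem S_contDiff : ContDiff ℝ 2 Real.smoothTransition := Real.smoothTransition.contDiff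

theorem S_deriv_contDiff : ContDiff ℝ 1 (deriv Real.smoothTransition) := by
  have h : ContDiff ℝ (1 + 1) Real.smoothTransition := S_contDiff
  exact (contDiff_succ_iff_deriv.1 h).2.2

theorem S_deriv2_continuous : Continuous (deriv (deriv Real.smoothTransition)) :=
  S_deriv_contDiff.continuous_deriv le_rfl

theorem S_hasDerivAt (u : ℝ) :
    HasDerivAt Real.smoothTransition (deriv Real.smoothTransition u) u :=
  (S_contDiff.differentiable (by norm_num) u).hasDerivAt

theorem S_hasDerivAt2 (u : ℝ) :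
    HasDerivAt (deriv Real.smoothTransition) (deriv (deriv Real.smoothTransition) u) u :=
  (S_deriv_contDiff.differentiable (by norm_num) u).hasDerivAt

theorem S_bounds : ∃ M : ℝ, 1 ≤ M ∧ (∀ u, |deriv Real.smoothTransition u| ≤ M) ∧
    ∀ u, |deriv (deriv Real.smoothTransition) u| ≤ M := by
  have c1 : HasCompactSupport (deriv Real.smoothTransition) := by
    refine HasCompactSupport.intro (K := Icc 0 1) isCompact_Icc (fun u hu => ?_)
    rcases lt_or_ge u 0 with h | h
    · exact S_deriv_zero_of_neg h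
    · rcases lt_or_ge 1 u with h' | h'
      · exact S_deriv_zero_of_gt h'
      · exact absurd ⟨h, h'⟩ hu
  have c2 : HasCompactSupport (deriv (deriv Real.smoothTransition)) := c1.deriv
  obtain ⟨M1, h1⟩ := S_deriv_contDiff.continuous.bounded_above_of_compact_support c1
  obtain ⟨M2, h2⟩ := S_deriv2_continuous.bounded_above_of_compact_support c2
  refine ⟨max 1 (max M1 M2), le_max_left _ _, fun u => ?_, fun u => ?_⟩
  · exact (h1 u).trans ((le_max_left _ _).trans (le_max_right _ _))
  · exact (h2 u).trans ((le_max_right _ _).trans (le_max_right _ _))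


/-- the cut-off on `[0,∞)` -/
noncomputable def h (x y u : ℝ) : ℝ := Real.smoothTransition ((x + y - u) / y)

noncomputable def h1 (x y u : ℝ) : ℝ := -(1 / y) * deriv Real.smoothTransition ((x + y - u) / y)

noncomputable def h2 (x y u : ℝ) : ℝ :=
  (1 / y ^ 2) * deriv (deriv Real.smoothTransition) ((x + y - u) / y)

theorem inner_hasDerivAt (x : ℝ) {y : ℝ} (u : ℝ) :
    HasDerivAt (fun u => (x + y - u) / y) (-(1 / y)) u := by
  have h0 : HasDerivAt (fun u : ℝ => x + y - u) (-1) u := by
    simpa using (hasDerivAt_id u).const_sub (x + y)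
  have := h0.div_const y
  rwa [neg_div] at this

theorem h_hasDerivAt (x y u : ℝ) : HasDerivAt (h x y) (h1 x y u) u := by
  have := (S_hasDerivAt ((x + y - u) / y)).comp u (inner_hasDerivAt x (y := y) u)
  unfold h1
  rw [mul_comm]
  exact this

theorem h1_hasDerivAt (x y u : ℝ) : HasDerivAt (h1 x y) (h2 x y u) u := by
  have h3 := ((S_hasDerivAt2 ((x + y - u) / y)).comp u (inner_hasDerivAt x (y := y) u)).const_mul
    (-(1 / y))
  have e : h2 x y u = -(1 / y) * (deriv (deriv Real.smoothTransition) ((x + y - u) / y) *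
      -(1 / y)) := by
    unfold h2
    ring
  rw [e]
  exact h3

theorem inner_continuous (x y : ℝ) : Continuous (fun u : ℝ => (x + y - u) / y) :=
  (continuous_const.sub continuous_id).div_const y

theorem h1_continuous (x y : ℝ) : Continuous (h1 x y) :=
  continuous_const.mul (S_deriv_contDiff.continuous.comp (inner_continuous x y))

theorem h2_continuous (x y : ℝ) : Continuous (h2 x y) :=
  continuous_const.mul (S_deriv2_continuous.comp (inner_continuous x y))

theorem E_continuous (l : ℝ) : Continuous (fun u : ℝ => u ^ 2 / π ^ 3 * Jd 2 (u * l)) :=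
  continuous_iff_continuousAt.2 (fun u => (D2_hasDerivAt u l).continuousAt)

theorem Dk_cont (l : ℝ) : Continuous (fun u : ℝ => Dk u l) :=
  continuous_iff_continuousAt.2 (fun u => (Dk_hasDerivAt_left u l).continuousAt)

theorem hk_first {x y : ℝ} (hy : 0 < y) (hyx : y ≤ x) {g : ℝ → ℝ}
    (hg : ∀ u, 0 < u → g u = h x y u) (l : ℝ) :
    Hk g l = -∫ u in x..(x + y), h1 x y u * Dk u l := by
  have hx : 0 < x := hy.trans_le hyx
  have hone : ∀ u, u ≤ x → h x y u = 1 := by
    intro u hu
    refine Real.smoothTransition.one_of_one_le ?_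
    rw [le_div_iff₀ hy]
    linarith
  have hzero : ∀ u, x + y ≤ u → h x y u = 0 := by
    intro u hu
    refine Real.smoothTransition.zero_of_nonpos ?_
    exact div_nonpos_of_nonpos_of_nonneg (by linarith) hy.le
  have hcont : Continuous (h x y) :=
    continuous_iff_continuousAt.2 (fun u => (h_hasDerivAt x y u).continuousAt)
  have hJc : Continuous (fun u : ℝ => π * Jd 0 (u * l)) :=
    continuous_const.mul ((Jd_continuous 0).comp (continuous_id.mul continuous_const))
  have e1 : Hk g l = ∫ u in (0 : ℝ)..(x + y), h x y u * (π * Jd 0 (u * l)) := by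
    unfold Hk
    rw [← integral_const_mul, intervalIntegral.integral_of_le (by linarith)]
    rw [← setIntegral_eq_of_subset_of_forall_sdiff_eq_zero (s := Ioc 0 (x + y)) measurableSet_Ioi
      Ioc_subset_Ioi_self (fun u hu => ?_)]
    · refine setIntegral_congr_fun measurableSet_Ioi (fun u hu => ?_)
      have hu' : 0 < u := hu
      change π * (g u * Jd 0 (u * l)) = h x y u * (π * Jd 0 (u * l))
      rw [hg u hu']
      ring
    · have h0 : 0 < u := hu.1
      have h3 : x + y ≤ u := by
        by_contra hc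
        exact hu.2 ⟨h0, (not_le.1 hc).le⟩
      rw [hzero u h3, zero_mul]
  have e2 : ∫ u in (0 : ℝ)..x, h x y u * (π * Jd 0 (u * l)) = Dk x l := by
    rw [← integral_J hx.le l, ← intervalIntegral.integral_const_mul]
    refine intervalIntegral.integral_congr (fun u hu => ?_)
    rw [uIcc_of_le hx.le] at hu
    change h x y u * (π * Jd 0 (u * l)) = π * Jd 0 (u * l)
    rw [hone u hu.2, one_mul]
  have e3 : ∫ u in x..(x + y), h x y u * (π * Jd 0 (u * l)) =
      h x y (x + y) * Dk (x + y) l - h x y x * Dk x l - ∫ u in x..(x + y), h1 x y u * Dk u l := by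
    refine intervalIntegral.integral_mul_deriv_eq_deriv_mul (fun u _ => h_hasDerivAt x y u)
      (fun u _ => Dk_hasDerivAt_left u l) ?_ ?_
    · exact (h1_continuous x y).intervalIntegrable _ _
    · exact hJc.intervalIntegrable _ _
  have hi : ∀ p q : ℝ, IntervalIntegrable (fun u => h x y u * (π * Jd 0 (u * l))) volume p q :=
    fun p q => (hcont.mul hJc).intervalIntegrable _ _
  rw [e1, ← intervalIntegral.integral_add_adjacent_intervals (hi 0 x) (hi x (x + y)), e2, e3,
    hzero (x + y) le_rfl, hone x le_rfl]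
  ring

theorem hk_second {x y : ℝ} (hy : 0 < y) (l : ℝ) :
    -∫ u in x..(x + y), h1 x y u * Dk u l =
      ∫ u in x..(x + y), h2 x y u * (u ^ 2 / π ^ 3 * Jd 2 (u * l)) := by
  have e3 : ∫ u in x..(x + y), h1 x y u * Dk u l =
      h1 x y (x + y) * ((x + y) ^ 2 / π ^ 3 * Jd 2 ((x + y) * l)) -
        h1 x y x * (x ^ 2 / π ^ 3 * Jd 2 (x * l)) -
        ∫ u in x..(x + y), h2 x y u * (u ^ 2 / π ^ 3 * Jd 2 (u * l)) := by
    refine intervalIntegral.integral_mul_deriv_eq_deriv_mul (fun u _ => h1_hasDerivAt x y u)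
      (fun u _ => D2_hasDerivAt u l) ?_ ?_
    · exact (h2_continuous x y).intervalIntegrable _ _
    · exact (Dk_cont l).intervalIntegrable _ _
  have hb : h1 x y (x + y) = 0 := by
    unfold h1
    rw [sub_self, zero_div, S_deriv_zero, mul_zero]
  have ha : h1 x y x = 0 := by
    unfold h1
    rw [add_sub_cancel_left, div_self hy.ne', S_deriv_one, mul_zero]
  rw [e3, hb, ha]
  ring

end Cut

theorem cutoff_exists : ∃ C : ℝ, 0 < C ∧ ∀ x y : ℝ, 0 < y → y ≤ x →
    ∃ g : ℝ → ℝ, ContDiff ℝ (⊤ : ℕ∞) g ∧ HasCompactSupport g ∧ (∀ u, 0 ≤ g u ∧ g u ≤ 1) ∧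
      (∀ u, 0 ≤ u → u ≤ x → g u = 1) ∧ (∀ u, x + y ≤ u → g u = 0) ∧
      ∀ l : ℝ, 0 < l → |Hk g l| ≤
        C * min (x ^ (1 / 4 : ℝ) * l ^ (-(3 / 4 : ℝ))) (x ^ (3 / 4 : ℝ) / y * l ^ (-(5 / 4 : ℝ))) := by
  obtain ⟨M, hM1, hMa, hMb⟩ := Cut.S_bounds
  have hCb := Cb_pos
  refine ⟨2 * M * Cb, by positivity, fun x y hy hyx => ?_⟩
  have hx : 0 < x := hy.trans_le hyx
  have hM0 : 0 < M := by linarith
  have hπ1 : 1 ≤ π := by linarith [Real.pi_gt_three]
  have hπ3 : 1 ≤ π ^ 3 := one_le_pow₀ hπ1
  refine ⟨fun u => Cut.h x y u * Real.smoothTransition (u + 2), ?_, ?_, ?_, ?_, ?_, ?_⟩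
  · refine ContDiff.mul ?_ ?_
    · exact Real.smoothTransition.contDiff.comp ((contDiff_const.sub contDiff_id).div_const y)
    · exact Real.smoothTransition.contDiff.comp (contDiff_id.add contDiff_const)
  · refine HasCompactSupport.intro (K := Icc (-2) (x + y)) isCompact_Icc (fun u hu => ?_)
    rcases lt_or_ge u (-2) with h | h
    · rw [Real.smoothTransition.zero_of_nonpos (by linarith : u + 2 ≤ 0), mul_zero]
    · have h' : x + y < u := by
        by_contra hc
        exact hu ⟨h, not_lt.1 hc⟩
      simp only [Cut.h]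
      rw [Real.smoothTransition.zero_of_nonpos
        (div_nonpos_of_nonpos_of_nonneg (by linarith) hy.le), zero_mul]
  · intro u
    constructor
    · exact mul_nonneg (Real.smoothTransition.nonneg _) (Real.smoothTransition.nonneg _)
    · exact mul_le_one₀ (Real.smoothTransition.le_one _) (Real.smoothTransition.nonneg _)
        (Real.smoothTransition.le_one _)
  · intro u h0 hu
    simp only [Cut.h]
    rw [Real.smoothTransition.one_of_one_le (by linarith : (1 : ℝ) ≤ u + 2),
      Real.smoothTransition.one_of_one_le (by rw [le_div_iff₀ hy]; linarith), mul_one]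
  · intro u hu
    simp only [Cut.h]
    rw [Real.smoothTransition.zero_of_nonpos
        (div_nonpos_of_nonpos_of_nonneg (by linarith) hy.le), zero_mul]
  · intro l hl
    have hF := Cut.hk_first hy hyx (g := fun u => Cut.h x y u * Real.smoothTransition (u + 2))
      (fun u hu => by
        rw [Real.smoothTransition.one_of_one_le (by linarith : (1 : ℝ) ≤ u + 2), mul_one]) l
    have h2x : ∀ u, u ∈ Ioc x (x + y) → 0 < u ∧ u ≤ 2 * x := fun u hu =>
      ⟨hx.trans hu.1, by linarith [hu.2]⟩
    have hq : ∀ e : ℝ, 0 ≤ e → e ≤ 1 → ∀ u, u ∈ Ioc x (x + y) → u ^ e ≤ 2 * x ^ e := by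
      intro e he he1 u hu
      obtain ⟨h0, h1⟩ := h2x u hu
      calc u ^ e ≤ (2 * x) ^ e := Real.rpow_le_rpow h0.le h1 he
        _ = 2 ^ e * x ^ e := Real.mul_rpow (by norm_num) hx.le
        _ ≤ 2 * x ^ e := by
          refine mul_le_mul_of_nonneg_right ?_ (Real.rpow_nonneg hx.le e)
          calc (2 : ℝ) ^ e ≤ 2 ^ (1 : ℝ) := Real.rpow_le_rpow_of_exponent_le (by norm_num) he1
            _ = 2 := Real.rpow_one 2
    have hB1 : |∫ u in x..(x + y), Cut.h1 x y u * Dk u l| ≤
        2 * M * Cb * (x ^ (1 / 4 : ℝ) * l ^ (-(3 / 4 : ℝ))) := by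
      have hb := intervalIntegral.norm_integral_le_of_norm_le_const (a := x) (b := x + y)
        (f := fun u => Cut.h1 x y u * Dk u l)
        (C := M / y * (Cb * (2 * x ^ (1 / 4 : ℝ) * l ^ (-(3 / 4 : ℝ))))) (fun u hu => by
          rw [uIoc_of_le (by linarith)] at hu
          obtain ⟨h0, h1⟩ := h2x u hu
          rw [norm_mul, Real.norm_eq_abs, Real.norm_eq_abs]
          refine mul_le_mul ?_ ?_ (abs_nonneg _) (by positivity)
          · unfold Cut.h1
            rw [abs_mul, abs_neg, abs_of_pos (by positivity), div_mul_eq_mul_div, one_mul]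
            gcongr
            exact hMa _
          · refine (Dk_abs_le h0 hl).trans ?_
            refine mul_le_mul (div_le_self hCb.le hπ1) ?_ (by positivity) hCb.le
            exact mul_le_mul_of_nonneg_right (hq (1 / 4) (by norm_num) (by norm_num) u hu)
              (by positivity))
      rw [Real.norm_eq_abs, add_sub_cancel_left, abs_of_pos hy] at hb
      refine hb.trans (le_of_eq ?_)
      field_simp
    have hB2 : |∫ u in x..(x + y), Cut.h2 x y u * (u ^ 2 / π ^ 3 * Jd 2 (u * l))| ≤
        2 * M * Cb * (x ^ (3 / 4 : ℝ) / y * l ^ (-(5 / 4 : ℝ))) := by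
      have hb := intervalIntegral.norm_integral_le_of_norm_le_const (a := x) (b := x + y)
        (f := fun u => Cut.h2 x y u * (u ^ 2 / π ^ 3 * Jd 2 (u * l)))
        (C := M / y ^ 2 * (Cb * (2 * x ^ (3 / 4 : ℝ) * l ^ (-(5 / 4 : ℝ))))) (fun u hu => by
          rw [uIoc_of_le (by linarith)] at hu
          obtain ⟨h0, h1⟩ := h2x u hu
          rw [norm_mul, Real.norm_eq_abs, Real.norm_eq_abs]
          refine mul_le_mul ?_ ?_ (abs_nonneg _) (by positivity)
          · unfold Cut.h2
            rw [abs_mul, abs_of_pos (by positivity), div_mul_eq_mul_div, one_mul]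
            gcongr
            exact hMb _
          · rw [abs_mul, abs_of_pos (by positivity)]
            have hj := J2_decay (mul_pos h0 hl)
            rw [Real.mul_rpow h0.le hl.le] at hj
            have hu2 : u ^ 2 * u ^ (-(5 / 4 : ℝ)) = u ^ (3 / 4 : ℝ) := by
              rw [← Real.rpow_natCast u 2, ← Real.rpow_add h0]
              norm_num
            calc u ^ 2 / π ^ 3 * |Jd 2 (u * l)|
                ≤ u ^ 2 / π ^ 3 * (Cb * (u ^ (-(5 / 4 : ℝ)) * l ^ (-(5 / 4 : ℝ)))) := by
                  gcongr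
              _ = (Cb * (u ^ 2 * u ^ (-(5 / 4 : ℝ)) * l ^ (-(5 / 4 : ℝ)))) / π ^ 3 := by ring
              _ ≤ Cb * (u ^ 2 * u ^ (-(5 / 4 : ℝ)) * l ^ (-(5 / 4 : ℝ))) :=
                  div_le_self (by positivity) hπ3
              _ = Cb * (u ^ (3 / 4 : ℝ) * l ^ (-(5 / 4 : ℝ))) := by rw [hu2]
              _ ≤ Cb * (2 * x ^ (3 / 4 : ℝ) * l ^ (-(5 / 4 : ℝ))) := by
                  gcongr
                  exact hq (3 / 4) (by norm_num) (by norm_num) u hu)
      rw [Real.norm_eq_abs, add_sub_cancel_left, abs_of_pos hy] at hb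
      refine hb.trans (le_of_eq ?_)
      field_simp
    rw [mul_min_of_nonneg _ _ (by positivity)]
    refine le_min ?_ ?_
    · rw [hF, abs_neg]
      exact hB1
    · rw [hF, Cut.hk_second hy l]
      exact hB2

end Pool.Agent.LB
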