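import Pool.Agent.Helper76.LB.AA

set_option autoImplicit false

open Real MeasureTheory Set Filter Topology

namespace Pool.Agent.LB

/-! Block AD: the dual sum. Dyadic blocks `2^k ≤ lam n < 2^{k+1}` and `cnt_le`; crossover at
`L = x/y² = x^{1/3}`. -/

/-- Finite form of the counting bound. -/
theorem h97_cnt_fin {a lam : ℕ → ℝ} (h : ThetaPair a lam) {C : ℝ}
    (hC : ∀ L : ℝ, 0 < L → ∑' n, (if lam n ≤ L then a n else 0) ≤ C * L) (F : Finset ℕ) {x : ℝ}
    (hx : 0 < x) : ∑ n ∈ F, (if lam n ≤ x then a n else 0) ≤ C * x := by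
  refine le_trans ?_ (hC x hx)
  refine Summable.sum_le_tsum F (fun n _ => ?_) ?_
  · split_ifs
    · exact h.nonneg n
    · exact le_rfl
  · refine summable_of_hasFiniteSupport ?_
    obtain ⟨N, hN⟩ := eventually_atTop.1 (h.tends.eventually_gt_atTop x)
    refine (Set.finite_lt_nat N).subset ?_
    intro n hn
    by_contra hc
    have h1 := hN n (not_lt.1 hc)
    apply hn
    simp only
    rw [if_neg (not_le.2 h1)]

/-- Sum over blocks. -/
theorem h97_blocks {a lam : ℕ → ℝ} (ha : ∀ n, 0 ≤ a n) {C W : ℝ} (hC0 : 0 ≤ C) (F : Finset ℕ)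
    (hC : ∀ x, 0 < x → ∑ n ∈ F, (if lam n ≤ x then a n else 0) ≤ C * x)
    (f : ℕ → ℝ) (b w : ℕ → ℝ) (hb : ∀ k, 0 < b k) (hw : ∀ k, 0 ≤ w k)
    (hW : ∀ K, ∑ k ∈ Finset.range K, w k * b k ≤ W)
    (hf : ∀ n ∈ F, ∃ k, lam n ≤ b k ∧ f n ≤ w k) :
    ∑ n ∈ F, a n * f n ≤ C * W := by
  classical
  choose! κ h1 h2 using hf
  set K := F.sup κ + 1 with hK
  have hκ : ∀ n ∈ F, κ n ∈ Finset.range K := fun n hn =>
    Finset.mem_range.2 (Nat.lt_succ_of_le (Finset.le_sup hn))
  calc ∑ n ∈ F, a n * f n ≤ ∑ n ∈ F, ∑ k ∈ Finset.range K, (if k = κ n then a n * w k else 0) := by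
        refine Finset.sum_le_sum fun n hn => ?_
        rw [Finset.sum_ite_eq' (Finset.range K) (κ n) (fun k => a n * w k), if_pos (hκ n hn)]
        exact mul_le_mul_of_nonneg_left (h2 n hn) (ha n)
    _ = ∑ k ∈ Finset.range K, ∑ n ∈ F, (if k = κ n then a n * w k else 0) := Finset.sum_comm
    _ ≤ ∑ k ∈ Finset.range K, C * (w k * b k) := by
        refine Finset.sum_le_sum fun k _ => ?_
        calc ∑ n ∈ F, (if k = κ n then a n * w k else 0)
            ≤ ∑ n ∈ F, w k * (if lam n ≤ b k then a n else 0) := by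
              refine Finset.sum_le_sum fun n hn => ?_
              by_cases hk : k = κ n
              · rw [if_pos hk, hk, if_pos (h1 n hn), mul_comm]
              · rw [if_neg hk]
                refine mul_nonneg (hw k) ?_
                split_ifs
                · exact ha n
                · exact le_rfl
          _ = w k * ∑ n ∈ F, (if lam n ≤ b k then a n else 0) := by rw [Finset.mul_sum]
          _ ≤ w k * (C * b k) := mul_le_mul_of_nonneg_left (hC _ (hb k)) (hw k)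
          _ = C * (w k * b k) := by ring
    _ = C * ∑ k ∈ Finset.range K, w k * b k := by rw [Finset.mul_sum]
    _ ≤ C * W := mul_le_mul_of_nonneg_left (hW K) hC0

/-- general dyadic bound: `∑ a n min(A lam^{-3/4}, B lam^{-5/4}) ≤ C √(A B)`-type
(crossover `L = (B/A)²`, `A L^{1/4} + B L^{-1/4} = 2 √(AB)`). -/
theorem ThetaPair.sum_min {a lam : ℕ → ℝ} (h : ThetaPair a lam) :
    ∃ C : ℝ, 0 < C ∧ ∀ A B : ℝ, 0 < A → 0 < B →
      Summable (fun n => a n * min (A * lam n ^ (-(3 / 4 : ℝ))) (B * lam n ^ (-(5 / 4 : ℝ)))) ∧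
      ∑' n, a n * min (A * lam n ^ (-(3 / 4 : ℝ))) (B * lam n ^ (-(5 / 4 : ℝ))) ≤ C * √(A * B) := by
  obtain ⟨C, hC0, hC⟩ := h.cnt_le
  set r : ℝ := (1 / 2 : ℝ) ^ (1 / 4 : ℝ) with hr
  have hr0 : 0 < r := by positivity
  have hr1 : r < 1 := Real.rpow_lt_one (by norm_num) (by norm_num) (by norm_num)
  have hr1' : 0 < 1 - r := by linarith
  have hgeom : ∀ K : ℕ, ∑ k ∈ Finset.range K, r ^ k ≤ (1 - r)⁻¹ := fun K =>
    sum_le_hasSum _ (fun k _ => by positivity) (hasSum_geometric_of_lt_one hr0.le hr1)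
  have hhalf : ∀ k : ℕ, (((1 / 2 : ℝ) ^ k) ^ (1 / 4 : ℝ)) = r ^ k := by
    intro k
    rw [hr, ← Real.rpow_natCast, ← Real.rpow_natCast, ← Real.rpow_mul (by norm_num),
      ← Real.rpow_mul (by norm_num), mul_comm]
  refine ⟨4 * C * (1 - r)⁻¹, by positivity, ?_⟩
  intro A B hA hB
  have hfin : ∀ F : Finset ℕ, ∑ n ∈ F, a n * min (A * lam n ^ (-(3 / 4 : ℝ)))
      (B * lam n ^ (-(5 / 4 : ℝ))) ≤ 4 * C * (1 - r)⁻¹ * √(A * B) := by
    intro F
    obtain ⟨L, hL⟩ : ∃ L : ℝ, L = (B / A) ^ 2 := ⟨_, rfl⟩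
    have hL0 : 0 < L := by rw [hL]; positivity
    have hL4 : L ^ (1 / 4 : ℝ) = √(B / A) := by
      rw [hL, Real.sqrt_eq_rpow, ← Real.rpow_natCast, ← Real.rpow_mul (by positivity)]
      norm_num
    have hA4 : A * L ^ (1 / 4 : ℝ) = √(A * B) := by
      have h1 : √(A ^ 2 * (B / A)) = A * √(B / A) := by
        rw [Real.sqrt_mul (by positivity), Real.sqrt_sq hA.le]
      rw [hL4, ← h1]
      congr 1
      field_simp
    have hB4 : B * L ^ (-(1 / 4 : ℝ)) = √(A * B) := by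
      have h1 : √(B ^ 2 * (B / A)⁻¹) = B * √(B / A)⁻¹ := by
        rw [Real.sqrt_mul (by positivity), Real.sqrt_sq hB.le]
      rw [Real.rpow_neg hL0.le, hL4, ← Real.sqrt_inv, ← h1]
      congr 1
      field_simp
    -- small nodes
    have hS : ∑ n ∈ F with lam n ≤ L, a n * lam n ^ (-(3 / 4 : ℝ))
        ≤ C * (2 * L ^ (1 / 4 : ℝ) * (1 - r)⁻¹) := by
      refine h97_blocks h.nonneg hC0.le _ (fun x hx => h97_cnt_fin h hC _ hx) _
        (fun k => L * (1 / 2) ^ k) (fun k => (L * (1 / 2) ^ (k + 1)) ^ (-(3 / 4 : ℝ)))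
        (fun k => by positivity) (fun k => by positivity) ?_ ?_
      · intro K
        have h1 : ∀ k : ℕ, (L * (1 / 2) ^ (k + 1)) ^ (-(3 / 4 : ℝ)) * (L * (1 / 2) ^ k)
            ≤ 2 * L ^ (1 / 4 : ℝ) * r ^ k := by
          intro k
          have h2 : L * (1 / 2) ^ k = 2 * (L * (1 / 2) ^ (k + 1)) := by
            rw [pow_succ]
            ring
          have h3 : (0 : ℝ) < L * (1 / 2) ^ (k + 1) := by positivity
          have h4 : (L * (1 / 2) ^ (k + 1)) ^ (-(3 / 4 : ℝ)) * (L * (1 / 2) ^ (k + 1))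
              = (L * (1 / 2) ^ (k + 1)) ^ (1 / 4 : ℝ) := by
            nth_rewrite 2 [← Real.rpow_one (L * (1 / 2) ^ (k + 1))]
            rw [← Real.rpow_add h3]
            norm_num
          rw [h2, mul_left_comm, h4, Real.mul_rpow hL0.le (by positivity), hhalf, ← mul_assoc]
          refine mul_le_mul_of_nonneg_left ?_ (by positivity)
          exact pow_le_pow_of_le_one hr0.le hr1.le (Nat.le_succ k)
        calc ∑ k ∈ Finset.range K, (L * (1 / 2) ^ (k + 1)) ^ (-(3 / 4 : ℝ)) * (L * (1 / 2) ^ k)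
            ≤ ∑ k ∈ Finset.range K, 2 * L ^ (1 / 4 : ℝ) * r ^ k :=
              Finset.sum_le_sum fun k _ => h1 k
          _ = 2 * L ^ (1 / 4 : ℝ) * ∑ k ∈ Finset.range K, r ^ k := by rw [Finset.mul_sum]
          _ ≤ 2 * L ^ (1 / 4 : ℝ) * (1 - r)⁻¹ :=
              mul_le_mul_of_nonneg_left (hgeom K) (by positivity)
      · intro n hn
        have hn' := (Finset.mem_filter.1 hn).2
        have hp := h.pos n
        obtain ⟨k, hk1, hk2⟩ := exists_nat_pow_near (x := L / lam n) (y := 2)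
          ((one_le_div hp).2 hn') (by norm_num)
        refine ⟨k, ?_, ?_⟩
        · rw [le_div_iff₀ hp] at hk1
          have h2 : (0 : ℝ) < (1 / 2) ^ k := by positivity
          have h3 : (2 : ℝ) ^ k * (1 / 2) ^ k = 1 := by
            rw [← mul_pow]
            norm_num
          calc lam n = (2 ^ k * lam n) * (1 / 2) ^ k := by
                rw [mul_right_comm, h3, one_mul]
            _ ≤ L * (1 / 2) ^ k := mul_le_mul_of_nonneg_right hk1 h2.le
        · refine Real.rpow_le_rpow_of_nonpos (by positivity) ?_ (by norm_num)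
          rw [div_lt_iff₀ hp] at hk2
          have h2 : (0 : ℝ) < (1 / 2) ^ (k + 1) := by positivity
          have h3 : (2 : ℝ) ^ (k + 1) * (1 / 2) ^ (k + 1) = 1 := by
            rw [← mul_pow]
            norm_num
          calc L * (1 / 2) ^ (k + 1) ≤ (2 ^ (k + 1) * lam n) * (1 / 2) ^ (k + 1) :=
                mul_le_mul_of_nonneg_right hk2.le h2.le
            _ = lam n := by rw [mul_right_comm, h3, one_mul]
    -- large nodes
    have hT : ∑ n ∈ F with ¬ lam n ≤ L, a n * lam n ^ (-(5 / 4 : ℝ))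
        ≤ C * (2 * L ^ (-(1 / 4 : ℝ)) * (1 - r)⁻¹) := by
      refine h97_blocks h.nonneg hC0.le _ (fun x hx => h97_cnt_fin h hC _ hx) _
        (fun k => L * 2 ^ (k + 1)) (fun k => (L * 2 ^ k) ^ (-(5 / 4 : ℝ)))
        (fun k => by positivity) (fun k => by positivity) ?_ ?_
      · intro K
        have h1 : ∀ k : ℕ, (L * 2 ^ k) ^ (-(5 / 4 : ℝ)) * (L * 2 ^ (k + 1))
            = 2 * L ^ (-(1 / 4 : ℝ)) * r ^ k := by
          intro k
          have h2 : L * 2 ^ (k + 1) = 2 * (L * 2 ^ k) := by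
            rw [pow_succ]
            ring
          have h3 : (0 : ℝ) < L * 2 ^ k := by positivity
          have h4 : (L * 2 ^ k) ^ (-(5 / 4 : ℝ)) * (L * 2 ^ k)
              = (L * 2 ^ k) ^ (-(1 / 4 : ℝ)) := by
            nth_rewrite 2 [← Real.rpow_one (L * 2 ^ k)]
            rw [← Real.rpow_add h3]
            norm_num
          have h5 : ((2 : ℝ) ^ k) ^ (-(1 / 4 : ℝ)) = r ^ k := by
            rw [← hhalf, Real.rpow_neg (by positivity), ← Real.inv_rpow (by positivity), ← inv_pow]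
            norm_num
          rw [h2, mul_left_comm, h4, Real.mul_rpow hL0.le (by positivity), h5, ← mul_assoc]
        calc ∑ k ∈ Finset.range K, (L * 2 ^ k) ^ (-(5 / 4 : ℝ)) * (L * 2 ^ (k + 1))
            = ∑ k ∈ Finset.range K, 2 * L ^ (-(1 / 4 : ℝ)) * r ^ k :=
              Finset.sum_congr rfl fun k _ => h1 k
          _ = 2 * L ^ (-(1 / 4 : ℝ)) * ∑ k ∈ Finset.range K, r ^ k := by rw [Finset.mul_sum]
          _ ≤ 2 * L ^ (-(1 / 4 : ℝ)) * (1 - r)⁻¹ :=
              mul_le_mul_of_nonneg_left (hgeom K) (by positivity)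
      · intro n hn
        have hn' := not_le.1 (Finset.mem_filter.1 hn).2
        have hp := h.pos n
        obtain ⟨k, hk1, hk2⟩ := exists_nat_pow_near (x := lam n / L) (y := 2)
          ((one_le_div hL0).2 hn'.le) (by norm_num)
        rw [le_div_iff₀ hL0] at hk1
        rw [div_lt_iff₀ hL0] at hk2
        refine ⟨k, by linarith, ?_⟩
        exact Real.rpow_le_rpow_of_nonpos (by positivity) (by linarith) (by norm_num)
    have hsplit := Finset.sum_filter_add_sum_filter_not F (fun n => lam n ≤ L)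
      (fun n => a n * min (A * lam n ^ (-(3 / 4 : ℝ))) (B * lam n ^ (-(5 / 4 : ℝ))))
    rw [← hsplit]
    have hS' : ∑ n ∈ F with lam n ≤ L, a n * min (A * lam n ^ (-(3 / 4 : ℝ)))
        (B * lam n ^ (-(5 / 4 : ℝ))) ≤ A * ∑ n ∈ F with lam n ≤ L, a n * lam n ^ (-(3 / 4 : ℝ)) := by
      rw [Finset.mul_sum]
      refine Finset.sum_le_sum fun n _ => ?_
      calc a n * min (A * lam n ^ (-(3 / 4 : ℝ))) (B * lam n ^ (-(5 / 4 : ℝ)))
          ≤ a n * (A * lam n ^ (-(3 / 4 : ℝ))) :=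
            mul_le_mul_of_nonneg_left (min_le_left _ _) (h.nonneg n)
        _ = A * (a n * lam n ^ (-(3 / 4 : ℝ))) := by ring
    have hT' : ∑ n ∈ F with ¬ lam n ≤ L, a n * min (A * lam n ^ (-(3 / 4 : ℝ)))
        (B * lam n ^ (-(5 / 4 : ℝ))) ≤ B * ∑ n ∈ F with ¬ lam n ≤ L, a n * lam n ^ (-(5 / 4 : ℝ)) := by
      rw [Finset.mul_sum]
      refine Finset.sum_le_sum fun n _ => ?_
      calc a n * min (A * lam n ^ (-(3 / 4 : ℝ))) (B * lam n ^ (-(5 / 4 : ℝ)))
          ≤ a n * (B * lam n ^ (-(5 / 4 : ℝ))) :=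
            mul_le_mul_of_nonneg_left (min_le_right _ _) (h.nonneg n)
        _ = B * (a n * lam n ^ (-(5 / 4 : ℝ))) := by ring
    have hS2 := mul_le_mul_of_nonneg_left hS hA.le
    have hT2 := mul_le_mul_of_nonneg_left hT hB.le
    have e1 : A * (C * (2 * L ^ (1 / 4 : ℝ) * (1 - r)⁻¹)) = 2 * C * (1 - r)⁻¹ * √(A * B) := by
      rw [← hA4]
      ring
    have e2 : B * (C * (2 * L ^ (-(1 / 4 : ℝ)) * (1 - r)⁻¹)) = 2 * C * (1 - r)⁻¹ * √(A * B) := by
      rw [← hB4]
      ring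
    linarith
  have hnn : ∀ n, 0 ≤ a n * min (A * lam n ^ (-(3 / 4 : ℝ))) (B * lam n ^ (-(5 / 4 : ℝ))) := by
    intro n
    have hp := h.pos n
    exact mul_nonneg (h.nonneg n) (le_min (by positivity) (by positivity))
  have hs := summable_of_sum_le hnn hfin
  exact ⟨hs, hs.tsum_le_of_sum_le hfin⟩

end Pool.Agent.LB
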