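import Pool.Agent.Helper76.LB.AB
import Pool.Agent.Helper76.LB.AC
import Pool.Agent.Helper76.LB.AD

set_option autoImplicit false

open Real MeasureTheory Set Filter Topology

namespace Pool.Agent.LB

/-! Block AE: the upper bound. `y = x^{1/3}/2`; majorant `g` = cut-off at `x`, minorant = cut-off at
`x - y`; `Hk g 0 = π ∫ g ∈ [π x, π (x+y)]`. Proof by helper8. -/

private theorem sqrt_aux8 {x y : ℝ} (hx : 0 < x) :
    x ^ (1 / 4 : ℝ) * (x ^ (3 / 4 : ℝ) / y) = x / y := by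
  rw [← mul_div_assoc, ← Real.rpow_add hx]
  norm_num

/-- the smoothed counting function -/
private theorem ThetaPair.cut8 {a lam : ℕ → ℝ} (h : ThetaPair a lam) :
    ∃ K : ℝ, 0 < K ∧ ∀ x y : ℝ, 0 < y → y ≤ x → ∃ g : ℝ → ℝ,
      (∀ u, 0 ≤ g u ∧ g u ≤ 1) ∧ (∀ u, 0 ≤ u → u ≤ x → g u = 1) ∧ (∀ u, x + y ≤ u → g u = 0) ∧
      Summable (fun n => a n * g (lam n)) ∧
      π * x - K * √(x / y) ≤ 1 + ∑' n, a n * g (lam n) ∧
      1 + ∑' n, a n * g (lam n) ≤ π * (x + y) + K * √(x / y) := by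
  obtain ⟨C1, hC1, hcut⟩ := cutoff_exists
  obtain ⟨C2, hC2, hsum⟩ := h.sum_min
  refine ⟨C1 * C2, by positivity, fun x y hy hyx => ?_⟩
  have hx : 0 < x := lt_of_lt_of_le hy hyx
  obtain ⟨g, hgc, hgs, hg01, hg1, hg0, hgH⟩ := hcut x y hy hyx
  obtain ⟨hs1, hs2, heq⟩ := h.summation hgc hgs
  refine ⟨g, hg01, hg1, hg0, hs1, ?_⟩
  have hA : 0 < x ^ (1 / 4 : ℝ) := Real.rpow_pos_of_pos hx _
  have hB : 0 < x ^ (3 / 4 : ℝ) / y := div_pos (Real.rpow_pos_of_pos hx _) hy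
  obtain ⟨hs3, hle3⟩ := hsum _ _ hA hB
  rw [sqrt_aux8 hx] at hle3
  -- the dual sum
  have habs : |∑' n, a n * Hk g (lam n)| ≤ C1 * C2 * √(x / y) := by
    have hb : ∀ n, |a n * Hk g (lam n)| ≤ C1 * (a n *
        min (x ^ (1 / 4 : ℝ) * lam n ^ (-(3 / 4 : ℝ)))
          (x ^ (3 / 4 : ℝ) / y * lam n ^ (-(5 / 4 : ℝ)))) := by
      intro n
      rw [abs_mul, abs_of_nonneg (h.nonneg n)]
      have := mul_le_mul_of_nonneg_left (hgH (lam n) (h.pos n)) (h.nonneg n)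
      linarith
    have h1 : |∑' n, a n * Hk g (lam n)| ≤ ∑' n, |a n * Hk g (lam n)| := by
      have := norm_tsum_le_tsum_norm hs2.norm
      simpa only [Real.norm_eq_abs] using this
    have h2 : ∑' n, |a n * Hk g (lam n)| ≤ ∑' n, C1 * (a n *
        min (x ^ (1 / 4 : ℝ) * lam n ^ (-(3 / 4 : ℝ)))
          (x ^ (3 / 4 : ℝ) / y * lam n ^ (-(5 / 4 : ℝ)))) :=
      hs2.abs.tsum_le_tsum hb (hs3.mul_left _)
    rw [tsum_mul_left] at h2
    have h3 := mul_le_mul_of_nonneg_left hle3 hC1.le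
    linarith
  -- the main term
  have hH0 : Hk g 0 = π * ∫ u in Ioi (0 : ℝ), g u := by
    simp [Hk, Jd_zero]
  have hint : Integrable g := hgc.continuous.integrable_of_hasCompactSupport hgs
  have hup : ∫ u in Ioi (0 : ℝ), g u ≤ x + y := by
    have h1 : ∫ u in Ioi (0 : ℝ), g u = ∫ u in Ioc (0 : ℝ) (x + y), g u := by
      refine setIntegral_eq_of_subset_of_forall_sdiff_eq_zero measurableSet_Ioi
        Ioc_subset_Ioi_self ?_
      intro u hu
      refine hg0 u ?_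
      by_contra hcon
      exact hu.2 ⟨hu.1, (not_le.mp hcon).le⟩
    rw [h1]
    have h2 : ∫ u in Ioc (0 : ℝ) (x + y), g u ≤ ∫ _u in Ioc (0 : ℝ) (x + y), (1 : ℝ) := by
      refine setIntegral_mono hint.integrableOn ?_ (fun u => (hg01 u).2)
      exact integrableOn_const (by simp)
    refine h2.trans (le_of_eq ?_)
    rw [setIntegral_const, smul_eq_mul, mul_one, Real.volume_real_Ioc_of_le (by linarith)]
    ring
  have hlo : x ≤ ∫ u in Ioi (0 : ℝ), g u := by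
    have h2 : ∫ u in Ioc (0 : ℝ) x, g u = x := by
      have h3 : ∫ u in Ioc (0 : ℝ) x, g u = ∫ _u in Ioc (0 : ℝ) x, (1 : ℝ) := by
        refine setIntegral_congr_fun measurableSet_Ioc ?_
        intro u hu
        exact hg1 u hu.1.le hu.2
      rw [h3, setIntegral_const, smul_eq_mul, mul_one, Real.volume_real_Ioc_of_le hx.le]
      ring
    have h4 : ∫ u in Ioc (0 : ℝ) x, g u ≤ ∫ u in Ioi (0 : ℝ), g u := by
      refine setIntegral_mono_set hint.integrableOn ?_ ?_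
      · exact Eventually.of_forall fun u => (hg01 u).1
      · exact Ioc_subset_Ioi_self.eventuallyLE
    linarith
  have hg00 : g 0 = 1 := hg1 0 le_rfl hx.le
  rw [hg00] at heq
  rw [heq, hH0]
  have h5 := abs_le.mp habs
  have h6 := mul_le_mul_of_nonneg_left hup Real.pi_pos.le
  have h7 := mul_le_mul_of_nonneg_left hlo Real.pi_pos.le
  constructor
  · linarith [h5.1]
  · linarith [h5.2]

theorem ThetaPair.upper {a lam : ℕ → ℝ} (h : ThetaPair a lam) :
    ∃ C : ℝ, 0 < C ∧ ∀ x : ℝ, 1 ≤ x → |cnt a lam x - π * x| ≤ C * x ^ (1 / 3 : ℝ) := by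
  obtain ⟨K, hK, hcut⟩ := h.cut8
  refine ⟨π + 2 * K, by positivity, fun x hx => ?_⟩
  have hx0 : 0 < x := by linarith
  obtain ⟨w, hw⟩ : ∃ w : ℝ, w = x ^ (1 / 3 : ℝ) := ⟨_, rfl⟩
  have hw0 : 0 < w := hw ▸ Real.rpow_pos_of_pos hx0 _
  have hw1 : 1 ≤ w := hw ▸ Real.one_le_rpow hx (by norm_num)
  have hw3 : w ^ 3 = x := by
    rw [hw, ← Real.rpow_natCast, ← Real.rpow_mul hx0.le]
    norm_num
  have hwx : w ≤ x := by
    rw [← hw3]
    nlinarith [mul_nonneg hw0.le (sub_nonneg.mpr hw1), mul_nonneg (mul_nonneg hw0.le hw0.le) (sub_nonneg.mpr hw1)]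
  obtain ⟨y, hy⟩ : ∃ y : ℝ, y = w / 2 := ⟨_, rfl⟩
  have hy0 : 0 < y := by rw [hy]; positivity
  have hroot : ∀ z : ℝ, 0 < z → z ≤ x → √(z / y) ≤ 2 * w := by
    intro z hz hzx
    refine Real.sqrt_le_iff.mpr ⟨by positivity, ?_⟩
    rw [div_le_iff₀ hy0, hy]
    have : (2 * w) ^ 2 * (w / 2) = 2 * w ^ 3 := by ring
    rw [this, hw3]
    linarith
  obtain ⟨g1, h101, h11, h10, hsum1, -, hup⟩ := hcut x y hy0 (by rw [hy]; linarith)
  obtain ⟨g2, h201, h21, h20, hsum2, hlo, -⟩ := hcut (x - y) y hy0 (by rw [hy]; linarith)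
  have hle1 : ∀ n, (if lam n ≤ x then a n else 0) ≤ a n * g1 (lam n) := by
    intro n
    split_ifs with hn
    · rw [h11 (lam n) (h.pos n).le hn, mul_one]
    · exact mul_nonneg (h.nonneg n) (h101 _).1
  have hnn : ∀ n, 0 ≤ (if lam n ≤ x then a n else 0) := by
    intro n
    split_ifs
    · exact h.nonneg n
    · exact le_rfl
  have hsumi : Summable (fun n => if lam n ≤ x then a n else 0) :=
    Summable.of_nonneg_of_le hnn hle1 hsum1
  have hle2 : ∀ n, a n * g2 (lam n) ≤ (if lam n ≤ x then a n else 0) := by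
    intro n
    split_ifs with hn
    · have := mul_le_mul_of_nonneg_left (h201 (lam n)).2 (h.nonneg n)
      linarith
    · rw [h20 (lam n) (by linarith [not_le.mp hn]), mul_zero]
  have hA := hsumi.tsum_le_tsum hle1 hsum1
  have hB := hsum2.tsum_le_tsum hle2 hsumi
  have hr1 := mul_le_mul_of_nonneg_left (hroot x hx0 le_rfl) hK.le
  have hr2 := mul_le_mul_of_nonneg_left
    (hroot (x - y) (by rw [hy]; linarith) (by linarith)) hK.le
  have hpy : π * y = π * w / 2 := by rw [hy]; ring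
  have hpw : 0 < π * w := by positivity
  have hc : cnt a lam x = 1 + ∑' n, (if lam n ≤ x then a n else 0) := rfl
  rw [← hw, abs_le, hc]
  constructor
  · nlinarith [hlo, hB, hr2, hpy, hpw]
  · nlinarith [hup, hA, hr1, hpy, hpw]

end Pool.Agent.LB
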