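import Mathlib

/-! LB project (MP_fb29e9): theta pairs, the class of Poisson summation with positive weights.
Definitions. Paper proof: see Plan.md in this folder. -/

set_option autoImplicit false

open Real MeasureTheory Set Filter Topology

namespace Pool.Agent.LB

noncomputable section

/-- `Jd n` is the `n`-th derivative of `z ↦ J₀(2π√z)`, as a power series. -/
def Jd (n : ℕ) (z : ℝ) : ℝ :=
  (-(π ^ 2)) ^ n *
    ∑' k : ℕ, (-(π ^ 2 * z)) ^ k / ((k.factorial : ℝ) * ((k + n).factorial : ℝ))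

/-- `Dk x v = √(x/v) J₁(2π√(xv))`: Fourier transform of the disk `|p|² ≤ x` at `|ξ|² = v`. -/
def Dk (x v : ℝ) : ℝ := -(x / π) * Jd 1 (x * v)

/-- Hankel transform of order 0 in the variables `u = |p|²`, `ρ = |ξ|²`. -/
def Hk (g : ℝ → ℝ) (ρ : ℝ) : ℝ := π * ∫ u in Ioi (0 : ℝ), g u * Jd 0 (u * ρ)

/-- `ν u` is the node of the cell of `u`; cells near `u` have length at most `1/(κu)`. -/
structure NodeMap (κ : ℝ) (ν : ℝ → ℝ) : Prop where
  meas : Measurable ν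
  le : ∀ u, 0 < u → u ≤ ν u
  gap : ∀ u, 0 < u → ν u ≤ u + 1 / (κ * u)

/-- the discretisation operator -/
def Tk (ν G : ℝ → ℝ) (v : ℝ) : ℝ :=
  -(π * ∫ u in Ioi (0 : ℝ), G u * (Jd 0 (ν u * v) - Jd 0 (u * v)))

/-- the counting discrepancy of the nodes -/
def DD (ν : ℝ → ℝ) (x : ℝ) : ℝ := π * ∫ u in Ioi (0 : ℝ), |Dk x (ν u) - Dk x u|

/-- anti-self-dual test functions -/
structure Anti (ψ : ℝ → ℝ) : Prop where
  cont : Continuous ψ
  int : IntegrableOn ψ (Ioi 0)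
  anti : ∀ ρ, 0 ≤ ρ → Hk ψ ρ = -ψ ρ

/-- the measure `δ₀ + π w(u) du` is self-dual -/
def SelfDual (w : ℝ → ℝ) : Prop :=
  ∀ ψ, Anti ψ → ψ 0 + π * ∫ u in Ioi (0 : ℝ), w u * ψ u = 0

/-- `gp x y = 1` on `(x-y, x]`, `-1` on `(x, x+y]`, `0` elsewhere. -/
def gp (x y u : ℝ) : ℝ :=
  (if x - y < u ∧ u ≤ x then 1 else 0) - (if x < u ∧ u ≤ x + y then 1 else 0)

/-- Theta pairs: nonnegative weights `a n` at frequencies `lam n > 0`, `lam n → ∞`, such that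
`Θ(t) = 1 + ∑ a n e^{-π lam n t}` converges and satisfies `Θ(1/t) = t Θ(t)` for `t > 0`. -/
structure ThetaPair (a lam : ℕ → ℝ) : Prop where
  nonneg : ∀ n, 0 ≤ a n
  pos : ∀ n, 0 < lam n
  tends : Tendsto lam atTop atTop
  summ : ∀ t : ℝ, 0 < t → Summable (fun n => a n * Real.exp (-(π * lam n * t)))
  theta : ∀ t : ℝ, 0 < t →
    1 + ∑' n, a n * Real.exp (-(π * lam n / t)) =
      t * (1 + ∑' n, a n * Real.exp (-(π * lam n * t)))

/-- `cnt a lam x = 1 + ∑_{lam n ≤ x} a n` -/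
def cnt (a lam : ℕ → ℝ) (x : ℝ) : ℝ := 1 + ∑' n, if lam n ≤ x then a n else 0

/-- the error in the disk of radius `R` -/
def err (a lam : ℕ → ℝ) (R : ℝ) : ℝ := cnt a lam (R ^ 2) - π * R ^ 2

/-- growth exponent of the error -/
def expo (a lam : ℕ → ℝ) : ℝ :=
  sInf {θ : ℝ | 0 ≤ θ ∧ ∃ C : ℝ, ∀ R : ℝ, 1 ≤ R → |err a lam R| ≤ C * R ^ θ}

end

end Pool.Agent.LB
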