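import Pool.Agent.Helper76.LB.KC

set_option autoImplicit false

open Real MeasureTheory Set Filter Topology

namespace Pool.Agent.LB

/-! Block KD: exponentially dense nodes. `∫_0^{x^ε}` of the first bound is `4 Cb x^{1/4 + ε/4}`;
for `u ≥ x^ε` use `x^{3/4} 2 e^{-u} u^{-5/4}` (or split at `1 + log x`). -/

theorem DD_exp {κ : ℝ} {ν : ℝ → ℝ} (hκ : 0 < κ) (h : NodeMap κ ν)
    (hexp : ∀ u, 0 < u → ν u - u ≤ 2 * Real.exp (-u)) {ε : ℝ} (hε : 0 < ε) :
    ∃ C : ℝ, 0 < C ∧ ∀ x : ℝ, 1 ≤ x → DD ν x ≤ C * x ^ (1 / 4 + ε : ℝ) := by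
  have hCb := Cb_pos
  obtain ⟨C1, hC1, hDD⟩ := DD_bound
  set s : ℝ := min (2 * ε) 1 with hs
  have hs0 : 0 < s := lt_min (by linarith) one_pos
  have hs1 : s ≤ 1 := min_le_right _ _
  have hs2 : s ≤ 2 * ε := min_le_left _ _
  refine ⟨π * (4 * Cb + 2 * Cb * (1 / s)), by positivity, ?_⟩
  intro x hx
  have hx0 : 0 < x := by linarith
  obtain ⟨hI, -⟩ := hDD κ hκ ν h x hx0
  have hIa : IntegrableOn (fun u => |Dk x (ν u) - Dk x u|) (Ioi 0) := hI.abs
  set A : ℝ := Cb * x ^ (1 / 4 : ℝ) with hA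
  set K : ℝ := 2 * Cb * x ^ (1 / 4 + s / 2 : ℝ) with hK
  have hA0 : 0 < A := by positivity
  have hK0 : 0 < K := by positivity
  have hunion : Ioc (0 : ℝ) 1 ∪ Ioi 1 = Ioi (0 : ℝ) := Ioc_union_Ioi_eq_Ioi zero_le_one
  have i1 : IntegrableOn (fun u => |Dk x (ν u) - Dk x u|) (Ioc 0 1) :=
    hIa.mono_set Ioc_subset_Ioi_self
  have i2 : IntegrableOn (fun u => |Dk x (ν u) - Dk x u|) (Ioi 1) :=
    hIa.mono_set (Ioi_subset_Ioi zero_le_one)
  have hsplit : ∫ u in Ioi (0 : ℝ), |Dk x (ν u) - Dk x u| =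
      (∫ u in Ioc (0 : ℝ) 1, |Dk x (ν u) - Dk x u|) + ∫ u in Ioi (1 : ℝ), |Dk x (ν u) - Dk x u| := by
    rw [← hunion]
    exact setIntegral_union (Set.disjoint_left.2 fun u hu hu' => not_lt.2 hu.2 hu')
      measurableSet_Ioi i1 i2
  have g1 : IntegrableOn (fun u : ℝ => A * u ^ (-(3 / 4) : ℝ)) (Ioc 0 1) := by
    have h1 := intervalIntegral.intervalIntegrable_rpow' (a := 0) (b := 1) (r := -(3 / 4))
      (by norm_num)
    rw [intervalIntegrable_iff_integrableOn_Ioc_of_le zero_le_one] at h1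
    exact h1.const_mul A
  have b1 : ∫ u in Ioc (0 : ℝ) 1, |Dk x (ν u) - Dk x u| ≤ 4 * A := by
    calc ∫ u in Ioc (0 : ℝ) 1, |Dk x (ν u) - Dk x u|
        ≤ ∫ u in Ioc (0 : ℝ) 1, A * u ^ (-(3 / 4) : ℝ) := by
          refine setIntegral_mono_on i1 g1 measurableSet_Ioc fun u hu => ?_
          exact le_trans (D_diff hκ h hx0 hu.1) (min_le_left _ _)
      _ = A * ∫ u in Ioc (0 : ℝ) 1, u ^ (-(3 / 4) : ℝ) := integral_const_mul _ _
      _ = 4 * A := by
          rw [← intervalIntegral.integral_of_le zero_le_one,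
            integral_rpow (Or.inl (by norm_num))]
          norm_num
          ring
  have g2 : IntegrableOn (fun u : ℝ => K * Real.exp (-s * u)) (Ioi 1) :=
    (exp_neg_integrableOn_Ioi 1 hs0).const_mul K
  have b2 : ∫ u in Ioi (1 : ℝ), |Dk x (ν u) - Dk x u| ≤ K * (1 / s) := by
    calc ∫ u in Ioi (1 : ℝ), |Dk x (ν u) - Dk x u|
        ≤ ∫ u in Ioi (1 : ℝ), K * Real.exp (-s * u) := by
          refine setIntegral_mono_on i2 g2 measurableSet_Ioi fun u hu => ?_
          have hu1 : (1 : ℝ) < u := hu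
          have hu0 : 0 < u := by linarith
          set y : ℝ := |Dk x (ν u) - Dk x u| with hy
          have hy0 : 0 ≤ y := abs_nonneg _
          have hD := D_diff hκ h hx0 hu0
          have e3 : u ^ (-(3 / 4) : ℝ) ≤ 1 :=
            Real.rpow_le_one_of_one_le_of_nonpos hu1.le (by norm_num)
          have e5 : u ^ (-(5 / 4) : ℝ) ≤ 1 :=
            Real.rpow_le_one_of_one_le_of_nonpos hu1.le (by norm_num)
          have p5 : 0 < u ^ (-(5 / 4) : ℝ) := Real.rpow_pos_of_pos hu0 _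
          have hya : y ≤ A := by
            refine le_trans hD (le_trans (min_le_left _ _) ?_)
            calc Cb * x ^ (1 / 4 : ℝ) * u ^ (-(3 / 4) : ℝ) ≤ Cb * x ^ (1 / 4 : ℝ) * 1 := by gcongr
              _ = A := by rw [mul_one]
          set B : ℝ := 2 * Cb * x ^ (3 / 4 : ℝ) * Real.exp (-u) with hB
          have hB0 : 0 < B := by positivity
          have hyb : y ≤ B := by
            refine le_trans hD (le_trans (min_le_right _ _) ?_)
            calc Cb * (ν u - u) * x ^ (3 / 4 : ℝ) * u ^ (-(5 / 4) : ℝ)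
                ≤ Cb * (2 * Real.exp (-u)) * x ^ (3 / 4 : ℝ) * 1 := by
                  gcongr
                  · exact hexp u hu0
              _ = B := by rw [hB]; ring
          have hyy : y = y ^ (1 - s) * y ^ s := by
            rcases hy0.eq_or_lt with h0 | h0
            · rw [← h0, Real.zero_rpow hs0.ne', mul_zero]
            · rw [← Real.rpow_add h0]; norm_num
          have hAs : A ^ (1 - s) * B ^ s ≤ K * Real.exp (-s * u) := by
            have q1 : A ^ (1 - s) = Cb ^ (1 - s) * x ^ ((1 - s) / 4) := by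
              rw [hA, Real.mul_rpow hCb.le (by positivity), ← Real.rpow_mul hx0.le]
              congr 2
              ring
            have q2 : B ^ s = 2 ^ s * Cb ^ s * x ^ (3 / 4 * s) * Real.exp (-s * u) := by
              rw [hB, Real.mul_rpow (by positivity) (Real.exp_pos _).le,
                Real.mul_rpow (by positivity) (by positivity),
                Real.mul_rpow (by norm_num) hCb.le, ← Real.rpow_mul hx0.le, ← Real.exp_mul]
              congr 2
              ring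
            have q3 : Cb ^ (1 - s) * Cb ^ s = Cb := by
              rw [← Real.rpow_add hCb]; norm_num
            have q4 : x ^ ((1 - s) / 4) * x ^ (3 / 4 * s) = x ^ (1 / 4 + s / 2 : ℝ) := by
              rw [← Real.rpow_add hx0]; congr 1; ring
            have q5 : (2 : ℝ) ^ s ≤ 2 := by
              calc (2 : ℝ) ^ s ≤ 2 ^ (1 : ℝ) := Real.rpow_le_rpow_of_exponent_le (by norm_num) hs1
                _ = 2 := Real.rpow_one 2
            calc A ^ (1 - s) * B ^ s
                = 2 ^ s * (Cb ^ (1 - s) * Cb ^ s) * (x ^ ((1 - s) / 4) * x ^ (3 / 4 * s)) *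
                    Real.exp (-s * u) := by rw [q1, q2]; ring
              _ = 2 ^ s * Cb * x ^ (1 / 4 + s / 2 : ℝ) * Real.exp (-s * u) := by rw [q3, q4]
              _ ≤ 2 * Cb * x ^ (1 / 4 + s / 2 : ℝ) * Real.exp (-s * u) := by gcongr
              _ = K * Real.exp (-s * u) := by rw [hK]
          calc y = y ^ (1 - s) * y ^ s := hyy
            _ ≤ A ^ (1 - s) * B ^ s := by
                have r1 : y ^ (1 - s) ≤ A ^ (1 - s) :=
                  Real.rpow_le_rpow hy0 hya (by linarith)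
                have r2 : y ^ s ≤ B ^ s := Real.rpow_le_rpow hy0 hyb hs0.le
                exact mul_le_mul r1 r2 (by positivity) (by positivity)
            _ ≤ K * Real.exp (-s * u) := hAs
      _ = K * ∫ u in Ioi (1 : ℝ), Real.exp (-s * u) := integral_const_mul _ _
      _ ≤ K * (1 / s) := by
          rw [integral_exp_mul_Ioi (by linarith : -s < 0) 1]
          have e1 : Real.exp (-s * 1) ≤ 1 := Real.exp_le_one_iff.2 (by linarith)
          have e2 : -Real.exp (-s * 1) / -s ≤ 1 / s := by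
            rw [neg_div_neg_eq]
            gcongr
          exact mul_le_mul_of_nonneg_left e2 hK0.le
  have hxa : x ^ (1 / 4 : ℝ) ≤ x ^ (1 / 4 + ε : ℝ) :=
    Real.rpow_le_rpow_of_exponent_le hx (by linarith)
  have hxk : x ^ (1 / 4 + s / 2 : ℝ) ≤ x ^ (1 / 4 + ε : ℝ) :=
    Real.rpow_le_rpow_of_exponent_le hx (by linarith)
  unfold DD
  rw [hsplit]
  calc π * ((∫ u in Ioc (0 : ℝ) 1, |Dk x (ν u) - Dk x u|) +
        ∫ u in Ioi (1 : ℝ), |Dk x (ν u) - Dk x u|)
      ≤ π * (4 * A + K * (1 / s)) := by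
        exact mul_le_mul_of_nonneg_left (add_le_add b1 b2) Real.pi_pos.le
    _ = π * (4 * Cb * x ^ (1 / 4 : ℝ) + 2 * Cb * (1 / s) * x ^ (1 / 4 + s / 2 : ℝ)) := by
        rw [hA, hK]; ring
    _ ≤ π * (4 * Cb * x ^ (1 / 4 + ε : ℝ) + 2 * Cb * (1 / s) * x ^ (1 / 4 + ε : ℝ)) := by
        gcongr
    _ = π * (4 * Cb + 2 * Cb * (1 / s)) * x ^ (1 / 4 + ε : ℝ) := by ring

end Pool.Agent.LB
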