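import Pool.Agent.Helper76.LB.TA

set_option autoImplicit false

open Real MeasureTheory Set Filter Topology

namespace Pool.Agent.LB

/-! Block TC: Neumann series. `G₀ = w`, `G_{k+1} = -T G_k`, `|G_k| ≤ (5/4) q^k`, `q ≤ 1/8`;
`G = ∑ G_k` on `(0,∞)`; `T` of the sum is the sum of `T` (dominated convergence, `K_int`). -/

private theorem tc_int {κ : ℝ} {ν G : ℝ → ℝ} (hκ : 0 < κ) (h : NodeMap κ ν) (hG : Measurable G)
    {B : ℝ} (hB : ∀ u, 0 < u → |G u| ≤ B) {v : ℝ} (hv : 0 < v) :
    IntegrableOn (fun u => G u * (Jd 0 (ν u * v) - Jd 0 (u * v))) (Ioi 0) := by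
  have h1 := K_int hκ h hv
  have h2 : Integrable (fun u => B * ‖Jd 0 (ν u * v) - Jd 0 (u * v)‖) (volume.restrict (Ioi 0)) :=
    h1.norm.const_mul B
  refine h2.mono' (hG.aestronglyMeasurable.mul h1.aestronglyMeasurable) ?_
  filter_upwards [ae_restrict_mem measurableSet_Ioi] with u hu
  rw [norm_mul]
  exact mul_le_mul_of_nonneg_right (hB u hu) (norm_nonneg _)

private theorem tc_add {κ : ℝ} {ν F G : ℝ → ℝ} (hκ : 0 < κ) (h : NodeMap κ ν) (hF : Measurable F)
    (hG : Measurable G) {A B : ℝ} (hA : ∀ u, 0 < u → |F u| ≤ A) (hB : ∀ u, 0 < u → |G u| ≤ B)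
    {v : ℝ} (hv : 0 < v) : Tk ν (fun u => F u + G u) v = Tk ν F v + Tk ν G v := by
  have i1 := tc_int hκ h hF hA hv
  have i2 := tc_int hκ h hG hB hv
  unfold Tk
  have e : ∫ u in Ioi (0 : ℝ), (F u + G u) * (Jd 0 (ν u * v) - Jd 0 (u * v))
      = (∫ u in Ioi (0 : ℝ), F u * (Jd 0 (ν u * v) - Jd 0 (u * v)))
        + ∫ u in Ioi (0 : ℝ), G u * (Jd 0 (ν u * v) - Jd 0 (u * v)) := by
    rw [← integral_add i1 i2]
    congr 1
    funext u
    ring
  rw [e]; ring

theorem neumann {κ : ℝ} {ν w : ℝ → ℝ} (hκ : 0 < κ) (h : NodeMap κ ν) (hq : C0 / √κ ≤ 1 / 8)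
    (hw : Measurable w) (hwb : ∀ u, 0 < u → |w u| ≤ 5 / 4) :
    ∃ G : ℝ → ℝ, Measurable G ∧ (∀ u, 0 < u → |G u - w u| ≤ 1 / 4) ∧
      ∀ v, 0 < v → G v + Tk ν G v = w v := by
  classical
  let Gs : ℕ → ℝ → ℝ := fun k => Nat.rec w (fun _ G v => -Tk ν G v) k
  have hGs0 : Gs 0 = w := rfl
  have hGsS : ∀ k, Gs (k + 1) = fun v => -Tk ν (Gs k) v := fun k => rfl
  have hm : ∀ k, Measurable (Gs k) := by
    intro k
    induction k with
    | zero => exact hw
    | succ k ih => rw [hGsS]; exact (Tk_measurable h.meas ih).neg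
  have hb : ∀ k u, 0 < u → |Gs k u| ≤ 5 / 4 * (1 / 8) ^ k := by
    intro k
    induction k with
    | zero => intro u hu; rw [hGs0, pow_zero, mul_one]; exact hwb u hu
    | succ k ih =>
      intro u hu
      rw [hGsS]
      change |-Tk ν (Gs k) u| ≤ _
      rw [abs_neg]
      have h1 := Tk_abs_le hκ h (hm k) ih hu
      refine h1.trans ?_
      rw [pow_succ, ← mul_assoc]
      exact mul_le_mul_of_nonneg_left hq (by positivity)
  set S : ℕ → ℝ → ℝ := fun n u => ∑ k ∈ Finset.range n, Gs k u with hS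
  have hSm : ∀ n, Measurable (S n) := fun n => Finset.measurable_fun_sum _ fun k _ => hm k
  have hsum : ∀ u, 0 < u → Summable fun k => Gs k u := by
    intro u hu
    refine Summable.of_norm_bounded (g := fun k : ℕ => 5 / 4 * (1 / 8 : ℝ) ^ k) ?_ fun k => hb k u hu
    exact (summable_geometric_of_lt_one (by norm_num) (by norm_num)).mul_left _
  set G : ℝ → ℝ := fun u => if 0 < u then ∑' k, Gs k u else 0 with hG
  have hGu : ∀ u, 0 < u → G u = ∑' k, Gs k u := fun u hu => if_pos hu
  have hrem : ∀ n u, 0 < u → |G u - S n u| ≤ 10 / 7 * (1 / 8) ^ n := by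
    intro n u hu
    have h1 := norm_sub_le_of_geometric_bound_of_hasSum (r := 1 / 8) (C := 5 / 4)
      (f := fun k => Gs k u) (by norm_num) (fun k => hb k u hu) (hsum u hu).hasSum n
    rw [hGu u hu, abs_sub_comm]
    refine h1.trans (le_of_eq ?_)
    ring
  have hSb : ∀ n u, 0 < u → |S n u| ≤ 5 / 4 * n := by
    intro n u hu
    calc |S n u| ≤ ∑ k ∈ Finset.range n, |Gs k u| := Finset.abs_sum_le_sum_abs _ _
      _ ≤ ∑ k ∈ Finset.range n, (5 / 4 : ℝ) := by
          refine Finset.sum_le_sum fun k _ => (hb k u hu).trans ?_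
          have : (1 / 8 : ℝ) ^ k ≤ 1 := pow_le_one₀ (by norm_num) (by norm_num)
          linarith
      _ = 5 / 4 * n := by rw [Finset.sum_const, Finset.card_range, nsmul_eq_mul]; ring
  have hGm : Measurable G := by
    have hlim : Tendsto (fun (n : ℕ) (u : ℝ) => if 0 < u then S n u else 0) atTop (𝓝 G) := by
      rw [tendsto_pi_nhds]
      intro u
      by_cases hu : 0 < u
      · simp only [hG, if_pos hu]
        exact (hsum u hu).hasSum.tendsto_sum_nat
      · simp only [hG, if_neg hu]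
        exact tendsto_const_nhds
    exact measurable_of_tendsto_metrizable
      (fun n => Measurable.ite measurableSet_Ioi (hSm n) measurable_const) hlim
  have hTS : ∀ n v, 0 < v → Tk ν (S n) v = w v - S (n + 1) v := by
    intro n v hv
    induction n with
    | zero =>
      have e1 : S 0 = fun _ => 0 := by funext u; simp [hS]
      have e2 : S 1 v = w v := by simp [hS, hGs0]
      rw [e1, zero_add, e2, sub_self]
      unfold Tk
      simp
    | succ n ih =>
      have e1 : S (n + 1) = fun u => S n u + Gs n u := by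
        funext u; simp only [hS]; rw [Finset.sum_range_succ]
      have e2 : S (n + 1 + 1) v = S (n + 1) v + Gs (n + 1) v := by
        simp only [hS]; rw [Finset.sum_range_succ]
      have e3 : Gs (n + 1) v = -Tk ν (Gs n) v := by rw [hGsS]
      have e4 := tc_add hκ h (hSm n) (hm n) (hSb n) (hb n) hv
      rw [e2, e3]
      conv_lhs => rw [e1]
      rw [e4, ih]
      ring
  refine ⟨G, hGm, fun u hu => ?_, fun v hv => ?_⟩
  · have h1 := hrem 1 u hu
    have e2 : S 1 u = w u := by simp [hS, hGs0]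
    rw [e2] at h1
    refine h1.trans (by norm_num)
  · have hlim1 : Tendsto (fun n => S (n + 1) v) atTop (𝓝 (G v)) := by
      rw [hGu v hv]
      exact ((hsum v hv).hasSum.tendsto_sum_nat).comp (tendsto_add_atTop_nat 1)
    have hlim2 : Tendsto (fun n => Tk ν (S n) v) atTop (𝓝 (Tk ν G v)) := by
      rw [tendsto_iff_norm_sub_tendsto_zero]
      have hbd : ∀ n, ‖Tk ν (S n) v - Tk ν G v‖ ≤ 10 / 7 * (1 / 8 : ℝ) ^ n := by
        intro n
        have e1 : G = fun u => S n u + (G u - S n u) := by funext u; ring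
        have hdm : Measurable fun u => G u - S n u := hGm.sub (hSm n)
        have e4 := tc_add hκ h (hSm n) hdm (hSb n) (hrem n) hv
        rw [← e1] at e4
        have e5 := Tk_abs_le hκ h hdm (hrem n) hv
        rw [e4, sub_add_cancel_left, norm_neg, Real.norm_eq_abs]
        refine e5.trans ?_
        have h6 : 10 / 7 * (1 / 8 : ℝ) ^ n * (C0 / √κ) ≤ 10 / 7 * (1 / 8 : ℝ) ^ n * 1 :=
          mul_le_mul_of_nonneg_left (hq.trans (by norm_num)) (by positivity)
        linarith
      refine squeeze_zero (fun _ => norm_nonneg _) hbd ?_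
      have := (tendsto_pow_atTop_nhds_zero_of_lt_one (r := (1 / 8 : ℝ)) (by norm_num)
        (by norm_num)).const_mul (10 / 7)
      rwa [mul_zero] at this
    have hlim3 : Tendsto (fun n => Tk ν (S n) v) atTop (𝓝 (w v - G v)) := by
      refine (tendsto_const_nhds.sub hlim1).congr fun n => ?_
      rw [hTS n v hv]
    have := tendsto_nhds_unique hlim2 hlim3
    linarith

end Pool.Agent.LB
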