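import Mathlib

set_option autoImplicit false

open Real MeasureTheory Set Filter Topology

namespace Pool.Agent.LB

/-! Block KA: an elementary integral. Split at `u₀ = (B/A)^{1/(q-p)}`. -/

theorem int_min (p q A B : ℝ) (hp : p < 1) (hq : 1 < q) (hA : 0 < A) (hB : 0 < B) :
    IntegrableOn (fun u : ℝ => min (A * u ^ (-p)) (B * u ^ (-q))) (Ioi 0) ∧
      ∫ u in Ioi (0 : ℝ), min (A * u ^ (-p)) (B * u ^ (-q)) ≤
        (1 / (1 - p) + 1 / (q - 1)) * (A ^ ((q - 1) / (q - p)) * B ^ ((1 - p) / (q - p))) := by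
  set c : ℝ := (B / A) ^ (1 / (q - p)) with hc
  have hBA : 0 < B / A := div_pos hB hA
  have hc0 : 0 < c := Real.rpow_pos_of_pos hBA _
  have hqp : 0 < q - p := by linarith
  set f : ℝ → ℝ := fun u => min (A * u ^ (-p)) (B * u ^ (-q)) with hf
  have hfm : Measurable f := by
    have h1 : Measurable (fun u : ℝ => A * u ^ (-p)) := (measurable_id.pow_const (-p)).const_mul A
    have h2 : Measurable (fun u : ℝ => B * u ^ (-q)) := (measurable_id.pow_const (-q)).const_mul B
    exact h1.min h2
  have hf0 : ∀ u, 0 < u → 0 ≤ f u := by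
    intro u hu
    have h1 := Real.rpow_pos_of_pos hu (-p)
    have h2 := Real.rpow_pos_of_pos hu (-q)
    exact le_min (by positivity) (by positivity)
  -- the two dominating functions
  have g1 : IntegrableOn (fun u : ℝ => A * u ^ (-p)) (Ioc 0 c) := by
    have h := intervalIntegral.intervalIntegrable_rpow' (a := 0) (b := c) (r := -p) (by linarith)
    rw [intervalIntegrable_iff_integrableOn_Ioc_of_le hc0.le] at h
    exact h.const_mul A
  have g2 : IntegrableOn (fun u : ℝ => B * u ^ (-q)) (Ioi c) := by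
    have h := integrableOn_Ioi_rpow_of_lt (a := -q) (by linarith) hc0
    exact h.const_mul B
  have i1 : IntegrableOn f (Ioc 0 c) := by
    refine Integrable.mono' g1 hfm.aestronglyMeasurable ?_
    refine (ae_restrict_iff' measurableSet_Ioc).2 (Filter.Eventually.of_forall fun u hu => ?_)
    rw [Real.norm_of_nonneg (hf0 u hu.1)]
    exact min_le_left _ _
  have i2 : IntegrableOn f (Ioi c) := by
    refine Integrable.mono' g2 hfm.aestronglyMeasurable ?_
    refine (ae_restrict_iff' measurableSet_Ioi).2 (Filter.Eventually.of_forall fun u hu => ?_)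
    rw [Real.norm_of_nonneg (hf0 u (hc0.trans hu))]
    exact min_le_right _ _
  have hunion : Ioc 0 c ∪ Ioi c = Ioi (0 : ℝ) := Ioc_union_Ioi_eq_Ioi hc0.le
  have hint : IntegrableOn f (Ioi 0) := by
    rw [← hunion]; exact i1.union i2
  refine ⟨hint, ?_⟩
  have hsplit : ∫ u in Ioi (0 : ℝ), f u = (∫ u in Ioc 0 c, f u) + ∫ u in Ioi c, f u := by
    rw [← hunion]
    exact setIntegral_union (Set.disjoint_left.2 fun u hu hu' => not_lt.2 hu.2 hu')
      measurableSet_Ioi i1 i2
  have b1 : ∫ u in Ioc 0 c, f u ≤ A * (c ^ (1 - p) / (1 - p)) := by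
    calc ∫ u in Ioc 0 c, f u ≤ ∫ u in Ioc 0 c, A * u ^ (-p) := by
          refine setIntegral_mono_on i1 g1 measurableSet_Ioc fun u _ => min_le_left _ _
      _ = A * ∫ u in Ioc 0 c, u ^ (-p) := integral_const_mul _ _
      _ = A * (c ^ (1 - p) / (1 - p)) := by
          rw [← intervalIntegral.integral_of_le hc0.le, integral_rpow (Or.inl (by linarith))]
          have e1 : -p + 1 = 1 - p := by ring
          rw [e1, Real.zero_rpow (by linarith), sub_zero]
  have b2 : ∫ u in Ioi c, f u ≤ B * (c ^ (1 - q) / (q - 1)) := by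
    calc ∫ u in Ioi c, f u ≤ ∫ u in Ioi c, B * u ^ (-q) := by
          refine setIntegral_mono_on i2 g2 measurableSet_Ioi fun u _ => min_le_right _ _
      _ = B * ∫ u in Ioi c, u ^ (-q) := integral_const_mul _ _
      _ = B * (c ^ (1 - q) / (q - 1)) := by
          rw [integral_Ioi_rpow_of_lt (by linarith) hc0]
          have e1 : -q + 1 = 1 - q := by ring
          have e2 : (1 - q) = -(q - 1) := by ring
          rw [e1]
          congr 1
          rw [div_eq_div_iff (by linarith) (by linarith)]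
          rw [e2]
          ring
  have e1 : A * c ^ (1 - p) = A ^ ((q - 1) / (q - p)) * B ^ ((1 - p) / (q - p)) := by
    rw [hc, ← Real.rpow_mul hBA.le, Real.div_rpow hB.le hA.le]
    have h1 : 1 / (q - p) * (1 - p) = (1 - p) / (q - p) := by ring
    rw [h1]
    have h2 : (q - 1) / (q - p) = 1 - (1 - p) / (q - p) := by field_simp; ring
    rw [h2, Real.rpow_sub hA, Real.rpow_one]
    ring
  have e2 : B * c ^ (1 - q) = A ^ ((q - 1) / (q - p)) * B ^ ((1 - p) / (q - p)) := by
    rw [hc, ← Real.rpow_mul hBA.le, Real.div_rpow hB.le hA.le]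
    have h1 : 1 / (q - p) * (1 - q) = -((q - 1) / (q - p)) := by ring
    rw [h1]
    have h2 : (1 - p) / (q - p) = 1 + -((q - 1) / (q - p)) := by field_simp; ring
    rw [h2, Real.rpow_add hB, Real.rpow_one, Real.rpow_neg hA.le]
    field_simp
  rw [hsplit]
  calc (∫ u in Ioc 0 c, f u) + ∫ u in Ioi c, f u
      ≤ A * (c ^ (1 - p) / (1 - p)) + B * (c ^ (1 - q) / (q - 1)) := add_le_add b1 b2
    _ = (A * c ^ (1 - p)) * (1 / (1 - p)) + (B * c ^ (1 - q)) * (1 / (q - 1)) := by ring
    _ = _ := by rw [e1, e2]; ring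

end Pool.Agent.LB
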