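import Pool.Agent.Helper76.LB.JE
import Pool.Agent.Helper76.LB.KA

set_option autoImplicit false

open Real MeasureTheory Set Filter Topology

namespace Pool.Agent.LB

/-! Block KC: discrepancy of the nodes. -/

/-- `Dk_abs_le` (and `2/π ≤ 1`); mean value theorem with `Dk_hasDerivAt` and `J2_decay`. -/
theorem D_diff {κ : ℝ} {ν : ℝ → ℝ} (hκ : 0 < κ) (h : NodeMap κ ν) {x u : ℝ} (hx : 0 < x)
    (hu : 0 < u) :
    |Dk x (ν u) - Dk x u| ≤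
      min (Cb * x ^ (1 / 4 : ℝ) * u ^ (-(3 / 4 : ℝ)))
        (Cb * (ν u - u) * x ^ (3 / 4 : ℝ) * u ^ (-(5 / 4 : ℝ))) := by
  have hle : u ≤ ν u := h.le u hu
  have hν : 0 < ν u := lt_of_lt_of_le hu hle
  have hCb := Cb_pos
  have hpi : (0 : ℝ) < π := Real.pi_pos
  have hpi2 : 2 / π ≤ 1 := by
    rw [div_le_one hpi]
    linarith [Real.pi_gt_three]
  have hpi1 : 1 / π ≤ 1 := by
    rw [div_le_one hpi]
    linarith [Real.pi_gt_three]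
  refine le_min ?_ ?_
  · have h1 := Dk_abs_le hx hν
    have h2 := Dk_abs_le hx hu
    have h3 : (ν u) ^ (-(3 / 4 : ℝ)) ≤ u ^ (-(3 / 4 : ℝ)) :=
      Real.rpow_le_rpow_of_nonpos hu hle (by norm_num)
    have hx4 : 0 < x ^ (1 / 4 : ℝ) := Real.rpow_pos_of_pos hx _
    have hu4 : 0 < u ^ (-(3 / 4 : ℝ)) := Real.rpow_pos_of_pos hu _
    have h4 : Cb / π * (x ^ (1 / 4 : ℝ) * (ν u) ^ (-(3 / 4 : ℝ))) ≤
        Cb / π * (x ^ (1 / 4 : ℝ) * u ^ (-(3 / 4 : ℝ))) := by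
      gcongr
    calc |Dk x (ν u) - Dk x u| ≤ |Dk x (ν u)| + |Dk x u| := abs_sub _ _
      _ ≤ Cb / π * (x ^ (1 / 4 : ℝ) * u ^ (-(3 / 4 : ℝ))) +
          Cb / π * (x ^ (1 / 4 : ℝ) * u ^ (-(3 / 4 : ℝ))) := by linarith
      _ = (2 / π) * (Cb * x ^ (1 / 4 : ℝ) * u ^ (-(3 / 4 : ℝ))) := by ring
      _ ≤ 1 * (Cb * x ^ (1 / 4 : ℝ) * u ^ (-(3 / 4 : ℝ))) := by
          exact mul_le_mul_of_nonneg_right hpi2 (by positivity)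
      _ = Cb * x ^ (1 / 4 : ℝ) * u ^ (-(3 / 4 : ℝ)) := one_mul _
  · have hbound : ∀ v ∈ Icc u (ν u), ‖-(x ^ 2 / π) * Jd 2 (x * v)‖ ≤
        Cb * x ^ (3 / 4 : ℝ) * u ^ (-(5 / 4 : ℝ)) := by
      intro v hv
      have hv0 : 0 < v := lt_of_lt_of_le hu hv.1
      have h1 := J2_decay (mul_pos hx hv0)
      have h2 : (x * v) ^ (-(5 / 4 : ℝ)) = x ^ (-(5 / 4 : ℝ)) * v ^ (-(5 / 4 : ℝ)) :=
        Real.mul_rpow hx.le hv0.le
      have h3 : v ^ (-(5 / 4 : ℝ)) ≤ u ^ (-(5 / 4 : ℝ)) :=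
        Real.rpow_le_rpow_of_nonpos hu hv.1 (by norm_num)
      have h4 : x ^ 2 * x ^ (-(5 / 4 : ℝ)) = x ^ (3 / 4 : ℝ) := by
        rw [← Real.rpow_natCast x 2, ← Real.rpow_add hx]
        norm_num
      have hx5 : 0 < x ^ (-(5 / 4 : ℝ)) := Real.rpow_pos_of_pos hx _
      have hu5 : 0 < u ^ (-(5 / 4 : ℝ)) := Real.rpow_pos_of_pos hu _
      rw [Real.norm_eq_abs, abs_mul, abs_neg, abs_of_pos (by positivity : 0 < x ^ 2 / π)]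
      calc x ^ 2 / π * |Jd 2 (x * v)| ≤ x ^ 2 / π * (Cb * (x * v) ^ (-(5 / 4 : ℝ))) := by
            exact mul_le_mul_of_nonneg_left h1 (by positivity)
        _ = (1 / π) * (Cb * (x ^ 2 * x ^ (-(5 / 4 : ℝ))) * v ^ (-(5 / 4 : ℝ))) := by
            rw [h2]; ring
        _ ≤ (1 / π) * (Cb * (x ^ 2 * x ^ (-(5 / 4 : ℝ))) * u ^ (-(5 / 4 : ℝ))) := by
            gcongr
        _ ≤ 1 * (Cb * (x ^ 2 * x ^ (-(5 / 4 : ℝ))) * u ^ (-(5 / 4 : ℝ))) := by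
            exact mul_le_mul_of_nonneg_right hpi1 (by positivity)
        _ = Cb * x ^ (3 / 4 : ℝ) * u ^ (-(5 / 4 : ℝ)) := by rw [h4, one_mul]
    have hmv := Convex.norm_image_sub_le_of_norm_hasDerivWithin_le
      (f := fun v => Dk x v) (f' := fun v => -(x ^ 2 / π) * Jd 2 (x * v)) (s := Icc u (ν u))
      (x := u) (y := ν u)
      (fun v _ => (Dk_hasDerivAt x v).hasDerivWithinAt) hbound (convex_Icc _ _)
      (left_mem_Icc.mpr hle) (right_mem_Icc.mpr hle)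
    rw [Real.norm_eq_abs, Real.norm_eq_abs, abs_of_nonneg (sub_nonneg.mpr hle)] at hmv
    calc |Dk x (ν u) - Dk x u| ≤ Cb * x ^ (3 / 4 : ℝ) * u ^ (-(5 / 4 : ℝ)) * (ν u - u) := hmv
      _ = Cb * (ν u - u) * x ^ (3 / 4 : ℝ) * u ^ (-(5 / 4 : ℝ)) := by ring

/-- `int_min` with `p = 3/4`, `q = 9/4`. -/
theorem DD_bound : ∃ C : ℝ, 0 < C ∧ ∀ κ : ℝ, 0 < κ → ∀ ν : ℝ → ℝ, NodeMap κ ν → ∀ x : ℝ, 0 < x →
    IntegrableOn (fun u => Dk x (ν u) - Dk x u) (Ioi 0) ∧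
      DD ν x ≤ C * κ ^ (-(1 / 6 : ℝ)) * x ^ (1 / 3 : ℝ) := by
  have hCb := Cb_pos
  refine ⟨π * (24 / 5) * Cb, by positivity, ?_⟩
  intro κ hκ ν h x hx
  set A : ℝ := Cb * x ^ (1 / 4 : ℝ) with hA
  set B : ℝ := Cb * κ⁻¹ * x ^ (3 / 4 : ℝ) with hB
  have hA0 : 0 < A := by positivity
  have hB0 : 0 < B := by positivity
  obtain ⟨hint, hle⟩ := int_min (3 / 4) (9 / 4) A B (by norm_num) (by norm_num) hA0 hB0
  have hpt : ∀ u ∈ Ioi (0 : ℝ), |Dk x (ν u) - Dk x u| ≤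
      min (A * u ^ (-(3 / 4 : ℝ))) (B * u ^ (-(9 / 4 : ℝ))) := by
    intro u hu
    have hu0 : 0 < u := hu
    have h1 := D_diff hκ h hx hu0
    refine le_trans h1 (min_le_min le_rfl ?_)
    have hgap : ν u - u ≤ 1 / (κ * u) := by linarith [h.gap u hu0]
    have hu5 : 0 < u ^ (-(5 / 4 : ℝ)) := Real.rpow_pos_of_pos hu0 _
    have hx3 : 0 < x ^ (3 / 4 : ℝ) := Real.rpow_pos_of_pos hx _
    have h2 : u⁻¹ * u ^ (-(5 / 4 : ℝ)) = u ^ (-(9 / 4 : ℝ)) := by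
      rw [← Real.rpow_neg_one u, ← Real.rpow_add hu0]
      norm_num
    calc Cb * (ν u - u) * x ^ (3 / 4 : ℝ) * u ^ (-(5 / 4 : ℝ))
        ≤ Cb * (1 / (κ * u)) * x ^ (3 / 4 : ℝ) * u ^ (-(5 / 4 : ℝ)) := by gcongr
      _ = Cb * κ⁻¹ * x ^ (3 / 4 : ℝ) * (u⁻¹ * u ^ (-(5 / 4 : ℝ))) := by
          rw [one_div, mul_inv]; ring
      _ = B * u ^ (-(9 / 4 : ℝ)) := by rw [h2, hB]
  have hDc : Continuous (fun v => Dk x v) :=
    Dk_continuous.comp (Continuous.prodMk continuous_const continuous_id)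
  have hmeas : Measurable (fun u => Dk x (ν u) - Dk x u) :=
    (hDc.measurable.comp h.meas).sub hDc.measurable
  have hI : IntegrableOn (fun u => Dk x (ν u) - Dk x u) (Ioi 0) := by
    refine Integrable.mono' hint hmeas.aestronglyMeasurable ?_
    filter_upwards [ae_restrict_mem measurableSet_Ioi] with u hu
    exact hpt u hu
  refine ⟨hI, ?_⟩
  have hmono : ∫ u in Ioi (0 : ℝ), |Dk x (ν u) - Dk x u| ≤
      ∫ u in Ioi (0 : ℝ), min (A * u ^ (-(3 / 4 : ℝ))) (B * u ^ (-(9 / 4 : ℝ))) :=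
    setIntegral_mono_on hI.abs hint measurableSet_Ioi hpt
  have hAB : A ^ (((9 / 4 : ℝ) - 1) / (9 / 4 - 3 / 4)) * B ^ ((1 - (3 / 4 : ℝ)) / (9 / 4 - 3 / 4)) =
      Cb * κ ^ (-(1 / 6 : ℝ)) * x ^ (1 / 3 : ℝ) := by
    have e1 : ((9 / 4 : ℝ) - 1) / (9 / 4 - 3 / 4) = 5 / 6 := by norm_num
    have e2 : (1 - (3 / 4 : ℝ)) / (9 / 4 - 3 / 4) = 1 / 6 := by norm_num
    rw [e1, e2, hA, hB]
    rw [Real.mul_rpow hCb.le (by positivity), Real.mul_rpow (by positivity) (by positivity),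
      Real.mul_rpow hCb.le (by positivity)]
    rw [← Real.rpow_mul hx.le, ← Real.rpow_mul hx.le, Real.inv_rpow hκ.le,
      ← Real.rpow_neg hκ.le]
    have e3 : Cb ^ (5 / 6 : ℝ) * Cb ^ (1 / 6 : ℝ) = Cb := by
      rw [← Real.rpow_add hCb]; norm_num
    have e4 : x ^ (1 / 4 * (5 / 6) : ℝ) * x ^ (3 / 4 * (1 / 6) : ℝ) = x ^ (1 / 3 : ℝ) := by
      rw [← Real.rpow_add hx]; norm_num
    calc Cb ^ (5 / 6 : ℝ) * x ^ (1 / 4 * (5 / 6) : ℝ) *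
          (Cb ^ (1 / 6 : ℝ) * κ ^ (-(1 / 6) : ℝ) * x ^ (3 / 4 * (1 / 6) : ℝ))
        = (Cb ^ (5 / 6 : ℝ) * Cb ^ (1 / 6 : ℝ)) * κ ^ (-(1 / 6) : ℝ) *
          (x ^ (1 / 4 * (5 / 6) : ℝ) * x ^ (3 / 4 * (1 / 6) : ℝ)) := by ring
      _ = Cb * κ ^ (-(1 / 6 : ℝ)) * x ^ (1 / 3 : ℝ) := by rw [e3, e4]
  have hcst : (1 / (1 - (3 / 4 : ℝ)) + 1 / ((9 / 4 : ℝ) - 1)) = 24 / 5 := by norm_num
  rw [hAB, hcst] at hle
  unfold DD
  calc π * ∫ u in Ioi (0 : ℝ), |Dk x (ν u) - Dk x u|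
      ≤ π * (24 / 5 * (Cb * κ ^ (-(1 / 6 : ℝ)) * x ^ (1 / 3 : ℝ))) := by
        exact mul_le_mul_of_nonneg_left (le_trans hmono hle) Real.pi_pos.le
    _ = π * (24 / 5) * Cb * κ ^ (-(1 / 6 : ℝ)) * x ^ (1 / 3 : ℝ) := by ring

end Pool.Agent.LB
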