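import Pool.Agent.Helper76.LB.TB
import Pool.Agent.Helper76.LB.KC

set_option autoImplicit false

open Real MeasureTheory Set Filter Topology

namespace Pool.Agent.LB

/-! Block TD: consequences of `G + T G = w`. -/

theorem disc_theta {κ : ℝ} {ν G w ψ : ℝ → ℝ} (hκ : 0 < κ) (h : NodeMap κ ν) (hG : Measurable G)
    {B : ℝ} (hB : ∀ u, 0 < u → |G u| ≤ B) (hw : Measurable w) (hwb : ∀ u, 0 < u → |w u| ≤ B)
    (hsd : SelfDual w) (hGw : ∀ v, 0 < v → G v + Tk ν G v = w v) (hψ : Anti ψ) :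
    ψ 0 + π * ∫ u in Ioi (0 : ℝ), G u * ψ (ν u) = 0 := by
  obtain ⟨_, hk⟩ := key_identity hκ h hG hB hψ
  have hT : Measurable (Tk ν G) := Tk_measurable h.meas hG
  have i1 : IntegrableOn (fun u => G u * ψ u) (Ioi 0) := by
    refine Integrable.bdd_mul (c := B) hψ.int hG.aestronglyMeasurable ?_
    filter_upwards [ae_restrict_mem measurableSet_Ioi] with u hu
    rw [Real.norm_eq_abs]
    exact hB u hu
  have i2 : IntegrableOn (fun v => ψ v * Tk ν G v) (Ioi 0) := by
    refine Integrable.mul_bdd (c := B * (C0 / √κ)) hψ.int hT.aestronglyMeasurable ?_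
    filter_upwards [ae_restrict_mem measurableSet_Ioi] with u hu
    rw [Real.norm_eq_abs]
    exact Tk_abs_le hκ h hG hB hu
  have e1 : ∫ v in Ioi (0 : ℝ), (G v * ψ v + ψ v * Tk ν G v) = ∫ v in Ioi (0 : ℝ), w v * ψ v := by
    refine setIntegral_congr_fun measurableSet_Ioi (fun v hv => ?_)
    have := hGw v hv
    change G v * ψ v + ψ v * Tk ν G v = w v * ψ v
    rw [← this]
    ring
  rw [hk, ← mul_add, ← integral_add i1 i2, e1]
  exact hsd ψ hψ

private theorem jointMeas {ν G : ℝ → ℝ} (hν : Measurable ν) (hG : Measurable G) :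
    Measurable (fun p : ℝ × ℝ => G p.2 * (Jd 0 (ν p.2 * p.1) - Jd 0 (p.2 * p.1))) := by
  have hJ := (Jd_continuous 0).measurable
  exact (hG.comp measurable_snd).mul
    ((hJ.comp ((hν.comp measurable_snd).mul measurable_fst)).sub
      (hJ.comp (measurable_snd.mul measurable_fst)))

private theorem jointInt {κ : ℝ} {ν G : ℝ → ℝ} (hκ : 0 < κ) (h : NodeMap κ ν) (hG : Measurable G)
    {B : ℝ} (hB : ∀ u, 0 < u → |G u| ≤ B) (x : ℝ) :
    Integrable (fun p : ℝ × ℝ => G p.2 * (Jd 0 (ν p.2 * p.1) - Jd 0 (p.2 * p.1)))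
      ((volume.restrict (Ioc 0 x)).prod (volume.restrict (Ioi (0 : ℝ)))) := by
  have hB0 : 0 ≤ B := (abs_nonneg _).trans (hB 1 one_pos)
  have hm := (jointMeas h.meas hG).aestronglyMeasurable
    (μ := (volume.restrict (Ioc 0 x)).prod (volume.restrict (Ioi (0 : ℝ))))
  have hin : ∀ v : ℝ, 0 < v →
      IntegrableOn (fun u => G u * (Jd 0 (ν u * v) - Jd 0 (u * v))) (Ioi 0) := by
    intro v hv
    refine Integrable.bdd_mul (c := B) (K_int hκ h hv) hG.aestronglyMeasurable ?_
    filter_upwards [ae_restrict_mem measurableSet_Ioi] with u hu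
    rw [Real.norm_eq_abs]
    exact hB u hu
  rw [integrable_prod_iff hm]
  constructor
  · filter_upwards [ae_restrict_mem measurableSet_Ioc] with v hv
    exact hin v hv.1
  · have hfin : Integrable (fun _ : ℝ => B * (C0 / √κ / π)) (volume.restrict (Ioc 0 x)) :=
      integrable_const _
    refine hfin.mono' hm.norm.integral_prod_right' ?_
    filter_upwards [ae_restrict_mem measurableSet_Ioc] with v hv
    have hv0 : 0 < v := hv.1
    rw [Real.norm_eq_abs, abs_of_nonneg (integral_nonneg (fun _ => norm_nonneg _))]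
    have h1 : ∫ u in Ioi (0 : ℝ), ‖G u * (Jd 0 (ν u * v) - Jd 0 (u * v))‖
        ≤ ∫ u in Ioi (0 : ℝ), B * |Jd 0 (ν u * v) - Jd 0 (u * v)| := by
      refine setIntegral_mono_on (hin v hv0).norm ((K_int hκ h hv0).abs.const_mul B)
        measurableSet_Ioi (fun u hu => ?_)
      rw [norm_mul, Real.norm_eq_abs, Real.norm_eq_abs]
      exact mul_le_mul_of_nonneg_right (hB u hu) (abs_nonneg _)
    refine h1.trans ?_
    rw [integral_const_mul]
    refine mul_le_mul_of_nonneg_left ?_ hB0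
    rw [le_div_iff₀ Real.pi_pos, mul_comm]
    exact K_le hκ h hv0

/-- Fubini, `integral_J`, `DD_bound` (integrability). -/
theorem disc_count {κ : ℝ} {ν G w : ℝ → ℝ} (hκ : 0 < κ) (h : NodeMap κ ν) (hG : Measurable G)
    {B : ℝ} (hB : ∀ u, 0 < u → |G u| ≤ B) (hw : Measurable w) (hwb : ∀ u, 0 < u → |w u| ≤ B)
    (hGw : ∀ v, 0 < v → G v + Tk ν G v = w v) {x : ℝ} (hx : 0 < x) :
    |π * ∫ u in (0 : ℝ)..x, (G u - w u)| ≤ B * DD ν x := by
  have hB0 : 0 ≤ B := (abs_nonneg _).trans (hB 1 one_pos)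
  have hJi : ∀ c : ℝ, π * ∫ v in Ioc 0 x, Jd 0 (c * v) = Dk x c := by
    intro c
    rw [← integral_J hx.le c, intervalIntegral.integral_of_le hx.le]
    simp only [mul_comm]
  have hJint : ∀ c : ℝ, IntegrableOn (fun v => Jd 0 (c * v)) (Ioc 0 x) := by
    intro c
    have hc : Continuous (fun v => Jd 0 (c * v)) :=
      (Jd_continuous 0).comp (continuous_const.mul continuous_id)
    exact (hc.integrableOn_Icc).mono_set Ioc_subset_Icc_self
  have e1 : π * ∫ u in (0 : ℝ)..x, (G u - w u)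
      = π * ∫ u in Ioi (0 : ℝ), G u * (Dk x (ν u) - Dk x u) := by
    rw [intervalIntegral.integral_of_le hx.le]
    have e2 : ∫ v in Ioc 0 x, (G v - w v)
        = ∫ v in Ioc 0 x, π * ∫ u in Ioi (0 : ℝ), G u * (Jd 0 (ν u * v) - Jd 0 (u * v)) := by
      refine setIntegral_congr_fun measurableSet_Ioc (fun v hv => ?_)
      have h1 := hGw v hv.1
      change G v - w v = π * ∫ u in Ioi (0 : ℝ), G u * (Jd 0 (ν u * v) - Jd 0 (u * v))
      rw [← h1, Tk]
      ring
    rw [e2, integral_const_mul, integral_integral_swap (jointInt hκ h hG hB x),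
      ← integral_const_mul]
    congr 1
    refine integral_congr_ae (Eventually.of_forall (fun u => ?_))
    simp only
    rw [integral_const_mul, integral_sub (hJint _) (hJint _), ← hJi (ν u), ← hJi u]
    ring
  rw [e1, abs_mul, abs_of_pos Real.pi_pos]
  have hDi : IntegrableOn (fun u => Dk x (ν u) - Dk x u) (Ioi 0) := by
    obtain ⟨C, _, hC⟩ := DD_bound
    exact (hC κ hκ ν h x hx).1
  have h2 : |∫ u in Ioi (0 : ℝ), G u * (Dk x (ν u) - Dk x u)|
      ≤ B * ∫ u in Ioi (0 : ℝ), |Dk x (ν u) - Dk x u| := by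
    rw [← integral_const_mul, ← Real.norm_eq_abs]
    refine (norm_integral_le_integral_norm _).trans ?_
    refine setIntegral_mono_on ?_ (hDi.abs.const_mul B) measurableSet_Ioi (fun u hu => ?_)
    · refine Integrable.norm ?_
      refine Integrable.bdd_mul (c := B) hDi hG.aestronglyMeasurable ?_
      filter_upwards [ae_restrict_mem measurableSet_Ioi] with u hu
      rw [Real.norm_eq_abs]
      exact hB u hu
    · rw [norm_mul, Real.norm_eq_abs, Real.norm_eq_abs]
      exact mul_le_mul_of_nonneg_right (hB u hu) (abs_nonneg _)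
  calc π * |∫ u in Ioi (0 : ℝ), G u * (Dk x (ν u) - Dk x u)|
      ≤ π * (B * ∫ u in Ioi (0 : ℝ), |Dk x (ν u) - Dk x u|) :=
        mul_le_mul_of_nonneg_left h2 Real.pi_pos.le
    _ = B * DD ν x := by rw [DD]; ring

end Pool.Agent.LB
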