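import Pool.Agent.Helper76.LB.NA
import Pool.Agent.Helper76.LB.TD
import Pool.Agent.Helper76.LB.TC
import Pool.Agent.Helper76.LB.JD

set_option autoImplicit false

open Real MeasureTheory Set Filter Topology

namespace Pool.Agent.LB

/-! Block NC: from the density to a theta pair. `a m = π ∫_{cell m} G`, `lam m = l (m+1)`.
Theta relation: `disc_theta` for `ψ = e^{-πtu} - t⁻¹ e^{-πu/t}` (`anti_gauss`) and `hasSum_cells`.
Counting: `{m : l (m+1) ≤ x}` are the cells below the last node `l M ≤ x`, so the sum is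
`π ∫_0^{l M} G`, and `0 ≤ x - l M ≤ 1/(κ x)`-ish `≤ 1/κ` for `x ≥ 1`; then `disc_count`. -/

/-- bounded measurable functions are integrable on bounded subsets of the half line -/
private theorem intOn42 {G : ℝ → ℝ} (hG : Measurable G) {B : ℝ} (hB : ∀ u, 0 < u → |G u| ≤ B)
    {a b : ℝ} (ha : 0 ≤ a) : IntegrableOn G (Ioc a b) := by
  refine Measure.integrableOn_of_bounded (M := B) (by simp) hG.aestronglyMeasurable ?_
  filter_upwards [ae_restrict_mem measurableSet_Ioc] with u hu
  rw [Real.norm_eq_abs]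
  exact hB u (lt_of_le_of_lt ha hu.1)

private theorem intExp42 {t : ℝ} (ht : 0 < t) :
    IntegrableOn (fun u : ℝ => Real.exp (-(π * u * t))) (Ioi 0) := by
  have h := exp_neg_integrableOn_Ioi 0 (b := π * t) (by positivity)
  refine h.congr_fun (fun u _ => ?_) measurableSet_Ioi
  have e : -(π * t) * u = -(π * u * t) := by ring
  simp only [e]

private theorem intGexp42 {l : ℕ → ℝ} (hl : Nodes l) {G : ℝ → ℝ} (hG : Measurable G) {B : ℝ}
    (hB : ∀ u, 0 < u → |G u| ≤ B) {t : ℝ} (ht : 0 < t) :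
    IntegrableOn (fun u => G u * Real.exp (-(π * nu l u * t))) (Ioi 0) := by
  have hB0 : 0 ≤ B := (abs_nonneg _).trans (hB 1 one_pos)
  have hm : Measurable fun u => Real.exp (-(π * nu l u * t)) := by
    have := nu_measurable hl
    fun_prop
  refine ((intExp42 ht).const_mul B).mono' (hG.mul hm).aestronglyMeasurable ?_
  filter_upwards [ae_restrict_mem measurableSet_Ioi] with u hu
  rw [norm_mul, Real.norm_eq_abs, Real.norm_eq_abs, abs_of_pos (Real.exp_pos _)]
  refine mul_le_mul (hB u hu) ?_ (Real.exp_pos _).le hB0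
  apply Real.exp_le_exp.mpr
  have h1 := le_nu hl u
  have h2 : π * u * t ≤ π * nu l u * t := by gcongr
  linarith

theorem exists_pair {κ : ℝ} (hκ : 0 < κ) (hq : C0 / √κ ≤ 1 / 8) {l : ℕ → ℝ} (hl : Nodes l)
    (hn : NodeMap κ (nu l)) {w : ℝ → ℝ} (hw : Measurable w) (hwb : ∀ u, 0 < u → |w u - 1| ≤ 1 / 4)
    (hsd : SelfDual w) :
    ∃ a : ℕ → ℝ, ThetaPair a (fun m => l (m + 1)) ∧
      (∀ m, π / 2 * (l (m + 1) - l m) ≤ a m ∧ a m ≤ 3 * π / 2 * (l (m + 1) - l m)) ∧
      ∃ C : ℝ, ∀ x : ℝ, 1 ≤ x →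
        |cnt a (fun m => l (m + 1)) x - π * x - π * ∫ u in (0 : ℝ)..x, (w u - 1)| ≤
          2 * DD (nu l) x + C := by
  have hpi := Real.pi_pos
  have hw54 : ∀ u, 0 < u → |w u| ≤ 5 / 4 := by
    intro u hu
    have h := abs_le.mp (hwb u hu)
    rw [abs_le]
    constructor <;> linarith [h.1, h.2]
  obtain ⟨G, hG, hGw, hGT⟩ := neumann hκ hn hq hw hw54
  have hG1 : ∀ u, 0 < u → 1 / 2 ≤ G u ∧ G u ≤ 3 / 2 := by
    intro u hu
    have h := abs_le.mp (hwb u hu)
    have h2 := abs_le.mp (hGw u hu)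
    constructor <;> linarith [h.1, h.2, h2.1, h2.2]
  have hG2 : ∀ u, 0 < u → |G u| ≤ 2 := by
    intro u hu
    have h := hG1 u hu
    rw [abs_le]
    constructor <;> linarith [h.1, h.2]
  have hw2 : ∀ u, 0 < u → |w u| ≤ 2 := fun u hu => (hw54 u hu).trans (by norm_num)
  have hl0 : ∀ m, 0 ≤ l m := by
    intro m
    rw [← hl.zero]
    exact hl.mono.monotone (Nat.zero_le m)
  have hlpos : ∀ m, 0 < l (m + 1) := by
    intro m
    have := hl.mono (Nat.lt_succ_self m)
    exact lt_of_le_of_lt (hl0 m) this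
  have hGi : ∀ {a b : ℝ}, 0 ≤ a → IntegrableOn G (Ioc a b) := fun ha => intOn42 hG hG2 ha
  have hwi : ∀ {a b : ℝ}, 0 ≤ a → IntegrableOn w (Ioc a b) := fun ha => intOn42 hw hw2 ha
  have hGI : ∀ {a b : ℝ}, 0 ≤ a → a ≤ b → IntervalIntegrable G volume a b := fun ha hab =>
    (intervalIntegrable_iff_integrableOn_Ioc_of_le hab).mpr (hGi ha)
  have hwI : ∀ {a b : ℝ}, 0 ≤ a → a ≤ b → IntervalIntegrable w volume a b := fun ha hab =>
    (intervalIntegrable_iff_integrableOn_Ioc_of_le hab).mpr (hwi ha)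
  -- bounds for integrals of `G`
  have hGlow : ∀ {a b : ℝ}, 0 ≤ a → a ≤ b → 1 / 2 * (b - a) ≤ ∫ u in a..b, G u := by
    intro a b ha hab
    have h1 : ∫ u in a..b, (1 / 2 : ℝ) = 1 / 2 * (b - a) := by
      rw [intervalIntegral.integral_const]; simp; ring
    rw [← h1, intervalIntegral.integral_of_le hab, intervalIntegral.integral_of_le hab]
    refine setIntegral_mono_on (by simp) (hGi ha) measurableSet_Ioc fun u hu => ?_
    exact (hG1 u (lt_of_le_of_lt ha hu.1)).1
  have hGup : ∀ {a b : ℝ}, 0 ≤ a → a ≤ b → ∫ u in a..b, G u ≤ 3 / 2 * (b - a) := by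
    intro a b ha hab
    have h1 : ∫ u in a..b, (3 / 2 : ℝ) = 3 / 2 * (b - a) := by
      rw [intervalIntegral.integral_const]; simp; ring
    rw [← h1, intervalIntegral.integral_of_le hab, intervalIntegral.integral_of_le hab]
    refine setIntegral_mono_on (hGi ha) (by simp) measurableSet_Ioc fun u hu => ?_
    exact (hG1 u (lt_of_le_of_lt ha hu.1)).2
  set a : ℕ → ℝ := fun m => π * ∫ u in Ioc (l m) (l (m + 1)), G u with ha
  have hai : ∀ m, a m = π * ∫ u in (l m)..(l (m + 1)), G u := by
    intro m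
    rw [ha, intervalIntegral.integral_of_le (hl.mono (Nat.lt_succ_self m)).le]
  have hab : ∀ m, π / 2 * (l (m + 1) - l m) ≤ a m ∧ a m ≤ 3 * π / 2 * (l (m + 1) - l m) := by
    intro m
    have hm := (hl.mono (Nat.lt_succ_self m)).le
    have h1 := hGlow (hl0 m) hm
    have h2 := hGup (hl0 m) hm
    rw [hai]
    constructor
    · calc π / 2 * (l (m + 1) - l m) = π * (1 / 2 * (l (m + 1) - l m)) := by ring
        _ ≤ _ := by gcongr
    · calc π * ∫ u in (l m)..(l (m + 1)), G u ≤ π * (3 / 2 * (l (m + 1) - l m)) := by gcongr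
        _ = _ := by ring
  have ha0 : ∀ m, 0 ≤ a m := by
    intro m
    refine le_trans ?_ (hab m).1
    have hm := (hl.mono (Nat.lt_succ_self m)).le
    have : 0 ≤ l (m + 1) - l m := by linarith
    positivity
  have hS : ∀ t : ℝ, 0 < t → HasSum (fun m => a m * Real.exp (-(π * l (m + 1) * t)))
      (π * ∫ u in Ioi (0 : ℝ), G u * Real.exp (-(π * nu l u * t))) := fun t ht =>
    hasSum_cells hl (f := fun u => Real.exp (-(π * u * t))) hG (intGexp42 hl hG hG2 ht)
      fun m => hGi (hl0 m)
  refine ⟨a, ⟨ha0, hlpos, ?_, fun t ht => (hS t ht).summable, fun t ht => ?_⟩, hab, ?_⟩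
  · exact (tendsto_add_atTop_iff_nat 1).mpr hl.tends
  · -- the theta relation
    have hti : 0 < t⁻¹ := by positivity
    have h1 := disc_theta hκ hn hG hG2 hw hw2 hsd hGT (anti_gauss ht)
    have h2 := hS t ht
    have h3 := hS t⁻¹ hti
    have e1 : ∫ u in Ioi (0 : ℝ), G u * (Real.exp (-(π * t * nu l u)) -
        t⁻¹ * Real.exp (-(π * nu l u / t))) =
        (∫ u in Ioi (0 : ℝ), G u * Real.exp (-(π * nu l u * t))) -
          t⁻¹ * ∫ u in Ioi (0 : ℝ), G u * Real.exp (-(π * nu l u * t⁻¹)) := by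
      rw [← integral_const_mul, ← integral_sub (intGexp42 hl hG hG2 ht)
        ((intGexp42 hl hG hG2 hti).const_mul _)]
      refine setIntegral_congr_fun measurableSet_Ioi fun u _ => ?_
      have e2 : π * t * nu l u = π * nu l u * t := by ring
      have e3 : π * nu l u / t = π * nu l u * t⁻¹ := by ring
      simp only [e2, e3]
      ring
    rw [e1] at h1
    have e4 : (∑' n, a n * Real.exp (-(π * l (n + 1) / t))) =
        π * ∫ u in Ioi (0 : ℝ), G u * Real.exp (-(π * nu l u * t⁻¹)) := by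
      rw [← h3.tsum_eq]
      congr 1
    rw [e4, h2.tsum_eq]
    have e5 : Real.exp (-(π * t * 0)) = 1 := by simp
    have e6 : Real.exp (-(π * 0 / t)) = 1 := by simp
    rw [e5, e6, mul_one] at h1
    set A := ∫ u in Ioi (0 : ℝ), G u * Real.exp (-(π * nu l u * t)) with hA
    set A' := ∫ u in Ioi (0 : ℝ), G u * Real.exp (-(π * nu l u * t⁻¹)) with hA'
    have h4 : t * (1 - t⁻¹ + π * (A - t⁻¹ * A')) = 0 := by rw [h1, mul_zero]
    have h5 : t * (1 - t⁻¹ + π * (A - t⁻¹ * A')) = t - 1 + (t * (π * A) - π * A') := by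
      field_simp
    rw [h5] at h4
    linarith
  · -- counting
    refine ⟨1 + 3 * π / 2 * (1 + 2 / κ), fun x hx => ?_⟩
    have hx0 : 0 < x := by linarith
    -- the last node below `x`
    obtain ⟨M, hM1, hM2⟩ : ∃ M, l M ≤ x ∧ x < l (M + 1) := by
      by_contra hcon
      push Not at hcon
      have hall : ∀ m, l m ≤ x := by
        intro m
        induction m with
        | zero => rw [hl.zero]; exact hx0.le
        | succ m ih => exact hcon m ih
      obtain ⟨m, hm⟩ := (hl.tends.eventually_gt_atTop x).exists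
      exact absurd (hall m) (not_le.mpr hm)
    have hcnt : cnt a (fun m => l (m + 1)) x = 1 + π * ∫ u in (0 : ℝ)..(l M), G u := by
      unfold cnt
      have h1 : (∑' n, if l (n + 1) ≤ x then a n else 0) = ∑ n ∈ Finset.range M, a n := by
        rw [tsum_eq_sum (s := Finset.range M)]
        · refine Finset.sum_congr rfl fun n hn => ?_
          rw [Finset.mem_range] at hn
          rw [if_pos]
          exact (hl.mono.monotone (by omega : n + 1 ≤ M)).trans hM1
        · intro n hn
          rw [Finset.mem_range, not_lt] at hn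
          rw [if_neg]
          rw [not_le]
          exact lt_of_lt_of_le hM2 (hl.mono.monotone (by omega : M + 1 ≤ n + 1))
      rw [h1]
      congr 1
      calc ∑ n ∈ Finset.range M, a n
          = ∑ n ∈ Finset.range M, π * ∫ u in (l n)..(l (n + 1)), G u :=
            Finset.sum_congr rfl fun n _ => hai n
        _ = π * ∫ u in (l 0)..(l M), G u := by
            rw [← Finset.mul_sum, intervalIntegral.sum_integral_adjacent_intervals]
            intro k _
            exact hGI (hl0 k) (hl.mono (Nat.lt_succ_self k)).le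
        _ = _ := by rw [hl.zero]
    have hgap : x - l M ≤ 1 + 2 / κ := by
      have hk2 : 0 < 2 / κ := by positivity
      rcases hM1.eq_or_lt with heq | hlt
      · rw [heq]
        linarith
      · set u : ℝ := max 1 ((l M + x) / 2) with hu
        have hu1 : 1 ≤ u := le_max_left _ _
        have hu2 : (l M + x) / 2 ≤ u := le_max_right _ _
        have hux : u ≤ x := max_le hx (by linarith)
        have hmem : u ∈ Ioc (l M) (l (M + 1)) := ⟨by linarith, hux.trans hM2.le⟩
        have h1 := hn.gap u (by linarith)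
        rw [nu_eq hl hmem] at h1
        have h2 : 1 / (κ * u) ≤ 1 / κ := by
          apply one_div_le_one_div_of_le hκ
          nlinarith
        have h3 : x ≤ u + 1 / κ := by linarith
        have h4 : 2 / κ = 1 / κ + 1 / κ := by ring
        have h5 : 0 < 1 / κ := by positivity
        have h6 := hl0 M
        rcases max_cases 1 ((l M + x) / 2) with h | h
        · rw [hu, h.1] at h3
          linarith
        · rw [hu, h.1] at h3
          linarith
    have hdc := disc_count hκ hn hG hG2 hw hw2 hGT hx0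
    have hlM := hl0 M
    have e1 : ∫ u in (0 : ℝ)..x, (G u - w u) =
        (∫ u in (0 : ℝ)..x, G u) - ∫ u in (0 : ℝ)..x, w u :=
      intervalIntegral.integral_sub (hGI le_rfl hx0.le) (hwI le_rfl hx0.le)
    have e2 : ∫ u in (0 : ℝ)..x, (w u - 1) = (∫ u in (0 : ℝ)..x, w u) - x := by
      rw [intervalIntegral.integral_sub (hwI le_rfl hx0.le) (by simp)]
      simp
    have e3 : (∫ u in (0 : ℝ)..x, G u) =
        (∫ u in (0 : ℝ)..(l M), G u) + ∫ u in (l M)..x, G u :=
      (intervalIntegral.integral_add_adjacent_intervals (hGI le_rfl hlM) (hGI hlM hM1)).symm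
    have h1 := hGlow hlM hM1
    have h2 := hGup hlM hM1
    have h3 : 0 ≤ ∫ u in (l M)..x, G u := by
      have : 0 ≤ x - l M := by linarith
      linarith
    have h4 : ∫ u in (l M)..x, G u ≤ 3 / 2 * (1 + 2 / κ) := by linarith
    have h5 : π * ∫ u in (l M)..x, G u ≤ 3 * π / 2 * (1 + 2 / κ) := by
      calc π * ∫ u in (l M)..x, G u ≤ π * (3 / 2 * (1 + 2 / κ)) := by gcongr
        _ = _ := by ring
    have h6 : 0 ≤ π * ∫ u in (l M)..x, G u := by positivity
    rw [e1, e3] at hdc
    rw [hcnt, e2]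
    rw [abs_le] at hdc ⊢
    constructor
    · nlinarith [hdc.1, hdc.2]
    · nlinarith [hdc.1, hdc.2]

end Pool.Agent.LB
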