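import Pool.Agent.Helper76.LB.OC

set_option autoImplicit false

open Real MeasureTheory Set Filter Topology

namespace Pool.Agent.LB

/-! Block OD: the lower bound. Some `a n > 0` (else `1 = t`); let `l₁` = least `lam n` with `a n > 0`,
`s = σ + 2πi√l₁`, `σ → 0+`: terms with `lam n = l₁` have modulus `a n (σ² + 4πσ√l₁ ...)^{-3/2}`,
i.e. `s² + 4π² l₁ = σ² + 4πiσ√l₁`, all with the same phase; the other terms are bounded by
`a n (4π²(lam n - l₁))^{-3/2}` (real part of `s² + 4π² lam n` is `≥ 4π²(lam n - l₁)`), summable and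
independent of `σ`. If `|err R| ≤ ε √R` for `R ≥ X`, the left side is `≤ C + ε Γ(3/2) σ^{-3/2}`. -/

private theorem nc67 (w : ℂ) : ‖w ^ (-(3 / 2 : ℂ))‖ = ‖w‖ ^ (-(3 / 2 : ℝ)) := by
  have h : (-(3 / 2 : ℂ)) = ((-(3 / 2) : ℝ) : ℂ) := by push_cast; ring
  rw [h, Complex.norm_cpow_real]

private theorem reim67 (σ b m : ℝ) : (((⟨σ, b⟩ : ℂ) ^ 2 + 4 * π ^ 2 * m).re =
    σ ^ 2 - b ^ 2 + 4 * π ^ 2 * m) ∧ (((⟨σ, b⟩ : ℂ) ^ 2 + 4 * π ^ 2 * m).im = 2 * σ * b) := by
  have h : (4 * (π : ℂ) ^ 2 * m) = ((4 * π ^ 2 * m : ℝ) : ℂ) := by push_cast; ring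
  rw [h, Complex.add_re, Complex.add_im, Complex.ofReal_re, Complex.ofReal_im, pow_two,
    Complex.mul_re, Complex.mul_im]
  constructor <;> ring

theorem ThetaPair.lower {a lam : ℕ → ℝ} (h : ThetaPair a lam) :
    ∃ c : ℝ, 0 < c ∧ ∀ X : ℝ, ∃ R : ℝ, X ≤ R ∧ c * R ^ (1 / 2 : ℝ) ≤ |err a lam R| := by
  classical
  have hex : ∃ n, 0 < a n := by
    by_contra hc
    push Not at hc
    have h0 : ∀ n, a n = 0 := fun n => le_antisymm (hc n) (h.nonneg n)
    have := h.theta 2 (by norm_num)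
    simp [h0] at this
  obtain ⟨n₀, hn₀⟩ := hex
  obtain ⟨n₁, hn₁, hmin⟩ : ∃ n₁, 0 < a n₁ ∧ ∀ n, 0 < a n → lam n₁ ≤ lam n := by
    have hfin : {n | lam n ≤ lam n₀ ∧ 0 < a n}.Finite := by
      have h1 : ∀ᶠ n in atTop, lam n₀ < lam n := h.tends.eventually_gt_atTop _
      rw [eventually_atTop] at h1
      obtain ⟨N, hN⟩ := h1
      apply (Set.finite_lt_nat N).subset
      intro n hn
      by_contra hc
      exact absurd hn.1 (not_le.2 (hN n (not_lt.1 hc)))
    obtain ⟨n₁, hn₁, hm⟩ := Set.exists_min_image _ lam hfin ⟨n₀, le_rfl, hn₀⟩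
    refine ⟨n₁, hn₁.2, fun n hn => ?_⟩
    by_cases hle : lam n ≤ lam n₀
    · exact hm n ⟨hle, hn⟩
    · exact (hn₁.1).trans (not_le.1 hle).le
  set l := lam n₁ with hl
  have hlpos : 0 < l := h.pos n₁
  have hpi := Real.pi_pos
  have hpi3 := Real.pi_gt_three
  have hS := (h.laplace_sqrt one_pos).2.1
  -- the bound for the other terms
  set B : ℕ → ℝ := fun n => if l < lam n then a n * (4 * π ^ 2 * (lam n - l)) ^ (-(3 / 2 : ℝ))
    else 0 with hB
  have hB0 : ∀ n, 0 ≤ B n := by
    intro n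
    rw [hB]
    simp only
    split_ifs with h1
    · have := h.nonneg n
      have : 0 < 4 * π ^ 2 * (lam n - l) := by
        have : 0 < lam n - l := by linarith
        positivity
      positivity
    · exact le_rfl
  have hBs : Summable B := by
    apply (hS.mul_left ((2 : ℝ) ^ (3 / 2 : ℝ))).of_norm_bounded_eventually_nat
    filter_upwards [h.tends.eventually_ge_atTop (2 * l + 1)] with n hn
    have hlt : l < lam n := by linarith
    rw [Real.norm_eq_abs, abs_of_nonneg (hB0 n), hB]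
    simp only [if_pos hlt]
    have h1 : (1 ^ 2 + 4 * π ^ 2 * lam n) / 2 ≤ 4 * π ^ 2 * (lam n - l) := by
      nlinarith
    have h2 : 0 < 1 ^ 2 + 4 * π ^ 2 * lam n := by
      have := h.pos n
      positivity
    have h3 := Real.rpow_le_rpow_of_nonpos (by positivity) h1 (by norm_num : (-(3 / 2 : ℝ)) ≤ 0)
    rw [Real.div_rpow h2.le (by norm_num), Real.rpow_neg (by norm_num : (0 : ℝ) ≤ 2), div_inv_eq_mul] at h3
    calc a n * (4 * π ^ 2 * (lam n - l)) ^ (-(3 / 2 : ℝ))
        ≤ a n * ((1 ^ 2 + 4 * π ^ 2 * lam n) ^ (-(3 / 2 : ℝ)) * 2 ^ (3 / 2 : ℝ)) :=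
          mul_le_mul_of_nonneg_left h3 (h.nonneg n)
      _ = 2 ^ (3 / 2 : ℝ) * (a n * (1 ^ 2 + 4 * π ^ 2 * lam n) ^ (-(3 / 2 : ℝ))) := by ring
  set W : ℕ → ℝ := fun n => if lam n = l then a n else 0 with hW
  have hW0 : ∀ n, 0 ≤ W n := by
    intro n
    rw [hW]
    simp only
    split_ifs
    · exact h.nonneg n
    · exact le_rfl
  have hWs : Summable W := by
    apply (hS.mul_left ((1 ^ 2 + 4 * π ^ 2 * l) ^ (3 / 2 : ℝ))).of_norm_bounded
    intro n
    have h2 : 0 < 1 ^ 2 + 4 * π ^ 2 * lam n := by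
      have := h.pos n
      positivity
    have h2' : 0 < 1 ^ 2 + 4 * π ^ 2 * l := by positivity
    rw [Real.norm_eq_abs, abs_of_nonneg (hW0 n), hW]
    simp only
    split_ifs with h3
    · rw [h3, Real.rpow_neg h2'.le]
      apply le_of_eq
      have : (1 ^ 2 + 4 * π ^ 2 * l) ^ (3 / 2 : ℝ) ≠ 0 := (Real.rpow_pos_of_pos h2' _).ne'
      field_simp
    · have := h.nonneg n
      positivity
  set α := ∑' n, W n with hα
  have hα0 : 0 < α := by
    have h1 : W n₁ = a n₁ := by rw [hW]; simp only [if_pos hl.symm]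
    have h2 : W n₁ ≤ α := hWs.le_tsum n₁ fun j _ => hW0 j
    linarith
  by_contra hcon
  push Not at hcon
  set M := 1 + 4 * π * √l with hM
  have hM0 : 0 < M := by positivity
  set κ := 2 * π * (α * M ^ (-(3 / 2 : ℝ))) with hκ
  have hκ0 : 0 < κ := by positivity
  have hG : 0 < Real.Gamma (3 / 2) := Real.Gamma_pos_of_pos (by norm_num)
  obtain ⟨X, hX⟩ := hcon (κ / (2 * Real.Gamma (3 / 2))) (by positivity)
  have hI1 : IntegrableOn (fun R => |err a lam R| * Real.exp (-R)) (Ioi 0) := by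
    have h1 := (h.err_laplace one_pos).1.norm
    refine h1.congr (Eventually.of_forall fun R => ?_)
    simp [Real.abs_exp]
  set K := Real.exp X * (∫ R in Ioi (0 : ℝ), |err a lam R| * Real.exp (-R)) +
    2 * π * ∑' n, B n with hK
  have key : ∀ σ : ℝ, 0 < σ → σ ≤ 1 → κ / 2 * (1 / σ) ^ (3 / 2 : ℝ) ≤ K := by
    intro σ hσ hσ1
    set b := 2 * π * √l with hb
    have hb2 : b ^ 2 = 4 * π ^ 2 * l := by
      rw [hb, mul_pow, Real.sq_sqrt hlpos.le]; ring
    have hb0 : 0 < b := by positivity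
    set s : ℂ := ⟨σ, b⟩ with hs
    obtain ⟨i1, i2, i3⟩ := h.err_laplace_complex (s := s) hσ
    -- upper bound
    have hGi : IntegrableOn (fun R : ℝ => R ^ (1 / 2 : ℝ) * Real.exp (-(σ * R))) (Ioi 0) := by
      have := integrableOn_rpow_mul_exp_neg_mul_rpow (s := 1 / 2) (p := 1) (b := σ)
        (by norm_num) (by norm_num) hσ
      refine this.congr (Eventually.of_forall fun R => ?_)
      simp only [Real.rpow_one]
      ring_nf
    have hGv : ∫ R in Ioi (0 : ℝ), R ^ (1 / 2 : ℝ) * Real.exp (-(σ * R)) =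
        (1 / σ) ^ (3 / 2 : ℝ) * Real.Gamma (3 / 2) := by
      rw [← Real.integral_rpow_mul_exp_neg_mul_Ioi (by norm_num : (0 : ℝ) < 3 / 2) hσ]
      norm_num
    have up : ‖∫ R in Ioi (0 : ℝ), ((err a lam R : ℝ) : ℂ) * Complex.exp (-(s * R))‖ ≤
        Real.exp X * (∫ R in Ioi (0 : ℝ), |err a lam R| * Real.exp (-R)) +
          κ / 2 * (1 / σ) ^ (3 / 2 : ℝ) := by
      have hint : IntegrableOn (fun R : ℝ => Real.exp X * (|err a lam R| * Real.exp (-R)) +
          κ / (2 * Real.Gamma (3 / 2)) * (R ^ (1 / 2 : ℝ) * Real.exp (-(σ * R)))) (Ioi 0) :=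
        (hI1.const_mul _).add (hGi.const_mul _)
      refine (norm_integral_le_of_norm_le hint ?_).trans (le_of_eq ?_)
      · rw [ae_restrict_iff' measurableSet_Ioi]
        refine Eventually.of_forall fun R hR => ?_
        have hR0 : 0 < R := hR
        have e1 : ‖((err a lam R : ℝ) : ℂ) * Complex.exp (-(s * R))‖ =
            |err a lam R| * Real.exp (-(σ * R)) := by
          rw [norm_mul, Complex.norm_real, Complex.norm_exp, Real.norm_eq_abs]
          congr 2
          simp [hs]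
        rw [e1]
        have hpos1 : 0 ≤ Real.exp X * (|err a lam R| * Real.exp (-R)) := by positivity
        have hpos2 : 0 ≤ κ / (2 * Real.Gamma (3 / 2)) * (R ^ (1 / 2 : ℝ) * Real.exp (-(σ * R))) := by
          positivity
        rcases le_total X R with hXR | hXR
        · have h1 := (hX R hXR).le
          have h2 : |err a lam R| * Real.exp (-(σ * R)) ≤
              κ / (2 * Real.Gamma (3 / 2)) * R ^ (1 / 2 : ℝ) * Real.exp (-(σ * R)) :=
            mul_le_mul_of_nonneg_right h1 (Real.exp_pos _).le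
          linarith
        · have h2 : Real.exp (-(σ * R)) ≤ Real.exp X * Real.exp (-R) := by
            rw [← Real.exp_add]
            apply Real.exp_le_exp.2
            have : 0 < σ * R := by positivity
            linarith
          have h3 : |err a lam R| * Real.exp (-(σ * R)) ≤
              |err a lam R| * (Real.exp X * Real.exp (-R)) :=
            mul_le_mul_of_nonneg_left h2 (abs_nonneg _)
          linarith
      · rw [integral_add (hI1.const_mul _) (hGi.const_mul _), integral_const_mul,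
          integral_const_mul, hGv]
        have := hG.ne'
        field_simp
    -- lower bound
    rw [i3] at up
    set Z : ℂ := (s ^ 2 + 4 * π ^ 2 * l) ^ (-(3 / 2 : ℂ)) with hZ
    set f : ℕ → ℂ := fun n => (a n : ℂ) * (s ^ 2 + 4 * π ^ 2 * lam n) ^ (-(3 / 2 : ℂ)) with hf
    set g : ℕ → ℂ := fun n => if lam n = l then 0 else f n with hg
    have hfg : ∀ n, f n = (W n : ℂ) * Z + g n := by
      intro n
      rw [hg, hW]
      simp only
      split_ifs with h1
      · rw [hf, add_zero]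
        simp only
        rw [h1]
      · simp
    have hgB : ∀ n, ‖g n‖ ≤ B n := by
      intro n
      rw [hg]
      simp only
      split_ifs with h1
      · rw [norm_zero]; exact hB0 n
      · rcases (h.nonneg n).eq_or_lt with h2 | h2
        · rw [hf]
          simp only [← h2]
          simpa using hB0 n
        · have h3 : l < lam n := lt_of_le_of_ne (hmin n h2) (Ne.symm h1)
          rw [hf, hB]
          simp only [if_pos h3]
          rw [norm_mul, Complex.norm_real, Real.norm_eq_abs, abs_of_pos h2, nc67]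
          apply mul_le_mul_of_nonneg_left _ h2.le
          apply Real.rpow_le_rpow_of_nonpos
          · have : 0 < lam n - l := by linarith
            positivity
          · refine le_trans ?_ (Complex.re_le_norm _)
            rw [hs, (reim67 σ b (lam n)).1, hb2]
            nlinarith [sq_nonneg σ]
          · norm_num
    have hgs : Summable g := hBs.of_norm_bounded hgB
    have hWc : Summable fun n => (W n : ℂ) * Z := (Complex.ofRealCLM.summable hWs).mul_right Z
    have htot : ∑' n, f n = (α : ℂ) * Z + ∑' n, g n := by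
      rw [tsum_congr hfg, hWc.tsum_add hgs, tsum_mul_right, ← Complex.ofReal_tsum]
    have hlow : α * ‖Z‖ ≤ ‖∑' n, f n‖ + ∑' n, B n := by
      have h1 : ‖∑' n, g n‖ ≤ ∑' n, B n := tsum_of_norm_bounded hBs.hasSum hgB
      have h2 : (α : ℂ) * Z = ∑' n, f n - ∑' n, g n := by rw [htot]; ring
      have h3 : ‖(α : ℂ) * Z‖ = α * ‖Z‖ := by
        rw [norm_mul, Complex.norm_real, Real.norm_eq_abs, abs_of_pos hα0]
      rw [← h3, h2]
      exact (norm_sub_le _ _).trans (by linarith)
    have hZn : (1 / σ) ^ (3 / 2 : ℝ) * M ^ (-(3 / 2 : ℝ)) ≤ ‖Z‖ := by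
      rw [hZ, nc67]
      have e1 := reim67 σ b l
      rw [hb2] at e1
      have e2 : ‖s ^ 2 + 4 * π ^ 2 * (l : ℂ)‖ ≤ σ * M := by
        refine (Complex.norm_le_abs_re_add_abs_im _).trans ?_
        rw [hs, e1.1, e1.2, abs_of_nonneg (by nlinarith [sq_nonneg σ]), abs_of_nonneg (by positivity), hM, hb]
        have : σ ^ 2 ≤ σ := by nlinarith
        linarith
      have e3 : 0 < ‖s ^ 2 + 4 * π ^ 2 * (l : ℂ)‖ := by
        rw [norm_pos_iff]
        intro h0
        have e4 : (s ^ 2 + 4 * π ^ 2 * (l : ℂ)).im = 2 * σ * b := e1.2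
        rw [h0, Complex.zero_im] at e4
        have : 0 < 2 * σ * b := by positivity
        linarith
      have e5 := Real.rpow_le_rpow_of_nonpos e3 e2 (by norm_num : (-(3 / 2 : ℝ)) ≤ 0)
      refine le_trans (le_of_eq ?_) e5
      rw [Real.mul_rpow hσ.le hM0.le, one_div, Real.inv_rpow hσ.le, Real.rpow_neg hσ.le]
    have hnorm : ‖2 * (π : ℂ) * ∑' n, f n‖ = 2 * π * ‖∑' n, f n‖ := by
      rw [norm_mul, norm_mul, Complex.norm_real, Real.norm_eq_abs, abs_of_pos hpi]
      simp
    rw [hnorm] at up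
    have h5 : κ * (1 / σ) ^ (3 / 2 : ℝ) ≤ 2 * π * (α * ‖Z‖) := by
      rw [hκ]
      have : 2 * π * (α * M ^ (-(3 / 2 : ℝ))) * (1 / σ) ^ (3 / 2 : ℝ) =
          2 * π * (α * ((1 / σ) ^ (3 / 2 : ℝ) * M ^ (-(3 / 2 : ℝ)))) := by ring
      rw [this]
      gcongr
    have h6 : 2 * π * (α * ‖Z‖) ≤ 2 * π * (‖∑' n, f n‖ + ∑' n, B n) := by gcongr
    rw [hK]
    linarith
  -- contradiction
  have hT : 0 ≤ 2 * |K| / κ := by positivity
  have h1 := key (1 / (2 * |K| / κ + 1)) (by positivity) (by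
    rw [div_le_one (by positivity)]
    linarith)
  rw [one_div_one_div] at h1
  have h2 : (2 * |K| / κ + 1) ≤ (2 * |K| / κ + 1) ^ (3 / 2 : ℝ) := by
    conv_lhs => rw [← Real.rpow_one (2 * |K| / κ + 1)]
    exact Real.rpow_le_rpow_of_exponent_le (by linarith) (by norm_num)
  have h3 : κ / 2 * (2 * |K| / κ + 1) ≤ K := (mul_le_mul_of_nonneg_left h2 (by positivity)).trans h1
  have h4 : κ / 2 * (2 * |K| / κ + 1) = |K| + κ / 2 := by
    field_simp
  rw [h4] at h3
  linarith [le_abs_self K]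

end Pool.Agent.LB
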