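import Pool.Agent.Helper76.LB.Defs

set_option autoImplicit false

open Real MeasureTheory Set Filter Topology

namespace Pool.Agent.LB

/-! Block RA: sums of two squares. `Real.tsum_exp_neg_mul_int_sq`, fibres of `p ↦ p.1² + p.2²`. -/

/-- number of representations as a sum of two squares -/
noncomputable def r2 (n : ℕ) : ℕ := Set.ncard {p : ℤ × ℤ | p.1 ^ 2 + p.2 ^ 2 = (n : ℤ)}

/-- the norm as a natural number -/
def Nn61 (p : ℤ × ℤ) : ℕ := (p.1 ^ 2 + p.2 ^ 2).toNat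

theorem Nn61_cast (p : ℤ × ℤ) : ((Nn61 p : ℕ) : ℤ) = p.1 ^ 2 + p.2 ^ 2 :=
  Int.toNat_of_nonneg (by positivity)

theorem Nn61_real (p : ℤ × ℤ) : ((Nn61 p : ℕ) : ℝ) = (p.1 : ℝ) ^ 2 + (p.2 : ℝ) ^ 2 := by
  have h := Nn61_cast p
  have h2 : (((Nn61 p : ℕ) : ℤ) : ℝ) = ((p.1 ^ 2 + p.2 ^ 2 : ℤ) : ℝ) := by rw [h]
  push_cast at h2
  exact h2

theorem card_fib61 (n : ℕ) : Nat.card {p : ℤ × ℤ // Nn61 p = n} = r2 n := by
  have : {p : ℤ × ℤ | Nn61 p = n} = {p : ℤ × ℤ | p.1 ^ 2 + p.2 ^ 2 = (n : ℤ)} := by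
    ext p
    simp only [Set.mem_ofPred_eq]
    rw [← Nn61_cast p]
    exact Nat.cast_inj.symm
  unfold r2
  rw [← this]
  rfl

theorem fib61 {F : ℕ → ℝ} (hs : Summable fun p : ℤ × ℤ => F (Nn61 p)) :
    Summable (fun n => (r2 n : ℝ) * F n) ∧
      ∑' p : ℤ × ℤ, F (Nn61 p) = ∑' n, (r2 n : ℝ) * F n := by
  set e := Equiv.sigmaFiberEquiv Nn61 with he
  have hs' : Summable fun s : (Σ y, {x // Nn61 x = y}) => F (Nn61 (e s)) :=
    (e.summable_iff (f := fun p => F (Nn61 p))).2 hs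
  have hc : ∀ y, ∑' x : {x // Nn61 x = y}, F (Nn61 (e ⟨y, x⟩)) = (r2 y : ℝ) * F y := by
    intro y
    have h1 : ∀ x : {x // Nn61 x = y}, F (Nn61 (e ⟨y, x⟩)) = F y := by
      intro x
      have : e ⟨y, x⟩ = x.1 := rfl
      rw [this, x.2]
    simp only [h1]
    rw [tsum_const, card_fib61, nsmul_eq_mul]
  have h1 := hs'.sigma
  have h2 := hs'.tsum_sigma
  simp only [hc] at h1 h2
  refine ⟨h1, ?_⟩
  rw [← h2]
  exact (e.tsum_eq (fun p => F (Nn61 p))).symm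

theorem r2_zero61 : r2 0 = 1 := by
  have : {p : ℤ × ℤ | p.1 ^ 2 + p.2 ^ 2 = ((0 : ℕ) : ℤ)} = {(0, 0)} := by
    ext p
    simp only [Set.mem_ofPred_eq, Set.mem_singleton_iff, Nat.cast_zero]
    constructor
    · intro h
      have h1 : p.1 = 0 := by nlinarith [sq_nonneg p.1, sq_nonneg p.2]
      have h2 : p.2 = 0 := by nlinarith [sq_nonneg p.1, sq_nonneg p.2]
      exact Prod.ext h1 h2
    · rintro rfl; simp
  unfold r2
  rw [this, Set.ncard_singleton]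

theorem summable_gauss61 {t : ℝ} (ht : 0 < t) :
    Summable fun m : ℤ => Real.exp (-π * t * (m : ℝ) ^ 2) := by
  have h1 : Summable fun n : ℕ => Real.exp (-π * t * (n : ℝ) ^ 2) := by
    have hr0 : (0 : ℝ) ≤ Real.exp (-π * t) := (Real.exp_pos _).le
    have hr1 : Real.exp (-π * t) < 1 := by
      rw [Real.exp_lt_one_iff]
      have := Real.pi_pos
      nlinarith
    refine Summable.of_nonneg_of_le (fun n => (Real.exp_pos _).le) (fun n => ?_)
      (summable_geometric_of_lt_one hr0 hr1)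
    rw [← Real.exp_nat_mul]
    apply Real.exp_le_exp.2
    have h2 : (n : ℝ) ≤ (n : ℝ) ^ 2 := by
      rcases Nat.eq_zero_or_pos n with h | h
      · simp [h]
      · have : (1 : ℝ) ≤ n := by exact_mod_cast h
        nlinarith
    have h3 : 0 < π * t := mul_pos Real.pi_pos ht
    nlinarith
  rw [summable_int_iff_summable_nat_and_neg]
  refine ⟨by simpa using h1, by simpa using h1⟩

theorem sum_gauss61 {t : ℝ} (ht : 0 < t) :
    Summable (fun n : ℕ => (r2 (n + 1) : ℝ) * Real.exp (-(π * ((n : ℝ) + 1) * t))) ∧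
      1 + ∑' n : ℕ, (r2 (n + 1) : ℝ) * Real.exp (-(π * ((n : ℝ) + 1) * t)) =
        (∑' m : ℤ, Real.exp (-π * t * (m : ℝ) ^ 2)) ^ 2 := by
  have hg := summable_gauss61 ht
  have hF : ∀ p : ℤ × ℤ, Real.exp (-(π * ((Nn61 p : ℕ) : ℝ) * t)) =
      Real.exp (-π * t * (p.1 : ℝ) ^ 2) * Real.exp (-π * t * (p.2 : ℝ) ^ 2) := by
    intro p
    rw [← Real.exp_add, Nn61_real]
    congr 1; ring
  have hsum : Summable fun p : ℤ × ℤ => Real.exp (-(π * ((Nn61 p : ℕ) : ℝ) * t)) := by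
    simp only [hF]
    exact hg.mul_of_nonneg hg (fun _ => (Real.exp_pos _).le) (fun _ => (Real.exp_pos _).le)
  obtain ⟨h1, h2⟩ := fib61 (F := fun n : ℕ => Real.exp (-(π * (n : ℝ) * t))) hsum
  have h3 := h1.tsum_eq_zero_add
  simp only [r2_zero61, Nat.cast_zero, mul_zero, zero_mul, neg_zero, Real.exp_zero, Nat.cast_one,
    mul_one, Nat.cast_add] at h3
  refine ⟨?_, ?_⟩
  · have := (summable_nat_add_iff 1).2 h1
    simpa using this
  · rw [← h3, ← h2]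
    simp only [hF]
    rw [sq, tsum_mul_tsum_of_summable_norm hg.norm hg.norm]

theorem thetaPair_r2 : ThetaPair (fun n => (r2 (n + 1) : ℝ)) (fun n => (n : ℝ) + 1) where
  nonneg n := by positivity
  pos n := by positivity
  tends := tendsto_atTop_add_const_right _ _ tendsto_natCast_atTop_atTop
  summ t ht := (sum_gauss61 ht).1
  theta t ht := by
    have h1 := (sum_gauss61 ht).2
    have h2 := (sum_gauss61 (inv_pos.2 ht)).2
    simp only [← div_eq_mul_inv] at h2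
    rw [h1, h2]
    have h3 := Real.tsum_exp_neg_mul_int_sq ht
    have h4 : ∀ m : ℤ, Real.exp (-π / t * (m : ℝ) ^ 2) = Real.exp (-π / t * (m : ℝ) ^ 2) :=
      fun _ => rfl
    rw [h3, mul_pow, ← mul_assoc]
    have h5 : t * (1 / t ^ (1 / 2 : ℝ)) ^ 2 = 1 := by
      rw [div_pow, one_pow, ← Real.rpow_natCast, ← Real.rpow_mul ht.le]
      norm_num
      field_simp
    rw [h5, one_mul]

theorem cnt_r2 {x : ℝ} (hx : 0 ≤ x) :
    cnt (fun n => (r2 (n + 1) : ℝ)) (fun n => (n : ℝ) + 1) x =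
      (Set.ncard {p : ℤ × ℤ | (p.1 : ℝ) ^ 2 + (p.2 : ℝ) ^ 2 ≤ x} : ℝ) := by
  set A := {p : ℤ × ℤ | (p.1 : ℝ) ^ 2 + (p.2 : ℝ) ^ 2 ≤ x} with hA
  have hfin : A.Finite := by
    obtain ⟨k, hk⟩ := exists_nat_ge x
    refine Set.Finite.subset ((Set.finite_Icc (-(k : ℤ)) k).prod (Set.finite_Icc (-(k : ℤ)) k)) ?_
    have key : ∀ m : ℤ, ((m : ℝ)) ^ 2 ≤ x → m ∈ Icc (-(k : ℤ)) k := by
      intro m hm
      have h1 : ((m ^ 2 : ℤ) : ℝ) ≤ ((k : ℤ) : ℝ) := by push_cast; linarith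
      have h2 : m ^ 2 ≤ (k : ℤ) := by exact_mod_cast h1
      constructor <;> nlinarith [sq_nonneg (m - 1), sq_nonneg (m + 1), sq_nonneg m]
    intro p hp
    have hp' : (p.1 : ℝ) ^ 2 + (p.2 : ℝ) ^ 2 ≤ x := hp
    exact ⟨key _ (by nlinarith [sq_nonneg (p.2 : ℝ)]), key _ (by nlinarith [sq_nonneg (p.1 : ℝ)])⟩
  have hF : ∀ p : ℤ × ℤ, (if ((Nn61 p : ℕ) : ℝ) ≤ x then (1 : ℝ) else 0) =
      A.indicator (fun _ => (1 : ℝ)) p := by
    intro p
    rw [Nn61_real]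
    by_cases h : p ∈ A
    · have h' : (p.1 : ℝ) ^ 2 + (p.2 : ℝ) ^ 2 ≤ x := h
      simp [h, h']
    · have h' : ¬ (p.1 : ℝ) ^ 2 + (p.2 : ℝ) ^ 2 ≤ x := h
      simp [h, h']
  have hsum : Summable fun p : ℤ × ℤ => (if ((Nn61 p : ℕ) : ℝ) ≤ x then (1 : ℝ) else 0) := by
    simp only [hF]
    refine summable_of_hasFiniteSupport (hfin.subset ?_)
    intro p hp
    by_contra h
    exact hp (Set.indicator_of_notMem h _)
  obtain ⟨h1, h2⟩ := fib61 (F := fun n : ℕ => if (n : ℝ) ≤ x then (1 : ℝ) else 0) hsum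
  have h3 := h1.tsum_eq_zero_add
  simp only [r2_zero61, Nat.cast_zero, hx, if_true, Nat.cast_one, mul_one] at h3
  have h4 : ∑' p : ℤ × ℤ, (if ((Nn61 p : ℕ) : ℝ) ≤ x then (1 : ℝ) else 0) = (A.ncard : ℝ) := by
    simp only [hF]
    rw [← tsum_subtype A (fun _ => (1 : ℝ)), tsum_const, nsmul_eq_mul, mul_one]
    rfl
  rw [← h4, h2, h3]
  unfold cnt
  congr 1
  refine tsum_congr fun n => ?_
  push_cast
  split_ifs <;> simp

end Pool.Agent.LB
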