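import Pool.Agent.Helper76.LB.JB

set_option autoImplicit false

open Real MeasureTheory Set Filter Topology

namespace Pool.Agent.LB

/-! Block WC: `g + H g` is orthogonal to anti-self-dual functions (Fubini, `J_abs_le_one`). -/

theorem Hk_abs_le {g : ℝ → ℝ} (hg : IntegrableOn g (Ioi 0)) {u : ℝ} (hu : 0 ≤ u) :
    |Hk g u| ≤ π * ∫ v in Ioi (0 : ℝ), |g v| := by
  unfold Hk
  rw [abs_mul, abs_of_pos Real.pi_pos]
  refine mul_le_mul_of_nonneg_left ?_ Real.pi_pos.le
  have h1 := norm_integral_le_of_norm_le (μ := volume.restrict (Ioi (0 : ℝ)))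
    (f := fun v => g v * Jd 0 (v * u)) (g := fun v => |g v|) hg.abs ?_
  · exact h1
  · filter_upwards [ae_restrict_mem measurableSet_Ioi] with v hv
    have hv0 : (0 : ℝ) < v := hv
    rw [Real.norm_eq_abs, abs_mul]
    exact mul_le_of_le_one_right (abs_nonneg _) (J_abs_le_one (mul_nonneg hv0.le hu))

theorem Hk_measurable {g : ℝ → ℝ} (hg : Measurable g) : Measurable (Hk g) := by
  have h1 : Measurable (Function.uncurry fun (ρ u : ℝ) => g u * Jd 0 (u * ρ)) := by
    have h2 : Measurable fun p : ℝ × ℝ => g p.2 := hg.comp measurable_snd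
    have h3 : Measurable fun p : ℝ × ℝ => Jd 0 (p.2 * p.1) :=
      (Jd_continuous 0).measurable.comp (measurable_snd.mul measurable_fst)
    exact h2.mul h3
  have h4 := (StronglyMeasurable.integral_prod_right (ν := volume.restrict (Ioi (0 : ℝ)))
    h1.stronglyMeasurable).measurable
  exact h4.const_mul π

theorem pair_orth {g ψ : ℝ → ℝ} (hg : Measurable g) (hgi : IntegrableOn g (Ioi 0)) {B : ℝ}
    (hgb : ∀ u, |g u| ≤ B) (hψ : Anti ψ) :
    IntegrableOn (fun u => (g u + Hk g u) * ψ u) (Ioi 0) ∧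
      ∫ u in Ioi (0 : ℝ), (g u + Hk g u) * ψ u = 0 := by
  have hψi := hψ.int
  have i1 : IntegrableOn (fun u => g u * ψ u) (Ioi 0) := by
    refine Integrable.bdd_mul (c := B) hψi hg.aestronglyMeasurable ?_
    exact Filter.Eventually.of_forall fun u => hgb u
  have i2 : IntegrableOn (fun u => Hk g u * ψ u) (Ioi 0) := by
    refine Integrable.bdd_mul (c := π * ∫ v in Ioi (0 : ℝ), |g v|) hψi
      (Hk_measurable hg).aestronglyMeasurable ?_
    filter_upwards [ae_restrict_mem measurableSet_Ioi] with u hu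
    have hu0 : (0 : ℝ) < u := hu
    exact Hk_abs_le hgi hu0.le
  have hsum : (fun u => (g u + Hk g u) * ψ u) = fun u => g u * ψ u + Hk g u * ψ u := by
    funext u
    ring
  refine ⟨?_, ?_⟩
  · rw [hsum]
    exact i1.add i2
  · rw [hsum, integral_add i1 i2]
    have hF : Integrable (Function.uncurry fun (u v : ℝ) => g v * Jd 0 (v * u) * ψ u)
        ((volume.restrict (Ioi (0 : ℝ))).prod (volume.restrict (Ioi (0 : ℝ)))) := by
      have hb : Integrable (fun p : ℝ × ℝ => ψ p.1 * g p.2)
          ((volume.restrict (Ioi (0 : ℝ))).prod (volume.restrict (Ioi (0 : ℝ)))) :=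
        Integrable.mul_prod hψi hgi
      refine hb.mono ?_ ?_
      · have h2 : Measurable fun p : ℝ × ℝ => g p.2 := hg.comp measurable_snd
        have h3 : Measurable fun p : ℝ × ℝ => Jd 0 (p.2 * p.1) :=
          (Jd_continuous 0).measurable.comp (measurable_snd.mul measurable_fst)
        have h4 : Measurable fun p : ℝ × ℝ => ψ p.1 := hψ.cont.measurable.comp measurable_fst
        exact ((h2.mul h3).mul h4).aestronglyMeasurable
      · rw [Measure.prod_restrict]
        filter_upwards [ae_restrict_mem (measurableSet_Ioi.prod measurableSet_Ioi)] with p hp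
        have h1 : (0 : ℝ) < p.1 := hp.1
        have h2 : (0 : ℝ) < p.2 := hp.2
        simp only [Function.uncurry, Real.norm_eq_abs, abs_mul]
        have h3 : |Jd 0 (p.2 * p.1)| ≤ 1 := J_abs_le_one (by positivity)
        have h4 : |g p.2| * |Jd 0 (p.2 * p.1)| ≤ |g p.2| :=
          mul_le_of_le_one_right (abs_nonneg _) h3
        calc |g p.2| * |Jd 0 (p.2 * p.1)| * |ψ p.1| ≤ |g p.2| * |ψ p.1| :=
              mul_le_mul_of_nonneg_right h4 (abs_nonneg _)
          _ = |ψ p.1| * |g p.2| := mul_comm _ _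
    have e1 : ∫ u in Ioi (0 : ℝ), Hk g u * ψ u =
        π * ∫ u in Ioi (0 : ℝ), ∫ v in Ioi (0 : ℝ), g v * Jd 0 (v * u) * ψ u := by
      rw [← integral_const_mul]
      congr 1
      funext u
      unfold Hk
      rw [mul_assoc, ← integral_mul_const]
    have e2 : ∫ v in Ioi (0 : ℝ), ∫ u in Ioi (0 : ℝ), g v * Jd 0 (v * u) * ψ u =
        -(1 / π) * ∫ v in Ioi (0 : ℝ), g v * ψ v := by
      rw [← integral_const_mul]
      refine setIntegral_congr_fun measurableSet_Ioi fun v hv => ?_
      have hv0 : (0 : ℝ) < v := hv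
      have h1 := hψ.anti v hv0.le
      unfold Hk at h1
      have h2 : ∫ u in Ioi (0 : ℝ), g v * Jd 0 (v * u) * ψ u =
          g v * ∫ u in Ioi (0 : ℝ), ψ u * Jd 0 (u * v) := by
        rw [← integral_const_mul]
        congr 1
        funext u
        rw [mul_comm v u]
        ring
      rw [h2]
      have h3 : ∫ u in Ioi (0 : ℝ), ψ u * Jd 0 (u * v) = -(1 / π) * ψ v := by
        have hp := Real.pi_pos.ne'
        field_simp
        linarith
      rw [h3]
      ring
    rw [e1, integral_integral_swap hF, e2]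
    have hp := Real.pi_pos.ne'
    field_simp
    ring

theorem selfDual_one : SelfDual (fun _ => 1) := by
  intro ψ hψ
  have h1 := hψ.anti 0 le_rfl
  unfold Hk at h1
  have h2 : Jd 0 0 = 1 := by
    rw [Jd_zero]
    simp
  simp only [mul_zero, h2, mul_one] at h1
  simp only [one_mul]
  linarith

end Pool.Agent.LB
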