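import Pool.Agent.Helper76.LB.WA
import Pool.Agent.Helper76.LB.WC

set_option autoImplicit false

open Real MeasureTheory Set Filter Topology

namespace Pool.Agent.LB

/-! Block WD: the density `w`. `x_j = x0 * 4096^j`, `y_j = x_j^θ`, signs `(-1)^j`,
`w u = 1 + c0 * ∑' j, (-1)^j * (gp (x_j) (y_j) u + Hk (gp (x_j) (y_j)) u)`. -/

namespace WD

/-- A bound for the partial sums of `∑ min(2^j α, 2^{-j} α⁻¹)`. -/
noncomputable def Bd (t : ℝ) : ℝ := if t ≤ 2 then t else 4 - 4 / t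

theorem Bd_nonneg {t : ℝ} (ht : 0 < t) : 0 ≤ Bd t := by
  unfold Bd
  split_ifs with h
  · exact ht.le
  · push Not at h
    have : 4 / t ≤ 2 := by rw [div_le_iff₀ ht]; linarith
    linarith

theorem Bd_le {t : ℝ} (_ht : 0 < t) : Bd t ≤ 4 := by
  unfold Bd
  split_ifs with h
  · linarith
  · have : 0 ≤ 4 / t := by positivity
    linarith

theorem Bd_step {t : ℝ} (ht : 0 < t) : Bd t + min t t⁻¹ ≤ Bd (2 * t) := by
  unfold Bd
  by_cases h1 : t ≤ 1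
  · rw [if_pos (by linarith), if_pos (by linarith)]
    have := min_le_left t t⁻¹
    linarith
  · push Not at h1
    rw [if_neg (show ¬ (2 * t ≤ 2) by linarith)]
    have hm := min_le_right t t⁻¹
    by_cases h2 : t ≤ 2
    · rw [if_pos h2]
      have h3 : 4 / (2 * t) = 2 * t⁻¹ := by field_simp; norm_num
      rw [h3]
      have h4 : t + 3 * t⁻¹ ≤ 4 := by
        have : t * (t + 3 * t⁻¹) ≤ t * 4 := by
          have : t * (t + 3 * t⁻¹) = t ^ 2 + 3 := by field_simp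
          rw [this]; nlinarith
        exact le_of_mul_le_mul_left this ht
      linarith
    · rw [if_neg h2]
      have h3 : 4 / (2 * t) = 2 * t⁻¹ := by field_simp; norm_num
      have h4 : 4 / t = 4 * t⁻¹ := by field_simp
      rw [h3, h4]
      have : 0 < t⁻¹ := inv_pos.2 ht
      linarith

theorem min_nonneg' {t : ℝ} (ht : 0 < t) : 0 ≤ min t t⁻¹ := le_min ht.le (inv_pos.2 ht).le

theorem min_le_one {t : ℝ} (_ht : 0 < t) : min t t⁻¹ ≤ 1 := by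
  rcases le_total t 1 with h | h
  · exact (min_le_left _ _).trans h
  · exact (min_le_right _ _).trans (inv_le_one_of_one_le₀ h)

theorem sum_range_le {α : ℝ} (hα : 0 < α) (N : ℕ) :
    ∑ j ∈ Finset.range N, min (2 ^ j * α) ((2 ^ j * α)⁻¹) ≤ Bd (2 ^ N * α) := by
  induction N with
  | zero => simpa using Bd_nonneg hα
  | succ N ih =>
    rw [Finset.sum_range_succ]
    have h := Bd_step (t := 2 ^ N * α) (by positivity)
    have h2 : (2 : ℝ) ^ (N + 1) * α = 2 * (2 ^ N * α) := by ring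
    rw [h2]
    linarith

end WD

/-- `∑_j min(2^j α, 2^{-j} α⁻¹) ≤ 4`. -/
theorem sum_min_le {α : ℝ} (hα : 0 < α) :
    Summable (fun j : ℕ => min (2 ^ j * α) ((2 ^ j * α)⁻¹)) ∧
      ∑' j : ℕ, min (2 ^ j * α) ((2 ^ j * α)⁻¹) ≤ 4 := by
  have h0 : ∀ j : ℕ, 0 ≤ min (2 ^ j * α) ((2 ^ j * α)⁻¹) := fun j =>
    WD.min_nonneg' (by positivity)
  have h1 : ∀ N : ℕ, ∑ j ∈ Finset.range N, min (2 ^ j * α) ((2 ^ j * α)⁻¹) ≤ 4 := fun N =>
    (WD.sum_range_le hα N).trans (WD.Bd_le (by positivity))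
  exact ⟨summable_of_sum_range_le h0 h1, Real.tsum_le_of_sum_range_le h0 h1⟩

namespace WD

/-! ### the points `x_j` -/

noncomputable def xj (x0 : ℝ) (j : ℕ) : ℝ := x0 * 4096 ^ j

theorem xj_pos {x0 : ℝ} (h : 8 ≤ x0) (j : ℕ) : 0 < xj x0 j := by
  unfold xj; positivity

theorem xj_ge {x0 : ℝ} (h : 8 ≤ x0) (j : ℕ) : x0 ≤ xj x0 j := by
  unfold xj
  have : (1 : ℝ) ≤ 4096 ^ j := one_le_pow₀ (by norm_num)
  nlinarith

theorem xj_ge8 {x0 : ℝ} (h : 8 ≤ x0) (j : ℕ) : 8 ≤ xj x0 j := h.trans (xj_ge h j)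

theorem xj_lt {x0 : ℝ} (h : 8 ≤ x0) {i j : ℕ} (hij : i < j) : 4096 * xj x0 i ≤ xj x0 j := by
  unfold xj
  have : (4096 : ℝ) ^ (i + 1) ≤ 4096 ^ j := pow_le_pow_right₀ (by norm_num) hij
  have h2 : 4096 * (x0 * 4096 ^ i) = x0 * 4096 ^ (i + 1) := by ring
  rw [h2]
  exact mul_le_mul_of_nonneg_left this (by linarith)

theorem rpow_third_le {x : ℝ} (hx : 8 ≤ x) : x ^ (1 / 3 : ℝ) ≤ x / 4 := by
  have hx0 : 0 ≤ x := by linarith
  set r := x ^ (1 / 3 : ℝ) with hr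
  have hr0 : 0 ≤ r := Real.rpow_nonneg hx0 _
  have hr3 : r ^ 3 = x := by
    rw [hr, ← Real.rpow_natCast, ← Real.rpow_mul hx0]; norm_num
  have hr2 : 2 ≤ r := by
    by_contra h
    push Not at h
    have : r ^ 3 < 2 ^ 3 := pow_lt_pow_left₀ h hr0 (by norm_num)
    linarith
  rw [← hr3]
  nlinarith [mul_nonneg hr0 (show (0 : ℝ) ≤ r ^ 2 - 4 by nlinarith)]

theorem four_pow_rpow (j : ℕ) : ((4096 : ℝ) ^ j) ^ (1 / 12 : ℝ) = 2 ^ j := by
  have h : (4096 : ℝ) ^ j = (2 ^ j) ^ (12 : ℕ) := by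
    rw [← pow_mul, mul_comm, pow_mul]; norm_num
  have h2 : (1 / 12 : ℝ) = ((12 : ℕ) : ℝ)⁻¹ := by norm_num
  rw [h, h2, Real.pow_rpow_inv_natCast (by positivity) (by norm_num)]

theorem xj_rpow {x0 : ℝ} (h : 8 ≤ x0) (j : ℕ) :
    (xj x0 j) ^ (1 / 12 : ℝ) = 2 ^ j * x0 ^ (1 / 12 : ℝ) := by
  unfold xj
  rw [Real.mul_rpow (by linarith) (by positivity), four_pow_rpow, mul_comm]

/-- the two arguments of the minimum in `Hk_gp_bound` -/
theorem min_eq {x0 : ℝ} (h : 8 ≤ x0) (j : ℕ) {u : ℝ} (hu : 0 < u) :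
    min ((xj x0 j) ^ (1 / 12 : ℝ) * u ^ (-(1 / 4 : ℝ)))
      ((xj x0 j) ^ (-(1 / 12 : ℝ)) * u ^ (1 / 4 : ℝ)) =
    min (2 ^ j * (x0 ^ (1 / 12 : ℝ) * u ^ (-(1 / 4 : ℝ))))
      ((2 ^ j * (x0 ^ (1 / 12 : ℝ) * u ^ (-(1 / 4 : ℝ))))⁻¹) := by
  have e1 : (xj x0 j) ^ (1 / 12 : ℝ) * u ^ (-(1 / 4 : ℝ)) =
      2 ^ j * (x0 ^ (1 / 12 : ℝ) * u ^ (-(1 / 4 : ℝ))) := by
    rw [xj_rpow h]; ring
  have e2 : (xj x0 j) ^ (-(1 / 12 : ℝ)) * u ^ (1 / 4 : ℝ) =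
      ((xj x0 j) ^ (1 / 12 : ℝ) * u ^ (-(1 / 4 : ℝ)))⁻¹ := by
    rw [Real.rpow_neg (xj_pos h j).le, Real.rpow_neg hu.le, mul_inv, inv_inv]
  rw [e2, e1]

/-- the weights -/
noncomputable def mm (x0 : ℝ) (j : ℕ) (u : ℝ) : ℝ :=
  min (2 ^ j * (x0 / u) ^ (1 / 12 : ℝ)) ((2 ^ j * (x0 / u) ^ (1 / 12 : ℝ))⁻¹)

theorem mm_nonneg {x0 : ℝ} (h : 8 ≤ x0) (j : ℕ) {u : ℝ} (hu : 0 < u) : 0 ≤ mm x0 j u :=
  min_nonneg' (by have : 0 < x0 / u := by positivity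
                  positivity)

theorem mm_ge {x0 : ℝ} (h : 8 ≤ x0) (j : ℕ) {u : ℝ} (hu : 0 < u) (h1 : 3 / 4 * xj x0 j ≤ u)
    (h2 : u ≤ 4 / 3 * xj x0 j) : 3 / 4 ≤ mm x0 j u := by
  have hx := xj_pos h j
  set r := xj x0 j / u with hr
  have hr0 : 0 < r := by positivity
  have e : 2 ^ j * (x0 / u) ^ (1 / 12 : ℝ) = r ^ (1 / 12 : ℝ) := by
    rw [hr, Real.div_rpow hx.le hu.le, xj_rpow h, Real.div_rpow (by linarith) hu.le]; ring
  unfold mm
  rw [e]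
  have hr1 : 3 / 4 ≤ r := by rw [hr, le_div_iff₀ hu]; linarith
  have hr2 : 3 / 4 ≤ r⁻¹ := by rw [hr, inv_div, le_div_iff₀ hx]; linarith
  rcases le_total r 1 with h3 | h3
  · have h4 : r ≤ r ^ (1 / 12 : ℝ) := by
      conv_lhs => rw [← Real.rpow_one r]
      exact Real.rpow_le_rpow_of_exponent_ge hr0 h3 (by norm_num)
    have h5 : r ^ (1 / 12 : ℝ) ≤ 1 := Real.rpow_le_one hr0.le h3 (by norm_num)
    have h6 : 1 ≤ (r ^ (1 / 12 : ℝ))⁻¹ := (one_le_inv₀ (by positivity)).2 h5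
    exact le_min (hr1.trans h4) (by linarith)
  · have h4 : r ^ (1 / 12 : ℝ) ≤ r := by
      conv_rhs => rw [← Real.rpow_one r]
      exact Real.rpow_le_rpow_of_exponent_le h3 (by norm_num)
    have h5 : 1 ≤ r ^ (1 / 12 : ℝ) := Real.one_le_rpow h3 (by norm_num)
    have h6 : r⁻¹ ≤ (r ^ (1 / 12 : ℝ))⁻¹ := inv_anti₀ (by positivity) h4
    exact le_min (by linarith) (hr2.trans h6)

theorem summable_mm {x0 : ℝ} (h : 8 ≤ x0) {u : ℝ} (hu : 0 < u) :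
    Summable (fun j => mm x0 j u) ∧ ∑' j, mm x0 j u ≤ 4 :=
  sum_min_le (by have : 0 < x0 / u := by positivity
                 positivity)

theorem sum_mm_le {x0 : ℝ} (h : 8 ≤ x0) {u : ℝ} (hu : 0 < u) (N : ℕ) :
    ∑ j ∈ Finset.range N, mm x0 j u ≤ 4 :=
  ((summable_mm h hu).1.sum_le_tsum _ (fun j _ => mm_nonneg h j hu)).trans (summable_mm h hu).2

/-! ### the terms -/

section terms

variable {x0 θ : ℝ}

/-- the pair -/
noncomputable def gj (x0 θ : ℝ) (j : ℕ) : ℝ → ℝ := gp (xj x0 j) ((xj x0 j) ^ θ)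

/-- the terms of the series -/
noncomputable def F (x0 θ : ℝ) (j : ℕ) (u : ℝ) : ℝ :=
  if 0 < u then gj x0 θ j u + Hk (gj x0 θ j) u else 0

theorem yj_nonneg (h : 8 ≤ x0) (j : ℕ) : 0 ≤ (xj x0 j) ^ θ := Real.rpow_nonneg (xj_pos h j).le _

theorem yj_le (h : 8 ≤ x0) (h2 : θ ≤ 1 / 3) (j : ℕ) : (xj x0 j) ^ θ ≤ (xj x0 j) ^ (1 / 3 : ℝ) :=
  Real.rpow_le_rpow_of_exponent_le (by linarith [xj_ge8 h j]) h2

theorem yj_le' (h : 8 ≤ x0) (h2 : θ ≤ 1 / 3) (j : ℕ) : (xj x0 j) ^ θ ≤ xj x0 j / 4 :=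
  (yj_le h h2 j).trans (rpow_third_le (xj_ge8 h j))

theorem gp_abs_le (x y u : ℝ) : |gp x y u| ≤ 1 := by
  unfold gp
  split_ifs <;> norm_num

theorem gp_eq_zero {x y u : ℝ} (h : u ≤ x - y ∨ x + y < u) (hy : 0 ≤ y) : gp x y u = 0 := by
  unfold gp
  rcases h with h | h
  · rw [if_neg (fun hh => absurd hh.1 (by linarith)), if_neg (fun hh => absurd hh.1 (by linarith))]
    norm_num
  · rw [if_neg (fun hh => absurd hh.2 (by linarith)), if_neg (fun hh => absurd hh.2 (by linarith))]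
    norm_num

theorem gj_abs_le (h : 8 ≤ x0) (h2 : θ ≤ 1 / 3) (j : ℕ) {u : ℝ} (hu : 0 < u) :
    |gj x0 θ j u| ≤ 4 / 3 * mm x0 j u := by
  by_cases hz : u ≤ xj x0 j - (xj x0 j) ^ θ ∨ xj x0 j + (xj x0 j) ^ θ < u
  · unfold gj
    rw [gp_eq_zero hz (yj_nonneg h j), abs_zero]
    have := mm_nonneg h j hu
    positivity
  · push Not at hz
    have hy := yj_le' (θ := θ) h h2 j
    have := mm_ge h j hu (by linarith [hz.1]) (by linarith [hz.2, xj_pos h j])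
    have h1 := gp_abs_le (xj x0 j) ((xj x0 j) ^ θ) u
    unfold gj
    linarith

theorem int_gj_le (h : 8 ≤ x0) (h1 : 1 / 4 ≤ θ) (h2 : θ ≤ 1 / 3) (j : ℕ) {z : ℝ} (hz : 0 < z) :
    |∫ u in (0 : ℝ)..z, gj x0 θ j u| ≤ 16 / 9 * (z ^ θ * mm x0 j z) := by
  obtain ⟨ha, hb, -⟩ := int_gp (xj_ge8 h j) (yj_nonneg (θ := θ) h j) (yj_le h h2 j)
  have hmn := mm_nonneg h j hz
  have hzθ : 0 ≤ z ^ θ := Real.rpow_nonneg hz.le _
  by_cases hc : z ≤ xj x0 j - (xj x0 j) ^ θ ∨ xj x0 j + (xj x0 j) ^ θ ≤ z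
  · unfold gj
    rw [hb z hz hc, abs_zero]
    positivity
  · push Not at hc
    have hy := yj_le' (θ := θ) h h2 j
    have hm := mm_ge h j hz (by linarith [hc.1]) (by linarith [hc.2, xj_pos h j])
    unfold gj
    rw [abs_of_nonneg (ha z hz).1]
    refine (ha z hz).2.trans ?_
    have h3 : (xj x0 j) ^ θ ≤ 4 / 3 * z ^ θ := by
      have : xj x0 j ≤ 4 / 3 * z := by linarith [hc.1]
      refine (Real.rpow_le_rpow (xj_pos h j).le this (by linarith)).trans ?_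
      rw [Real.mul_rpow (by norm_num) hz.le]
      refine mul_le_mul_of_nonneg_right ?_ hzθ
      conv_rhs => rw [← Real.rpow_one (4 / 3 : ℝ)]
      exact Real.rpow_le_rpow_of_exponent_le (by norm_num) (by linarith)
    refine h3.trans ?_
    nlinarith [mul_le_mul_of_nonneg_left hm hzθ]

theorem Hj_abs_le {C2 : ℝ} (hC : ∀ x y : ℝ, 8 ≤ x → 0 ≤ y → y ≤ x ^ (1 / 3 : ℝ) →
    ∀ u : ℝ, 0 < u → |Hk (gp x y) u| ≤
      C2 * min (x ^ (1 / 12 : ℝ) * u ^ (-(1 / 4 : ℝ))) (x ^ (-(1 / 12 : ℝ)) * u ^ (1 / 4 : ℝ)))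
    (h : 8 ≤ x0) (h2 : θ ≤ 1 / 3) (j : ℕ) {u : ℝ} (hu : 0 < u) :
    |Hk (gj x0 θ j) u| ≤ C2 * min (2 ^ j * (x0 ^ (1 / 12 : ℝ) * u ^ (-(1 / 4 : ℝ))))
      ((2 ^ j * (x0 ^ (1 / 12 : ℝ) * u ^ (-(1 / 4 : ℝ))))⁻¹) := by
  have := hC (xj x0 j) ((xj x0 j) ^ θ) (xj_ge8 h j) (yj_nonneg h j) (yj_le h h2 j) u hu
  rwa [min_eq h j hu] at this

theorem F_measurable (j : ℕ) : Measurable (F x0 θ j) := by
  unfold F
  exact Measurable.ite measurableSet_Ioi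
    ((gp_measurable _ _).add (Hk_measurable (gp_measurable _ _))) measurable_const

theorem gj_integrable (h : 8 ≤ x0) (h2 : θ ≤ 1 / 3) (j : ℕ) :
    IntegrableOn (gj x0 θ j) (Ioi 0) := by
  have hfin : volume (Ioc (0 : ℝ) (2 * xj x0 j)) ≠ ⊤ := by
    rw [Real.volume_Ioc]; exact ENNReal.ofReal_ne_top
  have h1 : IntegrableOn (gj x0 θ j) (Ioc 0 (2 * xj x0 j)) := by
    refine Measure.integrableOn_of_bounded (M := 1) hfin
      (gp_measurable _ _).aestronglyMeasurable ?_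
    exact Eventually.of_forall fun u => by
      rw [Real.norm_eq_abs]; exact gp_abs_le _ _ _
  refine (h1.of_forall_sdiff_eq_zero measurableSet_Ioi ?_)
  intro u hu
  have hu1 : 0 < u := hu.1
  have hu2 : ¬ (0 < u ∧ u ≤ 2 * xj x0 j) := hu.2
  have hu3 : 2 * xj x0 j < u := by
    by_contra hh
    exact hu2 ⟨hu1, not_lt.1 hh⟩
  have hy := yj_le' (θ := θ) h h2 j
  exact gp_eq_zero (Or.inr (by linarith [xj_pos h j])) (yj_nonneg h j)


/-- the constant of the bounds -/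
def GoodC (C2 : ℝ) : Prop := 0 < C2 ∧ ∀ x y : ℝ, 8 ≤ x → 0 ≤ y → y ≤ x ^ (1 / 3 : ℝ) →
    ∀ u : ℝ, 0 < u → |Hk (gp x y) u| ≤
      C2 * min (x ^ (1 / 12 : ℝ) * u ^ (-(1 / 4 : ℝ))) (x ^ (-(1 / 12 : ℝ)) * u ^ (1 / 4 : ℝ))

/-- the second weights -/
noncomputable def nn (x0 : ℝ) (j : ℕ) (u : ℝ) : ℝ :=
  min (2 ^ j * (x0 ^ (1 / 12 : ℝ) * u ^ (-(1 / 4 : ℝ))))
      ((2 ^ j * (x0 ^ (1 / 12 : ℝ) * u ^ (-(1 / 4 : ℝ))))⁻¹)

theorem nn_pos_arg (h : 8 ≤ x0) {u : ℝ} (hu : 0 < u) :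
    0 < x0 ^ (1 / 12 : ℝ) * u ^ (-(1 / 4 : ℝ)) := by
  have : 0 < x0 := by linarith
  positivity

theorem nn_nonneg (h : 8 ≤ x0) (j : ℕ) {u : ℝ} (hu : 0 < u) : 0 ≤ nn x0 j u :=
  min_nonneg' (mul_pos (by positivity) (nn_pos_arg h hu))

theorem nn_le_one (h : 8 ≤ x0) (j : ℕ) {u : ℝ} (hu : 0 < u) : nn x0 j u ≤ 1 :=
  min_le_one (mul_pos (by positivity) (nn_pos_arg h hu))

theorem summable_nn (h : 8 ≤ x0) {u : ℝ} (hu : 0 < u) :
    Summable (fun j => nn x0 j u) ∧ ∑' j, nn x0 j u ≤ 4 := sum_min_le (nn_pos_arg h hu)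

theorem sum_nn_le (h : 8 ≤ x0) {u : ℝ} (hu : 0 < u) (N : ℕ) :
    ∑ j ∈ Finset.range N, nn x0 j u ≤ 4 :=
  ((summable_nn h hu).1.sum_le_tsum _ (fun j _ => nn_nonneg h j hu)).trans (summable_nn h hu).2

theorem F_abs_le {C2 : ℝ} (hC : GoodC C2) (h : 8 ≤ x0) (h2 : θ ≤ 1 / 3) (j : ℕ) {u : ℝ}
    (hu : 0 < u) : |F x0 θ j u| ≤ 4 / 3 * mm x0 j u + C2 * nn x0 j u := by
  unfold F
  rw [if_pos hu]
  exact (abs_add_le _ _).trans (add_le_add (gj_abs_le h h2 j hu) (Hj_abs_le hC.2 h h2 j hu))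

theorem F_nonpos (j : ℕ) {u : ℝ} (hu : u ≤ 0) : F x0 θ j u = 0 := by
  unfold F; rw [if_neg (not_lt.2 hu)]

theorem sum_F_le {C2 : ℝ} (hC : GoodC C2) (h : 8 ≤ x0) (h2 : θ ≤ 1 / 3) (N : ℕ) (u : ℝ) :
    ∑ j ∈ Finset.range N, |F x0 θ j u| ≤ 16 / 3 + 4 * C2 := by
  have hC0 := hC.1
  rcases lt_or_ge 0 u with hu | hu
  · refine (Finset.sum_le_sum fun j _ => F_abs_le hC h h2 j hu).trans ?_
    rw [Finset.sum_add_distrib, ← Finset.mul_sum, ← Finset.mul_sum]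
    have h3 := sum_mm_le h hu N
    have h4 := sum_nn_le h hu N
    nlinarith
  · rw [Finset.sum_eq_zero (fun j _ => by rw [F_nonpos j hu, abs_zero])]
    positivity

theorem summable_abs_F {C2 : ℝ} (hC : GoodC C2) (h : 8 ≤ x0) (h2 : θ ≤ 1 / 3) (u : ℝ) :
    Summable (fun j => |F x0 θ j u|) :=
  summable_of_sum_range_le (fun _ => abs_nonneg _) (fun N => sum_F_le hC h h2 N u)

theorem summable_F {C2 : ℝ} (hC : GoodC C2) (h : 8 ≤ x0) (h2 : θ ≤ 1 / 3) (u : ℝ) :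
    Summable (fun j => (-1 : ℝ) ^ j * F x0 θ j u) := by
  refine Summable.of_abs ?_
  have := summable_abs_F hC h h2 (θ := θ) u
  refine this.congr fun j => ?_
  rw [abs_mul, abs_pow, abs_neg, abs_one, one_pow, one_mul]

/-- partial sums and the sum -/
noncomputable def SN (x0 θ : ℝ) (N : ℕ) (u : ℝ) : ℝ :=
  ∑ j ∈ Finset.range N, (-1 : ℝ) ^ j * F x0 θ j u

noncomputable def SS (x0 θ : ℝ) (u : ℝ) : ℝ := ∑' j : ℕ, (-1 : ℝ) ^ j * F x0 θ j u

theorem SN_abs_le {C2 : ℝ} (hC : GoodC C2) (h : 8 ≤ x0) (h2 : θ ≤ 1 / 3) (N : ℕ) (u : ℝ) :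
    |SN x0 θ N u| ≤ 16 / 3 + 4 * C2 := by
  unfold SN
  refine (Finset.abs_sum_le_sum_abs _ _).trans ?_
  refine le_trans (le_of_eq ?_) (sum_F_le hC h h2 N u)
  refine Finset.sum_congr rfl fun j _ => ?_
  rw [abs_mul, abs_pow, abs_neg, abs_one, one_pow, one_mul]

theorem SN_tendsto {C2 : ℝ} (hC : GoodC C2) (h : 8 ≤ x0) (h2 : θ ≤ 1 / 3) (u : ℝ) :
    Tendsto (fun N => SN x0 θ N u) atTop (𝓝 (SS x0 θ u)) :=
  (summable_F hC h h2 u).hasSum.tendsto_sum_nat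

theorem SS_abs_le {C2 : ℝ} (hC : GoodC C2) (h : 8 ≤ x0) (h2 : θ ≤ 1 / 3) (u : ℝ) :
    |SS x0 θ u| ≤ 16 / 3 + 4 * C2 :=
  le_of_tendsto (SN_tendsto hC h h2 u).abs (Eventually.of_forall fun N => SN_abs_le hC h h2 N u)

theorem SN_measurable (N : ℕ) : Measurable (SN x0 θ N) := by
  unfold SN
  exact Finset.measurable_fun_sum _ (fun j _ => (F_measurable j).const_mul _)

theorem SS_measurable {C2 : ℝ} (hC : GoodC C2) (h : 8 ≤ x0) (h2 : θ ≤ 1 / 3) :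
    Measurable (SS x0 θ) :=
  measurable_of_tendsto_metrizable (fun N => SN_measurable N)
    (tendsto_pi_nhds.2 fun u => SN_tendsto hC h h2 u)

/-! ### the integrals -/

theorem F_intervalIntegrable {C2 : ℝ} (hC : GoodC C2) (h : 8 ≤ x0) (h2 : θ ≤ 1 / 3) (j : ℕ)
    (a b : ℝ) : IntervalIntegrable (F x0 θ j) volume a b := by
  rw [intervalIntegrable_iff]
  refine Measure.integrableOn_of_bounded (M := 16 / 3 + 4 * C2) ?_
    (F_measurable j).aestronglyMeasurable (Eventually.of_forall fun u => ?_)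
  · rw [uIoc, Real.volume_Ioc]; exact ENNReal.ofReal_ne_top
  · rw [Real.norm_eq_abs]
    refine le_trans ?_ (sum_F_le hC h h2 (j + 1) u)
    exact Finset.single_le_sum (f := fun j => |F x0 θ j u|) (fun i _ => abs_nonneg _)
      (Finset.self_mem_range_succ j)

theorem gj_intervalIntegrable (j : ℕ) (a b : ℝ) :
    IntervalIntegrable (gj x0 θ j) volume a b := by
  rw [intervalIntegrable_iff]
  refine Measure.integrableOn_of_bounded (M := 1) ?_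
    (gp_measurable _ _).aestronglyMeasurable (Eventually.of_forall fun u => ?_)
  · rw [uIoc, Real.volume_Ioc]; exact ENNReal.ofReal_ne_top
  · rw [Real.norm_eq_abs]; exact gp_abs_le _ _ _

theorem int_F {C2 : ℝ} (hC : GoodC C2) (h : 8 ≤ x0) (h2 : θ ≤ 1 / 3) (j : ℕ) {z : ℝ}
    (hz : 0 < z) : ∫ u in (0 : ℝ)..z, F x0 θ j u =
      (∫ u in (0 : ℝ)..z, gj x0 θ j u) + ∫ u in (0 : ℝ)..z, Hk (gj x0 θ j) u := by
  have hHk : IntervalIntegrable (Hk (gj x0 θ j)) volume 0 z := by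
    have h3 := (F_intervalIntegrable hC h h2 (θ := θ) j 0 z).sub
      (gj_intervalIntegrable (x0 := x0) (θ := θ) j 0 z)
    refine h3.congr_ae ?_
    rw [uIoc_of_le hz.le]
    filter_upwards [ae_restrict_mem measurableSet_Ioc] with u hu
    simp only [F, if_pos hu.1]
    ring
  rw [← intervalIntegral.integral_add (gj_intervalIntegrable j 0 z) hHk]
  refine intervalIntegral.integral_congr_ae (Eventually.of_forall fun u hu => ?_)
  rw [uIoc_of_le hz.le] at hu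
  simp only [F, if_pos hu.1]

theorem int_SN {C2 : ℝ} (hC : GoodC C2) (h : 8 ≤ x0) (h2 : θ ≤ 1 / 3) (N : ℕ) {z : ℝ}
    (hz : 0 < z) : π * ∫ u in (0 : ℝ)..z, SN x0 θ N u =
      (∑ j ∈ Finset.range N, (-1 : ℝ) ^ j * (π * ∫ u in (0 : ℝ)..z, gj x0 θ j u)) +
      ∑ j ∈ Finset.range N, (-1 : ℝ) ^ j * (π * ∫ u in (0 : ℝ)..z, Hk (gj x0 θ j) u) := by
  unfold SN
  rw [intervalIntegral.integral_finsetSum
    (fun j _ => (F_intervalIntegrable hC h h2 j 0 z).const_mul _), ← Finset.sum_add_distrib,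
    Finset.mul_sum]
  refine Finset.sum_congr rfl fun j _ => ?_
  rw [intervalIntegral.integral_const_mul, int_F hC h h2 j hz]
  ring

theorem int_SN_tendsto {C2 : ℝ} (hC : GoodC C2) (h : 8 ≤ x0) (h2 : θ ≤ 1 / 3) (z : ℝ) :
    Tendsto (fun N => π * ∫ u in (0 : ℝ)..z, SN x0 θ N u) atTop
      (𝓝 (π * ∫ u in (0 : ℝ)..z, SS x0 θ u)) := by
  refine Tendsto.const_mul _ ?_
  refine intervalIntegral.tendsto_integral_filter_of_dominated_convergence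
    (fun _ => 16 / 3 + 4 * C2) ?_ ?_ ?_ ?_
  · exact Eventually.of_forall fun N => (SN_measurable N).aestronglyMeasurable
  · exact Eventually.of_forall fun N => Eventually.of_forall fun u _ => by
      rw [Real.norm_eq_abs]; exact SN_abs_le hC h h2 N u
  · exact intervalIntegrable_const
  · exact Eventually.of_forall fun u _ => SN_tendsto hC h h2 u

/-- the constant of the second integral bound -/
def GoodC' (C3 : ℝ) : Prop := 0 < C3 ∧ ∀ x y : ℝ, 8 ≤ x → 0 ≤ y → y ≤ x ^ (1 / 3 : ℝ) →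
    ∀ z : ℝ, 0 < z → |π * ∫ u in (0 : ℝ)..z, Hk (gp x y) u| ≤
      C3 * (y * z ^ (1 / 4 : ℝ) * x ^ (-(3 / 4 : ℝ)))

theorem geom_le (N : ℕ) : ∑ j ∈ Finset.range N, ((1 : ℝ) / 32) ^ j ≤ 2 := by
  have h : ∑ j ∈ Finset.range N, ((1 : ℝ) / 32) ^ j ≤ 2 - 2 * ((1 : ℝ) / 32) ^ N := by
    induction N with
    | zero => norm_num
    | succ N ih =>
      rw [Finset.sum_range_succ, pow_succ]
      have : 0 < ((1 : ℝ) / 32) ^ N := by positivity
      linarith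
  have h2 : 0 < ((1 : ℝ) / 32) ^ N := by positivity
  linarith

theorem four_pow_rpow' (j : ℕ) : ((4096 : ℝ) ^ j) ^ (-(5 / 12) : ℝ) = (1 / 32) ^ j := by
  have h : (-(5 / 12) : ℝ) = (1 / 12) * (-5 : ℝ) := by norm_num
  rw [h, Real.rpow_mul (by positivity), four_pow_rpow]
  have h2 : (-5 : ℝ) = ((-5 : ℤ) : ℝ) := by norm_num
  rw [h2, Real.rpow_intCast, zpow_neg, ← inv_zpow, ← inv_pow]
  norm_cast
  rw [← pow_mul, mul_comm, pow_mul]
  norm_num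

theorem sum_HK_le {C3 : ℝ} (hC : GoodC' C3) (h : 8 ≤ x0) (h2 : θ ≤ 1 / 3)
    (N : ℕ) {z : ℝ} (hz : 0 < z) :
    |∑ j ∈ Finset.range N, (-1 : ℝ) ^ j * (π * ∫ u in (0 : ℝ)..z, Hk (gj x0 θ j) u)| ≤
      2 * (C3 * x0 ^ (-(5 / 12) : ℝ)) * z ^ (1 / 4 : ℝ) := by
  refine (Finset.abs_sum_le_sum_abs _ _).trans ?_
  have hC0 := hC.1
  have hx0 : 0 < x0 := by linarith
  have key : ∀ j ∈ Finset.range N,
      |(-1 : ℝ) ^ j * (π * ∫ u in (0 : ℝ)..z, Hk (gj x0 θ j) u)| ≤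
        (C3 * x0 ^ (-(5 / 12) : ℝ) * z ^ (1 / 4 : ℝ)) * (1 / 32) ^ j := by
    intro j _
    rw [abs_mul, abs_pow, abs_neg, abs_one, one_pow, one_mul]
    have h3 := hC.2 (xj x0 j) ((xj x0 j) ^ θ) (xj_ge8 h j) (yj_nonneg h j) (yj_le h h2 j) z hz
    refine h3.trans ?_
    have h4 : (xj x0 j) ^ θ * (xj x0 j) ^ (-(3 / 4 : ℝ)) ≤ x0 ^ (-(5 / 12) : ℝ) * (1 / 32) ^ j := by
      rw [← Real.rpow_add (xj_pos h j), ← four_pow_rpow' j, ← Real.mul_rpow hx0.le (by positivity)]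
      exact Real.rpow_le_rpow_of_exponent_le (by linarith [xj_ge8 h j]) (by linarith)
    have hz4 : 0 ≤ z ^ (1 / 4 : ℝ) := Real.rpow_nonneg hz.le _
    calc C3 * ((xj x0 j) ^ θ * z ^ (1 / 4 : ℝ) * (xj x0 j) ^ (-(3 / 4 : ℝ)))
        = C3 * z ^ (1 / 4 : ℝ) * ((xj x0 j) ^ θ * (xj x0 j) ^ (-(3 / 4 : ℝ))) := by ring
      _ ≤ C3 * z ^ (1 / 4 : ℝ) * (x0 ^ (-(5 / 12) : ℝ) * (1 / 32) ^ j) :=
          mul_le_mul_of_nonneg_left h4 (by positivity)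
      _ = _ := by ring
  refine (Finset.sum_le_sum key).trans ?_
  rw [← Finset.mul_sum]
  have h5 := geom_le N
  have h6 : 0 ≤ C3 * x0 ^ (-(5 / 12) : ℝ) * z ^ (1 / 4 : ℝ) := by
    have := Real.rpow_nonneg hx0.le (-(5 / 12) : ℝ)
    have := Real.rpow_nonneg hz.le (1 / 4 : ℝ)
    positivity
  nlinarith

theorem sum_gj_le (h : 8 ≤ x0) (h1 : 1 / 4 ≤ θ) (h2 : θ ≤ 1 / 3) (N : ℕ) {z : ℝ} (hz : 0 < z) :
    |∑ j ∈ Finset.range N, (-1 : ℝ) ^ j * (π * ∫ u in (0 : ℝ)..z, gj x0 θ j u)| ≤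
      π * (64 / 9) * z ^ θ := by
  refine (Finset.abs_sum_le_sum_abs _ _).trans ?_
  have hzθ : 0 ≤ z ^ θ := Real.rpow_nonneg hz.le _
  have key : ∀ j ∈ Finset.range N, |(-1 : ℝ) ^ j * (π * ∫ u in (0 : ℝ)..z, gj x0 θ j u)| ≤
      (π * (16 / 9) * z ^ θ) * mm x0 j z := by
    intro j _
    rw [abs_mul, abs_pow, abs_neg, abs_one, one_pow, one_mul, abs_mul, abs_of_pos Real.pi_pos]
    have := mul_le_mul_of_nonneg_left (int_gj_le h h1 h2 j hz) Real.pi_pos.le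
    refine this.trans (le_of_eq (by ring))
  refine (Finset.sum_le_sum key).trans ?_
  rw [← Finset.mul_sum]
  have h3 := sum_mm_le h hz N
  have h4 : 0 ≤ π * (16 / 9) * z ^ θ := by positivity
  nlinarith

theorem sum_gj_eq (h : 8 ≤ x0) (h2 : θ ≤ 1 / 3) {N k : ℕ} (hk : k < N) :
    ∑ j ∈ Finset.range N, (-1 : ℝ) ^ j * (π * ∫ u in (0 : ℝ)..(xj x0 k), gj x0 θ j u) =
      (-1 : ℝ) ^ k * (π * (xj x0 k) ^ θ) := by
  rw [Finset.sum_eq_single k]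
  · obtain ⟨-, -, hc⟩ := int_gp (xj_ge8 h k) (yj_nonneg (θ := θ) h k) (yj_le h h2 k)
    unfold gj
    rw [hc]
  · intro j _ hjk
    obtain ⟨-, hb, -⟩ := int_gp (xj_ge8 h j) (yj_nonneg (θ := θ) h j) (yj_le h h2 j)
    have hy := yj_le' (θ := θ) h h2 j
    have hpj := xj_pos h j
    have hpk := xj_pos h k
    unfold gj
    rw [hb _ hpk, mul_zero, mul_zero]
    rcases lt_or_gt_of_ne hjk with h3 | h3
    · right
      have := xj_lt h h3
      linarith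
    · left
      have := xj_lt h h3
      linarith
  · intro h3
    exact absurd (Finset.mem_range.2 hk) h3

end terms

end WD

theorem exists_w {θ : ℝ} (h1 : 1 / 4 ≤ θ) (h2 : θ ≤ 1 / 3) :
    ∃ w : ℝ → ℝ, ∃ c C : ℝ, 0 < c ∧ 0 < C ∧ Measurable w ∧ (∀ u, 0 < u → |w u - 1| ≤ 1 / 4) ∧
      SelfDual w ∧
      (∀ x : ℝ, 1 ≤ x → |π * ∫ u in (0 : ℝ)..x, (w u - 1)| ≤ C * x ^ θ) ∧
      (∀ X : ℝ, ∃ x : ℝ, X ≤ x ∧ c * x ^ θ ≤ π * ∫ u in (0 : ℝ)..x, (w u - 1)) ∧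
      (∀ X : ℝ, ∃ x : ℝ, X ≤ x ∧ π * ∫ u in (0 : ℝ)..x, (w u - 1) ≤ -(c * x ^ θ)) := by
  obtain ⟨C2, hC2⟩ := Hk_gp_bound
  have hC : WD.GoodC C2 := hC2
  obtain ⟨C3, hC3⟩ := int_Hk_gp
  have hC' : WD.GoodC' C3 := hC3
  obtain ⟨x0, h, hx0⟩ : ∃ x0 : ℝ, 8 ≤ x0 ∧ C3 * x0 ^ (-(5 / 12) : ℝ) ≤ 1 := by
    have ht : Tendsto (fun x : ℝ => C3 * x ^ (-(5 / 12) : ℝ)) atTop (𝓝 (C3 * 0)) :=
      (tendsto_rpow_neg_atTop (by norm_num)).const_mul _
    rw [mul_zero] at ht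
    have h3 := (ht.eventually (ge_mem_nhds one_pos)).and (eventually_ge_atTop (8 : ℝ))
    obtain ⟨x, hx⟩ := h3.exists
    exact ⟨x, hx.2, hx.1⟩
  set K : ℝ := 16 / 3 + 4 * C2 with hK
  have hKpos : 0 < K := by have := hC.1; positivity
  set c0 : ℝ := 1 / (4 * K) with hc0
  have hc0pos : 0 < c0 := by positivity
  have hc0K : c0 * K = 1 / 4 := by rw [hc0]; field_simp
  have hint : ∀ z : ℝ, π * ∫ u in (0 : ℝ)..z, ((1 + c0 * WD.SS x0 θ u) - 1) =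
      c0 * (π * ∫ u in (0 : ℝ)..z, WD.SS x0 θ u) := by
    intro z
    have : ∀ u, (1 + c0 * WD.SS x0 θ u) - 1 = c0 * WD.SS x0 θ u := fun u => by ring
    simp_rw [this]
    rw [intervalIntegral.integral_const_mul]
    ring
  -- the bound of the second sum
  have hHK : ∀ (N : ℕ) (z : ℝ), 0 < z →
      |∑ j ∈ Finset.range N, (-1 : ℝ) ^ j * (π * ∫ u in (0 : ℝ)..z, Hk (WD.gj x0 θ j) u)| ≤
        2 * z ^ (1 / 4 : ℝ) := by
    intro N z hz
    refine (WD.sum_HK_le hC' h h2 N hz).trans ?_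
    have := Real.rpow_nonneg hz.le (1 / 4 : ℝ)
    nlinarith
  have hz14 : ∀ z : ℝ, 1 ≤ z → z ^ (1 / 4 : ℝ) ≤ z ^ θ := fun z hz =>
    Real.rpow_le_rpow_of_exponent_le hz h1
  -- values at the points `x_k`
  have hval : ∀ k : ℕ, |π * (∫ u in (0 : ℝ)..(WD.xj x0 k), WD.SS x0 θ u) -
      (-1 : ℝ) ^ k * (π * (WD.xj x0 k) ^ θ)| ≤ 2 * (WD.xj x0 k) ^ θ := by
    intro k
    have hp := WD.xj_pos h k
    have ht := (WD.int_SN_tendsto hC h h2 (θ := θ) (WD.xj x0 k)).sub_const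
      ((-1 : ℝ) ^ k * (π * (WD.xj x0 k) ^ θ))
    refine le_of_tendsto ht.abs ?_
    filter_upwards [eventually_gt_atTop k] with N hN
    rw [WD.int_SN hC h h2 N hp, WD.sum_gj_eq h h2 hN, add_sub_cancel_left]
    refine (hHK N _ hp).trans ?_
    have := hz14 (WD.xj x0 k) (by linarith [WD.xj_ge8 h k])
    linarith
  have hbig : ∀ X : ℝ, ∃ n : ℕ, ∀ k, n ≤ k → X ≤ WD.xj x0 k := by
    intro X
    have ht : Tendsto (fun k : ℕ => WD.xj x0 k) atTop atTop := by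
      unfold WD.xj
      exact (tendsto_pow_atTop_atTop_of_one_lt (by norm_num)).const_mul_atTop (by linarith)
    obtain ⟨n, hn⟩ := eventually_atTop.1 (ht.eventually_ge_atTop X)
    exact ⟨n, hn⟩
  have hpi : 3 < π := Real.pi_gt_three
  refine ⟨fun u => 1 + c0 * WD.SS x0 θ u, c0, c0 * (π * (64 / 9) + 2), hc0pos, by positivity,
    ((WD.SS_measurable hC h h2).const_mul _).const_add _, fun u _ => ?_, ?_, fun x hx => ?_,
    fun X => ?_, fun X => ?_⟩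
  · have h3 := WD.SS_abs_le hC h h2 (θ := θ) u
    have h4 : (1 + c0 * WD.SS x0 θ u) - 1 = c0 * WD.SS x0 θ u := by ring
    simp only [h4]
    rw [abs_mul, abs_of_pos hc0pos, ← hc0K]
    exact mul_le_mul_of_nonneg_left h3 hc0pos.le
  · -- self-dual
    intro ψ hψ
    have hbase := selfDual_one ψ hψ
    have hψi := hψ.int
    have hzero : ∀ N : ℕ, ∫ u in Ioi (0 : ℝ), WD.SN x0 θ N u * ψ u = 0 := by
      intro N
      have h3 : ∀ j : ℕ, IntegrableOn (fun u => WD.F x0 θ j u * ψ u) (Ioi 0) ∧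
          ∫ u in Ioi (0 : ℝ), WD.F x0 θ j u * ψ u = 0 := by
        intro j
        obtain ⟨ha, hb⟩ := pair_orth (gp_measurable (WD.xj x0 j) ((WD.xj x0 j) ^ θ))
          (WD.gj_integrable h h2 j) (fun u => WD.gp_abs_le _ _ u) hψ
        have heq : EqOn (fun u => (gp (WD.xj x0 j) ((WD.xj x0 j) ^ θ) u +
            Hk (gp (WD.xj x0 j) ((WD.xj x0 j) ^ θ)) u) * ψ u)
            (fun u => WD.F x0 θ j u * ψ u) (Ioi 0) := by
          intro u hu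
          simp only [WD.F, if_pos (mem_Ioi.1 hu), WD.gj]
        refine ⟨ha.congr_fun heq measurableSet_Ioi, ?_⟩
        exact (setIntegral_congr_fun measurableSet_Ioi heq).symm.trans hb
      unfold WD.SN
      simp_rw [Finset.sum_mul]
      rw [integral_finsetSum]
      · refine Finset.sum_eq_zero fun j _ => ?_
        simp_rw [mul_assoc]
        rw [integral_const_mul, (h3 j).2, mul_zero]
      · intro j _
        simp_rw [mul_assoc]
        exact (h3 j).1.const_mul _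
    have hlim : Tendsto (fun N => ∫ u in Ioi (0 : ℝ), WD.SN x0 θ N u * ψ u) atTop
        (𝓝 (∫ u in Ioi (0 : ℝ), WD.SS x0 θ u * ψ u)) := by
      refine tendsto_integral_of_dominated_convergence (fun u => K * |ψ u|) ?_ ?_ ?_ ?_
      · intro N
        exact (WD.SN_measurable N).aestronglyMeasurable.mul hψi.aestronglyMeasurable
      · exact hψi.abs.const_mul _
      · intro N
        exact Eventually.of_forall fun u => by
          rw [norm_mul, Real.norm_eq_abs, Real.norm_eq_abs]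
          exact mul_le_mul_of_nonneg_right (WD.SN_abs_le hC h h2 N u) (abs_nonneg _)
      · exact Eventually.of_forall fun u => (WD.SN_tendsto hC h h2 u).mul_const _
    have hSS0 : ∫ u in Ioi (0 : ℝ), WD.SS x0 θ u * ψ u = 0 := by
      refine tendsto_nhds_unique hlim ?_
      simp_rw [hzero]
      exact tendsto_const_nhds
    have hSSi : IntegrableOn (fun u => WD.SS x0 θ u * ψ u) (Ioi 0) := by
      refine Integrable.mono' (hψi.abs.const_mul K)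
        ((WD.SS_measurable hC h h2).aestronglyMeasurable.mul hψi.aestronglyMeasurable)
        (Eventually.of_forall fun u => ?_)
      rw [norm_mul, Real.norm_eq_abs, Real.norm_eq_abs]
      exact mul_le_mul_of_nonneg_right (WD.SS_abs_le hC h h2 u) (abs_nonneg _)
    have hsplit : ∫ u in Ioi (0 : ℝ), (1 + c0 * WD.SS x0 θ u) * ψ u =
        (∫ u in Ioi (0 : ℝ), 1 * ψ u) + c0 * ∫ u in Ioi (0 : ℝ), WD.SS x0 θ u * ψ u := by
      rw [← integral_const_mul, ← integral_add]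
      · refine integral_congr_ae (Eventually.of_forall fun u => ?_)
        simp only
        ring
      · simp only [one_mul]
        exact hψi
      · exact hSSi.const_mul _
    rw [hsplit, hSS0, mul_zero, add_zero]
    exact hbase
  · -- upper bound
    rw [hint, abs_mul, abs_of_pos hc0pos, mul_assoc]
    refine mul_le_mul_of_nonneg_left ?_ hc0pos.le
    have hx0' : 0 < x := by linarith
    refine le_of_tendsto (WD.int_SN_tendsto hC h h2 x).abs (Eventually.of_forall fun N => ?_)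
    rw [WD.int_SN hC h h2 N hx0']
    refine (abs_add_le _ _).trans ?_
    have h3 := WD.sum_gj_le h h1 h2 N hx0'
    have h4 := hHK N x hx0'
    have h5 := hz14 x hx
    linarith
  · obtain ⟨n, hn⟩ := hbig X
    refine ⟨WD.xj x0 (2 * n), hn _ (by omega), ?_⟩
    rw [hint]
    refine mul_le_mul_of_nonneg_left ?_ hc0pos.le
    have h3 := (abs_le.1 (hval (2 * n))).1
    rw [pow_mul, neg_one_sq, one_pow, one_mul] at h3
    have h4 : 0 ≤ (WD.xj x0 (2 * n)) ^ θ := WD.yj_nonneg h _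
    nlinarith
  · obtain ⟨n, hn⟩ := hbig X
    refine ⟨WD.xj x0 (2 * n + 1), hn _ (by omega), ?_⟩
    rw [hint, ← mul_neg]
    refine mul_le_mul_of_nonneg_left ?_ hc0pos.le
    have h3 := (abs_le.1 (hval (2 * n + 1))).2
    rw [pow_succ, pow_mul, neg_one_sq, one_pow, one_mul] at h3
    have h4 : 0 ≤ (WD.xj x0 (2 * n + 1)) ^ θ := WD.yj_nonneg h _
    nlinarith

end Pool.Agent.LB
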