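import Pool.Agent.Helper76.LB.NB
import Pool.Agent.Helper76.LB.NC
import Pool.Agent.Helper76.LB.WD
import Pool.Agent.Helper76.LB.KD
import Pool.Agent.Helper76.LB.AE
import Pool.Agent.Helper76.LB.OD
import Pool.Agent.Helper76.LB.RA

set_option autoImplicit false

open Real MeasureTheory Set Filter Topology

namespace Pool.Agent.LB

/-! Main theorem of LB (assembly, helper76). -/

/-- comparison of exponents -/
theorem exp_le_of_frequently {f : ℝ → ℝ} {c C α β : ℝ} (hc : 0 < c)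
    (hf : ∀ X : ℝ, ∃ R : ℝ, X ≤ R ∧ c * R ^ α ≤ |f R|)
    (hC : ∀ R : ℝ, 1 ≤ R → |f R| ≤ C * R ^ β) : α ≤ β := by
  by_contra hcon
  push Not at hcon
  -- R^(α-β) → ∞
  have ht : Tendsto (fun R : ℝ => R ^ (α - β)) atTop atTop :=
    tendsto_rpow_atTop (by linarith)
  obtain ⟨X, hX⟩ := (tendsto_atTop.1 ht (C / c + 1)).exists_forall_of_atTop
  obtain ⟨R, hR, hfR⟩ := hf (max X 1)
  have hR1 : 1 ≤ R := le_trans (le_max_right _ _) hR
  have hR0 : 0 < R := by linarith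
  have h1 := hX R (le_trans (le_max_left _ _) hR)
  have h2 := hfR.trans (hC R hR1)
  have h3 : R ^ α = R ^ (α - β) * R ^ β := by
    rw [← Real.rpow_add hR0]; congr 1; ring
  rw [h3, ← mul_assoc] at h2
  have h4 : 0 < R ^ β := Real.rpow_pos_of_pos hR0 _
  have h5 : c * R ^ (α - β) ≤ C := le_of_mul_le_mul_right h2 h4
  have h6 : c * (C / c + 1) ≤ C := le_trans (mul_le_mul_of_nonneg_left h1 hc.le) h5
  have h7 : c * (C / c + 1) = C + c := by field_simp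
  linarith

theorem upper_R {a lam : ℕ → ℝ} (h : ThetaPair a lam) :
    ∃ C : ℝ, 0 < C ∧ ∀ R : ℝ, 1 ≤ R → |err a lam R| ≤ C * R ^ (2 / 3 : ℝ) := by
  obtain ⟨C, hC, hb⟩ := h.upper
  refine ⟨C, hC, fun R hR => ?_⟩
  have h1 := hb (R ^ 2) (by nlinarith)
  have h2 : (R ^ 2) ^ (1 / 3 : ℝ) = R ^ (2 / 3 : ℝ) := by
    rw [← Real.rpow_natCast R 2, ← Real.rpow_mul (by linarith)]; norm_num
  rw [h2] at h1
  exact h1

theorem expo_mem {a lam : ℕ → ℝ} (h : ThetaPair a lam) : expo a lam ∈ Icc (1 / 2 : ℝ) (2 / 3) := by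
  obtain ⟨C, hC, hb⟩ := upper_R h
  obtain ⟨c, hc, hl⟩ := h.lower
  have hmem : (2 / 3 : ℝ) ∈ {θ : ℝ | 0 ≤ θ ∧ ∃ C : ℝ, ∀ R : ℝ, 1 ≤ R → |err a lam R| ≤ C * R ^ θ} :=
    ⟨by norm_num, C, hb⟩
  constructor
  · apply le_csInf ⟨_, hmem⟩
    rintro θ ⟨_, C', hC'⟩
    exact exp_le_of_frequently hc hl hC'
  · exact csInf_le ⟨0, fun θ hθ => hθ.1⟩ hmem

theorem exists_kappa (B : ℝ) : ∃ κ : ℝ, 1 ≤ κ ∧ B ≤ κ ∧ C0 / √κ ≤ 1 / 8 := by
  refine ⟨max 1 (max B ((8 * C0) ^ 2)), le_max_left _ _,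
    (le_max_left _ _).trans (le_max_right _ _), ?_⟩
  set κ := max 1 (max B ((8 * C0) ^ 2)) with hκ
  have h1 : (8 * C0) ^ 2 ≤ κ := (le_max_right _ _).trans (le_max_right _ _)
  have h2 : 8 * C0 ≤ √κ := by
    apply Real.le_sqrt_of_sq_le h1
  have h3 : 0 < √κ := lt_of_lt_of_le (by linarith [C0_pos]) h2
  rw [div_le_iff₀ h3]
  linarith

/-- members with every exponent in `[1/2, 2/3]` -/
theorem exists_expo {θ : ℝ} (h1 : 1 / 2 ≤ θ) (h2 : θ ≤ 2 / 3) :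
    ∃ a lam : ℕ → ℝ, ThetaPair a lam ∧ StrictMono lam ∧ expo a lam = θ := by
  obtain ⟨w, c, C, hc, hC, hwm, hw1, hsd, hup, hlo1, hlo2⟩ :=
    exists_w (θ := θ / 2) (by linarith) (by linarith)
  obtain ⟨κ, hκ1, -, hq⟩ := exists_kappa 0
  have hκ : 0 < κ := by linarith
  set l : ℕ → ℝ := fun m : ℕ => Real.log (1 + (m : ℝ) / κ) with hl
  have hn := nodes_log hκ1
  have hm := nodeMap_log hκ1
  obtain ⟨a, hp, -, C', hcnt⟩ := exists_pair hκ hq hn hm hwm hw1 hsd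
  refine ⟨a, fun m => l (m + 1), hp, ?_, ?_⟩
  · intro m n hmn
    exact hn.mono (by omega)
  -- key comparison
  have key : ∀ ε : ℝ, 0 < ε → ∃ D : ℝ, 0 < D ∧ ∀ R : ℝ, 1 ≤ R →
      |err a (fun m => l (m + 1)) R - π * ∫ u in (0 : ℝ)..R ^ 2, (w u - 1)| ≤
        D * R ^ (1 / 2 + ε : ℝ) := by
    intro ε hε
    obtain ⟨E, hE, hDD⟩ := DD_exp hκ hm (fun u hu => nu_log_le hκ1 hu) (ε := ε / 2) (by linarith)
    refine ⟨2 * E + |C'|, by positivity, fun R hR => ?_⟩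
    have hR2 : 1 ≤ R ^ 2 := by nlinarith
    have e1 := hcnt (R ^ 2) hR2
    have e2 := hDD (R ^ 2) hR2
    have e3 : (R ^ 2) ^ (1 / 4 + ε / 2 : ℝ) = R ^ (1 / 2 + ε : ℝ) := by
      rw [← Real.rpow_natCast R 2, ← Real.rpow_mul (by linarith)]; congr 1; push_cast; ring
    rw [e3] at e2
    have e4 : 1 ≤ R ^ (1 / 2 + ε : ℝ) := Real.one_le_rpow hR (by linarith)
    have e5 : C' ≤ |C'| * R ^ (1 / 2 + ε : ℝ) := by
      calc C' ≤ |C'| := le_abs_self _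
        _ ≤ |C'| * R ^ (1 / 2 + ε : ℝ) := le_mul_of_one_le_right (abs_nonneg _) e4
    unfold err
    calc _ ≤ 2 * DD (nu l) (R ^ 2) + C' := e1
      _ ≤ (2 * E + |C'|) * R ^ (1 / 2 + ε : ℝ) := by nlinarith
  have hupθ : ∀ R : ℝ, 1 ≤ R → |π * ∫ u in (0 : ℝ)..R ^ 2, (w u - 1)| ≤ C * R ^ θ := by
    intro R hR
    have e1 := hup (R ^ 2) (by nlinarith)
    have e3 : (R ^ 2) ^ (θ / 2 : ℝ) = R ^ θ := by
      rw [← Real.rpow_natCast R 2, ← Real.rpow_mul (by linarith)]; congr 1; push_cast; ring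
    rwa [e3] at e1
  apply le_antisymm
  · -- expo ≤ θ
    apply le_of_forall_pos_le_add
    intro ε hε
    obtain ⟨D, hD, hk⟩ := key ε hε
    apply csInf_le ⟨0, fun θ hθ => hθ.1⟩
    refine ⟨by linarith, C + D, fun R hR => ?_⟩
    have e1 := hk R hR
    have e2 := hupθ R hR
    have e3 : R ^ θ ≤ R ^ (θ + ε) := Real.rpow_le_rpow_of_exponent_le hR (by linarith)
    have e4 : R ^ (1 / 2 + ε : ℝ) ≤ R ^ (θ + ε) :=
      Real.rpow_le_rpow_of_exponent_le hR (by linarith)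
    have e5 : |err a (fun m => l (m + 1)) R| ≤
        |err a (fun m => l (m + 1)) R - π * ∫ u in (0 : ℝ)..R ^ 2, (w u - 1)| +
          |π * ∫ u in (0 : ℝ)..R ^ 2, (w u - 1)| := by
      have := abs_add_le (err a (fun m => l (m + 1)) R - π * ∫ u in (0 : ℝ)..R ^ 2, (w u - 1))
        (π * ∫ u in (0 : ℝ)..R ^ 2, (w u - 1))
      simpa using this
    calc _ ≤ D * R ^ (1 / 2 + ε : ℝ) + C * R ^ θ := by linarith
      _ ≤ D * R ^ (θ + ε) + C * R ^ (θ + ε) :=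
          add_le_add (mul_le_mul_of_nonneg_left e4 hD.le) (mul_le_mul_of_nonneg_left e3 hC.le)
      _ = (C + D) * R ^ (θ + ε) := by ring
  · -- θ ≤ expo
    rcases eq_or_lt_of_le h1 with he | hlt
    · rw [← he]; exact (expo_mem hp).1
    obtain ⟨C2, hC2, hb2⟩ := upper_R hp
    have hne : {θ : ℝ | 0 ≤ θ ∧ ∃ C : ℝ, ∀ R : ℝ, 1 ≤ R →
        |err a (fun m => l (m + 1)) R| ≤ C * R ^ θ}.Nonempty := ⟨2 / 3, by norm_num, C2, hb2⟩
    apply le_csInf hne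
    rintro t ⟨_, Ct, hCt⟩
    -- choose ε = (θ - 1/2)/2
    obtain ⟨D, hD, hk⟩ := key ((θ - 1 / 2) / 2) (by linarith)
    refine exp_le_of_frequently (c := c / 2) (by linarith) (fun X => ?_) hCt
    have ht : Tendsto (fun R : ℝ => R ^ ((θ - 1 / 2) / 2)) atTop atTop :=
      tendsto_rpow_atTop (by linarith)
    obtain ⟨Y, hY⟩ := (tendsto_atTop.1 ht (2 * D / c)).exists_forall_of_atTop
    obtain ⟨x, hx, hxw⟩ := hlo1 (max (max X 1 ^ 2) (max Y 1 ^ 2))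
    have hx1 : 1 ≤ x := by
      refine le_trans ?_ ((le_max_left _ _).trans hx)
      nlinarith [le_max_right X 1]
    have hx0 : 0 ≤ x := by linarith
    have hXR : max X 1 ≤ √x := Real.le_sqrt_of_sq_le ((le_max_left _ _).trans hx)
    have hYR : max Y 1 ≤ √x := Real.le_sqrt_of_sq_le ((le_max_right _ _).trans hx)
    refine ⟨√x, (le_max_left _ _).trans hXR, ?_⟩
    have hR1 : 1 ≤ √x := (le_max_right _ _).trans hXR
    have hR0 : 0 < √x := by linarith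
    have e1 := hk (√x) hR1
    rw [Real.sq_sqrt hx0] at e1
    have e2 := hY (√x) ((le_max_left _ _).trans hYR)
    have e3 : x ^ (θ / 2) = √x ^ θ := by
      rw [Real.sqrt_eq_rpow, ← Real.rpow_mul hx0]; congr 1; ring
    rw [e3] at hxw
    have e4 : √x ^ θ = √x ^ ((θ - 1 / 2) / 2) * √x ^ (1 / 2 + (θ - 1 / 2) / 2 : ℝ) := by
      rw [← Real.rpow_add hR0]; congr 1; ring
    have e5 : D * √x ^ (1 / 2 + (θ - 1 / 2) / 2 : ℝ) ≤ c / 2 * √x ^ θ := by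
      rw [e4, ← mul_assoc]
      apply mul_le_mul_of_nonneg_right _ (Real.rpow_nonneg hR0.le _)
      have := mul_le_mul_of_nonneg_left e2 (show 0 ≤ c / 2 by linarith)
      calc D = c / 2 * (2 * D / c) := by field_simp
        _ ≤ _ := this
    have e6 := (abs_le.1 e1).1
    have e7 : c / 2 * √x ^ θ ≤ err a (fun m => l (m + 1)) √x := by linarith
    exact e7.trans (le_abs_self _)

/-- the set of growth exponents -/
theorem expo_set :
    {θ : ℝ | ∃ a lam : ℕ → ℝ, ThetaPair a lam ∧ expo a lam = θ} = Icc (1 / 2 : ℝ) (2 / 3) := by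
  ext θ
  constructor
  · rintro ⟨a, lam, h, rfl⟩
    exact expo_mem h
  · rintro ⟨h1, h2⟩
    obtain ⟨a, lam, h, -, he⟩ := exists_expo h1 h2
    exact ⟨a, lam, h, he⟩

/-- nodes `√(n/κ)`, both signs at the order `R^{2/3}` -/
theorem sharp_sqrt : ∃ κ c : ℝ, 0 < κ ∧ 0 < c ∧ ∃ a : ℕ → ℝ,
    ThetaPair a (fun n => √((n + 1 : ℕ) / κ)) ∧
      (∀ n : ℕ, c ≤ a n * √((n : ℝ) + 1) ∧ a n * √((n : ℝ) + 1) ≤ 1 / c) ∧
      (∀ X : ℝ, ∃ R : ℝ, X ≤ R ∧ c * R ^ (2 / 3 : ℝ) ≤ err a (fun n => √((n + 1 : ℕ) / κ)) R) ∧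
      (∀ X : ℝ, ∃ R : ℝ, X ≤ R ∧ err a (fun n => √((n + 1 : ℕ) / κ)) R ≤ -(c * R ^ (2 / 3 : ℝ))) := by
  obtain ⟨w, c, C, hc, hC, hwm, hw1, hsd, hup, hlo1, hlo2⟩ :=
    exists_w (θ := 1 / 3) (by norm_num) (by norm_num)
  obtain ⟨C1, hC1, hDD⟩ := DD_bound
  -- choose κ with 2 C1 κ^{-1/6} ≤ c/4
  obtain ⟨κ, hκ1, hκB, hq⟩ := exists_kappa ((8 * C1 / c) ^ (6 : ℝ))
  have hκ : 0 < κ := by linarith
  have hk6 : C1 * κ ^ (-(1 / 6 : ℝ)) ≤ c / 8 := by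
    have e1 : 8 * C1 / c ≤ κ ^ (1 / 6 : ℝ) := by
      have h0 : 0 ≤ 8 * C1 / c := by positivity
      have := Real.rpow_le_rpow (Real.rpow_nonneg h0 _) hκB (show (0:ℝ) ≤ 1 / 6 by norm_num)
      rw [← Real.rpow_mul h0] at this
      norm_num at this
      simpa using this
    rw [Real.rpow_neg hκ.le]
    have e2 : 0 < κ ^ (1 / 6 : ℝ) := Real.rpow_pos_of_pos hκ _
    rw [← div_eq_mul_inv, div_le_iff₀ e2]
    rw [div_le_iff₀ hc] at e1
    linarith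
  set l : ℕ → ℝ := fun m : ℕ => √((m : ℝ) / κ) with hl
  have hn := nodes_sqrt hκ
  have hm := nodeMap_sqrt hκ
  obtain ⟨a, hp, hwt, C', hcnt⟩ := exists_pair hκ hq hn hm hwm hw1 hsd
  -- comparison
  have key : ∀ x : ℝ, 1 ≤ x →
      |cnt a (fun m => l (m + 1)) x - π * x - π * ∫ u in (0 : ℝ)..x, (w u - 1)| ≤
        c / 4 * x ^ (1 / 3 : ℝ) + C' := by
    intro x hx
    have e1 := hcnt x hx
    have e2 := (hDD κ hκ _ hm x (by linarith)).2
    have e3 : C1 * κ ^ (-(1 / 6 : ℝ)) * x ^ (1 / 3 : ℝ) ≤ c / 8 * x ^ (1 / 3 : ℝ) :=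
      mul_le_mul_of_nonneg_right hk6 (Real.rpow_nonneg (by linarith) _)
    linarith
  have ht : Tendsto (fun x : ℝ => x ^ (1 / 3 : ℝ)) atTop atTop :=
    tendsto_rpow_atTop (by norm_num)
  obtain ⟨Y, hY⟩ := (tendsto_atTop.1 ht (4 * C' / c)).exists_forall_of_atTop
  have hR : ∀ x : ℝ, 0 ≤ x → x ^ (1 / 3 : ℝ) = √x ^ (2 / 3 : ℝ) := by
    intro x hx
    rw [Real.sqrt_eq_rpow, ← Real.rpow_mul hx]; congr 1; norm_num
  -- the constant
  set c' : ℝ := min (c / 2) (min (π / (4 * √κ)) (2 * √κ / (3 * π))) with hc'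
  have hsk : 0 < √κ := Real.sqrt_pos.2 hκ
  have hc'0 : 0 < c' := by
    rw [hc']
    refine lt_min (by linarith) (lt_min ?_ ?_) <;> positivity
  have hc'1 : c' ≤ c / 2 := min_le_left _ _
  have hc'2 : c' ≤ π / (4 * √κ) := (min_le_right _ _).trans (min_le_left _ _)
  have hc'3 : c' ≤ 2 * √κ / (3 * π) := (min_le_right _ _).trans (min_le_right _ _)
  refine ⟨κ, c', hκ, hc'0, a, hp, ?_, ?_, ?_⟩
  · intro n
    obtain ⟨w1, w2⟩ := hwt n
    have hs : l (n + 1) - l n = (√((n : ℝ) + 1) - √(n : ℝ)) / √κ := by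
      simp only [hl]
      rw [Real.sqrt_div' _ hκ.le, Real.sqrt_div' _ hκ.le]
      push_cast
      ring
    have hn1 : 0 < √((n : ℝ) + 1) := Real.sqrt_pos.2 (by positivity)
    have hn0 : 0 ≤ √(n : ℝ) := Real.sqrt_nonneg _
    have hle : √(n : ℝ) ≤ √((n : ℝ) + 1) := Real.sqrt_le_sqrt (by linarith)
    have hsq1 : √((n : ℝ) + 1) ^ 2 = (n : ℝ) + 1 := Real.sq_sqrt (by positivity)
    have hsq0 : √(n : ℝ) ^ 2 = (n : ℝ) := Real.sq_sqrt (by positivity)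
    have hd1 : 1 / 2 ≤ (√((n : ℝ) + 1) - √(n : ℝ)) * √((n : ℝ) + 1) := by nlinarith
    have hd2 : (√((n : ℝ) + 1) - √(n : ℝ)) * √((n : ℝ) + 1) ≤ 1 := by nlinarith
    rw [hs] at w1 w2
    constructor
    · calc c' ≤ π / (4 * √κ) := hc'2
        _ = π / 2 / √κ * (1 / 2) := by field_simp; norm_num
        _ ≤ π / 2 / √κ * ((√((n : ℝ) + 1) - √(n : ℝ)) * √((n : ℝ) + 1)) := by
            apply mul_le_mul_of_nonneg_left hd1; positivity
        _ = π / 2 * ((√((n : ℝ) + 1) - √(n : ℝ)) / √κ) * √((n : ℝ) + 1) := by ring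
        _ ≤ a n * √((n : ℝ) + 1) := mul_le_mul_of_nonneg_right w1 hn1.le
    · calc a n * √((n : ℝ) + 1)
          ≤ 3 * π / 2 * ((√((n : ℝ) + 1) - √(n : ℝ)) / √κ) * √((n : ℝ) + 1) :=
            mul_le_mul_of_nonneg_right w2 hn1.le
        _ = 3 * π / 2 / √κ * ((√((n : ℝ) + 1) - √(n : ℝ)) * √((n : ℝ) + 1)) := by ring
        _ ≤ 3 * π / 2 / √κ * 1 := by
            apply mul_le_mul_of_nonneg_left hd2; positivity
        _ = 1 / (2 * √κ / (3 * π)) := by field_simp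
        _ ≤ 1 / c' := one_div_le_one_div_of_le hc'0 hc'3
  · intro X
    obtain ⟨x, hx, hxw⟩ := hlo1 (max (max X 1 ^ 2) (max Y 1))
    have hx1 : 1 ≤ x := (le_max_right Y 1).trans ((le_max_right _ _).trans hx)
    have hx0 : 0 ≤ x := by linarith
    have hXR : max X 1 ≤ √x := Real.le_sqrt_of_sq_le ((le_max_left _ _).trans hx)
    refine ⟨√x, (le_max_left _ _).trans hXR, ?_⟩
    have e1 := key x hx1
    have e2 := hY x ((le_max_left _ _).trans ((le_max_right _ _).trans hx))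
    have e3 : C' ≤ c / 4 * x ^ (1 / 3 : ℝ) := by
      have := mul_le_mul_of_nonneg_left e2 (show 0 ≤ c / 4 by linarith)
      calc C' = c / 4 * (4 * C' / c) := by field_simp
        _ ≤ _ := this
    have e4 := (abs_le.1 e1).1
    unfold err
    rw [Real.sq_sqrt hx0, ← hR x hx0]
    have e5 : c' * x ^ (1 / 3 : ℝ) ≤ c / 2 * x ^ (1 / 3 : ℝ) :=
      mul_le_mul_of_nonneg_right hc'1 (Real.rpow_nonneg hx0 _)
    have e6 : cnt a (fun m => l (m + 1)) x - π * x ≥ c / 2 * x ^ (1 / 3 : ℝ) := by linarith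
    exact e5.trans e6
  · intro X
    obtain ⟨x, hx, hxw⟩ := hlo2 (max (max X 1 ^ 2) (max Y 1))
    have hx1 : 1 ≤ x := (le_max_right Y 1).trans ((le_max_right _ _).trans hx)
    have hx0 : 0 ≤ x := by linarith
    have hXR : max X 1 ≤ √x := Real.le_sqrt_of_sq_le ((le_max_left _ _).trans hx)
    refine ⟨√x, (le_max_left _ _).trans hXR, ?_⟩
    have e1 := key x hx1
    have e2 := hY x ((le_max_left _ _).trans ((le_max_right _ _).trans hx))
    have e3 : C' ≤ c / 4 * x ^ (1 / 3 : ℝ) := by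
      have := mul_le_mul_of_nonneg_left e2 (show 0 ≤ c / 4 by linarith)
      calc C' = c / 4 * (4 * C' / c) := by field_simp
        _ ≤ _ := this
    have e4 := (abs_le.1 e1).2
    unfold err
    rw [Real.sq_sqrt hx0, ← hR x hx0]
    have e5 : c' * x ^ (1 / 3 : ℝ) ≤ c / 2 * x ^ (1 / 3 : ℝ) :=
      mul_le_mul_of_nonneg_right hc'1 (Real.rpow_nonneg hx0 _)
    have e6 : cnt a (fun m => l (m + 1)) x - π * x ≤ -(c / 2 * x ^ (1 / 3 : ℝ)) := by linarith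
    have e7 : -(c / 2 * x ^ (1 / 3 : ℝ)) ≤ -(c' * x ^ (1 / 3 : ℝ)) := by linarith
    exact e6.trans e7

end Pool.Agent.LB
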