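import Pool.Agent.Helper76.LB.Defs

set_option autoImplicit false

open Real MeasureTheory Set Filter Topology

namespace Pool.Agent.LB

/-! Block JA: power series of `Jd`. -/

private theorem h27_summ (n : ℕ) (w : ℝ) :
    Summable (fun k : ℕ => w ^ k / ((k.factorial : ℝ) * ((k + n).factorial : ℝ))) := by
  refine Summable.of_norm_bounded (g := fun k : ℕ => |w| ^ k / (k.factorial : ℝ))
    (Real.summable_pow_div_factorial |w|) (fun k => ?_)
  have h1 : (0 : ℝ) < (k.factorial : ℝ) := by exact_mod_cast Nat.factorial_pos k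
  have h2 : (1 : ℝ) ≤ ((k + n).factorial : ℝ) := by exact_mod_cast Nat.factorial_pos (k + n)
  rw [Real.norm_eq_abs, abs_div, abs_pow, abs_of_pos (mul_pos h1 (by linarith))]
  apply div_le_div_of_nonneg_left (by positivity) h1
  nlinarith

private theorem h27_fac (k : ℕ) : (k.factorial : ℝ) ≠ 0 := by
  exact_mod_cast (Nat.factorial_pos k).ne'

private theorem h27_fac_succ (k : ℕ) :
    ((k + 1).factorial : ℝ) = ((k : ℝ) + 1) * (k.factorial : ℝ) := by
  rw [Nat.factorial_succ]; push_cast; ring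

theorem Jd_hasDerivAt (n : ℕ) (z : ℝ) : HasDerivAt (Jd n) (Jd (n + 1) z) z := by
  set R : ℝ := |z| + 1 with hR
  have hRpos : 0 < R := by positivity
  set f : ℕ → ℝ → ℝ := fun k y =>
    (-(π ^ 2 * y)) ^ k / ((k.factorial : ℝ) * ((k + n).factorial : ℝ)) with hf
  set f' : ℕ → ℝ → ℝ := fun k y =>
    ((k : ℝ) * (-(π ^ 2 * y)) ^ (k - 1) * (-(π ^ 2))) /
      ((k.factorial : ℝ) * ((k + n).factorial : ℝ)) with hf'
  set u : ℕ → ℝ := fun k => π ^ 2 * ((k : ℝ) * (π ^ 2 * R) ^ (k - 1) / (k.factorial : ℝ)) with hu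
  have hus : Summable u := by
    refine Summable.mul_left _ ?_
    rw [← summable_nat_add_iff 1]
    refine (Real.summable_pow_div_factorial (π ^ 2 * R)).congr (fun k => ?_)
    have h1 := h27_fac k
    have h2 : ((k : ℝ) + 1) ≠ 0 := by positivity
    rw [h27_fac_succ, Nat.add_sub_cancel]
    push_cast
    field_simp
  have hderiv : ∀ k y, y ∈ Metric.ball (0 : ℝ) R → HasDerivAt (f k) (f' k y) y := by
    intro k y _
    have h0 : HasDerivAt (fun y : ℝ => -(π ^ 2 * y)) (-(π ^ 2)) y := by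
      have := (hasDerivAt_id' y).const_mul (-(π ^ 2))
      rw [mul_one] at this
      refine this.congr_of_eventuallyEq (Filter.Eventually.of_forall (fun x => ?_))
      show -(π ^ 2 * x) = -(π ^ 2) * x
      ring
    exact (h0.pow k).div_const _
  have hbd : ∀ k y, y ∈ Metric.ball (0 : ℝ) R → ‖f' k y‖ ≤ u k := by
    intro k y hy
    have hy' : |y| < R := by simpa using hy
    have h1 : (0 : ℝ) < (k.factorial : ℝ) := by exact_mod_cast Nat.factorial_pos k
    have h2 : (1 : ℝ) ≤ ((k + n).factorial : ℝ) := by exact_mod_cast Nat.factorial_pos (k + n)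
    have h3 : (0 : ℝ) ≤ (k : ℝ) := Nat.cast_nonneg k
    have hnum : ‖(k : ℝ) * (-(π ^ 2 * y)) ^ (k - 1) * (-(π ^ 2))‖
        ≤ π ^ 2 * ((k : ℝ) * (π ^ 2 * R) ^ (k - 1)) := by
      rw [norm_mul, norm_mul, norm_pow, Real.norm_eq_abs, Real.norm_eq_abs, Real.norm_eq_abs,
        abs_neg, abs_neg, abs_mul, abs_of_nonneg h3, abs_of_nonneg (by positivity : (0:ℝ) ≤ π ^ 2)]
      have h4 : (π ^ 2 * |y|) ^ (k - 1) ≤ (π ^ 2 * R) ^ (k - 1) := by
        apply pow_le_pow_left₀ (by positivity)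
        exact mul_le_mul_of_nonneg_left hy'.le (by positivity)
      calc (k : ℝ) * (π ^ 2 * |y|) ^ (k - 1) * π ^ 2
          ≤ (k : ℝ) * (π ^ 2 * R) ^ (k - 1) * π ^ 2 := by gcongr
        _ = π ^ 2 * ((k : ℝ) * (π ^ 2 * R) ^ (k - 1)) := by ring
    have hden : (0 : ℝ) < (k.factorial : ℝ) * ((k + n).factorial : ℝ) := by positivity
    show ‖((k : ℝ) * (-(π ^ 2 * y)) ^ (k - 1) * (-(π ^ 2))) /
      ((k.factorial : ℝ) * ((k + n).factorial : ℝ))‖ ≤ _
    rw [norm_div, Real.norm_of_nonneg hden.le]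
    show _ ≤ π ^ 2 * ((k : ℝ) * (π ^ 2 * R) ^ (k - 1) / (k.factorial : ℝ))
    rw [← mul_div_assoc]
    apply div_le_div₀ (by positivity) hnum h1
    nlinarith
  have hz : z ∈ Metric.ball (0 : ℝ) R := by
    simp [hR]
  have hmain := hasDerivAt_tsum_of_isPreconnected hus Metric.isOpen_ball
    (convex_ball (0 : ℝ) R).isPreconnected hderiv hbd hz
    (h27_summ n (-(π ^ 2 * z))) hz
  have hmain2 := hmain.const_mul ((-(π ^ 2)) ^ n)
  have hval : (-(π ^ 2)) ^ n * ∑' k, f' k z = Jd (n + 1) z := by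
    have hs : Summable (fun k => f' k z) :=
      Summable.of_norm_bounded hus (fun k => hbd k z hz)
    rw [hs.tsum_eq_zero_add]
    have h0 : f' 0 z = 0 := by simp [hf']
    have hp : (-(π ^ 2)) ^ (n + 1) = (-(π ^ 2)) ^ n * (-(π ^ 2)) := pow_succ _ _
    rw [h0, zero_add, Jd, hp, mul_assoc, ← tsum_mul_left (a := -(π ^ 2))]
    congr 1
    apply tsum_congr
    intro k
    have h1 := h27_fac k
    have h2 : ((k : ℝ) + 1) ≠ 0 := by positivity
    have h3 := h27_fac (k + (n + 1))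
    have h4 : ((k + 1 + n).factorial : ℝ) = ((k + (n + 1)).factorial : ℝ) := by
      rw [show k + 1 + n = k + (n + 1) by ring]
    show ((k + 1 : ℕ) : ℝ) * (-(π ^ 2 * z)) ^ (k + 1 - 1) * (-(π ^ 2)) /
      (((k + 1).factorial : ℝ) * ((k + 1 + n).factorial : ℝ)) = _
    rw [h4, h27_fac_succ, Nat.add_sub_cancel]
    push_cast
    field_simp
  rw [hval] at hmain2
  exact hmain2

theorem Jd_continuous (n : ℕ) : Continuous (Jd n) :=
  continuous_iff_continuousAt.2 (fun z => (Jd_hasDerivAt n z).continuousAt)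

theorem Jd_rec (n : ℕ) (z : ℝ) :
    z * Jd (n + 2) z + (n + 1) * Jd (n + 1) z = -(π ^ 2) * Jd n z := by
  set w : ℝ := -(π ^ 2 * z) with hw
  have s0 := h27_summ n w
  have s1 := h27_summ (n + 1) w
  have s2 := h27_summ (n + 2) w
  have e0 := s0.tsum_eq_zero_add
  have e1 := s1.tsum_eq_zero_add
  have s0' := (summable_nat_add_iff 1).2 s0
  have s1' := (summable_nat_add_iff 1).2 s1
  have key : w * ∑' k : ℕ, w ^ k / ((k.factorial : ℝ) * ((k + (n + 2)).factorial : ℝ))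
      + ((n : ℝ) + 1) * ∑' k : ℕ, w ^ (k + 1) /
        (((k + 1).factorial : ℝ) * ((k + 1 + (n + 1)).factorial : ℝ))
      = ∑' k : ℕ, w ^ (k + 1) / (((k + 1).factorial : ℝ) * ((k + 1 + n).factorial : ℝ)) := by
    rw [← tsum_mul_left, ← tsum_mul_left, ← (s2.mul_left w).tsum_add (s1'.mul_left _)]
    apply tsum_congr
    intro k
    have a1 : ((k + (n + 2)).factorial : ℝ) = ((k : ℝ) + n + 2) * ((k + 1 + n).factorial : ℝ) := by
      rw [show k + (n + 2) = (k + 1 + n) + 1 by ring, h27_fac_succ]; push_cast; ring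
    have a2 : ((k + 1 + (n + 1)).factorial : ℝ)
        = ((k : ℝ) + n + 2) * ((k + 1 + n).factorial : ℝ) := by
      rw [show k + 1 + (n + 1) = (k + 1 + n) + 1 by ring, h27_fac_succ]; push_cast; ring
    have b1 := h27_fac k
    have b2 : ((k : ℝ) + 1) ≠ 0 := by positivity
    have b3 := h27_fac (k + 1 + n)
    have b4 : ((k : ℝ) + n + 2) ≠ 0 := by positivity
    rw [a1, a2, h27_fac_succ k]
    field_simp
    ring
  have c1 : Jd n z = (-(π ^ 2)) ^ n *
      ∑' k : ℕ, w ^ k / ((k.factorial : ℝ) * ((k + n).factorial : ℝ)) := rfl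
  have c2 : Jd (n + 1) z = (-(π ^ 2)) ^ (n + 1) *
      ∑' k : ℕ, w ^ k / ((k.factorial : ℝ) * ((k + (n + 1)).factorial : ℝ)) := rfl
  have c3 : Jd (n + 2) z = (-(π ^ 2)) ^ (n + 2) *
      ∑' k : ℕ, w ^ k / ((k.factorial : ℝ) * ((k + (n + 2)).factorial : ℝ)) := rfl
  have d : ((n : ℝ) + 1) * (w ^ 0 / (((0 : ℕ).factorial : ℝ) * ((0 + (n + 1)).factorial : ℝ)))
      = w ^ 0 / (((0 : ℕ).factorial : ℝ) * ((0 + n).factorial : ℝ)) := by
    have b1 := h27_fac n
    have b2 : ((n : ℝ) + 1) ≠ 0 := by positivity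
    rw [zero_add, zero_add, h27_fac_succ n]
    simp only [pow_zero, Nat.factorial_zero, Nat.cast_one, one_mul]
    field_simp
  rw [c1, c2, c3, e0, e1]
  have hz : z * (-(π ^ 2)) ^ (n + 2) = (-(π ^ 2)) ^ (n + 1) * w := by
    rw [hw, pow_succ]; ring
  linear_combination (∑' k : ℕ, w ^ k / ((k.factorial : ℝ) * ((k + (n + 2)).factorial : ℝ))) * hz
    + (-(π ^ 2)) ^ (n + 1) * key + (-(π ^ 2)) ^ (n + 1) * d

theorem Jd_zero (n : ℕ) : Jd n 0 = (-(π ^ 2)) ^ n / (n.factorial : ℝ) := by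
  have s0 := h27_summ n (-(π ^ 2 * 0))
  rw [Jd, s0.tsum_eq_zero_add]
  simp only [mul_zero, neg_zero, pow_zero, zero_pow (Nat.succ_ne_zero _), zero_div, tsum_zero,
    add_zero, Nat.factorial_zero, Nat.cast_one, zero_add, one_mul]
  rw [mul_one_div]

end Pool.Agent.LB
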