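import Pool.Agent.Helper76.LB.JA

set_option autoImplicit false

open Real MeasureTheory Set Filter Topology

namespace Pool.Agent.LB

/-! Block JB: energy bound; `E = π² Jn² + z J(n+1)²` has `E' = -(2n+1) J(n+1)² ≤ 0`. -/

theorem Jd_energy (n : ℕ) {z : ℝ} (hz : 0 ≤ z) :
    π ^ 2 * (Jd n z) ^ 2 + z * (Jd (n + 1) z) ^ 2 ≤ π ^ 2 * (Jd n 0) ^ 2 := by
  have hder : ∀ x : ℝ, HasDerivAt (fun x => π ^ 2 * (Jd n x) ^ 2 + x * (Jd (n + 1) x) ^ 2)
      (-(2 * n + 1) * (Jd (n + 1) x) ^ 2) x := by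
    intro x
    have h1 := (Jd_hasDerivAt n x).pow 2
    have h2 := (Jd_hasDerivAt (n + 1) x).pow 2
    have h3 := (h1.const_mul (π ^ 2)).add ((hasDerivAt_id x).mul h2)
    have h4 := Jd_rec n x
    refine (h3.congr_deriv ?_)
    have h5 : x * Jd (n + 1 + 1) x = -(π ^ 2) * Jd n x - (n + 1) * Jd (n + 1) x := by
      have : Jd (n + 1 + 1) x = Jd (n + 2) x := rfl
      rw [this]; linarith
    simp only [id, Pi.pow_apply]
    push_cast
    have h6 : x * (2 * Jd (n + 1) x ^ (2 - 1) * Jd (n + 1 + 1) x) =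
        2 * Jd (n + 1) x * (x * Jd (n + 1 + 1) x) := by
      norm_num; ring
    rw [h6, h5]
    norm_num
    ring
  have hanti : AntitoneOn (fun x => π ^ 2 * (Jd n x) ^ 2 + x * (Jd (n + 1) x) ^ 2) (Ici 0) := by
    apply antitoneOn_of_deriv_nonpos (convex_Ici 0)
    · exact fun x _ => (hder x).continuousAt.continuousWithinAt
    · exact fun x _ => (hder x).differentiableAt.differentiableWithinAt
    · intro x _
      rw [(hder x).deriv]
      have : (0 : ℝ) ≤ 2 * n + 1 := by positivity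
      nlinarith [sq_nonneg (Jd (n + 1) x)]
  have h := hanti (mem_Ici.mpr le_rfl) (mem_Ici.mpr hz) hz
  simpa using h

theorem J_abs_le_one {z : ℝ} (hz : 0 ≤ z) : |Jd 0 z| ≤ 1 := by
  have h := Jd_energy 0 hz
  rw [Jd_zero 0] at h
  have h1 : (0 : ℝ) ≤ z * (Jd (0 + 1) z) ^ 2 := by positivity
  have hpi : 0 < π ^ 2 := by positivity
  have h2 : π ^ 2 * (Jd 0 z) ^ 2 ≤ π ^ 2 * 1 := by
    simp at h ⊢
    linarith
  have h3 : (Jd 0 z) ^ 2 ≤ 1 := le_of_mul_le_mul_left h2 hpi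
  exact (sq_le_one_iff_abs_le_one _).mp h3

theorem J1_abs_le {z : ℝ} (hz : 0 ≤ z) : |Jd 1 z| ≤ π ^ 2 := by
  have h := Jd_energy 1 hz
  rw [Jd_zero 1] at h
  have h1 : (0 : ℝ) ≤ z * (Jd (1 + 1) z) ^ 2 := by positivity
  have hpi : 0 < π ^ 2 := by positivity
  have h2 : π ^ 2 * (Jd 1 z) ^ 2 ≤ π ^ 2 * (π ^ 2) ^ 2 := by
    have : ((-(π ^ 2)) ^ 1 / ((Nat.factorial 1 : ℕ) : ℝ)) ^ 2 = (π ^ 2) ^ 2 := by
      simp
    rw [this] at h
    linarith
  have h3 : (Jd 1 z) ^ 2 ≤ (π ^ 2) ^ 2 := le_of_mul_le_mul_left h2 hpi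
  exact abs_le_of_sq_le_sq h3 hpi.le

end Pool.Agent.LB
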