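import Pool.Agent.Helper76.LB.JB

set_option autoImplicit false

open Real MeasureTheory Set Filter Topology

namespace Pool.Agent.LB

/-! Block JC: decay. `Q(z) = √z (π² J² + z J'²) + (1/2) √z J J' + J²/(8√z)` satisfies
`Q' = -J²/(16 z^{3/2}) ≤ 0` on `(0,∞)`, and `Q ≥ (√z - 1/(4π)) (π² J² + z J'²)`; for `z ≥ 1` this
bounds `J` and `J'`, then `J'' = (-π² J - J')/z`. For `z ≤ 1` use `Jd_energy` for `n = 0, 1`. -/

private noncomputable def h2Q (z : ℝ) : ℝ :=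
  √z * (π ^ 2 * (Jd 0 z) ^ 2 + z * (Jd 1 z) ^ 2) + 1 / 2 * (√z * (Jd 0 z * Jd 1 z)) +
    (Jd 0 z) ^ 2 / (8 * √z)

private theorem h2_ode {z : ℝ} (hz : 0 < z) : Jd 2 z = (-(π ^ 2) * Jd 0 z - Jd 1 z) / z := by
  have h := Jd_rec 0 z
  simp only [Nat.cast_zero, zero_add, one_mul] at h
  rw [eq_div_iff hz.ne']
  linarith

private theorem h2Q_deriv {z : ℝ} (hz : 0 < z) :
    HasDerivAt h2Q (-(Jd 0 z) ^ 2 / (16 * z * √z)) z := by
  have hs : 0 < √z := Real.sqrt_pos.2 hz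
  have h0 : HasDerivAt (Jd 0) (Jd 1 z) z := by simpa using Jd_hasDerivAt 0 z
  have h1 : HasDerivAt (Jd 1) (Jd 2 z) z := by simpa using Jd_hasDerivAt 1 z
  have hr : HasDerivAt (fun z : ℝ => √z) (1 / (2 * √z)) z := Real.hasDerivAt_sqrt hz.ne'
  have hA := hr.mul (((h0.pow 2).const_mul (π ^ 2)).add ((hasDerivAt_id z).mul (h1.pow 2)))
  have hB := (hr.mul (h0.mul h1)).const_mul (1 / 2)
  have hC := (h0.pow 2).div (hr.const_mul 8) (by positivity)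
  have hD := (hA.add hB).add hC
  refine HasDerivAt.congr_deriv (show HasDerivAt h2Q _ z from hD) ?_
  rw [h2_ode hz]
  obtain ⟨s, hs', hsz⟩ : ∃ s : ℝ, 0 < s ∧ z = s ^ 2 := ⟨√z, hs, (Real.sq_sqrt hz.le).symm⟩
  have hss : √z = s := by rw [hsz, Real.sqrt_sq hs'.le]
  simp only [hss, id, Pi.pow_apply, Pi.add_apply, Pi.mul_apply]
  generalize Jd 0 z = a
  generalize Jd 1 z = b
  rw [hsz]
  field_simp
  ring

private theorem h2_lower {z : ℝ} (hz : 1 ≤ z) :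
    √z * (π ^ 2 * (Jd 0 z) ^ 2 + z * (Jd 1 z) ^ 2) ≤ 2 * h2Q z := by
  have hz0 : 0 < z := lt_of_lt_of_le one_pos hz
  have hs1 : 1 ≤ √z := Real.one_le_sqrt.2 hz
  obtain ⟨s, hs', hsz⟩ : ∃ s : ℝ, 1 ≤ s ∧ z = s ^ 2 := ⟨√z, hs1, (Real.sq_sqrt hz0.le).symm⟩
  have hs0 : 0 < s := lt_of_lt_of_le one_pos hs'
  have hss : √z = s := by rw [hsz, Real.sqrt_sq hs0.le]
  unfold h2Q
  generalize Jd 0 z = a
  generalize Jd 1 z = b
  rw [hss, hsz]
  have hpi : 3 < π := Real.pi_gt_three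
  have h1 : 0 ≤ a ^ 2 / (8 * s) := by positivity
  have h2 : 0 ≤ (3 * a + s * b) ^ 2 := sq_nonneg _
  have h3 : (3 : ℝ) ^ 2 * a ^ 2 ≤ π ^ 2 * a ^ 2 := by
    apply mul_le_mul_of_nonneg_right _ (sq_nonneg _)
    nlinarith
  have h4 : 0 ≤ s * (π ^ 2 * a ^ 2 + s ^ 2 * b ^ 2) + s * (a * b) := by
    have h5 : 0 ≤ π ^ 2 * a ^ 2 + s ^ 2 * b ^ 2 + a * b := by
      nlinarith [sq_nonneg (a + b), sq_nonneg a, sq_nonneg b,
        mul_nonneg (sub_nonneg.2 hs') (sq_nonneg b), mul_nonneg hs0.le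
          (mul_nonneg (sub_nonneg.2 hs') (sq_nonneg b))]
    have : s * (π ^ 2 * a ^ 2 + s ^ 2 * b ^ 2) + s * (a * b)
        = s * (π ^ 2 * a ^ 2 + s ^ 2 * b ^ 2 + a * b) := by ring
    rw [this]
    exact mul_nonneg hs0.le h5
  linarith

private theorem h2_anti {z : ℝ} (hz : 1 ≤ z) : h2Q z ≤ h2Q 1 := by
  have hanti : AntitoneOn h2Q (Ici 1) := by
    apply antitoneOn_of_deriv_nonpos (convex_Ici 1)
    · intro x hx
      exact (h2Q_deriv (lt_of_lt_of_le one_pos hx)).continuousAt.continuousWithinAt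
    · intro x hx
      rw [interior_Ici] at hx
      exact (h2Q_deriv (lt_trans one_pos hx)).differentiableAt.differentiableWithinAt
    · intro x hx
      rw [interior_Ici] at hx
      have hx0 : 0 < x := lt_trans one_pos hx
      rw [(h2Q_deriv hx0).deriv]
      have : 0 < √x := Real.sqrt_pos.2 hx0
      apply div_nonpos_of_nonpos_of_nonneg
      · have := sq_nonneg (Jd 0 x)
        linarith
      · positivity
  exact hanti (by simp) hz hz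

theorem Jd_decay : ∃ C : ℝ, 1 ≤ C ∧ ∀ z : ℝ, 0 < z →
    |Jd 0 z| ≤ C * z ^ (-(1 / 4 : ℝ)) ∧ |Jd 1 z| ≤ C * z ^ (-(3 / 4 : ℝ)) ∧
      |Jd 2 z| ≤ C * z ^ (-(5 / 4 : ℝ)) := by
  have hpi : 3 < π := Real.pi_gt_three
  -- large z
  have hq0 : 0 ≤ h2Q 1 := by
    have h := h2_lower (le_refl (1 : ℝ))
    have h' : 0 ≤ √(1 : ℝ) * (π ^ 2 * (Jd 0 1) ^ 2 + 1 * (Jd 1 1) ^ 2) := by positivity
    linarith
  set q := h2Q 1 with hq
  set c := √(2 * q) with hc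
  have hc0 : 0 ≤ c := Real.sqrt_nonneg _
  have hlarge : ∀ z : ℝ, 1 ≤ z → |Jd 0 z| ≤ c * z ^ (-(1 / 4 : ℝ)) ∧
      |Jd 1 z| ≤ c * z ^ (-(3 / 4 : ℝ)) := by
    intro z hz
    have hz0 : 0 < z := lt_of_lt_of_le one_pos hz
    have h1 := h2_lower hz
    have h2 := h2_anti hz
    have hs : 0 < √z := Real.sqrt_pos.2 hz0
    have h3 : √z * (π ^ 2 * (Jd 0 z) ^ 2 + z * (Jd 1 z) ^ 2) ≤ 2 * q := by linarith
    have hsr : √z = z ^ (1 / 2 : ℝ) := Real.sqrt_eq_rpow z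
    constructor
    · have h4 : √z * (Jd 0 z) ^ 2 ≤ 2 * q := by
        have h5 : √z * (1 * (Jd 0 z) ^ 2) ≤ √z * (π ^ 2 * (Jd 0 z) ^ 2 + z * (Jd 1 z) ^ 2) := by
          apply mul_le_mul_of_nonneg_left _ hs.le
          have h6 : 1 * (Jd 0 z) ^ 2 ≤ π ^ 2 * (Jd 0 z) ^ 2 :=
            mul_le_mul_of_nonneg_right (by nlinarith) (sq_nonneg _)
          have h7 : 0 ≤ z * (Jd 1 z) ^ 2 := by positivity
          linarith
        rw [one_mul] at h5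
        linarith
      have h5 : (|Jd 0 z|) ^ 2 ≤ (c * z ^ (-(1 / 4 : ℝ))) ^ 2 := by
        rw [sq_abs, mul_pow, hc, Real.sq_sqrt (by linarith), ← Real.rpow_natCast (z ^ _) 2,
          ← Real.rpow_mul hz0.le]
        have h6 : (-(1 / 4 : ℝ)) * ((2 : ℕ) : ℝ) = -(1 / 2) := by norm_num
        rw [h6, Real.rpow_neg hz0.le, ← hsr, ← div_eq_mul_inv, le_div_iff₀ hs]
        linarith
      exact (sq_le_sq₀ (abs_nonneg _) (by positivity)).1 h5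
    · have h4 : √z * (z * (Jd 1 z) ^ 2) ≤ 2 * q := by
        have h5 : √z * (z * (Jd 1 z) ^ 2) ≤ √z * (π ^ 2 * (Jd 0 z) ^ 2 + z * (Jd 1 z) ^ 2) := by
          apply mul_le_mul_of_nonneg_left _ hs.le
          have h6 : 0 ≤ π ^ 2 * (Jd 0 z) ^ 2 := by positivity
          linarith
        linarith
      have h5 : (|Jd 1 z|) ^ 2 ≤ (c * z ^ (-(3 / 4 : ℝ))) ^ 2 := by
        rw [sq_abs, mul_pow, hc, Real.sq_sqrt (by linarith), ← Real.rpow_natCast (z ^ _) 2,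
          ← Real.rpow_mul hz0.le]
        have h6 : (-(3 / 4 : ℝ)) * ((2 : ℕ) : ℝ) = -(1 + 1 / 2) := by norm_num
        rw [h6, Real.rpow_neg hz0.le, Real.rpow_add hz0, Real.rpow_one, ← hsr, ← div_eq_mul_inv,
          le_div_iff₀ (by positivity)]
        linarith
      exact (sq_le_sq₀ (abs_nonneg _) (by positivity)).1 h5
  refine ⟨π ^ 4 + (π ^ 2 + 1) * c, ?_, fun z hz => ?_⟩
  · have h1 : 0 ≤ (π ^ 2 + 1) * c := by positivity
    have h2 : 1 ≤ π ^ 4 := one_le_pow₀ (by linarith)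
    linarith
  rcases le_or_gt 1 z with h1 | h1
  · obtain ⟨ha, hb⟩ := hlarge z h1
    have hcC : c ≤ π ^ 4 + (π ^ 2 + 1) * c := by
      have h2 : 0 ≤ π ^ 2 * c := by positivity
      have h3 : 0 ≤ π ^ 4 := by positivity
      nlinarith
    refine ⟨ha.trans (mul_le_mul_of_nonneg_right hcC (by positivity)),
      hb.trans (mul_le_mul_of_nonneg_right hcC (by positivity)), ?_⟩
    rw [h2_ode hz, abs_div, abs_of_pos hz, div_le_iff₀ hz]
    have h4 : |(-(π ^ 2) * Jd 0 z - Jd 1 z)| ≤ π ^ 2 * |Jd 0 z| + |Jd 1 z| := by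
      refine (abs_sub _ _).trans ?_
      rw [abs_mul, abs_neg, abs_of_nonneg (by positivity : (0 : ℝ) ≤ π ^ 2)]
    have h5 : z ^ (-(3 / 4 : ℝ)) ≤ z ^ (-(1 / 4 : ℝ)) :=
      Real.rpow_le_rpow_of_exponent_le h1 (by norm_num)
    have h6 : z ^ (-(5 / 4 : ℝ)) * z = z ^ (-(1 / 4 : ℝ)) := by
      rw [← Real.rpow_add_one hz.ne']
      norm_num
    calc |(-(π ^ 2) * Jd 0 z - Jd 1 z)| ≤ π ^ 2 * |Jd 0 z| + |Jd 1 z| := h4
      _ ≤ π ^ 2 * (c * z ^ (-(1 / 4 : ℝ))) + c * z ^ (-(3 / 4 : ℝ)) := by gcongr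
      _ ≤ π ^ 2 * (c * z ^ (-(1 / 4 : ℝ))) + c * z ^ (-(1 / 4 : ℝ)) := by gcongr
      _ = ((π ^ 2 + 1) * c) * z ^ (-(1 / 4 : ℝ)) := by ring
      _ ≤ (π ^ 4 + (π ^ 2 + 1) * c) * z ^ (-(1 / 4 : ℝ)) := by
          apply mul_le_mul_of_nonneg_right _ (by positivity)
          have : 0 ≤ π ^ 4 := by positivity
          linarith
      _ = (π ^ 4 + (π ^ 2 + 1) * c) * z ^ (-(5 / 4 : ℝ)) * z := by rw [mul_assoc, h6]
  · have hC : ∀ r : ℝ, 0 ≤ r → π ^ 4 ≤ (π ^ 4 + (π ^ 2 + 1) * c) * z ^ (-r) := by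
      intro r hr
      have h2 : 1 ≤ z ^ (-r) := by
        rw [Real.rpow_neg hz.le]
        exact (one_le_inv₀ (Real.rpow_pos_of_pos hz _)).2 (Real.rpow_le_one hz.le h1.le hr)
      calc π ^ 4 ≤ (π ^ 4 + (π ^ 2 + 1) * c) * 1 := by
            have : 0 ≤ (π ^ 2 + 1) * c := by positivity
            linarith
        _ ≤ _ := mul_le_mul_of_nonneg_left h2 (by positivity)
    have hpi2 : (1 : ℝ) ≤ π ^ 2 := one_le_pow₀ (by linarith)
    have hpi4 : π ^ 4 = π ^ 2 * π ^ 2 := by ring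
    refine ⟨?_, ?_, ?_⟩
    · refine le_trans ?_ (hC (1 / 4) (by norm_num))
      refine (J_abs_le_one hz.le).trans ?_
      exact one_le_pow₀ (by linarith)
    · refine le_trans ?_ (hC (3 / 4) (by norm_num))
      refine (J1_abs_le hz.le).trans ?_
      rw [hpi4]
      nlinarith
    · refine le_trans ?_ (hC (5 / 4) (by norm_num))
      have h2 := Jd_energy 2 hz.le
      rw [Jd_zero] at h2
      have h3 : π ^ 2 * (Jd 2 z) ^ 2 ≤ π ^ 2 * ((-(π ^ 2)) ^ 2 / ((Nat.factorial 2 : ℕ) : ℝ)) ^ 2 := by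
        have : 0 ≤ z * (Jd (2 + 1) z) ^ 2 := by positivity
        linarith
      have h4 : (Jd 2 z) ^ 2 ≤ ((-(π ^ 2)) ^ 2 / ((Nat.factorial 2 : ℕ) : ℝ)) ^ 2 :=
        le_of_mul_le_mul_left h3 (by positivity)
      have h5 : ((-(π ^ 2)) ^ 2 / ((Nat.factorial 2 : ℕ) : ℝ)) = π ^ 4 / 2 := by
        norm_num [Nat.factorial]
        ring
      rw [h5] at h4
      have h6 : |Jd 2 z| ≤ π ^ 4 / 2 := by
        apply abs_le_of_sq_le_sq h4 (by positivity)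
      have : 0 ≤ π ^ 4 := by positivity
      linarith

/-- the constant of `Jd_decay` -/
noncomputable def Cb : ℝ := Classical.choose Jd_decay

theorem one_le_Cb : 1 ≤ Cb := (Classical.choose_spec Jd_decay).1

theorem Cb_pos : 0 < Cb := lt_of_lt_of_le one_pos one_le_Cb

theorem J0_decay {z : ℝ} (hz : 0 < z) : |Jd 0 z| ≤ Cb * z ^ (-(1 / 4 : ℝ)) :=
  ((Classical.choose_spec Jd_decay).2 z hz).1

theorem J1_decay {z : ℝ} (hz : 0 < z) : |Jd 1 z| ≤ Cb * z ^ (-(3 / 4 : ℝ)) :=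
  ((Classical.choose_spec Jd_decay).2 z hz).2.1

theorem J2_decay {z : ℝ} (hz : 0 < z) : |Jd 2 z| ≤ Cb * z ^ (-(5 / 4 : ℝ)) :=
  ((Classical.choose_spec Jd_decay).2 z hz).2.2

end Pool.Agent.LB
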