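import Pool.Agent.Helper76.LB.JC

set_option autoImplicit false

open Real MeasureTheory Set Filter Topology

namespace Pool.Agent.LB

/-! Block JE: the kernel `Dk`. -/

private theorem h24_comp_left (n : ℕ) (x v : ℝ) :
    HasDerivAt (fun x => Jd n (x * v)) (Jd (n + 1) (x * v) * v) x := by
  have h1 : HasDerivAt (fun x : ℝ => x * v) v x := by
    simpa using (hasDerivAt_id x).mul_const v
  exact HasDerivAt.comp (h₂ := Jd n) (h := fun x : ℝ => x * v) x (Jd_hasDerivAt n (x * v)) h1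

private theorem h24_comp_right (n : ℕ) (x v : ℝ) :
    HasDerivAt (fun v => Jd n (x * v)) (Jd (n + 1) (x * v) * x) v := by
  have h1 : HasDerivAt (fun v : ℝ => x * v) x v := by
    simpa using (hasDerivAt_id v).const_mul x
  exact HasDerivAt.comp (h₂ := Jd n) (h := fun v : ℝ => x * v) v (Jd_hasDerivAt n (x * v)) h1

theorem Dk_hasDerivAt_left (x v : ℝ) : HasDerivAt (fun x => Dk x v) (π * Jd 0 (x * v)) x := by
  unfold Dk
  have h1 : HasDerivAt (fun x : ℝ => -(x / π)) (-(1 / π)) x :=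
    ((hasDerivAt_id x).div_const π).neg
  have h2 := h1.mul (h24_comp_left 1 x v)
  refine h2.congr_deriv ?_
  have h3 := Jd_rec 0 (x * v)
  simp only [Nat.cast_zero, zero_add, one_mul] at h3
  have hpi : π ≠ 0 := Real.pi_ne_zero
  have h4 : Jd 1 (x * v) = -(π ^ 2) * Jd 0 (x * v) - x * v * Jd 2 (x * v) := by linarith
  show -(1 / π) * Jd 1 (x * v) + -(x / π) * (Jd (1 + 1) (x * v) * v) = π * Jd 0 (x * v)
  rw [h4]
  show -(1 / π) * (-(π ^ 2) * Jd 0 (x * v) - x * v * Jd 2 (x * v)) +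
    -(x / π) * (Jd 2 (x * v) * v) = π * Jd 0 (x * v)
  field_simp
  ring

theorem integral_J {x : ℝ} (hx : 0 ≤ x) (v : ℝ) :
    π * ∫ u in (0 : ℝ)..x, Jd 0 (u * v) = Dk x v := by
  rw [← intervalIntegral.integral_const_mul]
  have hc : Continuous fun u : ℝ => π * Jd 0 (u * v) :=
    continuous_const.mul ((Jd_continuous 0).comp (continuous_id.mul continuous_const))
  rw [intervalIntegral.integral_eq_sub_of_hasDerivAt (fun u _ => Dk_hasDerivAt_left u v)
    (hc.intervalIntegrable _ _)]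
  unfold Dk
  simp

theorem Dk_hasDerivAt (x v : ℝ) : HasDerivAt (fun v => Dk x v) (-(x ^ 2 / π) * Jd 2 (x * v)) v := by
  unfold Dk
  have h2 := (h24_comp_right 1 x v).const_mul (-(x / π))
  refine h2.congr_deriv ?_
  show -(x / π) * (Jd 2 (x * v) * x) = -(x ^ 2 / π) * Jd 2 (x * v)
  ring

theorem D2_hasDerivAt (u v : ℝ) :
    HasDerivAt (fun u => u ^ 2 / π ^ 3 * Jd 2 (u * v)) (Dk u v) u := by
  have h1 : HasDerivAt (fun u : ℝ => u ^ 2 / π ^ 3) (2 * u / π ^ 3) u := by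
    have := (hasDerivAt_pow 2 u).div_const (π ^ 3)
    simpa using this
  have h2 := h1.mul (h24_comp_left 2 u v)
  refine h2.congr_deriv ?_
  have h3 := Jd_rec 1 (u * v)
  have h4 : Jd 1 (u * v) = -(u * v * Jd 3 (u * v) + 2 * Jd 2 (u * v)) / π ^ 2 := by
    have hpi : π ^ 2 ≠ 0 := by positivity
    rw [eq_div_iff hpi]
    have h5 : u * v * Jd 3 (u * v) + 2 * Jd 2 (u * v) = -(π ^ 2) * Jd 1 (u * v) := by
      have h6 : (((1 : ℕ) : ℝ) + 1) = 2 := by norm_num
      rw [h6] at h3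
      exact h3
    linarith
  unfold Dk
  show 2 * u / π ^ 3 * Jd 2 (u * v) + u ^ 2 / π ^ 3 * (Jd 3 (u * v) * v) =
    -(u / π) * Jd 1 (u * v)
  rw [h4]
  have hpi : π ≠ 0 := Real.pi_ne_zero
  field_simp
  ring

private theorem h24_abs {x v : ℝ} (hx : 0 ≤ x) : |Dk x v| = x / π * |Jd 1 (x * v)| := by
  unfold Dk
  rw [abs_mul, abs_neg, abs_of_nonneg (div_nonneg hx Real.pi_pos.le)]

theorem Dk_abs_le {x v : ℝ} (hx : 0 < x) (hv : 0 < v) :
    |Dk x v| ≤ Cb / π * (x ^ (1 / 4 : ℝ) * v ^ (-(3 / 4 : ℝ))) := by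
  rw [h24_abs hx.le]
  have hpi := Real.pi_pos
  have h1 := J1_decay (mul_pos hx hv)
  have h2 : x ^ (1 / 4 : ℝ) = x * x ^ (-(3 / 4 : ℝ)) := by
    nth_rw 2 [← Real.rpow_one x]
    rw [← Real.rpow_add hx]
    norm_num
  calc x / π * |Jd 1 (x * v)| ≤ x / π * (Cb * (x * v) ^ (-(3 / 4 : ℝ))) := by gcongr
    _ = Cb / π * (x ^ (1 / 4 : ℝ) * v ^ (-(3 / 4 : ℝ))) := by
        rw [Real.mul_rpow hx.le hv.le, h2]
        ring

/-- near `v = 0` -/
theorem Dk_abs_le' {x v : ℝ} (hx : 0 ≤ x) (hv : 0 ≤ v) : |Dk x v| ≤ π * x := by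
  rw [h24_abs hx]
  have hpi := Real.pi_pos
  have h1 := J1_abs_le (mul_nonneg hx hv)
  calc x / π * |Jd 1 (x * v)| ≤ x / π * π ^ 2 := by gcongr
    _ = π * x := by field_simp

theorem Dk_continuous : Continuous (fun p : ℝ × ℝ => Dk p.1 p.2) := by
  unfold Dk
  exact ((continuous_fst.div_const π).neg).mul
    ((Jd_continuous 1).comp (continuous_fst.mul continuous_snd))

end Pool.Agent.LB
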