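import Pool.Agent.Helper76.LB.JC
import Pool.Agent.Helper76.LB.KA

set_option autoImplicit false

open Real MeasureTheory Set Filter Topology

namespace Pool.Agent.LB

/-! Block KB: `K(v) ≤ C0/√κ`. -/

/-- triangle inequality and `J0_decay`; mean value theorem on `[uv, ν(u)v]` and `J1_decay`,
`NodeMap.gap`. -/
theorem J_diff {κ : ℝ} {ν : ℝ → ℝ} (hκ : 0 < κ) (h : NodeMap κ ν) {u v : ℝ} (hu : 0 < u)
    (hv : 0 < v) :
    |Jd 0 (ν u * v) - Jd 0 (u * v)| ≤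
      min (2 * Cb * v ^ (-(1 / 4 : ℝ)) * u ^ (-(1 / 4 : ℝ)))
        (Cb / κ * v ^ (1 / 4 : ℝ) * u ^ (-(7 / 4 : ℝ))) := by
  have huv : 0 < u * v := mul_pos hu hv
  have hνu : u ≤ ν u := h.le u hu
  have hν0 : 0 < ν u := hu.trans_le hνu
  have hνv : 0 < ν u * v := mul_pos hν0 hv
  have hle : u * v ≤ ν u * v := mul_le_mul_of_nonneg_right hνu hv.le
  have hC := Cb_pos
  refine le_min ?_ ?_
  · have h1 := J0_decay hνv
    have h2 := J0_decay huv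
    have h3 : (ν u * v) ^ (-(1 / 4 : ℝ)) ≤ (u * v) ^ (-(1 / 4 : ℝ)) :=
      Real.rpow_le_rpow_of_nonpos huv hle (by norm_num)
    have h4 : (u * v) ^ (-(1 / 4 : ℝ)) = u ^ (-(1 / 4 : ℝ)) * v ^ (-(1 / 4 : ℝ)) :=
      Real.mul_rpow hu.le hv.le
    calc |Jd 0 (ν u * v) - Jd 0 (u * v)| ≤ |Jd 0 (ν u * v)| + |Jd 0 (u * v)| := abs_sub _ _
      _ ≤ Cb * (u * v) ^ (-(1 / 4 : ℝ)) + Cb * (u * v) ^ (-(1 / 4 : ℝ)) :=
          add_le_add (h1.trans (mul_le_mul_of_nonneg_left h3 hC.le)) h2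
      _ = 2 * Cb * v ^ (-(1 / 4 : ℝ)) * u ^ (-(1 / 4 : ℝ)) := by rw [h4]; ring
  · have hbd : ∀ z ∈ Icc (u * v) (ν u * v), ‖Jd 1 z‖ ≤ Cb * (u * v) ^ (-(3 / 4 : ℝ)) := by
      intro z hz
      have hz0 : 0 < z := huv.trans_le hz.1
      have h3 : z ^ (-(3 / 4 : ℝ)) ≤ (u * v) ^ (-(3 / 4 : ℝ)) :=
        Real.rpow_le_rpow_of_nonpos huv hz.1 (by norm_num)
      exact (J1_decay hz0).trans (mul_le_mul_of_nonneg_left h3 hC.le)
    have hder : ∀ z ∈ Icc (u * v) (ν u * v),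
        HasDerivWithinAt (Jd 0) (Jd 1 z) (Icc (u * v) (ν u * v)) z := fun z _ =>
      (by simpa using (Jd_hasDerivAt 0 z) : HasDerivAt (Jd 0) (Jd 1 z) z).hasDerivWithinAt
    have hmv := (convex_Icc (u * v) (ν u * v)).norm_image_sub_le_of_norm_hasDerivWithin_le hder hbd
      (left_mem_Icc.2 hle) (right_mem_Icc.2 hle)
    have hgap : ν u * v - u * v ≤ v / (κ * u) := by
      have := h.gap u hu
      have h5 : (ν u - u) * v ≤ 1 / (κ * u) * v := mul_le_mul_of_nonneg_right (by linarith) hv.le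
      calc ν u * v - u * v = (ν u - u) * v := by ring
        _ ≤ 1 / (κ * u) * v := h5
        _ = v / (κ * u) := by ring
    have hu1 : u ^ (-(7 / 4 : ℝ)) = u ^ (-(3 / 4 : ℝ)) * u⁻¹ := by
      rw [← Real.rpow_neg_one u, ← Real.rpow_add hu]; norm_num
    have hv1 : v ^ (1 / 4 : ℝ) = v ^ (-(3 / 4 : ℝ)) * v := by
      rw [← Real.rpow_add_one hv.ne']; norm_num
    calc |Jd 0 (ν u * v) - Jd 0 (u * v)|
        ≤ Cb * (u * v) ^ (-(3 / 4 : ℝ)) * ‖ν u * v - u * v‖ := hmv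
      _ = Cb * (u * v) ^ (-(3 / 4 : ℝ)) * (ν u * v - u * v) := by
          rw [Real.norm_of_nonneg (by linarith)]
      _ ≤ Cb * (u * v) ^ (-(3 / 4 : ℝ)) * (v / (κ * u)) :=
          mul_le_mul_of_nonneg_left hgap (by positivity)
      _ = Cb / κ * v ^ (1 / 4 : ℝ) * u ^ (-(7 / 4 : ℝ)) := by
          rw [hu1, hv1, Real.mul_rpow hu.le hv.le]
          field_simp

/-- `int_min` with `p = 1/4`, `q = 7/4`. -/
theorem K_bound : ∃ C : ℝ, 0 < C ∧ ∀ κ : ℝ, 0 < κ → ∀ ν : ℝ → ℝ, NodeMap κ ν → ∀ v : ℝ, 0 < v →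
    IntegrableOn (fun u => Jd 0 (ν u * v) - Jd 0 (u * v)) (Ioi 0) ∧
      π * ∫ u in Ioi (0 : ℝ), |Jd 0 (ν u * v) - Jd 0 (u * v)| ≤ C / √κ := by
  have hC := Cb_pos
  refine ⟨π * ((8 / 3) * (√2 * Cb)), by positivity, fun κ hκ ν h v hv => ?_⟩
  have hA : 0 < 2 * Cb * v ^ (-(1 / 4 : ℝ)) := by positivity
  have hB : 0 < Cb / κ * v ^ (1 / 4 : ℝ) := by positivity
  obtain ⟨hint, hle⟩ := int_min (1 / 4) (7 / 4) (2 * Cb * v ^ (-(1 / 4 : ℝ)))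
    (Cb / κ * v ^ (1 / 4 : ℝ)) (by norm_num) (by norm_num) hA hB
  have hmeas : Measurable (fun u => Jd 0 (ν u * v) - Jd 0 (u * v)) :=
    ((Jd_continuous 0).measurable.comp (h.meas.mul_const v)).sub
      ((Jd_continuous 0).measurable.comp (measurable_id.mul_const v))
  have hbd : ∀ u, 0 < u → |Jd 0 (ν u * v) - Jd 0 (u * v)| ≤
      min (2 * Cb * v ^ (-(1 / 4 : ℝ)) * u ^ (-(1 / 4 : ℝ)))
        (Cb / κ * v ^ (1 / 4 : ℝ) * u ^ (-(7 / 4 : ℝ))) := fun u hu => J_diff hκ h hu hv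
  have hI : IntegrableOn (fun u => Jd 0 (ν u * v) - Jd 0 (u * v)) (Ioi 0) := by
    refine Integrable.mono' hint hmeas.aestronglyMeasurable ?_
    filter_upwards [ae_restrict_mem measurableSet_Ioi] with u hu
    exact hbd u hu
  refine ⟨hI, ?_⟩
  have h1 : ∫ u in Ioi (0 : ℝ), |Jd 0 (ν u * v) - Jd 0 (u * v)| ≤
      ∫ u in Ioi (0 : ℝ), min (2 * Cb * v ^ (-(1 / 4 : ℝ)) * u ^ (-(1 / 4 : ℝ)))
        (Cb / κ * v ^ (1 / 4 : ℝ) * u ^ (-(7 / 4 : ℝ))) :=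
    setIntegral_mono_on hI.abs hint measurableSet_Ioi fun u hu => hbd u hu
  have e1 : ((7 / 4 : ℝ) - 1) / (7 / 4 - 1 / 4) = 1 / 2 := by norm_num
  have e2 : (1 - (1 / 4 : ℝ)) / (7 / 4 - 1 / 4) = 1 / 2 := by norm_num
  have e3 : (1 / (1 - (1 / 4 : ℝ)) + 1 / (7 / 4 - 1)) = 8 / 3 := by norm_num
  rw [e1, e2, e3, ← Real.sqrt_eq_rpow, ← Real.sqrt_eq_rpow, ← Real.sqrt_mul hA.le] at hle
  have e4 : 2 * Cb * v ^ (-(1 / 4 : ℝ)) * (Cb / κ * v ^ (1 / 4 : ℝ)) = 2 * Cb ^ 2 / κ := by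
    have e5 : v ^ (-(1 / 4 : ℝ)) * v ^ (1 / 4 : ℝ) = 1 := by
      rw [← Real.rpow_add hv]; norm_num
    calc 2 * Cb * v ^ (-(1 / 4 : ℝ)) * (Cb / κ * v ^ (1 / 4 : ℝ))
        = 2 * Cb ^ 2 / κ * (v ^ (-(1 / 4 : ℝ)) * v ^ (1 / 4 : ℝ)) := by ring
      _ = 2 * Cb ^ 2 / κ := by rw [e5, mul_one]
  rw [e4, Real.sqrt_div (by positivity), Real.sqrt_mul (by norm_num), Real.sqrt_sq hC.le] at hle
  calc π * ∫ u in Ioi (0 : ℝ), |Jd 0 (ν u * v) - Jd 0 (u * v)|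
      ≤ π * (8 / 3 * (√2 * Cb / √κ)) := mul_le_mul_of_nonneg_left (h1.trans hle) pi_pos.le
    _ = π * ((8 / 3) * (√2 * Cb)) / √κ := by ring

/-- the constant of `K_bound` -/
noncomputable def C0 : ℝ := Classical.choose K_bound

theorem C0_pos : 0 < C0 := (Classical.choose_spec K_bound).1

theorem K_int {κ : ℝ} {ν : ℝ → ℝ} (hκ : 0 < κ) (h : NodeMap κ ν) {v : ℝ} (hv : 0 < v) :
    IntegrableOn (fun u => Jd 0 (ν u * v) - Jd 0 (u * v)) (Ioi 0) :=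
  ((Classical.choose_spec K_bound).2 κ hκ ν h v hv).1

theorem K_le {κ : ℝ} {ν : ℝ → ℝ} (hκ : 0 < κ) (h : NodeMap κ ν) {v : ℝ} (hv : 0 < v) :
    π * ∫ u in Ioi (0 : ℝ), |Jd 0 (ν u * v) - Jd 0 (u * v)| ≤ C0 / √κ :=
  ((Classical.choose_spec K_bound).2 κ hκ ν h v hv).2

end Pool.Agent.LB
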