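import Pool.Agent.Helper76.LB.Defs

set_option autoImplicit false

open Real MeasureTheory Set Filter Topology

namespace Pool.Agent.LB

/-! Block NA: node functions of a sequence `0 = l 0 < l 1 < ...`, `l m → ∞`. -/

/-- nodes -/
structure Nodes (l : ℕ → ℝ) : Prop where
  zero : l 0 = 0
  mono : StrictMono l
  tends : Tendsto l atTop atTop

/-- right end point of the cell `(l m, l (m+1)]` containing `u` (and `l 1` for `u ≤ 0`) -/
noncomputable def nu (l : ℕ → ℝ) (u : ℝ) : ℝ := l (sInf {m : ℕ | u ≤ l (m + 1)} + 1)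

theorem nu_eq {l : ℕ → ℝ} (h : Nodes l) {m : ℕ} {u : ℝ} (hu : u ∈ Ioc (l m) (l (m + 1))) :
    nu l u = l (m + 1) := by
  have hs : sInf {m : ℕ | u ≤ l (m + 1)} = m := by
    apply le_antisymm
    · exact Nat.sInf_le (show u ≤ l (m + 1) from hu.2)
    · apply le_csInf ⟨m, hu.2⟩
      intro j hj
      by_contra hlt
      push Not at hlt
      have h1 : l (j + 1) ≤ l m := h.mono.monotone (by omega)
      have h2 : u ≤ l (j + 1) := hj
      have h3 := hu.1
      linarith
  unfold nu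
  rw [hs]

private theorem ne7 {l : ℕ → ℝ} (h : Nodes l) (u : ℝ) : {m : ℕ | u ≤ l (m + 1)}.Nonempty := by
  obtain ⟨m, hm⟩ := (h.tends.eventually_ge_atTop u).exists
  exact ⟨m, hm.trans (h.mono.monotone (Nat.le_succ m))⟩

theorem nu_measurable {l : ℕ → ℝ} (h : Nodes l) : Measurable (nu l) := by
  apply Monotone.measurable
  intro u v huv
  unfold nu
  apply h.mono.monotone
  apply Nat.add_le_add_right
  apply Nat.sInf_le
  have h1 : v ≤ l (sInf {m : ℕ | v ≤ l (m + 1)} + 1) := Nat.sInf_mem (ne7 h v)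
  exact huv.trans h1

theorem cells_iUnion {l : ℕ → ℝ} (h : Nodes l) : (⋃ m, Ioc (l m) (l (m + 1))) = Ioi 0 := by
  ext u
  simp only [mem_iUnion, mem_Ioi]
  constructor
  · rintro ⟨m, hm⟩
    have h1 : l 0 ≤ l m := h.mono.monotone (Nat.zero_le m)
    have h2 := hm.1
    have h3 := h.zero
    linarith
  · intro hu
    have hmem : u ≤ l (sInf {m : ℕ | u ≤ l (m + 1)} + 1) := Nat.sInf_mem (ne7 h u)
    refine ⟨sInf {m : ℕ | u ≤ l (m + 1)}, ?_, hmem⟩
    rcases Nat.eq_zero_or_pos (sInf {m : ℕ | u ≤ l (m + 1)}) with h0 | h0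
    · rw [h0, h.zero]
      exact hu
    · by_contra hle
      push Not at hle
      have h1 : sInf {m : ℕ | u ≤ l (m + 1)} - 1 ∈ {m : ℕ | u ≤ l (m + 1)} := by
        show u ≤ l (sInf {m : ℕ | u ≤ l (m + 1)} - 1 + 1)
        rwa [Nat.sub_add_cancel h0]
      have h2 := Nat.sInf_le h1
      omega

theorem cells_disjoint {l : ℕ → ℝ} (h : Nodes l) :
    Pairwise (Function.onFun Disjoint fun m => Ioc (l m) (l (m + 1))) := by
  exact h.mono.monotone.pairwise_disjoint_on_Ioc_succ

theorem le_nu {l : ℕ → ℝ} (h : Nodes l) (u : ℝ) : u ≤ nu l u :=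
  Nat.sInf_mem (ne7 h u)

/-- a weighted sum over the nodes is an integral -/
theorem hasSum_cells {l : ℕ → ℝ} (h : Nodes l) {G f : ℝ → ℝ} (hG : Measurable G)
    (hi : IntegrableOn (fun u => G u * f (nu l u)) (Ioi 0))
    (hc : ∀ m, IntegrableOn G (Ioc (l m) (l (m + 1)))) :
    HasSum (fun m => (π * ∫ u in Ioc (l m) (l (m + 1)), G u) * f (l (m + 1)))
      (π * ∫ u in Ioi (0 : ℝ), G u * f (nu l u)) := by
  have _ := hG
  have _ := hc
  rw [← cells_iUnion h] at hi ⊢
  have h1 := hasSum_integral_iUnion (fun m : ℕ => (measurableSet_Ioc : MeasurableSet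
    (Ioc (l m) (l (m + 1))))) (cells_disjoint h) hi
  have h2 := h1.mul_left π
  have h4 : (fun m => (π * ∫ u in Ioc (l m) (l (m + 1)), G u) * f (l (m + 1))) =
      fun m => π * ∫ u in Ioc (l m) (l (m + 1)), G u * f (nu l u) := by
    funext m
    have h3 : ∫ u in Ioc (l m) (l (m + 1)), G u * f (nu l u) =
        ∫ u in Ioc (l m) (l (m + 1)), G u * f (l (m + 1)) := by
      apply setIntegral_congr_fun measurableSet_Ioc
      intro u hu
      beta_reduce
      rw [nu_eq h hu]
    rw [h3, integral_mul_const]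
    ring
  rw [h4]
  exact h2

end Pool.Agent.LB
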