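import Pool.Agent.Helper76.LB.NA

set_option autoImplicit false

open Real MeasureTheory Set Filter Topology

namespace Pool.Agent.LB

/-! Block NB: the two node sequences. -/

theorem nodes_cell31 {l : ℕ → ℝ} (h : Nodes l) {u : ℝ} (hu : 0 < u) :
    ∃ m : ℕ, l m < u ∧ u ≤ l (m + 1) ∧ nu l u = l (m + 1) := by
  have h1 : u ∈ ⋃ m, Ioc (l m) (l (m + 1)) := by
    rw [cells_iUnion h]; exact hu
  obtain ⟨m, hm⟩ := mem_iUnion.1 h1
  exact ⟨m, hm.1, hm.2, nu_eq h hm⟩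

theorem nodes_log31 {κ : ℝ} (hκ : 1 ≤ κ) (m : ℕ) :
    Real.log (1 + ((m + 1 : ℕ) : ℝ) / κ) - Real.log (1 + (m : ℝ) / κ)
      ≤ 2 / κ * Real.exp (-Real.log (1 + ((m + 1 : ℕ) : ℝ) / κ)) := by
  have hκ0 : 0 < κ := by linarith
  have hm : (0 : ℝ) ≤ m := Nat.cast_nonneg m
  have h1 : (0 : ℝ) < 1 + (m : ℝ) / κ := by positivity
  have h2 : (0 : ℝ) < 1 + ((m + 1 : ℕ) : ℝ) / κ := by positivity
  rw [← Real.log_div h2.ne' h1.ne', Real.exp_neg, Real.exp_log h2]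
  refine (Real.log_le_sub_one_of_pos (div_pos h2 h1)).trans ?_
  have h3 : (1 + ((m + 1 : ℕ) : ℝ) / κ) / (1 + (m : ℝ) / κ) - 1 = 1 / κ * (1 + (m : ℝ) / κ)⁻¹ := by
    push_cast
    field_simp
    ring
  rw [h3]
  have h4 : (1 + (m : ℝ) / κ)⁻¹ ≤ 2 * (1 + ((m + 1 : ℕ) : ℝ) / κ)⁻¹ := by
    rw [← div_eq_mul_inv, inv_eq_one_div, div_le_div_iff₀ h1 h2]
    have h5 : 1 / κ ≤ 1 := by
      rw [div_le_one hκ0]; exact hκ
    have h6 : 0 ≤ (m : ℝ) / κ := by positivity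
    have h7 : ((m + 1 : ℕ) : ℝ) / κ = (m : ℝ) / κ + 1 / κ := by push_cast; ring
    rw [h7]
    linarith
  calc 1 / κ * (1 + (m : ℝ) / κ)⁻¹ ≤ 1 / κ * (2 * (1 + ((m + 1 : ℕ) : ℝ) / κ)⁻¹) :=
        mul_le_mul_of_nonneg_left h4 (by positivity)
    _ = 2 / κ * (1 + ((m + 1 : ℕ) : ℝ) / κ)⁻¹ := by ring

theorem nu_log_le31 {κ : ℝ} (hκ : 1 ≤ κ) (hN : Nodes (fun m : ℕ => Real.log (1 + (m : ℝ) / κ)))
    {u : ℝ} (hu : 0 < u) :
    nu (fun m : ℕ => Real.log (1 + (m : ℝ) / κ)) u - u ≤ 2 / κ * Real.exp (-u) := by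
  have hκ0 : 0 < κ := by linarith
  obtain ⟨m, h1, h2, h3⟩ := nodes_cell31 hN hu
  rw [h3]
  have h4 := nodes_log31 hκ m
  have h5 : Real.exp (-Real.log (1 + ((m + 1 : ℕ) : ℝ) / κ)) ≤ Real.exp (-u) :=
    Real.exp_le_exp.2 (by linarith)
  have h6 := mul_le_mul_of_nonneg_left h5 (show 0 ≤ 2 / κ by positivity)
  linarith

/-- `l_m = √(m/κ)`; length of the cell `= (1/κ)/(l_m + l_{m+1})`. -/
theorem nodes_sqrt {κ : ℝ} (hκ : 0 < κ) : Nodes (fun m : ℕ => √((m : ℝ) / κ)) := by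
  refine ⟨?_, ?_, ?_⟩
  · simp
  · intro a b hab
    have h1 : (a : ℝ) / κ < (b : ℝ) / κ := by
      have : (a : ℝ) < b := by exact_mod_cast hab
      exact div_lt_div_of_pos_right this hκ
    exact Real.sqrt_lt_sqrt (by positivity) h1
  · exact Real.tendsto_sqrt_atTop.comp (tendsto_natCast_atTop_atTop.atTop_div_const hκ)

theorem nodeMap_sqrt {κ : ℝ} (hκ : 0 < κ) :
    NodeMap κ (nu (fun m : ℕ => √((m : ℝ) / κ))) := by
  have hN := nodes_sqrt hκ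
  refine ⟨nu_measurable hN, fun u _ => le_nu hN u, fun u hu => ?_⟩
  obtain ⟨m, h1, -, h3⟩ := nodes_cell31 hN hu
  rw [h3]
  have hm : (0 : ℝ) ≤ m := Nat.cast_nonneg m
  have h4 : (m : ℝ) / κ < u ^ 2 := (Real.sqrt_lt' hu).1 h1
  rw [Real.sqrt_le_left (by positivity)]
  have h5 : (u + 1 / (κ * u)) ^ 2 = u ^ 2 + 2 * (1 / κ) + (1 / (κ * u)) ^ 2 := by
    field_simp
    ring
  have h6 : ((m + 1 : ℕ) : ℝ) / κ = (m : ℝ) / κ + 1 / κ := by push_cast; ring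
  have h7 : 0 < 1 / κ := by positivity
  rw [h5, h6]
  nlinarith [sq_nonneg (1 / (κ * u))]

/-- `l_m = log (1 + m/κ)`; length of the cell `≤ (1/κ) e^{-l_m} ≤ (2/κ) e^{-l_{m+1}}`. -/
theorem nodes_log {κ : ℝ} (hκ : 1 ≤ κ) : Nodes (fun m : ℕ => Real.log (1 + (m : ℝ) / κ)) := by
  have hκ0 : 0 < κ := by linarith
  refine ⟨?_, ?_, ?_⟩
  · simp
  · intro a b hab
    have h1 : (a : ℝ) / κ < (b : ℝ) / κ := by
      have : (a : ℝ) < b := by exact_mod_cast hab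
      exact div_lt_div_of_pos_right this hκ0
    exact Real.log_lt_log (by positivity) (by linarith)
  · exact Real.tendsto_log_atTop.comp
      (tendsto_atTop_add_const_left _ _ (tendsto_natCast_atTop_atTop.atTop_div_const hκ0))

theorem nodeMap_log {κ : ℝ} (hκ : 1 ≤ κ) :
    NodeMap κ (nu (fun m : ℕ => Real.log (1 + (m : ℝ) / κ))) := by
  have hκ0 : 0 < κ := by linarith
  have hN := nodes_log hκ
  refine ⟨nu_measurable hN, fun u _ => le_nu hN u, fun u hu => ?_⟩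
  have h1 := nu_log_le31 hκ hN hu
  have h2 : 2 * u ≤ Real.exp u := by
    have := Real.quadratic_le_exp_of_nonneg hu.le
    nlinarith [sq_nonneg (u - 1)]
  have h3 : 2 / κ * Real.exp (-u) ≤ 1 / (κ * u) := by
    rw [Real.exp_neg, ← div_eq_mul_inv, div_div, div_le_div_iff₀ (by positivity) (by positivity)]
    nlinarith
  linarith

theorem nu_log_le {κ : ℝ} (hκ : 1 ≤ κ) {u : ℝ} (hu : 0 < u) :
    nu (fun m : ℕ => Real.log (1 + (m : ℝ) / κ)) u - u ≤ 2 * Real.exp (-u) := by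
  have hκ0 : 0 < κ := by linarith
  refine (nu_log_le31 hκ (nodes_log hκ) hu).trans ?_
  refine mul_le_mul_of_nonneg_right ?_ (Real.exp_pos _).le
  rw [div_le_iff₀ hκ0]
  linarith

end Pool.Agent.LB
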