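import Mathlib

set_option autoImplicit false

open Real MeasureTheory Set Filter Topology

namespace Pool.Agent.LB

/-! Block OA: subordination. `F(b) = ∫_0^∞ exp(-(x² + b²/x²)) dx = (√π/2) e^{-2b}` (derivative in `b`
and the substitution `y = b/x`), then `t = s²/(4π x²)`-type substitution; the dual integral is a Gamma
integral after `t ↦ 1/t`. -/

/-- error function without normalisation -/
private noncomputable def oaPhi (x : ℝ) : ℝ := ∫ y in (0 : ℝ)..x, Real.exp (-(y ^ 2))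

private theorem oaPhi_deriv (x : ℝ) : HasDerivAt oaPhi (Real.exp (-(x ^ 2))) x := by
  have hc : Continuous fun y : ℝ => Real.exp (-(y ^ 2)) := by fun_prop
  exact (hc.integral_hasStrictDerivAt 0 x).hasDerivAt

private theorem oaPhi_top : Tendsto oaPhi atTop (𝓝 (√π / 2)) := by
  have h1 : Integrable (fun y : ℝ => Real.exp (-(y ^ 2))) := by
    have := integrable_exp_neg_mul_sq (b := 1) one_pos
    simpa using this
  have h2 := intervalIntegral_tendsto_integral_Ioi (μ := volume) 0 h1.integrableOn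
    (tendsto_id : Tendsto (fun x : ℝ => x) atTop atTop)
  have h3 : ∫ y in Ioi (0 : ℝ), Real.exp (-(y ^ 2)) = √π / 2 := by
    have := integral_gaussian_Ioi 1
    simpa using this
  rw [h3] at h2
  exact h2

private theorem oaPhi_neg (x : ℝ) : oaPhi (-x) = -oaPhi x := by
  unfold oaPhi
  have h := intervalIntegral.integral_comp_neg (a := 0) (b := x)
    (fun y : ℝ => Real.exp (-(y ^ 2)))
  simp only [neg_sq, neg_zero] at h
  rw [intervalIntegral.integral_symm, h]

private theorem oaPhi_bot : Tendsto oaPhi atBot (𝓝 (-(√π / 2))) := by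
  have h1 : Tendsto (fun x : ℝ => -oaPhi (-x)) atBot (𝓝 (-(√π / 2))) :=
    (oaPhi_top.comp tendsto_neg_atBot_atTop).neg
  refine h1.congr fun x => ?_
  rw [oaPhi_neg, neg_neg]

private noncomputable def oaG (s r t : ℝ) : ℝ :=
  -(1 / √π) * (Real.exp (-(s * r)) * oaPhi (s / (2 * √π) * (√t)⁻¹ - r * √π * √t) +
    Real.exp (s * r) * oaPhi (s / (2 * √π) * (√t)⁻¹ + r * √π * √t))

private theorem oaG_deriv {s r t : ℝ} (ht : 0 < t) :
    HasDerivAt (oaG s r) (s / (2 * π) * t ^ (-(3 / 2 : ℝ)) * Real.exp (-(s ^ 2 / (4 * π * t))) *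
        Real.exp (-(π * t * r ^ 2))) t := by
  have hq : 0 < √t := Real.sqrt_pos.2 ht
  have hp : 0 < √π := Real.sqrt_pos.2 Real.pi_pos
  have hqq : √t * √t = t := Real.mul_self_sqrt ht.le
  have hpp : √π * √π = π := Real.mul_self_sqrt Real.pi_pos.le
  have hs1 : HasDerivAt (fun t : ℝ => √t) (1 / (2 * √t)) t := Real.hasDerivAt_sqrt ht.ne'
  have hinv : HasDerivAt (fun t : ℝ => (√t)⁻¹) (-(1 / (2 * √t)) / (√t) ^ 2) t :=
    hs1.fun_inv hq.ne'
  have hu : HasDerivAt (fun t : ℝ => s / (2 * √π) * (√t)⁻¹)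
      (s / (2 * √π) * (-(1 / (2 * √t)) / (√t) ^ 2)) t := hinv.const_mul _
  have hv : HasDerivAt (fun t : ℝ => r * √π * √t) (r * √π * (1 / (2 * √t))) t :=
    hs1.const_mul _
  have h1 := (oaPhi_deriv (s / (2 * √π) * (√t)⁻¹ - r * √π * √t)).comp t (hu.sub hv)
  have h2 := (oaPhi_deriv (s / (2 * √π) * (√t)⁻¹ + r * √π * √t)).comp t (hu.add hv)
  have h3 := ((h1.const_mul (Real.exp (-(s * r)))).add (h2.const_mul (Real.exp (s * r)))).const_mul
    (-(1 / √π))
  have hE1 : Real.exp (-(s * r)) *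
      Real.exp (-((s / (2 * √π) * (√t)⁻¹ - r * √π * √t) ^ 2)) =
      Real.exp (-(s ^ 2 / (4 * π * t))) * Real.exp (-(π * t * r ^ 2)) := by
    rw [← Real.exp_add, ← Real.exp_add]
    congr 1
    have e1 : (s / (2 * √π) * (√t)⁻¹ - r * √π * √t) ^ 2 =
        s ^ 2 / (4 * (√π * √π) * (√t * √t)) - s * r + (√π * √π) * (√t * √t) * r ^ 2 := by
      field_simp
      ring
    rw [e1, hpp, hqq]
    ring
  have hE2 : Real.exp (s * r) *
      Real.exp (-((s / (2 * √π) * (√t)⁻¹ + r * √π * √t) ^ 2)) =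
      Real.exp (-(s ^ 2 / (4 * π * t))) * Real.exp (-(π * t * r ^ 2)) := by
    rw [← Real.exp_add, ← Real.exp_add]
    congr 1
    have e1 : (s / (2 * √π) * (√t)⁻¹ + r * √π * √t) ^ 2 =
        s ^ 2 / (4 * (√π * √π) * (√t * √t)) + s * r + (√π * √π) * (√t * √t) * r ^ 2 := by
      field_simp
      ring
    rw [e1, hpp, hqq]
    ring
  have hpow : t ^ (-(3 / 2 : ℝ)) = (√t * √t)⁻¹ * (√t)⁻¹ := by
    rw [hqq, Real.sqrt_eq_rpow, ← Real.rpow_neg_one t, ← Real.rpow_neg ht.le,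
      ← Real.rpow_add ht]
    norm_num
  refine (h3.congr_deriv ?_)
  have e3 : Real.exp (-(s * r)) *
      (Real.exp (-((s / (2 * √π) * (√t)⁻¹ - r * √π * √t) ^ 2)) *
        (s / (2 * √π) * (-(1 / (2 * √t)) / (√t) ^ 2) - r * √π * (1 / (2 * √t)))) +
      Real.exp (s * r) *
      (Real.exp (-((s / (2 * √π) * (√t)⁻¹ + r * √π * √t) ^ 2)) *
        (s / (2 * √π) * (-(1 / (2 * √t)) / (√t) ^ 2) + r * √π * (1 / (2 * √t)))) =
      Real.exp (-(s ^ 2 / (4 * π * t))) * Real.exp (-(π * t * r ^ 2)) *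
        (2 * (s / (2 * √π) * (-(1 / (2 * √t)) / (√t) ^ 2))) := by
    rw [← mul_assoc, ← mul_assoc, hE1, hE2]
    ring
  rw [e3, hpow]
  have e4 : s / (2 * π) = s / (2 * (√π * √π)) := by rw [hpp]
  rw [e4]
  field_simp
  try ring

private theorem oa_u_top {s : ℝ} (hs : 0 < s) :
    Tendsto (fun t : ℝ => s / (2 * √π) * (√t)⁻¹) (𝓝[>] 0) atTop := by
  have hp : 0 < √π := Real.sqrt_pos.2 Real.pi_pos
  refine Tendsto.const_mul_atTop (by positivity) ?_
  refine tendsto_inv_nhdsGT_zero.comp ?_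
  refine tendsto_nhdsWithin_iff.2 ⟨?_, ?_⟩
  · have : Tendsto (fun t : ℝ => √t) (𝓝 0) (𝓝 (√0)) := Real.continuous_sqrt.tendsto 0
    rw [Real.sqrt_zero] at this
    exact this.mono_left nhdsWithin_le_nhds
  · filter_upwards [self_mem_nhdsWithin] with t ht
    exact Real.sqrt_pos.2 ht

private theorem oa_v_zero (r : ℝ) :
    Tendsto (fun t : ℝ => r * √π * √t) (𝓝[>] 0) (𝓝 0) := by
  have : Tendsto (fun t : ℝ => r * √π * √t) (𝓝 0) (𝓝 (r * √π * √0)) :=
    (Real.continuous_sqrt.const_mul (r * √π)).tendsto 0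
  rw [Real.sqrt_zero, mul_zero] at this
  exact this.mono_left nhdsWithin_le_nhds

private theorem oaG_zero {s : ℝ} (r : ℝ) (hs : 0 < s) :
    Tendsto (oaG s r) (𝓝[>] 0)
      (𝓝 (-(1 / √π) * (Real.exp (-(s * r)) * (√π / 2) + Real.exp (s * r) * (√π / 2)))) := by
  have h1 : Tendsto (fun t : ℝ => s / (2 * √π) * (√t)⁻¹ - r * √π * √t) (𝓝[>] 0) atTop := by
    have := (oa_u_top hs).atTop_add (oa_v_zero r).neg
    simpa [sub_eq_add_neg] using this
  have h2 : Tendsto (fun t : ℝ => s / (2 * √π) * (√t)⁻¹ + r * √π * √t) (𝓝[>] 0) atTop :=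
    (oa_u_top hs).atTop_add (oa_v_zero r)
  exact (((oaPhi_top.comp h1).const_mul _).add ((oaPhi_top.comp h2).const_mul _)).const_mul _

private theorem oa_u_zero (s : ℝ) :
    Tendsto (fun t : ℝ => s / (2 * √π) * (√t)⁻¹) atTop (𝓝 0) := by
  have h : Tendsto (fun t : ℝ => (√t)⁻¹) atTop (𝓝 0) :=
    tendsto_inv_atTop_zero.comp Real.tendsto_sqrt_atTop
  simpa using h.const_mul (s / (2 * √π))

private theorem oaG_top {s r : ℝ} (hr : 0 ≤ r) :
    Tendsto (oaG s r) atTop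
      (𝓝 (-(1 / √π) * (Real.exp (-(s * r)) * (√π / 2) + Real.exp (s * r) * (√π / 2)) +
        Real.exp (-(s * r)))) := by
  have hp : 0 < √π := Real.sqrt_pos.2 Real.pi_pos
  rcases hr.eq_or_lt with rfl | hr
  · have h1 : Tendsto (fun t : ℝ => s / (2 * √π) * (√t)⁻¹ - 0 * √π * √t) atTop (𝓝 0) := by
      simpa using oa_u_zero s
    have h2 : Tendsto (fun t : ℝ => s / (2 * √π) * (√t)⁻¹ + 0 * √π * √t) atTop (𝓝 0) := by
      simpa using oa_u_zero s
    have h0 : Tendsto oaPhi (𝓝 0) (𝓝 0) := by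
      have := (oaPhi_deriv 0).continuousAt.tendsto
      have e : oaPhi 0 = 0 := by simp [oaPhi]
      rwa [e] at this
    have h3 := ((((h0.comp h1).const_mul (Real.exp (-(s * 0)))).add
      ((h0.comp h2).const_mul (Real.exp (s * 0))))).const_mul (-(1 / √π))
    have e : -(1 / √π) * (Real.exp (-(s * 0)) * 0 + Real.exp (s * 0) * 0) =
        -(1 / √π) * (Real.exp (-(s * 0)) * (√π / 2) + Real.exp (s * 0) * (√π / 2)) +
        Real.exp (-(s * 0)) := by
      simp
      field_simp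
      try norm_num
    rw [e] at h3
    exact h3
  · have hv : Tendsto (fun t : ℝ => r * √π * √t) atTop atTop :=
      Tendsto.const_mul_atTop (by positivity) Real.tendsto_sqrt_atTop
    have h2 : Tendsto (fun t : ℝ => s / (2 * √π) * (√t)⁻¹ + r * √π * √t) atTop atTop :=
      (oa_u_zero s).add_atTop hv
    have h1 : Tendsto (fun t : ℝ => s / (2 * √π) * (√t)⁻¹ - r * √π * √t) atTop atBot := by
      have := (oa_u_zero s).add_atBot (tendsto_neg_atTop_atBot.comp hv)
      simpa [sub_eq_add_neg, Function.comp_def] using this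
    have h3 := (((oaPhi_bot.comp h1).const_mul (Real.exp (-(s * r)))).add
      ((oaPhi_top.comp h2).const_mul (Real.exp (s * r)))).const_mul (-(1 / √π))
    have e : -(1 / √π) * (Real.exp (-(s * r)) * (-(√π / 2)) + Real.exp (s * r) * (√π / 2)) =
        -(1 / √π) * (Real.exp (-(s * r)) * (√π / 2) + Real.exp (s * r) * (√π / 2)) +
        Real.exp (-(s * r)) := by
      field_simp
      ring
    rw [e] at h3
    exact h3

theorem subord {s r : ℝ} (hs : 0 < s) (hr : 0 ≤ r) :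
    IntegrableOn (fun t : ℝ => s / (2 * π) * t ^ (-(3 / 2 : ℝ)) * Real.exp (-(s ^ 2 / (4 * π * t))) *
        Real.exp (-(π * t * r ^ 2))) (Ioi 0) ∧
      ∫ t in Ioi (0 : ℝ), s / (2 * π) * t ^ (-(3 / 2 : ℝ)) * Real.exp (-(s ^ 2 / (4 * π * t))) *
        Real.exp (-(π * t * r ^ 2)) = Real.exp (-(s * r)) := by
  set A : ℝ := -(1 / √π) * (Real.exp (-(s * r)) * (√π / 2) + Real.exp (s * r) * (√π / 2)) with hA
  set g : ℝ → ℝ := Function.update (oaG s r) 0 A with hg
  have hg0 : g 0 = A := by simp [hg]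
  have hgt : ∀ t ≠ 0, g t = oaG s r t := fun t ht => by simp [hg, Function.update_of_ne ht]
  have hcont : ContinuousWithinAt g (Ici 0) 0 := by
    rw [← Ioi_insert, continuousWithinAt_insert_self]
    show Tendsto g (𝓝[>] 0) (𝓝 (g 0))
    rw [hg0]
    refine (oaG_zero r hs).congr' ?_
    filter_upwards [self_mem_nhdsWithin] with t ht
    exact (hgt t (ne_of_gt ht)).symm
  have hderiv : ∀ t ∈ Ioi (0 : ℝ), HasDerivAt g (s / (2 * π) * t ^ (-(3 / 2 : ℝ)) *
      Real.exp (-(s ^ 2 / (4 * π * t))) * Real.exp (-(π * t * r ^ 2))) t := by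
    intro t ht
    refine (oaG_deriv ht).congr_of_eventuallyEq ?_
    filter_upwards [isOpen_ne.mem_nhds (ne_of_gt ht : t ≠ 0)] with x hx
    exact hgt x hx
  have hpos : ∀ t ∈ Ioi (0 : ℝ), 0 ≤ s / (2 * π) * t ^ (-(3 / 2 : ℝ)) *
      Real.exp (-(s ^ 2 / (4 * π * t))) * Real.exp (-(π * t * r ^ 2)) := by
    intro t ht
    have : 0 ≤ t ^ (-(3 / 2 : ℝ)) := Real.rpow_nonneg (le_of_lt ht) _
    have hpi := Real.pi_pos
    positivity
  have htop : Tendsto g atTop (𝓝 (A + Real.exp (-(s * r)))) := by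
    refine (oaG_top hr).congr' ?_
    filter_upwards [eventually_gt_atTop 0] with t ht
    exact (hgt t ht.ne').symm
  refine ⟨integrableOn_Ioi_deriv_of_nonneg hcont hderiv hpos htop, ?_⟩
  rw [integral_Ioi_of_hasDerivAt_of_nonneg hcont hderiv hpos htop, hg0]
  ring

theorem subord_dual {s l : ℝ} (hs : 0 < s) (hl : 0 ≤ l) :
    IntegrableOn (fun t : ℝ => s / (2 * π) * t ^ (-(3 / 2 : ℝ)) * Real.exp (-(s ^ 2 / (4 * π * t))) *
        (t⁻¹ * Real.exp (-(π * l / t)))) (Ioi 0) ∧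
      ∫ t in Ioi (0 : ℝ), s / (2 * π) * t ^ (-(3 / 2 : ℝ)) * Real.exp (-(s ^ 2 / (4 * π * t))) *
        (t⁻¹ * Real.exp (-(π * l / t))) = 2 * π * s * (s ^ 2 + 4 * π ^ 2 * l) ^ (-(3 / 2 : ℝ)) := by
  have hpi := Real.pi_pos
  set c : ℝ := s ^ 2 / (4 * π) + π * l with hc
  have hc0 : 0 < c := by positivity
  set g : ℝ → ℝ := fun y => s / (2 * π) * (y ^ ((3 / 2 : ℝ) - 1) * Real.exp (-(c * y))) with hg
  have hgint : IntegrableOn g (Ioi 0) := by
    have h := integrableOn_rpow_mul_exp_neg_mul_rpow (p := 1) (s := 3 / 2 - 1) (b := c)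
      (by norm_num) one_pos hc0
    refine Integrable.const_mul ?_ _
    refine h.congr_fun (fun y _ => ?_) measurableSet_Ioi
    simp only [Real.rpow_one, neg_mul]
  have hint : ∫ y in Ioi (0 : ℝ), g y = s / (2 * π) * ((1 / c) ^ (3 / 2 : ℝ) * Real.Gamma (3 / 2)) := by
    simp only [hg]
    rw [integral_const_mul, Real.integral_rpow_mul_exp_neg_mul_Ioi (by norm_num) hc0]
  have hfun : ∀ t ∈ Ioi (0 : ℝ), (|(-1 : ℝ)| * t ^ ((-1 : ℝ) - 1)) • g (t ^ (-1 : ℝ)) =
      s / (2 * π) * t ^ (-(3 / 2 : ℝ)) * Real.exp (-(s ^ 2 / (4 * π * t))) *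
        (t⁻¹ * Real.exp (-(π * l / t))) := by
    intro t ht
    have ht0 : (0 : ℝ) < t := ht
    simp only [hg, smul_eq_mul, abs_neg, abs_one, one_mul]
    have e1 : Real.exp (-(c * t ^ (-1 : ℝ))) =
        Real.exp (-(s ^ 2 / (4 * π * t))) * Real.exp (-(π * l / t)) := by
      rw [← Real.exp_add, Real.rpow_neg_one]
      congr 1
      rw [hc]
      field_simp
      try ring
    have e2 : t ^ ((-1 : ℝ) - 1) * (t ^ (-1 : ℝ)) ^ ((3 / 2 : ℝ) - 1) =
        t ^ (-(3 / 2 : ℝ)) * t⁻¹ := by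
      rw [← Real.rpow_mul ht0.le, ← Real.rpow_add ht0, ← Real.rpow_neg_one t,
        ← Real.rpow_add ht0]
      norm_num
    rw [e1]
    calc t ^ ((-1 : ℝ) - 1) * (s / (2 * π) * ((t ^ (-1 : ℝ)) ^ ((3 / 2 : ℝ) - 1) *
          (Real.exp (-(s ^ 2 / (4 * π * t))) * Real.exp (-(π * l / t)))))
        = s / (2 * π) * (t ^ ((-1 : ℝ) - 1) * (t ^ (-1 : ℝ)) ^ ((3 / 2 : ℝ) - 1)) *
          (Real.exp (-(s ^ 2 / (4 * π * t))) * Real.exp (-(π * l / t))) := by ring
      _ = _ := by rw [e2]; ring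
  constructor
  · have h := (integrableOn_Ioi_comp_rpow_iff g (p := -1) (by norm_num)).2 hgint
    exact h.congr_fun hfun measurableSet_Ioi
  · have h := integral_comp_rpow_Ioi g (p := -1) (by norm_num)
    rw [setIntegral_congr_fun measurableSet_Ioi hfun, hint] at h
    rw [h]
    have hG : Real.Gamma (3 / 2) = √π / 2 := by
      have := Real.Gamma_add_one (s := 1 / 2) (by norm_num)
      rw [Real.Gamma_one_half_eq] at this
      have e : (1 / 2 : ℝ) + 1 = 3 / 2 := by norm_num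
      rw [e] at this
      rw [this]
      ring
    rw [hG]
    have hpos : 0 < s ^ 2 + 4 * π ^ 2 * l := by positivity
    have e5 : 1 / c = (4 * π) * (s ^ 2 + 4 * π ^ 2 * l)⁻¹ := by
      rw [hc]
      field_simp
      try ring
    have e6 : (4 * π : ℝ) ^ (3 / 2 : ℝ) = 8 * (π * √π) := by
      rw [Real.mul_rpow (by norm_num) hpi.le]
      have a1 : (4 : ℝ) ^ (3 / 2 : ℝ) = 8 := by
        rw [show (4 : ℝ) = 2 ^ (2 : ℝ) by norm_num, ← Real.rpow_mul (by norm_num)]
        norm_num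
      have a2 : π ^ (3 / 2 : ℝ) = π * √π := by
        rw [Real.sqrt_eq_rpow]
        nth_rewrite 2 [← Real.rpow_one π]
        rw [← Real.rpow_add hpi]
        norm_num
      rw [a1, a2]
    rw [e5, Real.mul_rpow (by positivity) (by positivity), e6, Real.inv_rpow hpos.le,
      ← Real.rpow_neg hpos.le]
    have hpp : √π * √π = π := Real.mul_self_sqrt hpi.le
    calc s / (2 * π) * (8 * (π * √π) * (s ^ 2 + 4 * π ^ 2 * l) ^ (-(3 / 2 : ℝ)) * (√π / 2))
        = s / (2 * π) * (4 * π * (√π * √π)) * (s ^ 2 + 4 * π ^ 2 * l) ^ (-(3 / 2 : ℝ)) := by ring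
      _ = _ := by
          rw [hpp]
          field_simp
          try ring

end Pool.Agent.LB
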