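import Pool.Agent.Helper76.LB.AA
import Pool.Agent.Helper76.LB.OA

set_option autoImplicit false

open Real MeasureTheory Set Filter Topology

namespace Pool.Agent.LB

/-! Block OB: the real formula for `e^{-s√λ}` (integrate the theta relation against the subordinator;
all terms nonnegative, Tonelli) and the Laplace transform of the error. -/

/-- Tonelli for nonnegative series on `(0,∞)`. -/
theorem tonelli_series {f : ℕ → ℝ → ℝ} (h0 : ∀ n t, 0 < t → 0 ≤ f n t)
    (hi : ∀ n, IntegrableOn (f n) (Ioi 0)) (hs : ∀ t, 0 < t → Summable (fun n => f n t))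
    (hc : Summable (fun n => ∫ t in Ioi (0 : ℝ), f n t)) :
    IntegrableOn (fun t => ∑' n, f n t) (Ioi 0) ∧
      ∫ t in Ioi (0 : ℝ), ∑' n, f n t = ∑' n, ∫ t in Ioi (0 : ℝ), f n t := by
  have hmeas : AEStronglyMeasurable (fun t => ∑' n, f n t) (volume.restrict (Ioi (0 : ℝ))) := by
    refine aestronglyMeasurable_of_tendsto_ae (u := atTop)
      (f := fun N t => ∑ n ∈ Finset.range N, f n t) ?_ ?_
    · intro N
      exact (integrable_finsetSum _ (fun n _ => hi n)).aestronglyMeasurable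
    · filter_upwards [ae_restrict_mem measurableSet_Ioi] with t ht
      exact (hs t ht).hasSum.tendsto_sum_nat
  have hint : IntegrableOn (fun t => ∑' n, f n t) (Ioi 0) := by
    refine ⟨hmeas, ?_⟩
    have e1 : ∫⁻ t in Ioi (0 : ℝ), ‖∑' n, f n t‖ₑ =
        ∫⁻ t in Ioi (0 : ℝ), ∑' n, ENNReal.ofReal (f n t) := by
      refine setLIntegral_congr_fun measurableSet_Ioi (fun t ht => ?_)
      have hn : 0 ≤ ∑' n, f n t := tsum_nonneg (fun n => h0 n t ht)
      rw [Real.enorm_eq_ofReal hn, ENNReal.ofReal_tsum_of_nonneg (fun n => h0 n t ht) (hs t ht)]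
    rw [hasFiniteIntegral_iff_enorm, e1, lintegral_tsum
      (fun n => ((hi n).aestronglyMeasurable.aemeasurable.ennreal_ofReal))]
    have e2 : ∀ n, ∫⁻ t in Ioi (0 : ℝ), ENNReal.ofReal (f n t) =
        ENNReal.ofReal (∫ t in Ioi (0 : ℝ), f n t) := by
      intro n
      rw [ofReal_integral_eq_lintegral_ofReal (hi n)]
      filter_upwards [ae_restrict_mem measurableSet_Ioi] with t ht
      exact h0 n t ht
    simp_rw [e2]
    rw [← ENNReal.ofReal_tsum_of_nonneg (fun n => setIntegral_nonneg measurableSet_Ioi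
      (fun t ht => h0 n t ht)) hc]
    exact ENNReal.ofReal_lt_top
  refine ⟨hint, ?_⟩
  symm
  refine integral_tsum_of_summable_integral_norm hi ?_
  refine hc.congr (fun n => ?_)
  refine setIntegral_congr_fun measurableSet_Ioi (fun t ht => ?_)
  simp only [Real.norm_eq_abs]
  rw [abs_of_nonneg (h0 n t ht)]

/-- summability of the integrals from an integrable bound of the sum -/
theorem summable_integrals {f : ℕ → ℝ → ℝ} {G : ℝ → ℝ} (h0 : ∀ n t, 0 < t → 0 ≤ f n t)
    (hi : ∀ n, IntegrableOn (f n) (Ioi 0)) (hs : ∀ t, 0 < t → Summable (fun n => f n t))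
    (hG : IntegrableOn G (Ioi 0)) (hle : ∀ t, 0 < t → ∑' n, f n t ≤ G t) :
    Summable (fun n => ∫ t in Ioi (0 : ℝ), f n t) := by
  refine summable_of_sum_le (c := ∫ t in Ioi (0 : ℝ), G t)
    (fun n => setIntegral_nonneg measurableSet_Ioi (fun t ht => h0 n t ht)) (fun s => ?_)
  rw [← integral_finsetSum s (fun n _ => hi n)]
  refine setIntegral_mono_on (integrable_finsetSum _ (fun n _ => hi n)) hG measurableSet_Ioi
    (fun t ht => ?_)
  exact ((hs t ht).sum_le_tsum s (fun n _ => h0 n t ht)).trans (hle t ht)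

theorem ThetaPair.theta_le' {a lam : ℕ → ℝ} (h : ThetaPair a lam) :
    ∃ C : ℝ, 0 < C ∧ ∀ t : ℝ, 0 < t →
      ∑' n, a n * Real.exp (-(π * lam n * t)) ≤ C * t⁻¹ + C := by
  obtain ⟨C, hC, hle⟩ := h.theta_le
  refine ⟨C, hC, fun t ht => ?_⟩
  rcases le_total t 1 with h1 | h1
  · have := hle t ht h1
    rw [div_eq_mul_inv] at this
    linarith
  · have h2 := hle 1 one_pos le_rfl
    have h3 : ∑' n, a n * Real.exp (-(π * lam n * t)) ≤
        ∑' n, a n * Real.exp (-(π * lam n * 1)) := by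
      refine (h.summ t ht).tsum_le_tsum (fun n => ?_) (h.summ 1 one_pos)
      refine mul_le_mul_of_nonneg_left (Real.exp_le_exp.2 ?_) (h.nonneg n)
      have : π * lam n * 1 ≤ π * lam n * t :=
        mul_le_mul_of_nonneg_left h1 (mul_pos pi_pos (h.pos n)).le
      linarith
    have h4 : 0 < C * t⁻¹ := mul_pos hC (inv_pos.2 ht)
    rw [div_one] at h2
    linarith

theorem ThetaPair.laplace_sqrt {a lam : ℕ → ℝ} (h : ThetaPair a lam) {s : ℝ} (hs : 0 < s) :
    Summable (fun n => a n * Real.exp (-(s * √(lam n)))) ∧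
      Summable (fun n => a n * (s ^ 2 + 4 * π ^ 2 * lam n) ^ (-(3 / 2 : ℝ))) ∧
      1 + ∑' n, a n * Real.exp (-(s * √(lam n))) =
        2 * π / s ^ 2 +
          2 * π * s * ∑' n, a n * (s ^ 2 + 4 * π ^ 2 * lam n) ^ (-(3 / 2 : ℝ)) := by
  obtain ⟨C, hC, hth⟩ := h.theta_le'
  set k : ℝ → ℝ := fun t => s / (2 * π) * t ^ (-(3 / 2 : ℝ)) * Real.exp (-(s ^ 2 / (4 * π * t)))
    with hk
  have hk0 : ∀ t, 0 < t → 0 ≤ k t := by
    intro t ht
    have := pi_pos
    simp only [hk]
    positivity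
  -- the two kernels
  have hFi : ∀ l : ℝ, 0 ≤ l → IntegrableOn (fun t => k t * Real.exp (-(π * l * t))) (Ioi 0) ∧
      ∫ t in Ioi (0 : ℝ), k t * Real.exp (-(π * l * t)) = Real.exp (-(s * √l)) := by
    intro l hl
    have h1 := subord hs (Real.sqrt_nonneg l)
    rw [Real.sq_sqrt hl] at h1
    have e : (fun t => k t * Real.exp (-(π * l * t))) = (fun t : ℝ => s / (2 * π) *
        t ^ (-(3 / 2 : ℝ)) * Real.exp (-(s ^ 2 / (4 * π * t))) * Real.exp (-(π * t * l))) := by
      funext t
      simp only [hk]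
      congr 2
      ring
    rw [e]
    exact h1
  have hEi : ∀ l : ℝ, 0 ≤ l →
      IntegrableOn (fun t => k t * (t⁻¹ * Real.exp (-(π * l / t)))) (Ioi 0) ∧
      ∫ t in Ioi (0 : ℝ), k t * (t⁻¹ * Real.exp (-(π * l / t))) =
        2 * π * s * (s ^ 2 + 4 * π ^ 2 * l) ^ (-(3 / 2 : ℝ)) := fun l hl => subord_dual hs hl
  have hk1 : IntegrableOn k (Ioi 0) ∧ ∫ t in Ioi (0 : ℝ), k t = 1 := by
    have h1 := hFi 0 le_rfl
    simpa using h1
  have hk2 : IntegrableOn (fun t => k t * t⁻¹) (Ioi 0) ∧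
      ∫ t in Ioi (0 : ℝ), k t * t⁻¹ = 2 * π / s ^ 2 := by
    have h1 := hEi 0 le_rfl
    have e : 2 * π * s * (s ^ 2 + 4 * π ^ 2 * 0) ^ (-(3 / 2 : ℝ)) = 2 * π / s ^ 2 := by
      have e1 : (s ^ 2 + 4 * π ^ 2 * 0) ^ (-(3 / 2 : ℝ)) = (s ^ 3)⁻¹ := by
        rw [mul_zero, add_zero, Real.rpow_neg (by positivity), ← Real.rpow_natCast s 2,
          ← Real.rpow_mul hs.le, ← Real.rpow_natCast s 3]
        norm_num
      rw [e1]
      field_simp
    rw [e] at h1
    simpa using h1
  -- pointwise sums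
  have hFs : ∀ t, 0 < t → HasSum (fun n => a n * (k t * Real.exp (-(π * lam n * t))))
      (k t * ∑' n, a n * Real.exp (-(π * lam n * t))) := by
    intro t ht
    have e : (fun n => a n * (k t * Real.exp (-(π * lam n * t)))) =
        fun n => k t * (a n * Real.exp (-(π * lam n * t))) := by
      funext n
      ring
    rw [e]
    exact (h.summ t ht).hasSum.mul_left (k t)
  have hEs : ∀ t, 0 < t → HasSum (fun n => a n * (k t * (t⁻¹ * Real.exp (-(π * lam n / t)))))
      (k t * t⁻¹ * ∑' n, a n * Real.exp (-(π * lam n / t))) := by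
    intro t ht
    have e : (fun n => a n * (k t * (t⁻¹ * Real.exp (-(π * lam n / t))))) =
        fun n => k t * t⁻¹ * (a n * Real.exp (-(π * lam n / t))) := by
      funext n
      ring
    rw [e]
    have h1 := h.summ t⁻¹ (inv_pos.2 ht)
    have h2 : Summable (fun n => a n * Real.exp (-(π * lam n / t))) := by
      simpa [div_eq_mul_inv] using h1
    exact h2.hasSum.mul_left (k t * t⁻¹)
  have hF0 : ∀ n t, 0 < t → 0 ≤ a n * (k t * Real.exp (-(π * lam n * t))) := fun n t ht =>
    mul_nonneg (h.nonneg n) (mul_nonneg (hk0 t ht) (Real.exp_pos _).le)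
  have hE0 : ∀ n t, 0 < t → 0 ≤ a n * (k t * (t⁻¹ * Real.exp (-(π * lam n / t)))) := fun n t ht =>
    mul_nonneg (h.nonneg n) (mul_nonneg (hk0 t ht) (mul_nonneg (inv_pos.2 ht).le
      (Real.exp_pos _).le))
  have hFI : ∀ n, IntegrableOn (fun t => a n * (k t * Real.exp (-(π * lam n * t)))) (Ioi 0) :=
    fun n => (hFi (lam n) (h.pos n).le).1.const_mul (a n)
  have hEI : ∀ n, IntegrableOn (fun t => a n * (k t * (t⁻¹ * Real.exp (-(π * lam n / t)))))
      (Ioi 0) := fun n => (hEi (lam n) (h.pos n).le).1.const_mul (a n)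
  have hFv : ∀ n, ∫ t in Ioi (0 : ℝ), a n * (k t * Real.exp (-(π * lam n * t))) =
      a n * Real.exp (-(s * √(lam n))) := by
    intro n
    rw [integral_const_mul, (hFi (lam n) (h.pos n).le).2]
  have hEv : ∀ n, ∫ t in Ioi (0 : ℝ), a n * (k t * (t⁻¹ * Real.exp (-(π * lam n / t)))) =
      2 * π * s * (a n * (s ^ 2 + 4 * π ^ 2 * lam n) ^ (-(3 / 2 : ℝ))) := by
    intro n
    rw [integral_const_mul, (hEi (lam n) (h.pos n).le).2]
    ring
  -- summability of the integrals
  have hFc := summable_integrals hF0 hFI (fun t ht => (hFs t ht).summable)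
    (G := fun t => C * (k t * t⁻¹) + C * k t)
    ((hk2.1.const_mul C).add (hk1.1.const_mul C)) (fun t ht => by
      rw [(hFs t ht).tsum_eq]
      have := mul_le_mul_of_nonneg_left (hth t ht) (hk0 t ht)
      calc _ ≤ k t * (C * t⁻¹ + C) := this
        _ = _ := by ring)
  have hEc := summable_integrals hE0 hEI (fun t ht => (hEs t ht).summable)
    (G := fun t => C * (k t * t⁻¹) + (1 + C) * k t)
    ((hk2.1.const_mul C).add (hk1.1.const_mul (1 + C))) (fun t ht => by
      rw [(hEs t ht).tsum_eq]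
      have h1 := h.theta t ht
      have h2 : ∑' n, a n * Real.exp (-(π * lam n / t)) ≤ t * (1 + (C * t⁻¹ + C)) := by
        have h3 := mul_le_mul_of_nonneg_left (hth t ht) ht.le
        have h4 : t * (1 + ∑' n, a n * Real.exp (-(π * lam n * t))) ≤
            t * (1 + (C * t⁻¹ + C)) := by
          rw [mul_add, mul_add t 1 (C * t⁻¹ + C)]
          linarith
        linarith
      have := mul_le_mul_of_nonneg_left h2 (mul_nonneg (hk0 t ht) (inv_pos.2 ht).le)
      calc _ ≤ k t * t⁻¹ * (t * (1 + (C * t⁻¹ + C))) := this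
        _ = _ := by
          field_simp
          ring)
  have hFT := tonelli_series hF0 hFI (fun t ht => (hFs t ht).summable) hFc
  have hET := tonelli_series hE0 hEI (fun t ht => (hEs t ht).summable) hEc
  have hFc' : Summable (fun n => a n * Real.exp (-(s * √(lam n)))) := hFc.congr hFv
  have hsp : 2 * π * s ≠ 0 := by
    have := pi_pos
    positivity
  have hEc' : Summable (fun n => a n * (s ^ 2 + 4 * π ^ 2 * lam n) ^ (-(3 / 2 : ℝ))) :=
    (summable_mul_left_iff hsp).1 (hEc.congr hEv)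
  refine ⟨hFc', hEc', ?_⟩
  have hid : ∫ t in Ioi (0 : ℝ), (k t + ∑' n, a n * (k t * Real.exp (-(π * lam n * t)))) =
      ∫ t in Ioi (0 : ℝ), (k t * t⁻¹ +
        ∑' n, a n * (k t * (t⁻¹ * Real.exp (-(π * lam n / t))))) := by
    refine setIntegral_congr_fun measurableSet_Ioi (fun t ht => ?_)
    have ht' : (0 : ℝ) < t := ht
    change k t + (∑' n, a n * (k t * Real.exp (-(π * lam n * t)))) = k t * t⁻¹ + _
    rw [(hFs t ht).tsum_eq, (hEs t ht).tsum_eq]
    have h1 := h.theta t ht
    calc k t + k t * ∑' n, a n * Real.exp (-(π * lam n * t))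
        = k t * t⁻¹ * (t * (1 + ∑' n, a n * Real.exp (-(π * lam n * t)))) := by
          rw [mul_assoc (k t), ← mul_assoc t⁻¹ t, inv_mul_cancel₀ ht'.ne', one_mul]
          ring
      _ = k t * t⁻¹ * (1 + ∑' n, a n * Real.exp (-(π * lam n / t))) := by rw [h1]
      _ = _ := by ring
  rw [integral_add hk1.1 hFT.1, integral_add hk2.1 hET.1, hk1.2, hk2.2, hFT.2, hET.2] at hid
  simp_rw [hFv, hEv] at hid
  rw [tsum_mul_left] at hid
  exact hid

theorem ThetaPair.finite_le {a lam : ℕ → ℝ} (h : ThetaPair a lam) (x : ℝ) :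
    {n | lam n ≤ x}.Finite := by
  have h1 := h.tends.eventually (eventually_gt_atTop x)
  rw [← Nat.cofinite_eq_atTop] at h1
  have h2 := h1
  rw [Filter.eventually_cofinite] at h2
  refine h2.subset (fun n hn => ?_)
  exact not_lt.2 hn

/-- `∫ cnt(R²) e^{-sR} dR = (1/s) (1 + ∑ a n e^{-s√lam n})`, `∫ π R² e^{-sR} dR = 2π/s³`. -/
theorem ThetaPair.err_laplace {a lam : ℕ → ℝ} (h : ThetaPair a lam) {s : ℝ} (hs : 0 < s) :
    IntegrableOn (fun R => err a lam R * Real.exp (-(s * R))) (Ioi 0) ∧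
      ∫ R in Ioi (0 : ℝ), err a lam R * Real.exp (-(s * R)) =
        2 * π * ∑' n, a n * (s ^ 2 + 4 * π ^ 2 * lam n) ^ (-(3 / 2 : ℝ)) := by
  obtain ⟨hS1, hS2, hS⟩ := h.laplace_sqrt hs
  -- exponential integrals
  have hexp : ∀ c : ℝ, IntegrableOn (fun R => Real.exp (-(s * R))) (Ioi c) ∧
      ∫ R in Ioi c, Real.exp (-(s * R)) = Real.exp (-(s * c)) / s := by
    intro c
    have e : (fun R => Real.exp (-(s * R))) = fun R => Real.exp (-s * R) := by
      funext R
      rw [neg_mul]
    constructor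
    · rw [e]
      exact exp_neg_integrableOn_Ioi c hs
    · rw [e, integral_exp_mul_Ioi (by linarith) c, neg_div_neg_eq, neg_mul]
  set f : ℕ → ℝ → ℝ := fun n R => (if lam n ≤ R ^ 2 then a n else 0) * Real.exp (-(s * R)) with hf
  have hfi : ∀ n, IntegrableOn (f n) (Ioi 0) ∧
      ∫ R in Ioi (0 : ℝ), f n R = a n * Real.exp (-(s * √(lam n))) / s := by
    intro n
    have hset : ∀ R : ℝ, 0 < R → (lam n ≤ R ^ 2 ↔ R ∈ Ici (√(lam n))) := by
      intro R hR
      rw [mem_Ici, Real.sqrt_le_left hR.le]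
    have e : EqOn (f n) ((Ici (√(lam n))).indicator (fun R => a n * Real.exp (-(s * R))))
        (Ioi 0) := by
      intro R hR
      simp only [hf, indicator_apply]
      by_cases hc : lam n ≤ R ^ 2
      · rw [if_pos hc, if_pos ((hset R hR).1 hc)]
      · rw [if_neg hc, if_neg (fun h' => hc ((hset R hR).2 h')), zero_mul]
    have hI := (hexp 0).1.const_mul (a n)
    constructor
    · have hI' : IntegrableOn ((Ici (√(lam n))).indicator (fun R => a n * Real.exp (-(s * R))))
          (Ioi 0) := Integrable.indicator hI measurableSet_Ici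
      exact hI'.congr_fun e.symm measurableSet_Ioi
    · rw [setIntegral_congr_fun measurableSet_Ioi e, setIntegral_indicator measurableSet_Ici]
      have hsub : Ioi (0 : ℝ) ∩ Ici (√(lam n)) = Ici (√(lam n)) := by
        refine inter_eq_right.2 (fun R hR => ?_)
        exact lt_of_lt_of_le (Real.sqrt_pos.2 (h.pos n)) hR
      rw [hsub, integral_Ici_eq_integral_Ioi, integral_const_mul, (hexp _).2, mul_div_assoc]
  have hf0 : ∀ n R, 0 < R → 0 ≤ f n R := by
    intro n R _
    refine mul_nonneg ?_ (Real.exp_pos _).le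
    split_ifs
    · exact h.nonneg n
    · exact le_rfl
  have hfs : ∀ R : ℝ, 0 < R → HasSum (fun n => f n R)
      ((∑' n, if lam n ≤ R ^ 2 then a n else 0) * Real.exp (-(s * R))) := by
    intro R _
    have hs1 : Summable (fun n => if lam n ≤ R ^ 2 then a n else 0) := by
      refine summable_of_ne_finset_zero (s := (h.finite_le (R ^ 2)).toFinset) (fun n hn => ?_)
      rw [if_neg]
      intro h'
      exact hn ((h.finite_le (R ^ 2)).mem_toFinset.2 h')
    exact hs1.hasSum.mul_right _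
  have hfc : Summable (fun n => ∫ R in Ioi (0 : ℝ), f n R) := by
    refine (hS1.div_const s).congr (fun n => ?_)
    exact ((hfi n).2).symm
  have hT := tonelli_series hf0 (fun n => (hfi n).1) (fun R hR => (hfs R hR).summable) hfc
  have hR2 : IntegrableOn (fun R => R ^ 2 * Real.exp (-(s * R))) (Ioi 0) ∧
      ∫ R in Ioi (0 : ℝ), R ^ 2 * Real.exp (-(s * R)) = 2 / s ^ 3 := by
    have h1 := Real.integral_rpow_mul_exp_neg_mul_Ioi (a := 3) (r := s) (by norm_num) hs
    have h2 := integrableOn_rpow_mul_exp_neg_mul_rpow (p := 1) (s := 2) (b := s) (by norm_num)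
      one_pos hs
    constructor
    · refine h2.congr_fun (fun R hR => ?_) measurableSet_Ioi
      simp only [Real.rpow_one, Real.rpow_ofNat, neg_mul]
    · have e : ∫ R in Ioi (0 : ℝ), R ^ 2 * Real.exp (-(s * R)) =
          ∫ R in Ioi (0 : ℝ), R ^ ((3 : ℝ) - 1) * Real.exp (-(s * R)) := by
        refine setIntegral_congr_fun measurableSet_Ioi (fun R hR => ?_)
        have : ((3 : ℝ) - 1) = ((2 : ℕ) : ℝ) := by norm_num
        simp only [this, Real.rpow_natCast]
      rw [e, h1]
      have hG : Real.Gamma 3 = 2 := by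
        have := Real.Gamma_nat_eq_factorial 2
        rw [show ((2 : ℕ) : ℝ) + 1 = 3 by norm_num] at this
        rw [this]
        norm_num [Nat.factorial]
      rw [hG]
      have : ((1 : ℝ) / s) ^ (3 : ℝ) = 1 / s ^ 3 := by
        rw [show (3 : ℝ) = ((3 : ℕ) : ℝ) by norm_num, Real.rpow_natCast, one_div, inv_pow, one_div]
      rw [this]
      ring
  have herr : EqOn (fun R => err a lam R * Real.exp (-(s * R)))
      (fun R => (Real.exp (-(s * R)) + ∑' n, f n R) - π * (R ^ 2 * Real.exp (-(s * R))))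
      (Ioi 0) := by
    intro R hR
    simp only [err, cnt]
    rw [(hfs R hR).tsum_eq]
    ring
  have hsum : IntegrableOn (fun R => Real.exp (-(s * R)) + ∑' n, f n R) (Ioi 0) :=
    (hexp 0).1.add hT.1
  constructor
  · exact (hsum.sub (hR2.1.const_mul π)).congr_fun herr.symm measurableSet_Ioi
  · rw [setIntegral_congr_fun measurableSet_Ioi herr]
    rw [integral_sub hsum (hR2.1.const_mul π), integral_add (hexp 0).1 hT.1, hT.2,
      integral_const_mul, hR2.2, (hexp 0).2]
    simp_rw [(hfi _).2]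
    rw [tsum_div_const, mul_zero, neg_zero, Real.exp_zero]
    have h3 : ∑' n, a n * Real.exp (-(s * √(lam n))) = 2 * π / s ^ 2 +
          2 * π * s * ∑' n, a n * (s ^ 2 + 4 * π ^ 2 * lam n) ^ (-(3 / 2 : ℝ)) - 1 := by
      linarith
    rw [h3]
    field_simp
    ring

end Pool.Agent.LB
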