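import Pool.Agent.Helper76.LB.OB

set_option autoImplicit false

open Real MeasureTheory Set Filter Topology

namespace Pool.Agent.LB

/-! Block OC: complex `s` (identity theorem on the right half plane; both sides are holomorphic:
`|err R| ≤ C (1 + R²)`; `s² + 4π² l` is in the slit plane for `Re s > 0`, `l ≥ 0`). -/

/-- Lower bound for `|s² + b|`, uniform on `δ ≤ Re s`, `|s| ≤ B`. -/
private lemma norm_sq_add_lower {δ B : ℝ} (hδ : 0 < δ) (hB : 0 < B) {s : ℂ} (h1 : δ ≤ s.re)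
    (h2 : ‖s‖ ≤ B) {b : ℝ} (hb : 0 ≤ b) :
    min (B ^ 2 / (1 + 2 * B ^ 2)) (δ ^ 2 / (1 + 2 * B ^ 2)) * (1 + b) ≤ ‖s ^ 2 + (b : ℂ)‖ := by
  have hd : 0 < 1 + 2 * B ^ 2 := by positivity
  rcases le_or_gt (2 * B ^ 2) b with h | h
  · have h3 : b - B ^ 2 ≤ ‖s ^ 2 + (b : ℂ)‖ := by
      have h4 : ‖(b : ℂ)‖ = b := by
        rw [Complex.norm_real, Real.norm_eq_abs, abs_of_nonneg hb]
      have h5 : ‖s ^ 2‖ ≤ B ^ 2 := by
        rw [norm_pow]
        exact pow_le_pow_left₀ (norm_nonneg _) h2 2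
      have h6 : ‖(b : ℂ)‖ ≤ ‖s ^ 2 + (b : ℂ)‖ + ‖s ^ 2‖ := by
        calc ‖(b : ℂ)‖ = ‖(s ^ 2 + (b : ℂ)) - s ^ 2‖ := by ring_nf
          _ ≤ _ := norm_sub_le _ _
      linarith
    refine le_trans ?_ h3
    have h7 : B ^ 2 / (1 + 2 * B ^ 2) * (1 + b) ≤ b - B ^ 2 := by
      rw [div_mul_eq_mul_div, div_le_iff₀ hd]
      nlinarith [sq_nonneg B]
    exact (mul_le_mul_of_nonneg_right (min_le_left _ _) (by linarith)).trans h7
  · have h3 : δ ^ 2 ≤ ‖s ^ 2 + (b : ℂ)‖ := by
      have hfac : s ^ 2 + (b : ℂ) = (s + (Real.sqrt b : ℂ) * Complex.I) *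
          (s - (Real.sqrt b : ℂ) * Complex.I) := by
        have hsq : ((Real.sqrt b : ℝ) : ℂ) ^ 2 = (b : ℂ) := by
          rw [← Complex.ofReal_pow, Real.sq_sqrt hb]
        linear_combination Complex.I ^ 2 * hsq + (b : ℂ) * Complex.I_sq
      rw [hfac, norm_mul, sq]
      have e1 : δ ≤ ‖s + (Real.sqrt b : ℂ) * Complex.I‖ := by
        refine le_trans ?_ (Complex.re_le_norm _)
        simpa using h1
      have e2 : δ ≤ ‖s - (Real.sqrt b : ℂ) * Complex.I‖ := by
        refine le_trans ?_ (Complex.re_le_norm _)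
        simpa using h1
      exact mul_le_mul e1 e2 hδ.le (norm_nonneg _)
    refine le_trans ?_ h3
    have h7 : δ ^ 2 / (1 + 2 * B ^ 2) * (1 + b) ≤ δ ^ 2 := by
      rw [div_mul_eq_mul_div, div_le_iff₀ hd]
      nlinarith [sq_nonneg δ]
    exact (mul_le_mul_of_nonneg_right (min_le_right _ _) (by linarith)).trans h7

private lemma slit {s : ℂ} (hs : 0 < s.re) {b : ℝ} (hb : 0 ≤ b) :
    s ^ 2 + (b : ℂ) ∈ Complex.slitPlane := by
  rw [Complex.mem_slitPlane_iff]
  by_cases him : s.im = 0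
  · left
    simp only [sq, Complex.add_re, Complex.mul_re, Complex.ofReal_re, him]
    nlinarith
  · right
    simp only [sq, Complex.add_im, Complex.mul_im, Complex.ofReal_im, add_zero]
    have : s.re * s.im + s.im * s.re = 2 * (s.re * s.im) := by ring
    rw [this]
    exact mul_ne_zero two_ne_zero (mul_ne_zero hs.ne' him)

/-- The terms of the series are dominated by the terms at `s = 1`, locally uniformly. -/
private lemma term_bound {δ B : ℝ} (hδ : 0 < δ) (hB : 0 < B) : ∃ M : ℝ, ∀ (s : ℂ), δ ≤ s.re →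
    ‖s‖ ≤ B → ∀ (a l : ℝ), 0 ≤ a → 0 ≤ l →
    ‖(a : ℂ) * (s ^ 2 + 4 * π ^ 2 * l) ^ (-(3 / 2 : ℂ))‖
      ≤ M * (a * ((1 : ℝ) ^ 2 + 4 * π ^ 2 * l) ^ (-(3 / 2 : ℝ))) := by
  set c := min (B ^ 2 / (1 + 2 * B ^ 2)) (δ ^ 2 / (1 + 2 * B ^ 2)) with hc
  have hc0 : 0 < c := by
    rw [hc]
    exact lt_min (by positivity) (by positivity)
  refine ⟨c ^ (-(3 / 2 : ℝ)), ?_⟩
  intro s h1 h2 a l ha hl
  have hb : 0 ≤ 4 * π ^ 2 * l := by positivity
  have h3 := norm_sq_add_lower hδ hB h1 h2 hb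
  rw [← hc] at h3
  have e1 : (s ^ 2 + 4 * (π : ℂ) ^ 2 * (l : ℂ)) = s ^ 2 + ((4 * π ^ 2 * l : ℝ) : ℂ) := by
    push_cast; ring
  have e2 : (-(3 / 2 : ℂ)) = ((-(3 / 2 : ℝ) : ℝ) : ℂ) := by push_cast; ring
  rw [norm_mul, e1, e2, Complex.norm_cpow_real, Complex.norm_real, Real.norm_eq_abs,
    abs_of_nonneg ha]
  have h4 : ‖s ^ 2 + ((4 * π ^ 2 * l : ℝ) : ℂ)‖ ^ (-(3 / 2 : ℝ)) ≤
      (c * (1 + 4 * π ^ 2 * l)) ^ (-(3 / 2 : ℝ)) :=
    Real.rpow_le_rpow_of_nonpos (by positivity) h3 (by norm_num)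
  rw [Real.mul_rpow hc0.le (by positivity)] at h4
  calc a * ‖s ^ 2 + ((4 * π ^ 2 * l : ℝ) : ℂ)‖ ^ (-(3 / 2 : ℝ))
      ≤ a * (c ^ (-(3 / 2 : ℝ)) * (1 + 4 * π ^ 2 * l) ^ (-(3 / 2 : ℝ))) :=
        mul_le_mul_of_nonneg_left h4 ha
    _ = _ := by rw [one_pow]; ring

/-- An open neighbourhood of `s` on which the bounds hold. -/
private def box (s : ℂ) : Set ℂ := {z : ℂ | s.re / 2 < z.re} ∩ {z : ℂ | ‖z‖ < ‖s‖ + 1}

private lemma box_open (s : ℂ) : IsOpen (box s) :=
  (isOpen_lt continuous_const Complex.continuous_re).inter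
    (isOpen_lt continuous_norm continuous_const)

private lemma mem_box {s : ℂ} (hs : 0 < s.re) : s ∈ box s :=
  ⟨show s.re / 2 < s.re by linarith, show ‖s‖ < ‖s‖ + 1 by linarith⟩

/-- Left side. -/
private noncomputable def lhsF (a lam : ℕ → ℝ) (s : ℂ) : ℂ :=
  ∫ R in Ioi (0 : ℝ), ((err a lam R : ℝ) : ℂ) * Complex.exp (-(s * R))

/-- Right side. -/
private noncomputable def rhsF (a lam : ℕ → ℝ) (s : ℂ) : ℂ :=
  2 * π * ∑' n, (a n : ℂ) * (s ^ 2 + 4 * π ^ 2 * lam n) ^ (-(3 / 2 : ℂ))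

private lemma summable_rhs {a lam : ℕ → ℝ} (h : ThetaPair a lam) {s : ℂ} (hs : 0 < s.re) :
    Summable (fun n => (a n : ℂ) * (s ^ 2 + 4 * π ^ 2 * lam n) ^ (-(3 / 2 : ℂ))) := by
  obtain ⟨M, hM⟩ := term_bound (δ := s.re) (B := ‖s‖ + 1) hs (by positivity)
  have h1 := (h.laplace_sqrt (s := 1) one_pos).2.1
  refine Summable.of_norm_bounded (h1.mul_left M) (fun n => ?_)
  exact hM s le_rfl (by linarith) (a n) (lam n) (h.nonneg n) (h.pos n).le

private lemma diff_rhs {a lam : ℕ → ℝ} (h : ThetaPair a lam) :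
    DifferentiableOn ℂ (rhsF a lam) {z : ℂ | 0 < z.re} := by
  intro s hs
  have hs' : 0 < s.re := hs
  obtain ⟨M, hM⟩ := term_bound (δ := s.re / 2) (B := ‖s‖ + 1) (by positivity) (by positivity)
  have h1 := (h.laplace_sqrt (s := 1) one_pos).2.1
  have h2 := Complex.differentiableOn_tsum_of_summable_norm (U := box s)
    (F := fun n (z : ℂ) => (a n : ℂ) * (z ^ 2 + 4 * π ^ 2 * lam n) ^ (-(3 / 2 : ℂ)))
    (h1.mul_left M) (fun n z hz => by
      have hz' : 0 < z.re := lt_trans (by positivity) hz.1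
      have hsl := slit hz' (b := 4 * π ^ 2 * lam n) (by have := (h.pos n).le; positivity)
      have e1 : (z ^ 2 + 4 * (π : ℂ) ^ 2 * (lam n : ℂ))
          = z ^ 2 + ((4 * π ^ 2 * lam n : ℝ) : ℂ) := by
        push_cast; ring
      rw [← e1] at hsl
      have hd : DifferentiableAt ℂ (fun z : ℂ => z ^ 2 + 4 * (π : ℂ) ^ 2 * (lam n : ℂ)) z := by
        fun_prop
      exact ((hd.cpow_const hsl).const_mul _).differentiableWithinAt)
    (box_open s) (fun n z hz => hM z hz.1.le hz.2.le (a n) (lam n) (h.nonneg n) (h.pos n).le)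
  have h3 := (h2 s (mem_box hs')).differentiableAt ((box_open s).mem_nhds (mem_box hs'))
  exact (h3.const_mul _).differentiableWithinAt

private lemma err_meas {a lam : ℕ → ℝ} (h : ThetaPair a lam) :
    AEStronglyMeasurable (err a lam) (volume.restrict (Ioi 0)) := by
  have h1 := (h.err_laplace (s := 1) one_pos).1.aestronglyMeasurable
  have h2 : AEStronglyMeasurable (fun R : ℝ => Real.exp (1 * R)) (volume.restrict (Ioi 0)) :=
    (by fun_prop : Continuous (fun R : ℝ => Real.exp (1 * R))).aestronglyMeasurable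
  refine (h1.mul h2).congr (Filter.Eventually.of_forall (fun R => ?_))
  simp only [Pi.mul_apply]
  rw [mul_assoc, ← Real.exp_add]
  simp

private lemma integrable_lhs {a lam : ℕ → ℝ} (h : ThetaPair a lam) {s : ℂ} (hs : 0 < s.re) :
    IntegrableOn (fun R : ℝ => ((err a lam R : ℝ) : ℂ) * Complex.exp (-(s * R))) (Ioi 0) := by
  have h1 := (h.err_laplace (s := s.re) hs).1
  refine Integrable.mono' h1.norm ?_ ?_
  · have h2 : AEStronglyMeasurable (fun R : ℝ => ((err a lam R : ℝ) : ℂ))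
        (volume.restrict (Ioi 0)) :=
      Complex.continuous_ofReal.comp_aestronglyMeasurable (err_meas h)
    refine h2.mul ?_
    exact (by fun_prop : Continuous (fun R : ℝ => Complex.exp (-(s * R)))).aestronglyMeasurable
  · refine Filter.Eventually.of_forall (fun R => ?_)
    rw [norm_mul, Complex.norm_exp, Complex.norm_real, norm_mul, Real.norm_eq_abs (Real.exp _),
      Real.abs_exp]
    simp

private lemma diff_lhs {a lam : ℕ → ℝ} (h : ThetaPair a lam) :
    DifferentiableOn ℂ (lhsF a lam) {z : ℂ | 0 < z.re} := by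
  intro s hs
  have hs' : 0 < s.re := hs
  set σ : ℝ := s.re / 4 with hσ
  have hσ0 : 0 < σ := by positivity
  have h1 := (h.err_laplace (s := σ) hσ0).1
  have hEm : AEStronglyMeasurable (fun R : ℝ => ((err a lam R : ℝ) : ℂ))
        (volume.restrict (Ioi 0)) :=
      Complex.continuous_ofReal.comp_aestronglyMeasurable (err_meas h)
  have h2 := hasDerivAt_integral_of_dominated_loc_of_deriv_le (μ := volume.restrict (Ioi (0 : ℝ)))
    (F := fun (z : ℂ) (R : ℝ) => ((err a lam R : ℝ) : ℂ) * Complex.exp (-(z * R)))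
    (F' := fun (z : ℂ) (R : ℝ) => ((err a lam R : ℝ) : ℂ) * (Complex.exp (-(z * R)) * (-(R : ℂ))))
    (x₀ := s) (s := box s) (bound := fun R => 1 / σ * ‖err a lam R * Real.exp (-(σ * R))‖)
    ((box_open s).mem_nhds (mem_box hs'))
    (Filter.Eventually.of_forall (fun z => hEm.mul
      (by fun_prop : Continuous (fun R : ℝ => Complex.exp (-(z * R)))).aestronglyMeasurable))
    (integrable_lhs h hs')
    (hEm.mul (by fun_prop : Continuous (fun R : ℝ => Complex.exp (-(s * R)) *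
      (-(R : ℂ)))).aestronglyMeasurable)
    (by
      refine (ae_restrict_mem measurableSet_Ioi).mono (fun R hR z hz => ?_)
      have hR0 : 0 < R := hR
      have hz1 : s.re / 2 < z.re := hz.1
      rw [norm_mul, norm_mul, Complex.norm_exp, Complex.norm_real, norm_neg, Complex.norm_real,
        norm_mul, Real.norm_eq_abs (Real.exp _), Real.abs_exp, Real.norm_eq_abs R,
        abs_of_pos hR0]
      have e1 : (-(z * (R : ℂ))).re = -(z.re * R) := by simp
      rw [e1]
      have e2 : Real.exp (-(z.re * R)) ≤ Real.exp (-(σ * R)) * Real.exp (-(σ * R)) := by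
        rw [← Real.exp_add]
        apply Real.exp_le_exp.mpr
        nlinarith
      have e3 : Real.exp (-(σ * R)) * R ≤ 1 / σ := by
        have e4 : σ * R ≤ Real.exp (σ * R) := by
          have := Real.add_one_le_exp (σ * R)
          linarith
        rw [Real.exp_neg, inv_mul_eq_div, div_le_div_iff₀ (Real.exp_pos _) hσ0]
        linarith
      have e5 : Real.exp (-(z.re * R)) * R ≤ 1 / σ * Real.exp (-(σ * R)) := by
        calc Real.exp (-(z.re * R)) * R
            ≤ (Real.exp (-(σ * R)) * Real.exp (-(σ * R))) * R :=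
              mul_le_mul_of_nonneg_right e2 hR0.le
          _ = (Real.exp (-(σ * R)) * R) * Real.exp (-(σ * R)) := by ring
          _ ≤ _ := mul_le_mul_of_nonneg_right e3 (Real.exp_pos _).le
      calc ‖err a lam R‖ * (Real.exp (-(z.re * R)) * R)
          ≤ ‖err a lam R‖ * (1 / σ * Real.exp (-(σ * R))) :=
            mul_le_mul_of_nonneg_left e5 (norm_nonneg _)
        _ = _ := by ring)
    (h1.norm.const_mul _)
    (Filter.Eventually.of_forall (fun R z _ => by
      have h3 : HasDerivAt (fun z : ℂ => -(z * (R : ℂ))) (-(1 * (R : ℂ))) z :=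
        ((hasDerivAt_id' z).mul_const (R : ℂ)).fun_neg
      rw [one_mul] at h3
      exact h3.cexp.const_mul _))
  exact h2.2.differentiableAt.differentiableWithinAt

theorem ThetaPair.err_laplace_complex {a lam : ℕ → ℝ} (h : ThetaPair a lam) {s : ℂ}
    (hs : 0 < s.re) :
    IntegrableOn (fun R : ℝ => ((err a lam R : ℝ) : ℂ) * Complex.exp (-(s * R))) (Ioi 0) ∧
      Summable (fun n => (a n : ℂ) * (s ^ 2 + 4 * π ^ 2 * lam n) ^ (-(3 / 2 : ℂ))) ∧
      ∫ R in Ioi (0 : ℝ), ((err a lam R : ℝ) : ℂ) * Complex.exp (-(s * R)) =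
        2 * π * ∑' n, (a n : ℂ) * (s ^ 2 + 4 * π ^ 2 * lam n) ^ (-(3 / 2 : ℂ)) := by
  refine ⟨integrable_lhs h hs, summable_rhs h hs, ?_⟩
  have hopen : IsOpen {z : ℂ | 0 < z.re} := isOpen_lt continuous_const Complex.continuous_re
  have hreal : ∀ t : ℝ, 0 < t → lhsF a lam (t : ℂ) = rhsF a lam (t : ℂ) := by
    intro t ht
    have h1 := (h.err_laplace ht).2
    have h2 : ∫ R in Ioi (0 : ℝ), ((err a lam R : ℝ) : ℂ) * Complex.exp (-((t : ℂ) * R))
        = ((∫ R in Ioi (0 : ℝ), err a lam R * Real.exp (-(t * R)) : ℝ) : ℂ) := by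
      rw [← integral_complex_ofReal]
      congr 1
      ext R
      push_cast
      rfl
    have h3 : ∀ n, (a n : ℂ) * ((t : ℂ) ^ 2 + 4 * π ^ 2 * lam n) ^ (-(3 / 2 : ℂ))
        = ((a n * (t ^ 2 + 4 * π ^ 2 * lam n) ^ (-(3 / 2 : ℝ)) : ℝ) : ℂ) := by
      intro n
      have := (h.pos n).le
      rw [Complex.ofReal_mul, Complex.ofReal_cpow (by positivity)]
      push_cast
      rfl
    unfold lhsF rhsF
    rw [h2, h1]
    simp only [h3]
    rw [← Complex.ofReal_tsum]
    push_cast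
    rfl
  have hfreq : ∃ᶠ z : ℂ in 𝓝[≠] (1 : ℂ), lhsF a lam z = rhsF a lam z := by
    have ht : Tendsto (fun t : ℝ => (t : ℂ)) (𝓝[>] (1 : ℝ)) (𝓝[≠] (1 : ℂ)) := by
      refine tendsto_nhdsWithin_iff.mpr ⟨?_, ?_⟩
      · have : Tendsto (fun t : ℝ => (t : ℂ)) (𝓝 (1 : ℝ)) (𝓝 ((1 : ℝ) : ℂ)) :=
          Complex.continuous_ofReal.continuousAt
        rw [Complex.ofReal_one] at this
        exact this.mono_left nhdsWithin_le_nhds
      · filter_upwards [self_mem_nhdsWithin] with t ht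
        have : (1 : ℝ) < t := ht
        simp only [mem_compl_iff, mem_singleton_iff]
        intro h
        have : t = 1 := by exact_mod_cast h
        linarith
    have hev : ∀ᶠ t : ℝ in 𝓝[>] (1 : ℝ), lhsF a lam (t : ℂ) = rhsF a lam (t : ℂ) := by
      filter_upwards [self_mem_nhdsWithin] with t ht
      exact hreal t (lt_trans one_pos ht)
    exact ht.frequently hev.frequently
  have key := AnalyticOnNhd.eqOn_of_preconnected_of_frequently_eq
    ((diff_lhs h).analyticOnNhd hopen) ((diff_rhs h).analyticOnNhd hopen)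
    (convex_halfSpace_re_gt 0).isPreconnected (z₀ := 1) (by simp) hfreq
  exact key hs

end Pool.Agent.LB
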