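import Pool.Agent.Helper76.LB.KB

set_option autoImplicit false

open Real MeasureTheory Set Filter Topology

namespace Pool.Agent.LB

/-! Block TA: the operator `Tk` on bounded measurable functions. -/

/-- the integrand is jointly measurable (`Jd_continuous`); `StronglyMeasurable.integral_prod_right`. -/
theorem Tk_measurable {ν G : ℝ → ℝ} (hν : Measurable ν) (hG : Measurable G) :
    Measurable (Tk ν G) := by
  have hJ : Measurable (Jd 0) := (Jd_continuous 0).measurable
  have h1 : Measurable (Function.uncurry fun v u : ℝ => G u * (Jd 0 (ν u * v) - Jd 0 (u * v))) := by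
    have e1 : Measurable fun p : ℝ × ℝ => G p.2 := hG.comp measurable_snd
    have e2 : Measurable fun p : ℝ × ℝ => Jd 0 (ν p.2 * p.1) :=
      hJ.comp ((hν.comp measurable_snd).mul measurable_fst)
    have e3 : Measurable fun p : ℝ × ℝ => Jd 0 (p.2 * p.1) :=
      hJ.comp (measurable_snd.mul measurable_fst)
    exact e1.mul (e2.sub e3)
  have h2 : Measurable fun v : ℝ => ∫ u in Ioi (0 : ℝ), G u * (Jd 0 (ν u * v) - Jd 0 (u * v)) :=
    (h1.stronglyMeasurable.integral_prod_right).measurable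
  exact (h2.const_mul π).neg

theorem Tk_abs_le {κ : ℝ} {ν G : ℝ → ℝ} (hκ : 0 < κ) (h : NodeMap κ ν) (hG : Measurable G) {B : ℝ}
    (hB : ∀ u, 0 < u → |G u| ≤ B) {v : ℝ} (hv : 0 < v) : |Tk ν G v| ≤ B * (C0 / √κ) := by
  have hB0 : 0 ≤ B := (abs_nonneg _).trans (hB 1 one_pos)
  have hint := K_int hκ h hv
  have hle := K_le hκ h hv
  have h1 : |∫ u in Ioi (0 : ℝ), G u * (Jd 0 (ν u * v) - Jd 0 (u * v))|
      ≤ ∫ u in Ioi (0 : ℝ), B * |Jd 0 (ν u * v) - Jd 0 (u * v)| := by
    rw [← Real.norm_eq_abs]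
    refine norm_integral_le_of_norm_le (hint.abs.const_mul B) ?_
    refine (ae_restrict_mem measurableSet_Ioi).mono fun u hu => ?_
    rw [norm_mul, Real.norm_eq_abs, Real.norm_eq_abs]
    exact mul_le_mul_of_nonneg_right (hB u hu) (abs_nonneg _)
  rw [integral_const_mul] at h1
  unfold Tk
  rw [abs_neg, abs_mul, abs_of_pos Real.pi_pos]
  calc π * |∫ u in Ioi (0 : ℝ), G u * (Jd 0 (ν u * v) - Jd 0 (u * v))|
      ≤ π * (B * ∫ u in Ioi (0 : ℝ), |Jd 0 (ν u * v) - Jd 0 (u * v)|) :=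
        mul_le_mul_of_nonneg_left h1 Real.pi_pos.le
    _ = B * (π * ∫ u in Ioi (0 : ℝ), |Jd 0 (ν u * v) - Jd 0 (u * v)|) := by ring
    _ ≤ B * (C0 / √κ) := mul_le_mul_of_nonneg_left hle hB0

end Pool.Agent.LB
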