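import Pool.Agent.Helper76.LB.TA

set_option autoImplicit false

open Real MeasureTheory Set Filter Topology

namespace Pool.Agent.LB

/-! Block TB: the key identity. For `u > 0`, `ψ (ν u) - ψ u = -(π ∫ ψ v (Jd 0 (v * ν u) - Jd 0 (v * u)))`
by `Anti`; Fubini (absolute convergence: `∫ |ψ v| K(v) dv < ∞` by `K_int`, `K_le`). -/

theorem key_identity {κ : ℝ} {ν G ψ : ℝ → ℝ} (hκ : 0 < κ) (h : NodeMap κ ν) (hG : Measurable G)
    {B : ℝ} (hB : ∀ u, 0 < u → |G u| ≤ B) (hψ : Anti ψ) :
    IntegrableOn (fun u => G u * ψ (ν u)) (Ioi 0) ∧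
      π * ∫ u in Ioi (0 : ℝ), G u * ψ (ν u) =
        π * (∫ u in Ioi (0 : ℝ), G u * ψ u) + π * ∫ v in Ioi (0 : ℝ), ψ v * Tk ν G v := by
  have hJc : Continuous (Jd 0) := Jd_continuous 0
  have hB0 : 0 ≤ B := (abs_nonneg _).trans (hB 1 one_pos)
  have hψi : IntegrableOn ψ (Ioi 0) := hψ.int
  have hae : ∀ᵐ u ∂(volume.restrict (Ioi (0 : ℝ))), 0 < u := ae_restrict_mem measurableSet_Ioi
  have hν := h.meas
  have hψm : Measurable ψ := hψ.cont.measurable
  set F : ℝ → ℝ → ℝ := fun u v => G u * ψ v * (Jd 0 (ν u * v) - Jd 0 (u * v)) with hF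
  have hFm : Measurable (Function.uncurry F) := by
    have h1 : Measurable (fun p : ℝ × ℝ => Jd 0 (ν p.1 * p.2)) :=
      hJc.measurable.comp ((hν.comp measurable_fst).mul measurable_snd)
    have h2 : Measurable (fun p : ℝ × ℝ => Jd 0 (p.1 * p.2)) :=
      hJc.measurable.comp (measurable_fst.mul measurable_snd)
    exact ((hG.comp measurable_fst).mul (hψm.comp measurable_snd)).mul (h1.sub h2)
  have hGae : ∀ᵐ u ∂(volume.restrict (Ioi (0 : ℝ))), ‖G u‖ ≤ B := by
    filter_upwards [hae] with u hu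
    exact hB u hu
  -- the inner integrals over `u`
  have hFu : ∀ v, 0 < v → Integrable (fun u => F u v) (volume.restrict (Ioi (0 : ℝ))) := by
    intro v hv
    have h1 := K_int hκ h hv
    have h2 : Integrable (fun u => G u * (Jd 0 (ν u * v) - Jd 0 (u * v)))
        (volume.restrict (Ioi (0 : ℝ))) :=
      Integrable.bdd_mul h1 hG.aestronglyMeasurable hGae
    have h3 := h2.const_mul (ψ v)
    refine h3.congr (Eventually.of_forall fun u => ?_)
    simp only [hF]
    ring
  have hFn : ∀ v, 0 < v → ∫ u in Ioi (0 : ℝ), ‖F u v‖ ≤ |ψ v| * (B * (C0 / √κ / π)) := by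
    intro v hv
    have h1 := K_int hκ h hv
    have h2 := K_le hκ h hv
    have h3 : ∫ u in Ioi (0 : ℝ), ‖F u v‖ ≤
        ∫ u in Ioi (0 : ℝ), |ψ v| * B * |Jd 0 (ν u * v) - Jd 0 (u * v)| := by
      refine integral_mono_ae (hFu v hv).norm (h1.norm.const_mul (|ψ v| * B)) ?_
      filter_upwards [hae] with u hu
      simp only [hF]
      rw [Real.norm_eq_abs, abs_mul, abs_mul, mul_comm |G u| |ψ v|]
      exact mul_le_mul_of_nonneg_right
        (mul_le_mul_of_nonneg_left (hB u hu) (abs_nonneg _)) (abs_nonneg _)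
    rw [integral_const_mul] at h3
    refine h3.trans ?_
    rw [mul_assoc]
    refine mul_le_mul_of_nonneg_left (mul_le_mul_of_nonneg_left ?_ hB0) (abs_nonneg _)
    rw [le_div_iff₀ Real.pi_pos, mul_comm]
    exact h2
  have hFi : Integrable (Function.uncurry F)
      ((volume.restrict (Ioi (0 : ℝ))).prod (volume.restrict (Ioi (0 : ℝ)))) := by
    rw [integrable_prod_iff' hFm.aestronglyMeasurable]
    refine ⟨?_, ?_⟩
    · filter_upwards [hae] with v hv
      exact hFu v hv
    · have hg : Integrable (fun v => |ψ v| * (B * (C0 / √κ / π)))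
          (volume.restrict (Ioi (0 : ℝ))) := hψi.norm.mul_const _
      refine hg.mono' ?_ ?_
      · exact hFm.norm.stronglyMeasurable.integral_prod_left'.aestronglyMeasurable
      · filter_upwards [hae] with v hv
        rw [Real.norm_eq_abs, abs_of_nonneg (integral_nonneg fun u => norm_nonneg _)]
        exact hFn v hv
  -- the value of `ψ`
  have hval : ∀ ρ, 0 ≤ ρ → ψ ρ = -(π * ∫ v in Ioi (0 : ℝ), ψ v * Jd 0 (v * ρ)) := by
    intro ρ hρ
    have h1 := hψ.anti ρ hρ
    unfold Hk at h1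
    linarith
  have hJint : ∀ ρ, 0 ≤ ρ → Integrable (fun v => ψ v * Jd 0 (v * ρ))
      (volume.restrict (Ioi (0 : ℝ))) := by
    intro ρ hρ
    refine Integrable.mul_bdd (c := 1) hψi
      (hJc.comp (continuous_id.mul continuous_const)).aestronglyMeasurable ?_
    filter_upwards [hae] with v hv
    exact J_abs_le_one (mul_nonneg hv.le hρ)
  have hdiff : ∀ u, 0 < u → G u * ψ (ν u) = G u * ψ u - π * ∫ v in Ioi (0 : ℝ), F u v := by
    intro u hu
    have hνu : 0 ≤ ν u := hu.le.trans (h.le u hu)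
    have h1 : ∫ v in Ioi (0 : ℝ), F u v =
        G u * ((∫ v in Ioi (0 : ℝ), ψ v * Jd 0 (v * ν u)) -
          ∫ v in Ioi (0 : ℝ), ψ v * Jd 0 (v * u)) := by
      rw [← integral_sub (hJint _ hνu) (hJint _ hu.le), ← integral_const_mul]
      congr 1
      funext v
      simp only [hF]
      rw [mul_comm (ν u) v, mul_comm u v]
      ring
    rw [h1, hval (ν u) hνu, hval u hu.le]
    ring
  have hGψ : Integrable (fun u => G u * ψ u) (volume.restrict (Ioi (0 : ℝ))) :=
    Integrable.bdd_mul hψi hG.aestronglyMeasurable hGae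
  have hFl : Integrable (fun u => ∫ v in Ioi (0 : ℝ), F u v) (volume.restrict (Ioi (0 : ℝ))) :=
    hFi.integral_prod_left
  have hI : Integrable (fun u => G u * ψ u - π * ∫ v in Ioi (0 : ℝ), F u v)
      (volume.restrict (Ioi (0 : ℝ))) := hGψ.sub (hFl.const_mul π)
  have hEq : (fun u => G u * ψ (ν u)) =ᵐ[volume.restrict (Ioi (0 : ℝ))]
      fun u => G u * ψ u - π * ∫ v in Ioi (0 : ℝ), F u v := by
    filter_upwards [hae] with u hu
    exact hdiff u hu
  refine ⟨hI.congr hEq.symm, ?_⟩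
  rw [integral_congr_ae hEq, integral_sub hGψ (hFl.const_mul π), integral_const_mul,
    integral_integral_swap hFi]
  have hT : (fun v => ∫ u in Ioi (0 : ℝ), F u v) =
      fun v => -(1 / π) * (ψ v * Tk ν G v) := by
    funext v
    have h1 : ∫ u in Ioi (0 : ℝ), F u v =
        ψ v * ∫ u in Ioi (0 : ℝ), G u * (Jd 0 (ν u * v) - Jd 0 (u * v)) := by
      rw [← integral_const_mul]
      congr 1
      funext u
      simp only [hF]
      ring
    rw [h1]
    unfold Tk
    generalize (∫ u in Ioi (0 : ℝ), G u * (Jd 0 (ν u * v) - Jd 0 (u * v))) = I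
    have hπ := Real.pi_ne_zero
    field_simp
  rw [hT, integral_const_mul]
  have hπ := Real.pi_ne_zero
  field_simp
  ring

end Pool.Agent.LB
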