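import Pool.Agent.Helper76.LB.JE

set_option autoImplicit false

open Real MeasureTheory Set Filter Topology

namespace Pool.Agent.LB

/-! Block WA: Hankel transform of the pair `gp x y`. -/

private theorem h80_gp_ind (x y : ℝ) (f : ℝ → ℝ) (v : ℝ) : gp x y v * f v =
    indicator (Ioc (x - y) x) f v - indicator (Ioc x (x + y)) f v := by
  unfold gp
  by_cases h1 : v ∈ Ioc (x - y) x
  · have h2 : v ∉ Ioc x (x + y) := fun h => by
      have := h1.2
      have := h.1
      linarith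
    have h1' : x - y < v ∧ v ≤ x := h1
    have h2' : ¬ (x < v ∧ v ≤ x + y) := h2
    rw [indicator_of_mem h1, indicator_of_notMem h2, if_pos h1', if_neg h2']
    ring
  · by_cases h2 : v ∈ Ioc x (x + y)
    · have h1' : ¬ (x - y < v ∧ v ≤ x) := h1
      have h2' : x < v ∧ v ≤ x + y := h2
      rw [indicator_of_notMem h1, indicator_of_mem h2, if_neg h1', if_pos h2']
      ring
    · have h1' : ¬ (x - y < v ∧ v ≤ x) := h1
      have h2' : ¬ (x < v ∧ v ≤ x + y) := h2
      rw [indicator_of_notMem h1, indicator_of_notMem h2, if_neg h1', if_neg h2']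
      ring

private theorem h80_gp_eq (x y : ℝ) : gp x y =
    fun v => indicator (Ioc (x - y) x) (fun _ => (1 : ℝ)) v
      - indicator (Ioc x (x + y)) (fun _ => (1 : ℝ)) v := by
  funext v
  rw [← h80_gp_ind x y (fun _ => 1) v, mul_one]

theorem gp_measurable (x y : ℝ) : Measurable (gp x y) := by
  rw [h80_gp_eq]
  exact (measurable_const.indicator measurableSet_Ioc).sub
    (measurable_const.indicator measurableSet_Ioc)

private theorem h80_le {x y : ℝ} (hx : 8 ≤ x) (hyx : y ≤ x ^ (1 / 3 : ℝ)) : y ≤ x / 4 := by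
  refine hyx.trans ?_
  have h0 : 0 < x := by linarith
  have h1 : (4 : ℝ) ≤ x ^ (2 / 3 : ℝ) := by
    have h2 : (8 : ℝ) ^ (2 / 3 : ℝ) = 4 := by
      rw [show (8 : ℝ) = 2 ^ (3 : ℝ) by norm_num, ← Real.rpow_mul (by norm_num)]
      norm_num
    rw [← h2]
    exact Real.rpow_le_rpow (by norm_num) hx (by norm_num)
  have h3 : x ^ (1 / 3 : ℝ) * x ^ (2 / 3 : ℝ) = x := by
    rw [← Real.rpow_add h0]
    norm_num
  have h4 : 0 < x ^ (1 / 3 : ℝ) := Real.rpow_pos_of_pos h0 _
  rw [le_div_iff₀ (by norm_num)]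
  calc x ^ (1 / 3 : ℝ) * 4 ≤ x ^ (1 / 3 : ℝ) * x ^ (2 / 3 : ℝ) :=
        mul_le_mul_of_nonneg_left h1 h4.le
    _ = x := h3

private theorem h80_swap {f : ℝ → ℝ → ℝ} (hf : Continuous (Function.uncurry f)) {a b c d : ℝ}
    (hab : a ≤ b) (hcd : c ≤ d) :
    ∫ u in a..b, ∫ s in c..d, f u s = ∫ s in c..d, ∫ u in a..b, f u s := by
  simp only [intervalIntegral.integral_of_le hab, intervalIntegral.integral_of_le hcd]
  refine integral_integral_swap ?_
  rw [Measure.prod_restrict]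
  exact (hf.continuousOn.integrableOn_compact (isCompact_Icc.prod isCompact_Icc)).mono_set
    (Set.prod_mono Ioc_subset_Icc_self Ioc_subset_Icc_self)

private theorem h80_rpow_half {x v p : ℝ} (hx : 0 < x) (hv : x / 2 ≤ v) (hp : 0 ≤ p)
    (hp1 : p ≤ 1) : v ^ (-p) ≤ 2 * x ^ (-p) := by
  have h1 : v ^ (-p) ≤ (x / 2) ^ (-p) :=
    Real.rpow_le_rpow_of_nonpos (by positivity) hv (by linarith)
  refine h1.trans ?_
  rw [Real.div_rpow hx.le (by norm_num), Real.rpow_neg (by norm_num : (0 : ℝ) ≤ 2) p, div_inv_eq_mul,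
    mul_comm]
  refine mul_le_mul_of_nonneg_right ?_ (Real.rpow_nonneg hx.le _)
  calc (2 : ℝ) ^ p ≤ (2 : ℝ) ^ (1 : ℝ) := Real.rpow_le_rpow_of_exponent_le (by norm_num) hp1
    _ = 2 := Real.rpow_one 2

private theorem h80_mv {a b B : ℝ} (ha : 0 < a) (hab : a ≤ b)
    (hB : ∀ z, a ≤ z → |Jd 1 z| ≤ B) : |Jd 0 a - Jd 0 b| ≤ B * (b - a) := by
  have h := Convex.norm_image_sub_le_of_norm_hasDerivWithin_le (f := Jd 0) (f' := Jd 1)
    (s := Icc a b) (C := B) (x := b) (y := a)
    (fun z _ => by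
      have := Jd_hasDerivAt 0 z
      rw [zero_add] at this
      exact this.hasDerivWithinAt) (fun z hz => hB z hz.1) (convex_Icc a b)
    (right_mem_Icc.2 hab) (left_mem_Icc.2 hab)
  rw [Real.norm_eq_abs, Real.norm_eq_abs, abs_sub_comm a b, abs_of_nonneg (by linarith : 0 ≤ b - a)]
    at h
  exact h

theorem Hk_gp_eq {x y u : ℝ} (hx : 8 ≤ x) (hy : 0 ≤ y) (hyx : y ≤ x ^ (1 / 3 : ℝ)) (hu : 0 ≤ u) :
    Hk (gp x y) u = π * ∫ s in (0 : ℝ)..y, (Jd 0 ((x - s) * u) - Jd 0 ((x + s) * u)) := by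
  have h4 := h80_le hx hyx
  have hc : Continuous fun v : ℝ => Jd 0 (v * u) :=
    (Jd_continuous 0).comp (continuous_id.mul continuous_const)
  unfold Hk
  congr 1
  simp only [h80_gp_ind x y (fun v => Jd 0 (v * u))]
  have hI : ∀ a b : ℝ, IntegrableOn (indicator (Ioc a b) fun v => Jd 0 (v * u)) (Ioi 0) := by
    intro a b
    have h1 : IntegrableOn (fun v => Jd 0 (v * u)) (Ioc a b) volume :=
      hc.integrableOn_Icc.mono_set Ioc_subset_Icc_self
    exact ((integrable_indicator_iff measurableSet_Ioc).2 h1).integrableOn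
  rw [integral_sub (hI _ _) (hI _ _), setIntegral_indicator measurableSet_Ioc,
    setIntegral_indicator measurableSet_Ioc]
  have e1 : Ioi (0 : ℝ) ∩ Ioc (x - y) x = Ioc (x - y) x :=
    inter_eq_right.2 fun v hv => lt_of_le_of_lt (by linarith) hv.1
  have e2 : Ioi (0 : ℝ) ∩ Ioc x (x + y) = Ioc x (x + y) :=
    inter_eq_right.2 fun v hv => lt_of_le_of_lt (by linarith) hv.1
  rw [e1, e2, ← intervalIntegral.integral_of_le (by linarith),
    ← intervalIntegral.integral_of_le (by linarith), intervalIntegral.integral_sub]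
  · congr 1
    · have := intervalIntegral.integral_comp_sub_left (a := 0) (b := y)
        (fun v => Jd 0 (v * u)) x
      rw [sub_zero] at this
      exact this.symm
    · have := intervalIntegral.integral_comp_add_left (a := 0) (b := y)
        (fun v => Jd 0 (v * u)) x
      rw [add_zero] at this
      exact this.symm
  · exact (hc.comp (continuous_const.sub continuous_id)).intervalIntegrable _ _
  · exact (hc.comp (continuous_const.add continuous_id)).intervalIntegrable _ _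

/-- `y ≤ x^{1/3} ≤ x/4` for `x ≥ 8`; `J0_decay`, and the mean value theorem with `J1_decay`. -/
theorem Hk_gp_bound : ∃ C : ℝ, 0 < C ∧ ∀ x y : ℝ, 8 ≤ x → 0 ≤ y → y ≤ x ^ (1 / 3 : ℝ) →
    ∀ u : ℝ, 0 < u → |Hk (gp x y) u| ≤
      C * min (x ^ (1 / 12 : ℝ) * u ^ (-(1 / 4 : ℝ))) (x ^ (-(1 / 12 : ℝ)) * u ^ (1 / 4 : ℝ)) := by
  refine ⟨π * (4 * Cb), by have := Cb_pos; positivity, fun x y hx hy hyx u hu => ?_⟩
  have hCb := Cb_pos
  have h4 := h80_le hx hyx
  have hx0 : 0 < x := by linarith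
  have hu2 : 0 < x * u := by positivity
  rw [Hk_gp_eq hx hy hyx hu.le, abs_mul, abs_of_pos Real.pi_pos, mul_assoc]
  refine mul_le_mul_of_nonneg_left ?_ Real.pi_pos.le
  have hb1 : ∀ s ∈ uIoc (0 : ℝ) y, ‖Jd 0 ((x - s) * u) - Jd 0 ((x + s) * u)‖
      ≤ 4 * Cb * (x * u) ^ (-(1 / 4 : ℝ)) := by
    intro s hs
    rw [uIoc_of_le hy] at hs
    have h5 : x * u / 2 ≤ (x - s) * u := by
      have : x / 2 ≤ x - s := by linarith [hs.2]
      nlinarith
    have h6 : x * u / 2 ≤ (x + s) * u := by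
      have : x / 2 ≤ x + s := by linarith [hs.1]
      nlinarith
    have h7 := J0_decay (z := (x - s) * u) (by linarith)
    have h8 := J0_decay (z := (x + s) * u) (by linarith)
    have h9 := h80_rpow_half hu2 h5 (p := 1 / 4) (by norm_num) (by norm_num)
    have h10 := h80_rpow_half hu2 h6 (p := 1 / 4) (by norm_num) (by norm_num)
    rw [Real.norm_eq_abs]
    have h11 := abs_sub (Jd 0 ((x - s) * u)) (Jd 0 ((x + s) * u))
    have h12 := mul_le_mul_of_nonneg_left h9 hCb.le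
    have h13 := mul_le_mul_of_nonneg_left h10 hCb.le
    linarith
  have hb2 : ∀ s ∈ uIoc (0 : ℝ) y, ‖Jd 0 ((x - s) * u) - Jd 0 ((x + s) * u)‖
      ≤ 4 * Cb * (x * u) ^ (-(3 / 4 : ℝ)) * (y * u) := by
    intro s hs
    rw [uIoc_of_le hy] at hs
    have h5 : x * u / 2 ≤ (x - s) * u := by
      have : x / 2 ≤ x - s := by linarith [hs.2]
      nlinarith
    have h6 : (x - s) * u ≤ (x + s) * u := by
      have := hs.1
      nlinarith
    have h7 := h80_mv (a := (x - s) * u) (b := (x + s) * u)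
      (B := Cb * (2 * (x * u) ^ (-(3 / 4 : ℝ)))) (by linarith) h6 (fun z hz => by
        have h9 := h80_rpow_half hu2 (h5.trans hz) (p := 3 / 4) (by norm_num) (by norm_num)
        exact (J1_decay (by linarith)).trans (mul_le_mul_of_nonneg_left h9 hCb.le))
    rw [Real.norm_eq_abs]
    refine h7.trans ?_
    have h8 : (x + s) * u - (x - s) * u = 2 * (s * u) := by ring
    rw [h8]
    have h9 : s * u ≤ y * u := mul_le_mul_of_nonneg_right hs.2 hu.le
    have h10 : 0 < (x * u) ^ (-(3 / 4 : ℝ)) := Real.rpow_pos_of_pos hu2 _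
    have h11 : 0 ≤ 4 * Cb * (x * u) ^ (-(3 / 4 : ℝ)) := by positivity
    have h12 := mul_le_mul_of_nonneg_left h9 h11
    linarith
  have hi1 := intervalIntegral.norm_integral_le_of_norm_le_const hb1
  have hi2 := intervalIntegral.norm_integral_le_of_norm_le_const hb2
  rw [sub_zero, abs_of_nonneg hy, Real.norm_eq_abs] at hi1 hi2
  have hxp : 0 < x ^ (1 / 3 : ℝ) := Real.rpow_pos_of_pos hx0 _
  rw [mul_min_of_nonneg _ _ (by positivity : (0 : ℝ) ≤ 4 * Cb)]
  refine le_min (hi1.trans ?_) (hi2.trans ?_)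
  · have e1 : x ^ (1 / 12 : ℝ) = x ^ (-(1 / 4 : ℝ)) * x ^ (1 / 3 : ℝ) := by
      rw [← Real.rpow_add hx0]; norm_num
    rw [Real.mul_rpow hx0.le hu.le, e1]
    have h5 : 0 < x ^ (-(1 / 4 : ℝ)) := Real.rpow_pos_of_pos hx0 _
    have h6 : 0 < u ^ (-(1 / 4 : ℝ)) := Real.rpow_pos_of_pos hu _
    calc 4 * Cb * (x ^ (-(1 / 4 : ℝ)) * u ^ (-(1 / 4 : ℝ))) * y
        ≤ 4 * Cb * (x ^ (-(1 / 4 : ℝ)) * u ^ (-(1 / 4 : ℝ))) * x ^ (1 / 3 : ℝ) :=
          mul_le_mul_of_nonneg_left hyx (by positivity)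
      _ = _ := by ring
  · have e1 : x ^ (-(1 / 12 : ℝ)) = x ^ (-(3 / 4 : ℝ)) * (x ^ (1 / 3 : ℝ) * x ^ (1 / 3 : ℝ)) := by
      rw [← Real.rpow_add hx0, ← Real.rpow_add hx0]; norm_num
    have e2 : u ^ (1 / 4 : ℝ) = u ^ (-(3 / 4 : ℝ)) * u := by
      conv_rhs => rw [← Real.rpow_one u, ← Real.rpow_mul hu.le, one_mul]
      rw [← Real.rpow_add hu]; norm_num
    rw [Real.mul_rpow hx0.le hu.le, e1, e2]
    have h5 : 0 < x ^ (-(3 / 4 : ℝ)) := Real.rpow_pos_of_pos hx0 _
    have h6 : 0 < u ^ (-(3 / 4 : ℝ)) := Real.rpow_pos_of_pos hu _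
    have h7 : y * y ≤ x ^ (1 / 3 : ℝ) * x ^ (1 / 3 : ℝ) := mul_le_mul hyx hyx hy hxp.le
    have h8 : 0 ≤ 4 * Cb * (x ^ (-(3 / 4 : ℝ)) * u ^ (-(3 / 4 : ℝ))) * u := by positivity
    have h9 := mul_le_mul_of_nonneg_left h7 h8
    calc _ = 4 * Cb * (x ^ (-(3 / 4 : ℝ)) * u ^ (-(3 / 4 : ℝ))) * u * (y * y) := by ring
      _ ≤ _ := h9
      _ = _ := by ring

/-- `π ∫_0^z H g = π ∫ g(v) D(z,v) dv`, `Dk_abs_le`. -/
theorem int_Hk_gp : ∃ C : ℝ, 0 < C ∧ ∀ x y : ℝ, 8 ≤ x → 0 ≤ y → y ≤ x ^ (1 / 3 : ℝ) →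
    ∀ z : ℝ, 0 < z → |π * ∫ u in (0 : ℝ)..z, Hk (gp x y) u| ≤
      C * (y * z ^ (1 / 4 : ℝ) * x ^ (-(3 / 4 : ℝ))) := by
  refine ⟨4 * Cb, by have := Cb_pos; positivity, fun x y hx hy hyx z hz => ?_⟩
  have hCb := Cb_pos
  have h4 := h80_le hx hyx
  have hx0 : 0 < x := by linarith
  have hJ := Jd_continuous 0
  have e1 : ∫ u in (0 : ℝ)..z, Hk (gp x y) u
      = ∫ u in (0 : ℝ)..z, π * ∫ s in (0 : ℝ)..y, (Jd 0 ((x - s) * u) - Jd 0 ((x + s) * u)) := by
    refine intervalIntegral.integral_congr fun u hu => ?_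
    rw [uIcc_of_le hz.le] at hu
    exact Hk_gp_eq hx hy hyx hu.1
  have e2 : ∫ u in (0 : ℝ)..z, ∫ s in (0 : ℝ)..y, (Jd 0 ((x - s) * u) - Jd 0 ((x + s) * u))
      = ∫ s in (0 : ℝ)..y, ∫ u in (0 : ℝ)..z, (Jd 0 ((x - s) * u) - Jd 0 ((x + s) * u)) := by
    refine h80_swap (f := fun u s => Jd 0 ((x - s) * u) - Jd 0 ((x + s) * u)) ?_ hz.le hy
    exact (hJ.comp ((continuous_const.sub continuous_snd).mul continuous_fst)).sub
      (hJ.comp ((continuous_const.add continuous_snd).mul continuous_fst))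
  have e3 : ∀ s : ℝ, π * ∫ u in (0 : ℝ)..z, (Jd 0 ((x - s) * u) - Jd 0 ((x + s) * u))
      = Dk z (x - s) - Dk z (x + s) := by
    intro s
    rw [← integral_J hz.le, ← integral_J hz.le, ← mul_sub, ← intervalIntegral.integral_sub]
    · simp only [mul_comm (x - s), mul_comm (x + s)]
    · exact (hJ.comp (continuous_id.mul continuous_const)).intervalIntegrable _ _
    · exact (hJ.comp (continuous_id.mul continuous_const)).intervalIntegrable _ _
  rw [e1, intervalIntegral.integral_const_mul, e2, ← intervalIntegral.integral_const_mul π]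
  simp only [e3]
  rw [abs_mul, abs_of_pos Real.pi_pos]
  have hb : ∀ s ∈ uIoc (0 : ℝ) y, ‖Dk z (x - s) - Dk z (x + s)‖
      ≤ 4 * (Cb / π * (z ^ (1 / 4 : ℝ) * x ^ (-(3 / 4 : ℝ)))) := by
    intro s hs
    rw [uIoc_of_le hy] at hs
    have h5 : x / 2 ≤ x - s := by linarith [hs.2]
    have h6 : x / 2 ≤ x + s := by linarith [hs.1]
    have h7 := Dk_abs_le hz (v := x - s) (by linarith)
    have h8 := Dk_abs_le hz (v := x + s) (by linarith)
    have h9 := h80_rpow_half hx0 h5 (p := 3 / 4) (by norm_num) (by norm_num)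
    have h10 := h80_rpow_half hx0 h6 (p := 3 / 4) (by norm_num) (by norm_num)
    rw [Real.norm_eq_abs]
    have h11 := abs_sub (Dk z (x - s)) (Dk z (x + s))
    have hpos : 0 ≤ Cb / π * z ^ (1 / 4 : ℝ) := by
      have := Real.pi_pos
      have := Real.rpow_nonneg hz.le (1 / 4 : ℝ)
      positivity
    have h12 := mul_le_mul_of_nonneg_left h9 hpos
    have h13 := mul_le_mul_of_nonneg_left h10 hpos
    linarith
  have hi := intervalIntegral.norm_integral_le_of_norm_le_const hb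
  rw [sub_zero, abs_of_nonneg hy, Real.norm_eq_abs] at hi
  refine (mul_le_mul_of_nonneg_left hi Real.pi_pos.le).trans (le_of_eq ?_)
  have := Real.pi_pos.ne'
  field_simp

/-- the integral of the pair itself -/
theorem int_gp {x y : ℝ} (hx : 8 ≤ x) (hy : 0 ≤ y) (hyx : y ≤ x ^ (1 / 3 : ℝ)) :
    (∀ z, 0 < z → 0 ≤ ∫ u in (0 : ℝ)..z, gp x y u ∧ ∫ u in (0 : ℝ)..z, gp x y u ≤ y) ∧
      (∀ z, 0 < z → (z ≤ x - y ∨ x + y ≤ z) → ∫ u in (0 : ℝ)..z, gp x y u = 0) ∧
      ∫ u in (0 : ℝ)..x, gp x y u = y := by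
  have h4 := h80_le hx hyx
  have hind : ∀ a b z : ℝ, 0 ≤ a → a ≤ b → 0 < z →
      ∫ u in (0 : ℝ)..z, indicator (Ioc a b) (fun _ => (1 : ℝ)) u = min z b - min z a := by
    intro a b z ha hab hz
    rw [intervalIntegral.integral_of_le hz.le, setIntegral_indicator measurableSet_Ioc,
      Ioc_inter_Ioc, integral_const, smul_eq_mul, mul_one, measureReal_restrict_apply_univ,
      sup_eq_right.2 ha, Real.volume_real_Ioc]
    rcases le_total z a with h | h
    · rw [inf_eq_left.2 (h.trans hab), min_eq_left h, max_eq_right (by linarith)]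
      ring
    · rw [min_eq_right h, max_eq_left]
      exact sub_nonneg.2 (le_inf h hab)
  have hii : ∀ a b z : ℝ, IntervalIntegrable (indicator (Ioc a b) (fun _ => (1 : ℝ)))
      volume 0 z := by
    intro a b z
    rw [intervalIntegrable_iff]
    have h1 : IntegrableOn (fun _ : ℝ => (1 : ℝ)) (Ioc a b) volume :=
      continuous_const.integrableOn_Icc.mono_set Ioc_subset_Icc_self
    exact ((integrable_indicator_iff measurableSet_Ioc).2 h1).integrableOn
  have key : ∀ z : ℝ, 0 < z → ∫ u in (0 : ℝ)..z, gp x y u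
      = (min z x - min z (x - y)) - (min z (x + y) - min z x) := by
    intro z hz
    rw [h80_gp_eq, intervalIntegral.integral_sub (hii _ _ _) (hii _ _ _),
      hind _ _ _ (by linarith) (by linarith) hz, hind _ _ _ (by linarith) (by linarith) hz]
  refine ⟨fun z hz => ?_, fun z hz hz' => ?_, ?_⟩
  · rw [key z hz]
    rcases le_total z (x - y) with h1 | h1
    · rw [min_eq_left h1, min_eq_left (by linarith : z ≤ x), min_eq_left (by linarith : z ≤ x + y)]
      constructor <;> linarith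
    · rcases le_total z x with h2 | h2
      · rw [min_eq_right h1, min_eq_left h2, min_eq_left (by linarith : z ≤ x + y)]
        constructor <;> linarith
      · rcases le_total z (x + y) with h3 | h3
        · rw [min_eq_right h1, min_eq_right h2, min_eq_left h3]
          constructor <;> linarith
        · rw [min_eq_right h1, min_eq_right h2, min_eq_right h3]
          constructor <;> linarith
  · rw [key z hz]
    rcases hz' with h1 | h1
    · rw [min_eq_left h1, min_eq_left (by linarith : z ≤ x), min_eq_left (by linarith : z ≤ x + y)]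
      ring
    · rw [min_eq_right h1, min_eq_right (by linarith : x ≤ z),
        min_eq_right (by linarith : x - y ≤ z)]
      ring
  · rw [key x (by linarith), min_self, min_eq_right (by linarith : x - y ≤ x),
      min_eq_left (by linarith : x ≤ x + y)]
    ring

end Pool.Agent.LB
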